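import Pool.Agent.N826.EM.Stm

/-!
Project EM, task APX (helper966): an additive function agrees with the strongly additive function
of its truncated values at most integers.
-/

set_option autoImplicit false

namespace Pool.Agent.N826.EM

open Finset Filter Topology

namespace APX_

theorem G_one {G : ℕ → ℝ} (hG : Addf G) : G 1 = 0 := by
  have h := hG 1 1 le_rfl le_rfl (Nat.coprime_one_right 1)
  rw [mul_one] at h
  linarith

/-- an additive function is the sum of its values at the prime powers exactly dividing `n` -/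
theorem G_eq {G : ℕ → ℝ} (hG : Addf G) {n : ℕ} (hn : n ≠ 0) :
    G n = ∑ p ∈ n.primeFactors, G (p ^ n.factorization p) := by
  have h1 := G_one hG
  have h := Nat.multiplicative_factorization
    (f := fun n : ℕ => (Multiplicative.ofAdd (G n) : Multiplicative ℝ)) ?_ ?_ hn
  · have h2 := congrArg Multiplicative.toAdd h
    rw [Finsupp.prod, toAdd_prod] at h2
    simpa using h2
  · intro x y hxy
    change Multiplicative.ofAdd (G (x * y)) = Multiplicative.ofAdd (G x) * Multiplicative.ofAdd (G y)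
    rw [← ofAdd_add]
    congr 1
    rcases Nat.eq_zero_or_pos x with rfl | hx
    · have hy : y = 1 := by simpa using hxy
      rw [hy, h1]
      simp
    rcases Nat.eq_zero_or_pos y with rfl | hy
    · have hx : x = 1 := by simpa using hxy
      rw [hx, h1]
      simp
    exact hG x y hx hy hxy
  · change Multiplicative.ofAdd (G 1) = 1
    rw [h1]
    rfl

/-- the divisor attached to `m`: `m ^ 2` if this exceeds `K`, else the least power exceeding `K` -/
def D (K m : ℕ) : ℕ := if K < m ^ 2 then m ^ 2 else m ^ (Nat.log m K + 1)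

theorem card_mult (N d : ℕ) :
    ((((Icc 1 N).filter (fun n => d ∣ n)).card : ℕ) : ℝ) ≤ (N : ℝ) / d := by
  have e : (Icc 1 N).filter (fun n => d ∣ n) = (Ioc 0 N).filter (fun n => d ∣ n) := by
    ext n
    simp only [mem_filter, mem_Icc, mem_Ioc]
    omega
  rw [e, Nat.Ioc_filter_dvd_card_eq_div]
  exact Nat.cast_div_le

/-- the estimate off the exceptional set -/
theorem good {G : ℕ → ℝ} {N K : ℕ} {τ : ℝ} (hG : Addf G) (hK : 1 ≤ K) (hS : Sm G K τ) {n : ℕ}
    (hn : n ∈ Icc 1 N) (h1 : ∀ p ∈ (Pr N).filter (fun p => 1 < |G p|), ¬ p ∣ n)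
    (h2 : ∀ m ∈ Icc 2 N, ¬ D K m ∣ n) : |G n - sa (wt G) n| ≤ 2 * K * τ := by
  rw [mem_Icc] at hn
  have hn0 : n ≠ 0 := by omega
  have hτ : 0 ≤ τ := (abs_nonneg _).trans (hS 1 le_rfl hK)
  rw [G_eq hG hn0, sa, ← sum_sub_distrib]
  have hpp : ∀ p ∈ n.primeFactors, p ∈ Icc 2 N := by
    intro p hp
    have := Nat.mem_primeFactors.1 hp
    rw [mem_Icc]
    exact ⟨this.1.two_le, (Nat.le_of_dvd (by omega) this.2.1).trans hn.2⟩
  have hwt : ∀ p ∈ n.primeFactors, wt G p = G p := by
    intro p hp
    have hp' := Nat.mem_primeFactors.1 hp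
    rw [wt, if_pos]
    by_contra hc
    rw [not_le] at hc
    refine h1 p ?_ hp'.2.1
    simp only [mem_filter, mem_Icc]
    exact ⟨⟨⟨hp'.1.one_lt.le, (mem_Icc.1 (hpp p hp)).2⟩, hp'.1⟩, hc⟩
  -- the exponent and the bound
  have hpow : ∀ p ∈ n.primeFactors, 2 ≤ n.factorization p →
      p ^ n.factorization p ≤ K ∧ p ≤ K := by
    intro p hp hk
    have hp' := Nat.mem_primeFactors.1 hp
    have hdiv : p ^ n.factorization p ∣ n := Nat.ordProj_dvd n p
    have hD := h2 p (hpp p hp)
    have key : p ^ n.factorization p ≤ K := by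
      by_contra hc
      rw [not_le] at hc
      apply hD
      unfold D
      split_ifs with hs
      · exact (pow_dvd_pow p hk).trans hdiv
      · refine (pow_dvd_pow p ?_).trans hdiv
        have : Nat.log p K < n.factorization p :=
          Nat.log_lt_of_lt_pow (by omega) hc
        omega
    refine ⟨key, le_trans ?_ key⟩
    calc p = p ^ 1 := (pow_one p).symm
      _ ≤ p ^ n.factorization p := Nat.pow_le_pow_right hp'.1.pos (by omega)
  set T := n.primeFactors.filter (fun p => 2 ≤ n.factorization p) with hT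
  have hsum : ∑ p ∈ n.primeFactors, (G (p ^ n.factorization p) - wt G p)
      = ∑ p ∈ T, (G (p ^ n.factorization p) - wt G p) := by
    rw [hT, sum_filter]
    refine sum_congr rfl fun p hp => ?_
    split_ifs with h
    · rfl
    · have hp' := Nat.mem_primeFactors.1 hp
      have h3 : 0 < n.factorization p := hp'.1.factorization_pos_of_dvd hn0 hp'.2.1
      have h4 : n.factorization p = 1 := by omega
      rw [h4, pow_one, hwt p hp, sub_self]
  rw [hsum]
  have hTK : T ⊆ Icc 1 K := by
    intro p hp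
    rw [hT, mem_filter] at hp
    rw [mem_Icc]
    exact ⟨(Nat.mem_primeFactors.1 hp.1).1.one_lt.le, (hpow p hp.1 hp.2).2⟩
  have hcard : (T.card : ℝ) ≤ K := by
    have := card_le_card hTK
    rw [Nat.card_Icc] at this
    exact_mod_cast (by omega : T.card ≤ K)
  calc |∑ p ∈ T, (G (p ^ n.factorization p) - wt G p)|
      ≤ ∑ p ∈ T, |G (p ^ n.factorization p) - wt G p| := abs_sum_le_sum_abs _ _
    _ ≤ ∑ _p ∈ T, 2 * τ := by
        refine sum_le_sum fun p hp => ?_
        rw [hT, mem_filter] at hp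
        have hp' := Nat.mem_primeFactors.1 hp.1
        obtain ⟨h5, h6⟩ := hpow p hp.1 hp.2
        rw [hwt p hp.1]
        have h7 := hS _ (Nat.pos_of_ne_zero (pow_ne_zero _ hp'.1.ne_zero)) h5
        have h8 := hS p hp'.1.one_lt.le h6
        calc _ ≤ |G (p ^ n.factorization p)| + |G p| := abs_sub _ _
          _ ≤ 2 * τ := by linarith
    _ = T.card * (2 * τ) := by rw [sum_const, nsmul_eq_mul]
    _ ≤ K * (2 * τ) := mul_le_mul_of_nonneg_right hcard (by positivity)
    _ = 2 * K * τ := by ring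

/-- the sum of the reciprocals of the attached divisors -/
theorem sum_D (N K : ℕ) (hK : 1 ≤ K) :
    ∑ m ∈ Icc 2 N, (1 : ℝ) / (D K m : ℕ) ≤ 3 / Real.sqrt K := by
  have hK0 : (0 : ℝ) < K := by exact_mod_cast hK
  have hs0 : 0 < Real.sqrt K := Real.sqrt_pos.2 hK0
  rw [← sum_filter_add_sum_filter_not (Icc 2 N) (fun m => K < m ^ 2)]
  have h1 : ∑ m ∈ (Icc 2 N).filter (fun m => K < m ^ 2), (1 : ℝ) / (D K m : ℕ)
      ≤ 2 / Real.sqrt K := by
    calc ∑ m ∈ (Icc 2 N).filter (fun m => K < m ^ 2), (1 : ℝ) / (D K m : ℕ)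
        = ∑ m ∈ (Icc 2 N).filter (fun m => K < m ^ 2), ((m : ℝ) ^ 2)⁻¹ := by
          refine sum_congr rfl fun m hm => ?_
          rw [mem_filter] at hm
          rw [D, if_pos hm.2]
          push_cast
          rw [one_div]
      _ ≤ ∑ m ∈ Ioo (Nat.sqrt K) (N + 1), ((m : ℝ) ^ 2)⁻¹ := by
          refine sum_le_sum_of_subset_of_nonneg ?_ (fun _ _ _ => by positivity)
          intro m hm
          simp only [mem_filter, mem_Icc, mem_Ioo] at hm ⊢
          exact ⟨Nat.sqrt_lt'.2 hm.2, by omega⟩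
      _ ≤ 2 / ((Nat.sqrt K : ℕ) + 1) := sum_Ioo_inv_sq_le _ _
      _ ≤ 2 / Real.sqrt K := by
          refine div_le_div_of_nonneg_left (by norm_num) hs0 ?_
          refine Real.sqrt_le_iff.2 ⟨by positivity, ?_⟩
          have := Nat.lt_succ_sqrt' K
          have h : (K : ℝ) < ((Nat.sqrt K + 1 : ℕ) : ℝ) ^ 2 := by exact_mod_cast this
          push_cast at h
          exact h.le
  have h2 : ∑ m ∈ (Icc 2 N).filter (fun m => ¬ K < m ^ 2), (1 : ℝ) / (D K m : ℕ)
      ≤ 1 / Real.sqrt K := by
    calc ∑ m ∈ (Icc 2 N).filter (fun m => ¬ K < m ^ 2), (1 : ℝ) / (D K m : ℕ)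
        ≤ ∑ _m ∈ (Icc 2 N).filter (fun m => ¬ K < m ^ 2), (1 : ℝ) / K := by
          refine sum_le_sum fun m hm => ?_
          rw [mem_filter, mem_Icc] at hm
          rw [D, if_neg hm.2]
          refine div_le_div_of_nonneg_left zero_le_one hK0 ?_
          exact_mod_cast (Nat.lt_pow_succ_log_self (by omega) K).le
      _ = ((Icc 2 N).filter (fun m => ¬ K < m ^ 2)).card * ((1 : ℝ) / K) := by
          rw [sum_const, nsmul_eq_mul]
      _ ≤ Real.sqrt K * (1 / K) := by
          refine mul_le_mul_of_nonneg_right ?_ (by positivity)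
          have hsub : (Icc 2 N).filter (fun m => ¬ K < m ^ 2) ⊆ Icc 1 (Nat.sqrt K) := by
            intro m hm
            simp only [mem_filter, mem_Icc, not_lt] at hm ⊢
            exact ⟨by omega, Nat.le_sqrt'.2 hm.2⟩
          have := card_le_card hsub
          rw [Nat.card_Icc, Nat.add_sub_cancel] at this
          calc ((((Icc 2 N).filter (fun m => ¬ K < m ^ 2)).card : ℕ) : ℝ) ≤ (Nat.sqrt K : ℕ) := by
                exact_mod_cast this
            _ ≤ Real.sqrt K := Real.nat_sqrt_le_real_sqrt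
      _ = 1 / Real.sqrt K := by
          rw [mul_one_div, Real.sqrt_div_self, one_div]
  calc _ ≤ 2 / Real.sqrt K + 1 / Real.sqrt K := add_le_add h1 h2
    _ = 3 / Real.sqrt K := by ring

end APX_

/-- an additive function and the strongly additive function of its truncated values -/
theorem t_APX : S_APX := by
  refine ⟨3, by norm_num, ?_⟩
  intro G N K τ hG hN hK hS
  classical
  set P := (Pr N).filter (fun p => 1 < |G p|) with hP
  have hsub : (Icc 1 N).filter (fun n => 2 * K * τ < |G n - sa (wt G) n|) ⊆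
      (P.biUnion fun p => (Icc 1 N).filter (fun n => p ∣ n)) ∪
      ((Icc 2 N).biUnion fun m => (Icc 1 N).filter (fun n => APX_.D K m ∣ n)) := by
    intro n hn
    rw [mem_filter] at hn
    by_contra hc
    rw [mem_union, not_or, mem_biUnion, mem_biUnion] at hc
    push Not at hc
    refine absurd hn.2 (not_lt.2 (APX_.good hG hK hS hn.1 ?_ ?_))
    · intro p hp hd
      exact hc.1 p hp (mem_filter.2 ⟨hn.1, hd⟩)
    · intro m hm hd
      exact hc.2 m hm (mem_filter.2 ⟨hn.1, hd⟩)
  have hN0 : (0 : ℝ) ≤ N := Nat.cast_nonneg N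
  calc (((Icc 1 N).filter (fun n => 2 * K * τ < |G n - sa (wt G) n|)).card : ℝ)
      ≤ ((((P.biUnion fun p => (Icc 1 N).filter (fun n => p ∣ n)) ∪
      ((Icc 2 N).biUnion fun m => (Icc 1 N).filter (fun n => APX_.D K m ∣ n))).card : ℕ) : ℝ) := by
        exact_mod_cast card_le_card hsub
    _ ≤ (((P.biUnion fun p => (Icc 1 N).filter (fun n => p ∣ n)).card : ℕ) : ℝ) +
        ((((Icc 2 N).biUnion fun m => (Icc 1 N).filter (fun n => APX_.D K m ∣ n)).card : ℕ) : ℝ) := by
        exact_mod_cast card_union_le _ _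
    _ ≤ ∑ p ∈ P, (N : ℝ) / p + ∑ m ∈ Icc 2 N, (N : ℝ) / (APX_.D K m : ℕ) := by
        refine add_le_add ?_ ?_
        · refine le_trans (Nat.cast_le.2 card_biUnion_le) ?_
          rw [Nat.cast_sum]
          exact sum_le_sum fun p _ => APX_.card_mult N p
        · refine le_trans (Nat.cast_le.2 card_biUnion_le) ?_
          rw [Nat.cast_sum]
          exact sum_le_sum fun m _ => APX_.card_mult N _
    _ = N * bad G N + N * ∑ m ∈ Icc 2 N, (1 : ℝ) / (APX_.D K m : ℕ) := by
        rw [bad, ← hP, mul_sum, mul_sum]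
        congr 1
        · exact sum_congr rfl fun _ _ => by ring
        · exact sum_congr rfl fun _ _ => by ring
    _ ≤ N * bad G N + N * (3 / Real.sqrt K) :=
        add_le_add le_rfl (mul_le_mul_of_nonneg_left (APX_.sum_D N K hK) hN0)
    _ = N * (bad G N + 3 / Real.sqrt K) := by ring


end Pool.Agent.N826.EM
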