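import Pool.Agent.N826.EM.Stm

/-!
Project EM (helper826), task CASEU (helper160): choice of the normalisation.
-/

set_option autoImplicit false

namespace Pool.Agent.N826.EM

open Finset Filter Topology

namespace CASEU_

lemma NI_mono {G : ℕ → ℝ} {N : ℕ} {M τ τ' : ℝ} (h : NI G N M τ) (ht : τ ≤ τ') : NI G N M τ' :=
  fun A => (h A).trans ht

lemma Pr_subset {m n : ℕ} (h : m ≤ n) : Pr m ⊆ Pr n := by
  intro p hp
  rw [mem_filter, mem_Icc] at hp ⊢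
  exact ⟨⟨hp.1.1, hp.1.2.trans h⟩, hp.2⟩

lemma DD_le_sq (G : ℕ → ℝ) {Y Y₁ : ℕ} (h : Y ≤ Y₁) : DD G Y ≤ ∑ p ∈ Pr Y₁, (G p) ^ 2 / p := by
  unfold DD
  calc ∑ p ∈ Pr Y, min 1 ((G p) ^ 2) / (p : ℝ) ≤ ∑ p ∈ Pr Y, (G p) ^ 2 / (p : ℝ) :=
        sum_le_sum fun p _ => div_le_div_of_nonneg_right (min_le_right _ _) (Nat.cast_nonneg p)
    _ ≤ _ := sum_le_sum_of_subset_of_nonneg (Pr_subset h) fun p _ _ => by positivity

lemma DD_succ (G : ℕ → ℝ) (N : ℕ) : DD G (N + 1) ≤ DD G N + 1 / ((N + 1 : ℕ) : ℝ) := by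
  unfold DD
  have h0 : ∀ p : ℕ, 0 ≤ min 1 ((G p) ^ 2) / (p : ℝ) := fun p =>
    div_nonneg (le_min zero_le_one (sq_nonneg _)) (Nat.cast_nonneg p)
  have hsub : Pr (N + 1) ⊆ Pr N ∪ {N + 1} := by
    intro p hp
    rw [mem_filter, mem_Icc] at hp
    rw [mem_union, mem_filter, mem_Icc, mem_singleton]
    rcases Nat.lt_or_ge N p with h | h
    · right; omega
    · left; exact ⟨⟨hp.1.1, h⟩, hp.2⟩
  calc ∑ p ∈ Pr (N + 1), min 1 ((G p) ^ 2) / (p : ℝ)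
      ≤ ∑ p ∈ Pr N ∪ {N + 1}, min 1 ((G p) ^ 2) / (p : ℝ) :=
        sum_le_sum_of_subset_of_nonneg hsub fun p _ _ => h0 p
    _ ≤ ∑ p ∈ Pr N, min 1 ((G p) ^ 2) / (p : ℝ) +
        ∑ p ∈ {N + 1}, min 1 ((G p) ^ 2) / (p : ℝ) := by
        have := sum_union_inter (s₁ := Pr N) (s₂ := {N + 1})
          (f := fun p => min 1 ((G p) ^ 2) / (p : ℝ))
        have h1 : 0 ≤ ∑ p ∈ Pr N ∩ {N + 1}, min 1 ((G p) ^ 2) / (p : ℝ) :=
          sum_nonneg fun p _ => h0 p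
        linarith
    _ ≤ _ := by
        rw [sum_singleton]
        gcongr
        exact min_le_left _ _

end CASEU_

open CASEU_ in
/-- choice of the normalisation -/
theorem t_CASEU (hM : S_ML) (hX : S_CROSS) : S_CASEU := by
  obtain ⟨ε₁, hε₁, hM⟩ := hM
  refine ⟨ε₁, hε₁, fun ε hε hεε f hf hd => ?_⟩
  obtain ⟨s, τ, M, K, N₀, hs, hτ, hM1, hML⟩ := hM ε hε hεε
  by_contra hcon
  push Not at hcon
  have hM0 : 0 ≤ M := by linarith
  -- the near invariance from the descents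
  have hy : ∀ᶠ y : ℕ in atTop, 2 * M * (2 * ((Dsc f y).card : ℝ) + 1) / y ≤ τ := by
    have h1 : Tendsto (fun X : ℕ => 2 * M * (2 * (((Dsc f X).card : ℝ) / (X : ℝ)) + 1 / (X : ℝ)))
        atTop (𝓝 (2 * M * (2 * 0 + 0))) :=
      ((hd.const_mul 2).add tendsto_one_div_atTop_nhds_zero_nat).const_mul (2 * M)
    rw [mul_zero, add_zero, mul_zero] at h1
    filter_upwards [h1.eventually_lt_const hτ] with y hy
    refine le_of_eq_of_le ?_ hy.le
    ring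
  obtain ⟨y₀, hy₀⟩ := eventually_atTop.1 hy
  -- the size of `N`
  have hN : ∀ᶠ N : ℕ in atTop, N₀ ≤ N ∧ ((max y₀ 1 : ℕ) : ℝ) ≤ (N : ℝ) ^ s ∧ 1 / (N : ℝ) ≤ ε := by
    have h1 : ∀ᶠ N : ℕ in atTop, ((max y₀ 1 : ℕ) : ℝ) ≤ (N : ℝ) ^ s :=
      ((tendsto_rpow_atTop hs).comp tendsto_natCast_atTop_atTop).eventually_ge_atTop _
    have h2 : ∀ᶠ N : ℕ in atTop, 1 / (N : ℝ) < ε :=
      (tendsto_one_div_atTop_nhds_zero_nat (𝕜 := ℝ)).eventually_lt_const hε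
    filter_upwards [eventually_ge_atTop N₀, h1, h2] with N a b c
    exact ⟨a, b, c.le⟩
  obtain ⟨Y₁, hY₁⟩ := eventually_atTop.1 hN
  -- the normalisation
  set a : ℝ := (∑ q ∈ Icc 1 K, |f q|) / τ with ha
  set b : ℝ := (∑ p ∈ Pr Y₁, (f p) ^ 2 / (p : ℝ)) / ε with hb
  have ha0 : 0 ≤ a := div_nonneg (sum_nonneg fun _ _ => abs_nonneg _) hτ.le
  have hb0 : 0 ≤ b := div_nonneg (sum_nonneg fun _ _ => by positivity) hε.le
  set V : ℝ := 1 + a + b with hV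
  have hV1 : 1 ≤ V := by linarith
  have hV0 : 0 < V := by linarith
  set F : ℕ → ℝ := fun n => f n / V with hF
  have hFadd : Addf F := by
    intro x y hx hy hxy
    simp only [hF]
    rw [hf x y hx hy hxy, add_div]
  have hSm : Sm F K τ := by
    intro q hq1 hqK
    simp only [hF]
    rw [abs_div, abs_of_pos hV0, div_le_iff₀ hV0]
    have h1 : |f q| ≤ ∑ q ∈ Icc 1 K, |f q| :=
      single_le_sum (f := fun q => |f q|) (fun _ _ => abs_nonneg _) (mem_Icc.2 ⟨hq1, hqK⟩)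
    have h2 : ∑ q ∈ Icc 1 K, |f q| = a * τ := by
      rw [ha, div_mul_cancel₀ _ hτ.ne']
    have h3 : a * τ ≤ V * τ := mul_le_mul_of_nonneg_right (by linarith) hτ.le
    linarith
  have hsmall : ∀ Y : ℕ, Y ≤ Y₁ → DD (lg F 0) Y ≤ ε := by
    intro Y hY
    refine (DD_le_sq _ hY).trans ?_
    have h1 : ∀ p : ℕ, (lg F 0 p) ^ 2 / (p : ℝ) = ((f p) ^ 2 / (p : ℝ)) / V ^ 2 := by
      intro p
      simp only [lg, hF]
      rw [zero_mul, sub_zero, div_pow]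
      ring
    rw [sum_congr rfl fun p _ => h1 p, ← sum_div, div_le_iff₀ (by positivity)]
    have h2 : ∑ p ∈ Pr Y₁, (f p) ^ 2 / (p : ℝ) = b * ε := by
      rw [hb, div_mul_cancel₀ _ hε.ne']
    rw [h2]
    have h3 : b ≤ V ^ 2 := by nlinarith
    nlinarith
  obtain hYV := hcon V hV1
  classical
  set N := Nat.find hYV with hNdef
  have hNs : ∀ c : ℝ, ε < DD (lg F c) N := Nat.find_spec hYV
  have hNm : ∀ m : ℕ, m < N → ∃ c : ℝ, DD (lg F c) m ≤ ε := by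
    intro m hm
    have := Nat.find_min hYV hm
    push Not at this
    exact this
  have hNY : Y₁ < N := by
    by_contra hle
    push Not at hle
    exact absurd (hsmall N hle) (not_le.2 (hNs 0))
  obtain ⟨hN1, hN2, hN3⟩ := hY₁ N hNY.le
  have hNpos : 0 < N := by omega
  obtain ⟨c, hc⟩ := hNm (N - 1) (by omega)
  have hc2 : DD (lg F c) N ≤ 2 * ε := by
    have h1 := DD_succ (lg F c) (N - 1)
    rw [Nat.sub_add_cancel hNpos] at h1
    linarith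
  have hNI : ∀ y : ℕ, (N : ℝ) ^ s ≤ y → y ≤ N → NI F y M τ := by
    intro y hy1 _
    have h1 : max y₀ 1 ≤ y := by exact_mod_cast hN2.trans hy1
    have h2 := hX f V y M hV0 ((le_max_right _ _).trans h1) hM0
    exact NI_mono h2 (hy₀ y ((le_max_left _ _).trans h1))
  obtain ⟨c', hc'⟩ := hML F N c hFadd hN1 hNI hSm hc2
  exact absurd hc' (not_le.2 (hNs c'))

end Pool.Agent.N826.EM
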