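import Pool.Agent.N826.EM.Stm

/-!
Project EM, task CSM (helper966): the slope is small.
-/

set_option autoImplicit false

namespace Pool.Agent.N826.EM

open Finset Filter Topology

namespace CSM_

/-- the sum of the reciprocals of the primes beyond `T` gets larger than one -/
theorem exists_K (T : ℕ) : ∃ K : ℕ, 1 ≤ K ∧
    1 < ∑ p ∈ (Pr K).filter (fun p => T < p), (1 : ℝ) / p := by
  classical
  set f : ℕ → ℝ := Set.indicator {p : ℕ | p.Prime} (fun n : ℕ => (1 : ℝ) / n) with hf
  have hf0 : ∀ n, 0 ≤ f n := by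
    intro n
    rw [hf]
    exact Set.indicator_nonneg (fun _ _ => by positivity) n
  have htend : Tendsto (fun n => ∑ i ∈ range n, f i) atTop atTop :=
    (not_summable_iff_tendsto_nat_atTop_of_nonneg hf0).1 not_summable_one_div_on_primes
  obtain ⟨K, hK1, hK2⟩ := ((htend.eventually_gt_atTop (1 + ∑ i ∈ range (T + 1), f i)).and
    (eventually_ge_atTop (T + 1))).exists
  refine ⟨K, by omega, ?_⟩
  have h1 : ∑ i ∈ range K, f i = ∑ i ∈ range (T + 1), f i + ∑ i ∈ Ico (T + 1) K, f i :=
    (sum_range_add_sum_Ico f hK2).symm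
  have h2 : ∑ i ∈ Ico (T + 1) K, f i ≤ ∑ p ∈ (Pr K).filter (fun p => T < p), (1 : ℝ) / p := by
    have e : ∑ i ∈ Ico (T + 1) K, f i
        = ∑ i ∈ (Ico (T + 1) K).filter Nat.Prime, (1 : ℝ) / i := by
      rw [sum_filter]
      refine sum_congr rfl fun i _ => ?_
      rw [hf]
      by_cases hi : i.Prime
      · rw [Set.indicator_of_mem (by exact hi), if_pos hi]
      · rw [Set.indicator_of_notMem (by exact hi), if_neg hi]
    rw [e]
    refine sum_le_sum_of_subset_of_nonneg ?_ (fun _ _ _ => by positivity)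
    intro p hp
    simp only [mem_filter, mem_Ico, mem_Icc] at hp ⊢
    exact ⟨⟨⟨hp.2.one_lt.le, hp.1.2.le⟩, hp.2⟩, by omega⟩
  linarith

end CSM_

/-- the slope is small -/
theorem t_CSM : S_CSM := by
  intro κ hκ
  obtain ⟨K, hK, hsum⟩ := CSM_.exists_K ⌈Real.exp (2 / κ)⌉₊
  refine ⟨K, 1, hK, one_pos, ?_⟩
  intro F c hSm hDD
  by_contra hc
  rw [not_le] at hc
  have hterm : ∀ p ∈ (Pr K).filter (fun p => ⌈Real.exp (2 / κ)⌉₊ < p),
      (1 : ℝ) / p ≤ min 1 ((lg F c p) ^ 2) / p := by
    intro p hp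
    simp only [mem_filter, mem_Icc] at hp
    have hp1 : Real.exp (2 / κ) < (p : ℝ) := lt_of_le_of_lt (Nat.le_ceil _) (by exact_mod_cast hp.2)
    have hlog : 2 / κ ≤ Real.log p := by
      rw [Real.le_log_iff_exp_le (lt_trans (Real.exp_pos _) hp1)]
      exact hp1.le
    have hlog0 : 0 ≤ Real.log p := le_trans (by positivity) hlog
    have h2 : 2 ≤ |c| * Real.log p := by
      calc (2 : ℝ) = κ * (2 / κ) := by field_simp
        _ ≤ |c| * Real.log p := mul_le_mul hc.le hlog (by positivity) (abs_nonneg _)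
    have hF : |F p| ≤ 1 := hSm p hp.1.1.1 hp.1.1.2
    have h3 : 1 ≤ |lg F c p| := by
      have e : |c * Real.log p| = |c| * Real.log p := by
        rw [abs_mul, abs_of_nonneg hlog0]
      have h4 : |c * Real.log p| - |F p| ≤ |lg F c p| := by
        rw [lg, abs_sub_comm]
        exact abs_sub_abs_le_abs_sub _ _
      linarith
    have h5 : min 1 ((lg F c p) ^ 2) = 1 := by
      refine min_eq_left ?_
      rw [← sq_abs]
      nlinarith
    rw [h5]
  have h1 : ∑ p ∈ (Pr K).filter (fun p => ⌈Real.exp (2 / κ)⌉₊ < p), (1 : ℝ) / p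
      ≤ DD (lg F c) K := by
    refine (sum_le_sum hterm).trans ?_
    unfold DD
    refine sum_le_sum_of_subset_of_nonneg (filter_subset _ _) (fun p _ _ => ?_)
    exact div_nonneg (le_min zero_le_one (sq_nonneg _)) (Nat.cast_nonneg _)
  linarith


end Pool.Agent.N826.EM
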