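import Pool.Agent.N826.EM.Stm

/-!
Project EM, task DUAL: the dual Turan-Kubilius inequality (by helper717).
-/

set_option autoImplicit false

namespace Pool.Agent.N826.EM

open Finset

namespace DUAL_

/-- the indicator of the multiples of `d` -/
noncomputable def ind (d n : ℕ) : ℝ := if d ∣ n then 1 else 0

/-- the centred indicator -/
noncomputable def X (p n : ℕ) : ℝ := ind p n - 1 / p

theorem sum_mult {N p : ℕ} (hp : 1 ≤ p) (h : ℕ → ℝ) :
    ∑ m ∈ Icc 1 (N / p), h (p * m) = ∑ n ∈ Icc 1 N, ind p n * h n := by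
  have h1 : ∀ n ∈ Icc 1 N, ind p n * h n = if p ∣ n then h n else 0 := by
    intro n _
    unfold ind
    split_ifs
    · rw [one_mul]
    · rw [zero_mul]
  rw [sum_congr rfl h1, ← sum_filter]
  refine sum_bij (fun m _ => p * m) ?_ ?_ ?_ ?_
  · intro m hm
    rw [mem_Icc] at hm
    rw [mem_filter, mem_Icc]
    refine ⟨⟨Nat.mul_pos hp hm.1, ?_⟩, dvd_mul_right p m⟩
    have := Nat.mul_le_mul_left p hm.2
    exact this.trans (Nat.mul_div_le N p)
  · intro a _ b _ hab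
    exact Nat.eq_of_mul_eq_mul_left hp hab
  · intro n hn
    rw [mem_filter, mem_Icc] at hn
    obtain ⟨k, rfl⟩ := hn.2
    refine ⟨k, ?_, rfl⟩
    rw [mem_Icc]
    refine ⟨Nat.pos_of_mul_pos_left hn.1.1, ?_⟩
    rw [Nat.le_div_iff_mul_le hp, mul_comm]
    exact hn.1.2
  · intro a _
    rfl

theorem sum_ind {N d : ℕ} (hd : 1 ≤ d) : ∑ n ∈ Icc 1 N, ind d n = ((N / d : ℕ) : ℝ) := by
  have h1 := sum_mult (N := N) hd (fun _ => (1 : ℝ))
  simp only [mul_one] at h1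
  rw [← h1, sum_const, Nat.card_Icc, Nat.add_sub_cancel, nsmul_eq_mul, mul_one]

theorem div_bd {N d : ℕ} (hd : 1 ≤ d) :
    ((N / d : ℕ) : ℝ) ≤ (N : ℝ) / d ∧ (N : ℝ) / d - 1 ≤ ((N / d : ℕ) : ℝ) := by
  have hd0 : (0 : ℝ) < d := by exact_mod_cast hd
  refine ⟨Nat.cast_div_le, ?_⟩
  have h1 : (N : ℝ) ≤ d * ((N / d : ℕ) : ℝ) + d := by
    have h2 := Nat.div_add_mod N d
    have h3 := Nat.mod_lt N hd
    have h4 : N ≤ d * (N / d) + d := by omega
    exact_mod_cast h4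
  rw [sub_le_iff_le_add, div_le_iff₀ hd0]
  linarith

theorem ind_mul {p q : ℕ} (hp : p.Prime) (hq : q.Prime) (hpq : p ≠ q) (n : ℕ) :
    ind p n * ind q n = ind (p * q) n := by
  have hc : Nat.Coprime p q := (Nat.coprime_primes hp hq).2 hpq
  unfold ind
  by_cases h1 : p ∣ n
  · by_cases h2 : q ∣ n
    · rw [if_pos h1, if_pos h2, if_pos (hc.mul_dvd_of_dvd_of_dvd h1 h2), one_mul]
    · rw [if_neg h2, if_neg (fun h => h2 ((dvd_mul_left q p).trans h)), mul_zero]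
  · rw [if_neg h1, if_neg (fun h => h1 ((dvd_mul_right p q).trans h)), zero_mul]

theorem ind_sq (p n : ℕ) : ind p n * ind p n = ind p n := by
  unfold ind
  split_ifs <;> simp

theorem sum_XX {N p q : ℕ} (hp : p.Prime) (hq : q.Prime) (hpq : p ≠ q) :
    |∑ n ∈ Icc 1 N, X p n * X q n| ≤ 1 := by
  have hp0 : (2 : ℝ) ≤ p := by exact_mod_cast hp.two_le
  have hq0 : (2 : ℝ) ≤ q := by exact_mod_cast hq.two_le
  have h1 : ∑ n ∈ Icc 1 N, X p n * X q n = ((N / (p * q) : ℕ) : ℝ) -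
      ((N / p : ℕ) : ℝ) / q - ((N / q : ℕ) : ℝ) / p + (N : ℝ) / (p * q) := by
    have h2 : ∀ n ∈ Icc 1 N, X p n * X q n = ind (p * q) n - ind p n / q - ind q n / p +
        1 / ((p : ℝ) * q) := by
      intro n _
      rw [← ind_mul hp hq hpq]
      unfold X
      have : (p : ℝ) ≠ 0 := by linarith
      have : (q : ℝ) ≠ 0 := by linarith
      field_simp
      ring
    rw [sum_congr rfl h2, sum_add_distrib, sum_sub_distrib, sum_sub_distrib, ← sum_div,
      ← sum_div, sum_ind (Nat.mul_pos hp.pos hq.pos), sum_ind hp.one_le, sum_ind hq.one_le,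
      sum_const, Nat.card_Icc, Nat.add_sub_cancel, nsmul_eq_mul]
    ring
  obtain ⟨a1, a2⟩ := div_bd (N := N) (Nat.mul_pos hp.pos hq.pos)
  obtain ⟨b1, b2⟩ := div_bd (N := N) hp.one_le
  obtain ⟨c1, c2⟩ := div_bd (N := N) hq.one_le
  rw [h1]
  push_cast at a1 a2
  have e1 : (N : ℝ) / p / q = N / (p * q) := by rw [div_div]
  have e2 : (N : ℝ) / q / p = N / (p * q) := by rw [div_div, mul_comm]
  have hqi : (1 : ℝ) / q ≤ 1 / 2 := one_div_le_one_div_of_le (by norm_num) hq0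
  have hpi : (1 : ℝ) / p ≤ 1 / 2 := one_div_le_one_div_of_le (by norm_num) hp0
  have f1 : ((N / p : ℕ) : ℝ) / q ≤ N / (p * q) := by
    rw [← e1]; exact div_le_div_of_nonneg_right b1 (by linarith)
  have f2 : (N : ℝ) / (p * q) - 1 / q ≤ ((N / p : ℕ) : ℝ) / q := by
    rw [← e1, ← sub_div]; exact div_le_div_of_nonneg_right b2 (by linarith)
  have g1 : ((N / q : ℕ) : ℝ) / p ≤ N / (p * q) := by
    rw [← e2]; exact div_le_div_of_nonneg_right c1 (by linarith)
  have g2 : (N : ℝ) / (p * q) - 1 / p ≤ ((N / q : ℕ) : ℝ) / p := by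
    rw [← e2, ← sub_div]; exact div_le_div_of_nonneg_right c2 (by linarith)
  rw [abs_le]
  constructor <;> linarith

theorem sum_XX' {N p : ℕ} (hp : p.Prime) : ∑ n ∈ Icc 1 N, X p n * X p n ≤ (N : ℝ) / p := by
  have hp0 : (2 : ℝ) ≤ p := by exact_mod_cast hp.two_le
  have hpn : (p : ℝ) ≠ 0 := by linarith
  have h1 : ∑ n ∈ Icc 1 N, X p n * X p n =
      (1 - 2 / (p : ℝ)) * ((N / p : ℕ) : ℝ) + (N : ℝ) / p ^ 2 := by
    have h2 : ∀ n ∈ Icc 1 N, X p n * X p n = (1 - 2 / (p : ℝ)) * ind p n + 1 / (p : ℝ) ^ 2 := by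
      intro n _
      have h3 := ind_sq p n
      unfold X
      have : (ind p n - 1 / (p : ℝ)) * (ind p n - 1 / (p : ℝ)) =
          ind p n * ind p n - 2 / (p : ℝ) * ind p n + 1 / (p : ℝ) ^ 2 := by
        field_simp
        ring
      rw [this, h3]
      ring
    rw [sum_congr rfl h2, sum_add_distrib, ← mul_sum, sum_ind hp.one_le, sum_const,
      Nat.card_Icc, Nat.add_sub_cancel, nsmul_eq_mul]
    ring
  rw [h1]
  obtain ⟨b1, -⟩ := div_bd (N := N) hp.one_le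
  have h3 : 0 ≤ 1 - 2 / (p : ℝ) := by
    rw [sub_nonneg, div_le_one (by linarith)]
    exact hp0
  have h4 := mul_le_mul_of_nonneg_left b1 h3
  have h5 : (1 - 2 / (p : ℝ)) * (N / p) + (N : ℝ) / p ^ 2 = N / p - N / p ^ 2 := by
    field_simp
    ring
  have h6 : (0 : ℝ) ≤ (N : ℝ) / p ^ 2 := by positivity
  linarith

end DUAL_

open DUAL_ in
/-- the dual Turan-Kubilius inequality -/
theorem t_DUAL : S_DUAL := by
  intro N P h hN hP
  have hN0 : (0 : ℝ) < N := by exact_mod_cast hN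
  have hPr : ∀ p ∈ Pr P, p.Prime ∧ p ≤ P := fun p hp => by
    rw [mem_filter, mem_Icc] at hp
    exact ⟨hp.2, hp.1.2⟩
  obtain ⟨w, hw⟩ : ∃ w : ℕ → ℝ, w = fun p => cp N h p := ⟨_, rfl⟩
  have hwd : ∀ p, cp N h p = w p := fun p => by rw [hw]
  -- `w p / p` as a sum
  have hw1 : ∀ p ∈ Pr P, w p / p * N = ∑ n ∈ Icc 1 N, h n * X p n := by
    intro p hp
    have hpp := (hPr p hp).1
    have hpn : (p : ℝ) ≠ 0 := by
      have := hpp.pos
      positivity
    rw [← hwd]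
    unfold cp Ex
    rw [sum_mult hpp.one_le]
    have h2 : ∑ n ∈ Icc 1 N, h n * X p n =
        ∑ n ∈ Icc 1 N, ind p n * h n - (∑ n ∈ Icc 1 N, h n) / p := by
      rw [sum_div, ← sum_sub_distrib]
      refine sum_congr rfl fun n _ => ?_
      unfold X
      ring
    rw [h2]
    field_simp
  obtain ⟨S, hS⟩ : ∃ S, S = ∑ p ∈ Pr P, 1 / (p : ℝ) * (w p) ^ 2 := ⟨_, rfl⟩
  obtain ⟨T, hT⟩ : ∃ T : ℕ → ℝ, T = fun n => ∑ p ∈ Pr P, w p * X p n := ⟨_, rfl⟩
  obtain ⟨H, hH⟩ : ∃ H, H = ∑ n ∈ Icc 1 N, (h n) ^ 2 := ⟨_, rfl⟩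
  have hS0 : 0 ≤ S := by
    rw [hS]
    exact sum_nonneg fun p _ => by positivity
  have hNS : N * S = ∑ n ∈ Icc 1 N, h n * T n := by
    have h1 : ∀ p ∈ Pr P, (N : ℝ) * (1 / (p : ℝ) * (w p) ^ 2) =
        ∑ n ∈ Icc 1 N, h n * (w p * X p n) := by
      intro p hp
      have h2 : (N : ℝ) * (1 / (p : ℝ) * (w p) ^ 2) = w p * (w p / p * N) := by ring
      rw [h2, hw1 p hp, mul_sum]
      exact sum_congr rfl fun n _ => by ring
    rw [hS, mul_sum, sum_congr rfl h1, sum_comm, hT]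
    refine sum_congr rfl fun n _ => ?_
    change _ = h n * ∑ p ∈ Pr P, w p * X p n
    rw [mul_sum]
  have hCS : (N * S) ^ 2 ≤ H * ∑ n ∈ Icc 1 N, (T n) ^ 2 := by
    rw [hNS, hH]
    exact sum_mul_sq_le_sq_mul_sq _ _ _
  have hT2 : ∑ n ∈ Icc 1 N, (T n) ^ 2 ≤ 2 * (N * S) := by
    have h1 : ∑ n ∈ Icc 1 N, (T n) ^ 2 =
        ∑ p ∈ Pr P, ∑ q ∈ Pr P, w p * w q * ∑ n ∈ Icc 1 N, X p n * X q n := by
      have h2 : ∀ n ∈ Icc 1 N, (T n) ^ 2 =
          ∑ p ∈ Pr P, ∑ q ∈ Pr P, w p * w q * (X p n * X q n) := by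
        intro n _
        rw [hT]
        change (∑ p ∈ Pr P, w p * X p n) ^ 2 = _
        rw [sq, sum_mul_sum]
        exact sum_congr rfl fun p _ => sum_congr rfl fun q _ => by ring
      rw [sum_congr rfl h2, sum_comm]
      refine sum_congr rfl fun p _ => ?_
      rw [sum_comm]
      refine sum_congr rfl fun q _ => ?_
      rw [mul_sum]
    have h2 : ∀ p ∈ Pr P, ∀ q ∈ Pr P, w p * w q * ∑ n ∈ Icc 1 N, X p n * X q n ≤
        (if p = q then N * (1 / (p : ℝ) * (w p) ^ 2) else 0) + |w p| * |w q| := by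
      intro p hp q hq
      have hpp := (hPr p hp).1
      have hqp := (hPr q hq).1
      by_cases hpq : p = q
      · subst hpq
        rw [if_pos rfl]
        have h3 := sum_XX' (N := N) hpp
        have h4 : 0 ≤ w p * w p := mul_self_nonneg _
        have h5 := mul_le_mul_of_nonneg_left h3 h4
        have h6 : 0 ≤ |w p| * |w p| := by positivity
        have h7 : w p * w p * ((N : ℝ) / p) = N * (1 / (p : ℝ) * (w p) ^ 2) := by ring
        linarith
      · rw [if_neg hpq, zero_add]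
        have h3 := sum_XX (N := N) hpp hqp hpq
        calc w p * w q * ∑ n ∈ Icc 1 N, X p n * X q n
            ≤ |w p * w q * ∑ n ∈ Icc 1 N, X p n * X q n| := le_abs_self _
          _ = |w p| * |w q| * |∑ n ∈ Icc 1 N, X p n * X q n| := by rw [abs_mul, abs_mul]
          _ ≤ |w p| * |w q| * 1 := mul_le_mul_of_nonneg_left h3 (by positivity)
          _ = |w p| * |w q| := mul_one _
    have h3 : ∑ n ∈ Icc 1 N, (T n) ^ 2 ≤ N * S + (∑ p ∈ Pr P, |w p|) ^ 2 := by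
      rw [h1]
      refine (sum_le_sum fun p hp => sum_le_sum fun q hq => h2 p hp q hq).trans (le_of_eq ?_)
      have h4 : ∀ p ∈ Pr P, ∑ q ∈ Pr P,
          ((if p = q then (N : ℝ) * (1 / (p : ℝ) * (w p) ^ 2) else 0) + |w p| * |w q|) =
          N * (1 / (p : ℝ) * (w p) ^ 2) + |w p| * ∑ q ∈ Pr P, |w q| := by
        intro p hp
        rw [sum_add_distrib, sum_ite_eq (Pr P) p, if_pos hp, mul_sum]
      rw [sum_congr rfl h4, sum_add_distrib, ← mul_sum, ← sum_mul, ← hS, sq]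
    have h4 : (∑ p ∈ Pr P, |w p|) ^ 2 ≤ S * (P : ℝ) ^ 2 := by
      have h5 : (∑ p ∈ Pr P, |w p|) ^ 2 ≤
          (∑ p ∈ Pr P, 1 / (p : ℝ) * (w p) ^ 2) * ∑ p ∈ Pr P, (p : ℝ) := by
        have h6 := sum_mul_sq_le_sq_mul_sq (Pr P) (fun p => |w p| / Real.sqrt p)
          (fun p => Real.sqrt p)
        have e1 : ∀ p ∈ Pr P, |w p| / Real.sqrt p * Real.sqrt p = |w p| := by
          intro p hp
          have : (0 : ℝ) < Real.sqrt p := by
            have := (hPr p hp).1.pos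
            positivity
          field_simp
        have e2 : ∀ p ∈ Pr P, (|w p| / Real.sqrt p) ^ 2 = 1 / (p : ℝ) * (w p) ^ 2 := by
          intro p _
          rw [div_pow, sq_abs, Real.sq_sqrt (Nat.cast_nonneg p)]
          ring
        have e3 : ∀ p ∈ Pr P, Real.sqrt (p : ℝ) ^ 2 = p := fun p _ =>
          Real.sq_sqrt (Nat.cast_nonneg p)
        rw [sum_congr rfl e1, sum_congr rfl e2, sum_congr rfl e3] at h6
        exact h6
      have h6 : ∑ p ∈ Pr P, (p : ℝ) ≤ (P : ℝ) ^ 2 := by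
        have h7 : ∑ p ∈ Pr P, (p : ℝ) ≤ ∑ p ∈ Pr P, (P : ℝ) :=
          sum_le_sum fun p hp => Nat.cast_le.2 (hPr p hp).2
        refine h7.trans ?_
        rw [sum_const, nsmul_eq_mul, sq]
        have h8 : (Pr P).card ≤ P := by
          have := card_filter_le (Icc 1 P) Nat.Prime
          rwa [Nat.card_Icc, Nat.add_sub_cancel] at this
        exact mul_le_mul_of_nonneg_right (Nat.cast_le.2 h8) (Nat.cast_nonneg P)
      rw [← hS] at h5
      exact h5.trans (mul_le_mul_of_nonneg_left h6 hS0)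
    have h5 : (P : ℝ) ^ 2 ≤ N := by exact_mod_cast hP
    have h6 := mul_le_mul_of_nonneg_left h5 hS0
    linarith
  have hH0 : 0 ≤ H := by rw [hH]; exact sum_nonneg fun n _ => sq_nonneg _
  have hfin : N * S ≤ 2 * H := by
    rcases hS0.eq_or_lt with h0 | h0
    · rw [← h0, mul_zero]; linarith
    · have h1 : (N * S) * (N * S) ≤ (N * S) * (2 * H) := by
        calc (N * S) * (N * S) = (N * S) ^ 2 := by ring
          _ ≤ H * ∑ n ∈ Icc 1 N, (T n) ^ 2 := hCS
          _ ≤ H * (2 * (N * S)) := mul_le_mul_of_nonneg_left hT2 hH0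
          _ = (N * S) * (2 * H) := by ring
      exact le_of_mul_le_mul_left h1 (by positivity)
  have hgoal : ∑ p ∈ Pr P, 1 / (p : ℝ) * (cp N h p) ^ 2 = S := by
    rw [hS]
    exact sum_congr rfl fun p _ => by rw [hwd]
  rw [hgoal]
  unfold Ex
  rw [← hH, ← mul_div_assoc, le_div_iff₀ hN0]
  linarith

end Pool.Agent.N826.EM
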