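import Pool.Agent.N826.EM.Stm
import Pool.Agent.Helper923.HMertens

/-!
Project EM (helper826), part EXT: smallness of the truncated variance extends to larger scales.
-/

set_option autoImplicit false

namespace Pool.Agent.N826.EM

open Finset Filter Topology

namespace EXT_

/-- the mass of the primes in `(a, b]` -/
noncomputable def ms (a b : ℕ) : ℝ := ∑ p ∈ (Ioc a b).filter Nat.Prime, (1 : ℝ) / p

lemma ms_nonneg (a b : ℕ) : 0 ≤ ms a b := sum_nonneg fun p _ => by positivity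

lemma ms_zero {a b : ℕ} (h : b ≤ a) : ms a b = 0 := by
  unfold ms
  rw [Ioc_eq_empty (by omega)]
  simp

lemma cl_lip {M x y : ℝ} : |cl M x - cl M y| ≤ |x - y| := by
  unfold cl
  have h1 : |max (-M) (min M x) - max (-M) (min M y)| ≤ |min M x - min M y| := by
    have := abs_max_sub_max_le_max (-M) (min M x) (-M) (min M y)
    simpa using this
  have h2 : |min M x - min M y| ≤ |x - y| := by
    have := abs_min_sub_min_le_max M x M y
    simpa using this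
  exact h1.trans h2

lemma cl_abs_le {M x : ℝ} (hM : 0 ≤ M) : |cl M x| ≤ M := by
  unfold cl
  rw [abs_le]
  constructor
  · exact le_max_left _ _
  · exact max_le (by linarith) (min_le_left _ _)

lemma cl_of_abs_le {M x : ℝ} (h : |x| ≤ M) : cl M x = x := by
  unfold cl
  rw [abs_le] at h
  rw [min_eq_right h.2, max_eq_right h.1]

lemma le_abs_cl {M x k : ℝ} (hk : k ≤ M) (h : k ≤ |x|) : k ≤ |cl M x| := by
  unfold cl
  rcases le_total |x| M with hx | hx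
  · rw [abs_le] at hx
    rw [min_eq_right hx.2, max_eq_right hx.1]
    exact h
  · rcases le_total 0 x with h0 | h0
    · rw [abs_of_nonneg h0] at hx
      rw [min_eq_left hx]
      exact hk.trans ((le_abs_self M).trans (by
        rcases le_total 0 M with hM | hM
        · rw [max_eq_right (by linarith)]
        · rw [max_eq_left (by linarith), abs_neg]))
    · rw [abs_of_nonpos h0] at hx
      have h1 : min M x ≤ -M := (min_le_right _ _).trans (by linarith)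
      rw [max_eq_left h1, abs_neg]
      exact hk.trans (le_abs_self M)

/-- the weights of the primes up to `P` -/
noncomputable def aP (G : ℕ → ℝ) (P : ℕ) (p : ℕ) : ℝ := if p ≤ P then wt G p else 0

lemma wt_sq_le (G : ℕ → ℝ) (p : ℕ) : (wt G p) ^ 2 ≤ min 1 ((G p) ^ 2) := by
  unfold wt
  split_ifs with h
  · refine le_min ?_ le_rfl
    rw [← sq_abs]
    nlinarith [abs_nonneg (G p)]
  · rw [zero_pow two_ne_zero]
    exact le_min zero_le_one (sq_nonneg _)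

lemma min_nonneg (G : ℕ → ℝ) (p : ℕ) : 0 ≤ min 1 ((G p) ^ 2) / (p : ℝ) :=
  div_nonneg (le_min zero_le_one (sq_nonneg _)) (Nat.cast_nonneg _)

lemma DD_nonneg (G : ℕ → ℝ) (N : ℕ) : 0 ≤ DD G N := sum_nonneg fun p _ => min_nonneg G p

lemma DD_mono (G : ℕ → ℝ) {a b : ℕ} (h : a ≤ b) : DD G a ≤ DD G b := by
  unfold DD
  refine sum_le_sum_of_subset_of_nonneg ?_ fun p _ _ => min_nonneg G p
  intro p hp
  rw [mem_filter, mem_Icc] at hp ⊢
  exact ⟨⟨hp.1.1, hp.1.2.trans h⟩, hp.2⟩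

lemma sum_aP_sq_le (G : ℕ → ℝ) (P x : ℕ) : ∑ p ∈ Pr x, (aP G P p) ^ 2 / (p : ℝ) ≤ DD G P := by
  unfold DD
  calc ∑ p ∈ Pr x, (aP G P p) ^ 2 / (p : ℝ)
      ≤ ∑ p ∈ Pr x, (if p ≤ P then min 1 ((G p) ^ 2) / (p : ℝ) else 0) := by
        refine sum_le_sum fun p _ => ?_
        unfold aP
        split_ifs with h
        · exact div_le_div_of_nonneg_right (wt_sq_le G p) (Nat.cast_nonneg _)
        · simp
    _ = ∑ p ∈ (Pr x).filter (fun p => p ≤ P), min 1 ((G p) ^ 2) / (p : ℝ) :=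
        (sum_filter (s := Pr x) (fun p => p ≤ P) _).symm
    _ ≤ _ := by
        refine sum_le_sum_of_subset_of_nonneg ?_ fun p _ _ => min_nonneg G p
        intro p hp
        rw [mem_filter, mem_filter, mem_Icc] at hp
        rw [mem_filter, mem_Icc]
        exact ⟨⟨hp.1.1.1, hp.2⟩, hp.1.2⟩

lemma bad_le (G : ℕ → ℝ) (P x : ℕ) : bad G x ≤ DD G P + ms P x := by
  have h1 : bad G x ≤ ∑ p ∈ (Pr P).filter (fun p => 1 < |G p|), (1 : ℝ) / p +
      ∑ p ∈ (Ioc P x).filter Nat.Prime, (1 : ℝ) / p := by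
    unfold bad
    rw [← sum_union]
    · refine sum_le_sum_of_subset_of_nonneg ?_ fun p _ _ => by positivity
      intro p hp
      rw [mem_filter, mem_filter, mem_Icc] at hp
      rw [mem_union, mem_filter, mem_filter, mem_filter, mem_Icc, mem_Ioc]
      by_cases h : p ≤ P
      · exact Or.inl ⟨⟨⟨hp.1.1.1, h⟩, hp.1.2⟩, hp.2⟩
      · exact Or.inr ⟨⟨by omega, hp.1.1.2⟩, hp.1.2⟩
    · rw [disjoint_left]
      intro p hp hp'
      rw [mem_filter, mem_filter, mem_Icc] at hp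
      rw [mem_filter, mem_Ioc] at hp'
      omega
  refine h1.trans (add_le_add ?_ le_rfl)
  unfold DD
  calc ∑ p ∈ (Pr P).filter (fun p => 1 < |G p|), (1 : ℝ) / p
      ≤ ∑ p ∈ (Pr P).filter (fun p => 1 < |G p|), min 1 ((G p) ^ 2) / (p : ℝ) := by
        refine sum_le_sum fun p hp => ?_
        rw [mem_filter] at hp
        refine div_le_div_of_nonneg_right (le_min le_rfl ?_) (Nat.cast_nonneg _)
        rw [← sq_abs]
        nlinarith [hp.2]
    _ ≤ _ := sum_le_sum_of_subset_of_nonneg (filter_subset _ _) fun p _ _ => min_nonneg G p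

lemma mu_aP (G : ℕ → ℝ) (P x : ℕ) : mu (aP G P) x = mu (wt G) (min x P) := by
  unfold mu
  have h1 : ∑ p ∈ Pr x, aP G P p / (p : ℝ) =
      ∑ p ∈ (Pr x).filter (fun p => p ≤ P), wt G p / (p : ℝ) := by
    rw [sum_filter (s := Pr x) (fun p => p ≤ P)]
    refine sum_congr rfl fun p _ => ?_
    unfold aP
    split_ifs <;> simp
  rw [h1]
  refine sum_congr ?_ fun _ _ => rfl
  ext p
  simp only [mem_filter, mem_Icc]
  constructor
  · rintro ⟨⟨⟨h1, h2⟩, h3⟩, h4⟩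
    exact ⟨⟨h1, le_min h2 h4⟩, h3⟩
  · rintro ⟨⟨h1, h2⟩, h3⟩
    exact ⟨⟨⟨h1, h2.trans (min_le_left _ _)⟩, h3⟩, h2.trans (min_le_right _ _)⟩

lemma card_dvd_le (x p : ℕ) : (((Icc 1 x).filter (fun m => p ∣ m)).card : ℝ) ≤ x / p := by
  have h : ((Icc 1 x).filter (fun m => p ∣ m)).card = x / p := by
    have := Nat.Ioc_filter_dvd_card_eq_div x p
    rw [← this]
    rfl
  rw [h]
  exact Nat.cast_div_le

theorem conc {C₂ CA : ℝ} (h2 : ∀ (N : ℕ) (a : ℕ → ℝ), 1 ≤ N →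
    Ex N (fun n => (sa a n - mu a N) ^ 2) ≤ C₂ * ∑ p ∈ Pr N, (a p) ^ 2 / p) (hC : 0 < C₂)
    (hA : ∀ (G : ℕ → ℝ) (N K : ℕ) (τ : ℝ), Addf G → 1 ≤ N → 1 ≤ K → Sm G K τ →
      (((Icc 1 N).filter (fun n => 2 * K * τ < |G n - sa (wt G) n|)).card : ℝ) ≤
        N * (bad G N + CA / Real.sqrt K))
    {G : ℕ → ℝ} (hG : Addf G) {x K : ℕ} (P : ℕ) {τ lam : ℝ} (hx : 1 ≤ x) (hK : 1 ≤ K)
    (hsm : Sm G K τ) (hl : 0 < lam) :
    (((Icc 1 x).filter (fun m => 2 * K * τ + lam < |G m - mu (wt G) (min x P)|)).card : ℝ) ≤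
      x * (DD G P + 2 * ms P x + CA / Real.sqrt K + C₂ * DD G P / lam ^ 2) := by
  classical
  set E1 := (Icc 1 x).filter (fun n => 2 * K * τ < |G n - sa (wt G) n|) with hE1
  set E2 := ((Ioc P x).filter Nat.Prime).biUnion (fun p => (Icc 1 x).filter (fun m => p ∣ m))
    with hE2
  set E3 := (Icc 1 x).filter (fun m => lam < |sa (aP G P) m - mu (aP G P) x|) with hE3
  have hxR : (0 : ℝ) < x := by exact_mod_cast hx
  have hsub : (Icc 1 x).filter (fun m => 2 * K * τ + lam < |G m - mu (wt G) (min x P)|) ⊆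
      E1 ∪ E2 ∪ E3 := by
    intro m hm
    rw [mem_filter] at hm
    by_contra hc
    rw [mem_union, mem_union, not_or, not_or] at hc
    obtain ⟨⟨c1, c2⟩, c3⟩ := hc
    have d1 : |G m - sa (wt G) m| ≤ 2 * K * τ := by
      by_contra h
      exact c1 (mem_filter.2 ⟨hm.1, not_le.1 h⟩)
    have d3 : |sa (aP G P) m - mu (aP G P) x| ≤ lam := by
      by_contra h
      exact c3 (mem_filter.2 ⟨hm.1, not_le.1 h⟩)
    have d2 : sa (aP G P) m = sa (wt G) m := by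
      unfold sa
      refine sum_congr rfl fun p hp => ?_
      unfold aP
      rw [if_pos]
      by_contra h
      apply c2
      have hp1 := Nat.mem_primeFactors.1 hp
      have hm1 := mem_Icc.1 hm.1
      rw [mem_biUnion]
      refine ⟨p, mem_filter.2 ⟨mem_Ioc.2 ⟨not_le.1 h, ?_⟩, hp1.1⟩, mem_filter.2 ⟨hm.1, hp1.2.1⟩⟩
      exact (Nat.le_of_dvd (by omega) hp1.2.1).trans hm1.2
    rw [d2, mu_aP] at d3
    have := abs_sub_le (G m) (sa (wt G) m) (mu (wt G) (min x P))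
    linarith [hm.2]
  have k1 : (E1.card : ℝ) ≤ x * (bad G x + CA / Real.sqrt K) := hA G x K τ hG hx hK hsm
  have k2 : (E2.card : ℝ) ≤ x * ms P x := by
    calc (E2.card : ℝ) ≤ ((∑ p ∈ (Ioc P x).filter Nat.Prime,
        ((Icc 1 x).filter (fun m => p ∣ m)).card : ℕ) : ℝ) := by
          exact_mod_cast card_biUnion_le
      _ ≤ ∑ p ∈ (Ioc P x).filter Nat.Prime, (x : ℝ) / p := by
          push_cast
          exact sum_le_sum fun p _ => card_dvd_le x p
      _ = x * ms P x := by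
          unfold ms
          rw [mul_sum]
          exact sum_congr rfl fun p _ => by ring
  have k3 : (E3.card : ℝ) ≤ x * (C₂ * DD G P / lam ^ 2) := by
    have e1 : (E3.card : ℝ) * lam ^ 2 ≤ ∑ n ∈ Icc 1 x, (sa (aP G P) n - mu (aP G P) x) ^ 2 := by
      calc (E3.card : ℝ) * lam ^ 2 = ∑ n ∈ E3, lam ^ 2 := by rw [sum_const, nsmul_eq_mul]
        _ ≤ ∑ n ∈ E3, (sa (aP G P) n - mu (aP G P) x) ^ 2 := by
            refine sum_le_sum fun n hn => ?_
            rw [← sq_abs (sa (aP G P) n - _)]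
            exact pow_le_pow_left₀ hl.le (mem_filter.1 hn).2.le 2
        _ ≤ _ := sum_le_sum_of_subset_of_nonneg (filter_subset _ _) fun n _ _ => sq_nonneg _
    have e2 := h2 x (aP G P) hx
    unfold Ex at e2
    rw [div_le_iff₀ hxR] at e2
    have e3 := sum_aP_sq_le G P x
    have e4 : C₂ * (∑ p ∈ Pr x, (aP G P p) ^ 2 / (p : ℝ)) * x ≤ C₂ * DD G P * x := by gcongr
    have e5 : (E3.card : ℝ) * lam ^ 2 ≤ C₂ * DD G P * x := e1.trans (e2.trans e4)
    rw [← le_div_iff₀ (by positivity)] at e5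
    refine e5.trans (le_of_eq ?_)
    ring
  have k4 := bad_le G P x
  calc (((Icc 1 x).filter (fun m => 2 * K * τ + lam < |G m - mu (wt G) (min x P)|)).card : ℝ)
      ≤ ((E1 ∪ E2 ∪ E3).card : ℝ) := by exact_mod_cast card_le_card hsub
    _ ≤ (E1.card : ℝ) + E2.card + E3.card := by
        have := card_union_le (E1 ∪ E2) E3
        have := card_union_le E1 E2
        exact_mod_cast (by omega : (E1 ∪ E2 ∪ E3).card ≤ E1.card + E2.card + E3.card)
    _ ≤ x * (bad G x + CA / Real.sqrt K) + x * ms P x + x * (C₂ * DD G P / lam ^ 2) := by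
        linarith
    _ ≤ _ := by
        have : x * bad G x ≤ x * (DD G P + ms P x) := by gcongr
        nlinarith

lemma abs_cl_le {M x : ℝ} (hM : 0 ≤ M) : |cl M x| ≤ |x| := by
  have h := cl_lip (M := M) (x := x) (y := 0)
  have h0 : cl M 0 = 0 := cl_of_abs_le (by simpa using hM)
  rwa [h0, sub_zero, sub_zero] at h

/-- the test function -/
noncomputable def gg (G : ℕ → ℝ) (A k : ℝ) (n : ℕ) : ℝ := max 0 (1 - |cl 1 (G n - A)| / k)

lemma gg_nonneg (G : ℕ → ℝ) (A k : ℝ) (n : ℕ) : 0 ≤ gg G A k n := le_max_left _ _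

lemma gg_le_one {G : ℕ → ℝ} {A k : ℝ} (hk : 0 < k) (n : ℕ) : gg G A k n ≤ 1 := by
  unfold gg
  refine max_le zero_le_one ?_
  have : 0 ≤ |cl 1 (G n - A)| / k := by positivity
  linarith

lemma gg_abs_le {G : ℕ → ℝ} {A k : ℝ} (hk : 0 < k) (n : ℕ) : |gg G A k n| ≤ 1 := by
  rw [abs_of_nonneg (gg_nonneg G A k n)]
  exact gg_le_one hk n

lemma gg_diff {G : ℕ → ℝ} {A k : ℝ} (hk : 0 < k) (n m : ℕ) :
    |gg G A k n - gg G A k m| ≤ |cl 1 (G n - A) - cl 1 (G m - A)| / k := by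
  unfold gg
  refine (abs_max_sub_max_le_max _ _ _ _).trans ?_
  rw [sub_self, abs_zero]
  refine max_le (by positivity) ?_
  have h1 : 1 - |cl 1 (G n - A)| / k - (1 - |cl 1 (G m - A)| / k) =
      (|cl 1 (G m - A)| - |cl 1 (G n - A)|) / k := by ring
  rw [h1, abs_div, abs_of_pos hk]
  refine div_le_div_of_nonneg_right ?_ hk.le
  rw [abs_sub_comm (cl 1 (G n - A))]
  exact abs_abs_sub_abs_le _ _

lemma gg_ge {G : ℕ → ℝ} {A k r : ℝ} (hk : 0 < k) {n : ℕ} (h : |G n - A| ≤ r) :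
    1 - r / k ≤ gg G A k n := by
  unfold gg
  refine le_trans ?_ (le_max_right _ _)
  have h1 : |cl 1 (G n - A)| / k ≤ r / k :=
    div_le_div_of_nonneg_right ((abs_cl_le zero_le_one).trans h) hk.le
  linarith

lemma gg_zero {G : ℕ → ℝ} {A k : ℝ} (hk : 0 < k) (hk1 : k ≤ 1) {n : ℕ} (h : k ≤ |G n - A|) :
    gg G A k n = 0 := by
  unfold gg
  refine max_eq_left ?_
  have h1 : 1 ≤ |cl 1 (G n - A)| / k := by
    rw [le_div_iff₀ hk, one_mul]
    exact le_abs_cl hk1 h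
  linarith

/-- the bulk of the values lies near `A` -/
lemma step3 {G : ℕ → ℝ} {N p : ℕ} {A k3 k4 k2 δ : ℝ} (hG : Addf G) (hp : p.Prime)
    (hk2 : 0 < k2) (hk2' : k2 ≤ 1) (hk3 : k3 + k4 ≤ 2 * δ * k2) (hk3' : k3 ≤ δ) (hδ : 0 < δ)
    (hδ' : δ ≤ 1 / 20) (hGp : |G p| ≤ k3) (hcp : |cp N (gg G A k2) p| ≤ k3)
    (hp1 : 1 ≤ δ * p) (hpN : (p : ℝ) ≤ δ * N) (hN : 1 ≤ N)
    (hE : (((Icc 1 (N / p)).filter (fun m => k4 < |G m - A|)).card : ℝ) ≤
      ((N / p : ℕ) : ℝ) * (8 * δ)) :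
    (((Icc 1 N).filter (fun n => k2 ≤ |G n - A|)).card : ℝ) ≤ 13 * δ * N := by
  classical
  set y := N / p with hy
  have hNR : (0 : ℝ) < N := by exact_mod_cast hN
  have hpR : (0 : ℝ) < p := by exact_mod_cast hp.pos
  set Gd := (Icc 1 y).filter (fun m => |G m - A| ≤ k4 ∧ ¬ p ∣ m) with hGd
  have h1 : (y : ℝ) ≤ Gd.card + y * (8 * δ) + y / p := by
    have hsub : Icc 1 y ⊆ Gd ∪ (Icc 1 y).filter (fun m => k4 < |G m - A|) ∪
        (Icc 1 y).filter (fun m => p ∣ m) := by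
      intro m hm
      rw [mem_union, mem_union, mem_filter, mem_filter, mem_filter]
      by_cases h1 : p ∣ m
      · exact Or.inr ⟨hm, h1⟩
      · rcases le_or_gt (|G m - A|) k4 with h2 | h2
        · exact Or.inl (Or.inl ⟨hm, h2, h1⟩)
        · exact Or.inl (Or.inr ⟨hm, h2⟩)
    have h2 := card_le_card hsub
    rw [Nat.card_Icc, Nat.add_sub_cancel] at h2
    have h3 := card_union_le (Gd ∪ (Icc 1 y).filter (fun m => k4 < |G m - A|))
      ((Icc 1 y).filter (fun m => p ∣ m))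
    have h4 := card_union_le Gd ((Icc 1 y).filter (fun m => k4 < |G m - A|))
    have h5 := card_dvd_le y p
    have h6 : (y : ℝ) ≤ Gd.card + ((Icc 1 y).filter (fun m => k4 < |G m - A|)).card +
        ((Icc 1 y).filter (fun m => p ∣ m)).card := by
      exact_mod_cast (by omega : y ≤ Gd.card + ((Icc 1 y).filter (fun m => k4 < |G m - A|)).card +
        ((Icc 1 y).filter (fun m => p ∣ m)).card)
    linarith
  have h2 : (y : ℝ) / p ≤ δ * y := by
    rw [div_le_iff₀ hpR]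
    have : (0 : ℝ) ≤ y := Nat.cast_nonneg _
    nlinarith
  have h3 : (1 - 9 * δ) * y ≤ Gd.card := by linarith
  have h4 : (1 - 2 * δ) * Gd.card ≤ ∑ m ∈ Icc 1 y, gg G A k2 (p * m) := by
    calc (1 - 2 * δ) * Gd.card = ∑ m ∈ Gd, (1 - 2 * δ) := by
          rw [sum_const, nsmul_eq_mul, mul_comm]
      _ ≤ ∑ m ∈ Gd, gg G A k2 (p * m) := by
          refine sum_le_sum fun m hm => ?_
          rw [hGd, mem_filter, mem_Icc] at hm
          have hc : Nat.Coprime p m := (Nat.Prime.coprime_iff_not_dvd hp).2 hm.2.2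
          have e1 : |G (p * m) - A| ≤ k3 + k4 := by
            rw [hG p m hp.one_le hm.1.1 hc]
            calc |G p + G m - A| = |G p + (G m - A)| := by ring_nf
              _ ≤ |G p| + |G m - A| := abs_add_le _ _
              _ ≤ _ := by linarith [hm.2.1]
          refine le_trans ?_ (gg_ge hk2 e1)
          have : (k3 + k4) / k2 ≤ 2 * δ := by rwa [div_le_iff₀ hk2]
          linarith
      _ ≤ _ := sum_le_sum_of_subset_of_nonneg (filter_subset _ _) fun m _ _ => gg_nonneg _ _ _ _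
  have h5 : (1 - δ) * N ≤ p * y := by
    have : N < p * (y + 1) := by
      rw [hy]
      exact Nat.lt_mul_div_succ N hp.pos
    have : (N : ℝ) < p * (y + 1) := by exact_mod_cast this
    linarith
  have h6 : 1 - 12 * δ ≤ (p : ℝ) / N * ∑ m ∈ Icc 1 y, gg G A k2 (p * m) := by
    have hy0 : (0 : ℝ) ≤ y := Nat.cast_nonneg _
    have e1 : (1 - 2 * δ) * ((1 - 9 * δ) * y) ≤ ∑ m ∈ Icc 1 y, gg G A k2 (p * m) := by
      refine le_trans ?_ h4
      exact mul_le_mul_of_nonneg_left h3 (by linarith)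
    have e2 : (p : ℝ) / N * ((1 - 2 * δ) * ((1 - 9 * δ) * y)) ≤
        (p : ℝ) / N * ∑ m ∈ Icc 1 y, gg G A k2 (p * m) :=
      mul_le_mul_of_nonneg_left e1 (by positivity)
    have e3 : (p : ℝ) / N * ((1 - 2 * δ) * ((1 - 9 * δ) * y)) =
        (1 - 2 * δ) * (1 - 9 * δ) * (p * y / N) := by ring
    have e4 : 1 - δ ≤ p * y / N := by rwa [le_div_iff₀ hNR]
    have e5 : (1 - 2 * δ) * (1 - 9 * δ) * (1 - δ) ≤ (1 - 2 * δ) * (1 - 9 * δ) * (p * y / N) := by
      refine mul_le_mul_of_nonneg_left e4 ?_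
      have : 0 ≤ 1 - 2 * δ := by linarith
      have : 0 ≤ 1 - 9 * δ := by linarith
      positivity
    have e6 : 1 - 12 * δ ≤ (1 - 2 * δ) * (1 - 9 * δ) * (1 - δ) := by
      nlinarith [mul_pos hδ hδ, mul_pos (mul_pos hδ hδ) hδ]
    linarith
  have h7 : 1 - 13 * δ ≤ Ex N (gg G A k2) := by
    unfold cp at hcp
    rw [abs_le] at hcp
    linarith [hcp.2]
  have h8 : ∑ n ∈ Icc 1 N, gg G A k2 n ≤
      N - ((Icc 1 N).filter (fun n => k2 ≤ |G n - A|)).card := by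
    have e1 : ∑ n ∈ Icc 1 N, gg G A k2 n =
        ∑ n ∈ (Icc 1 N).filter (fun n => k2 ≤ |G n - A|), gg G A k2 n +
        ∑ n ∈ (Icc 1 N).filter (fun n => ¬ k2 ≤ |G n - A|), gg G A k2 n :=
      (sum_filter_add_sum_filter_not _ _ _).symm
    have e2 : ∑ n ∈ (Icc 1 N).filter (fun n => k2 ≤ |G n - A|), gg G A k2 n = 0 :=
      sum_eq_zero fun n hn => gg_zero hk2 hk2' (mem_filter.1 hn).2
    have e3 : ∑ n ∈ (Icc 1 N).filter (fun n => ¬ k2 ≤ |G n - A|), gg G A k2 n ≤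
        ((Icc 1 N).filter (fun n => ¬ k2 ≤ |G n - A|)).card := by
      calc _ ≤ ∑ n ∈ (Icc 1 N).filter (fun n => ¬ k2 ≤ |G n - A|), (1 : ℝ) :=
            sum_le_sum fun n _ => gg_le_one hk2 n
        _ = _ := by simp
    have e4 : (N : ℝ) = ((Icc 1 N).filter (fun n => k2 ≤ |G n - A|)).card +
        ((Icc 1 N).filter (fun n => ¬ k2 ≤ |G n - A|)).card := by
      have := card_filter_add_card_filter_not (s := Icc 1 N) (fun n => k2 ≤ |G n - A|)
      rw [Nat.card_Icc, Nat.add_sub_cancel] at this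
      exact_mod_cast this.symm
    linarith
  unfold Ex at h7
  rw [le_div_iff₀ hNR] at h7
  linarith

/-- the large primes with large values have small mass -/
lemma step4 {G : ℕ → ℝ} {N P : ℕ} {A k2 δ : ℝ} (hG : Addf G) (hk2 : 0 < k2)
    (hδ : 0 < δ) (hδ' : δ ≤ 1 / 20) (hN : 1 ≤ N) (Q : Finset ℕ)
    (hQ : ∀ q ∈ Q, q.Prime ∧ P < q ∧ N / q ≤ P ∧ q ≤ N ∧ 3 * k2 < |G q| ∧
      (((Icc 1 (N / q)).filter (fun m => k2 < |G m - A|)).card : ℝ) ≤ ((N / q : ℕ) : ℝ) * (3 * δ))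
    (hE : (((Icc 1 N).filter (fun n => k2 ≤ |G n - A|)).card : ℝ) ≤ 13 * δ * N) :
    ∑ q ∈ Q, (1 : ℝ) / q ≤ 31 * δ := by
  classical
  have hNR : (0 : ℝ) < N := by exact_mod_cast hN
  set T : ℕ → Finset ℕ := fun q => ((Icc 1 (N / q)).filter (fun m => |G m - A| ≤ k2)).image
    (fun m => q * m) with hT
  have hTcard : ∀ q ∈ Q, (1 - 3 * δ) * (N / (2 * q)) ≤ ((T q).card : ℝ) := by
    intro q hq
    obtain ⟨h1, h2, h3, h4, h5, h6⟩ := hQ q hq
    have hqR : (0 : ℝ) < q := by exact_mod_cast h1.pos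
    have e1 : (T q).card = ((Icc 1 (N / q)).filter (fun m => |G m - A| ≤ k2)).card := by
      rw [hT]
      refine card_image_of_injective _ fun a b hab => ?_
      exact Nat.eq_of_mul_eq_mul_left h1.pos hab
    have e2 : ((N / q : ℕ) : ℝ) = ((Icc 1 (N / q)).filter (fun m => |G m - A| ≤ k2)).card +
        ((Icc 1 (N / q)).filter (fun m => k2 < |G m - A|)).card := by
      have := card_filter_add_card_filter_not (s := Icc 1 (N / q)) (fun m => |G m - A| ≤ k2)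
      rw [Nat.card_Icc, Nat.add_sub_cancel] at this
      have h7 : (Icc 1 (N / q)).filter (fun m => ¬ |G m - A| ≤ k2) =
          (Icc 1 (N / q)).filter (fun m => k2 < |G m - A|) := by
        refine filter_congr fun m _ => ?_
        exact not_le
      rw [h7] at this
      exact_mod_cast this.symm
    have e3 : (N : ℝ) / (2 * q) ≤ ((N / q : ℕ) : ℝ) := by
      rw [div_le_iff₀ (by positivity)]
      have a1 : N < q * (N / q + 1) := Nat.lt_mul_div_succ N h1.pos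
      have a2 : 1 ≤ N / q := (Nat.one_le_div_iff h1.pos).2 h4
      have a3 : N ≤ (N / q) * (2 * q) := by nlinarith
      exact_mod_cast a3
    rw [e1]
    have e4 : (1 - 3 * δ) * (N / (2 * q)) ≤ (1 - 3 * δ) * ((N / q : ℕ) : ℝ) :=
      mul_le_mul_of_nonneg_left e3 (by linarith)
    linarith
  have hTsub : Q.biUnion T ⊆ (Icc 1 N).filter (fun n => k2 ≤ |G n - A|) := by
    intro n hn
    rw [mem_biUnion] at hn
    obtain ⟨q, hq, hn⟩ := hn
    rw [hT] at hn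
    simp only [mem_image, mem_filter, mem_Icc] at hn
    obtain ⟨m, ⟨⟨hm1, hm2⟩, hm3⟩, rfl⟩ := hn
    obtain ⟨h1, h2, h3, h4, h5, h6⟩ := hQ q hq
    rw [mem_filter, mem_Icc]
    have hc : Nat.Coprime q m := by
      rw [Nat.Prime.coprime_iff_not_dvd h1]
      intro hd
      have := Nat.le_of_dvd (by omega) hd
      omega
    refine ⟨⟨Nat.mul_pos h1.pos (by omega), ?_⟩, ?_⟩
    · calc q * m ≤ q * (N / q) := Nat.mul_le_mul_left _ hm2
        _ ≤ N := Nat.mul_div_le N q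
    · rw [hG q m h1.one_le hm1 hc]
      have : |G q| ≤ |G q + G m - A| + |G m - A| := by
        calc |G q| = |(G q + G m - A) - (G m - A)| := by ring_nf
          _ ≤ _ := abs_sub _ _
      linarith
  have hdisj : ∀ q ∈ Q, ∀ q' ∈ Q, q ≠ q' → Disjoint (T q) (T q') := by
    intro q hq q' hq' hne
    rw [disjoint_left]
    intro n hn hn'
    rw [hT] at hn hn'
    simp only [mem_image, mem_filter, mem_Icc] at hn hn'
    obtain ⟨m, ⟨⟨hm1, hm2⟩, hm3⟩, rfl⟩ := hn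
    obtain ⟨m', ⟨⟨hm1', hm2'⟩, hm3'⟩, he⟩ := hn'
    obtain ⟨h1, h2, h3, h4, h5, h6⟩ := hQ q hq
    obtain ⟨h1', h2', h3', h4', h5', h6'⟩ := hQ q' hq'
    have hd : q' ∣ q * m := by rw [← he]; exact dvd_mul_right _ _
    have hd2 : q' ∣ m := by
      refine (Nat.Coprime.dvd_of_dvd_mul_left ?_ hd)
      exact (Nat.coprime_primes h1' h1).2 (Ne.symm hne)
    have := Nat.le_of_dvd (by omega) hd2
    omega
  have hsum : ∑ q ∈ Q, ((T q).card : ℝ) ≤ 13 * δ * N := by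
    refine le_trans ?_ hE
    rw [← Nat.cast_sum, ← card_biUnion hdisj]
    exact_mod_cast card_le_card hTsub
  have h1 : (1 - 3 * δ) * (N / 2) * ∑ q ∈ Q, (1 : ℝ) / q ≤ 13 * δ * N := by
    refine le_trans ?_ hsum
    rw [mul_sum]
    refine sum_le_sum fun q hq => ?_
    refine le_trans (le_of_eq ?_) (hTcard q hq)
    have hqR : (0 : ℝ) < q := by exact_mod_cast (hQ q hq).1.pos
    field_simp
  have hS0 : 0 ≤ ∑ q ∈ Q, (1 : ℝ) / q := sum_nonneg fun q _ => by positivity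
  have h2 : (1 - 3 * δ) * ∑ q ∈ Q, (1 : ℝ) / q ≤ 26 * δ := by
    have : N * ((1 - 3 * δ) * ∑ q ∈ Q, (1 : ℝ) / q) ≤ N * (26 * δ) := by linarith
    exact le_of_mul_le_mul_left this hNR
  nlinarith

/-- the Mertens estimate used below -/
def Mert (C : ℝ) : Prop := ∀ a b : ℕ, 2 ≤ a → a ≤ b →
    |∑ p ∈ (Finset.Ioc a b).filter Nat.Prime, (1 : ℝ) / p
      - Real.log (Real.log b / Real.log a)| ≤ C / Real.log a

lemma ms_le_of {C : ℝ} (hM : Mert C) (hC : 0 ≤ C) {a b : ℕ} (ha : 2 ≤ a) {t : ℝ} (ht : 0 ≤ t)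
    (h : Real.log b ≤ (1 + t) * Real.log a) : ms a b ≤ t + C / Real.log a := by
  have hla : 0 < Real.log a := Real.log_pos (by exact_mod_cast (by omega : 1 < a))
  rcases le_total b a with hab | hab
  · rw [ms_zero hab]
    positivity
  · have h1 := hM a b ha hab
    rw [abs_le] at h1
    have hlb : 0 < Real.log b := Real.log_pos (by exact_mod_cast (by omega : 1 < b))
    have h2 : Real.log b / Real.log a ≤ 1 + t := by rwa [div_le_iff₀ hla]
    have h3 : Real.log (Real.log b / Real.log a) ≤ t := by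
      have := Real.log_le_sub_one_of_pos (x := Real.log b / Real.log a) (by positivity)
      linarith
    have h4 : ms a b = ∑ p ∈ (Finset.Ioc a b).filter Nat.Prime, (1 : ℝ) / p := rfl
    rw [h4]
    linarith [h1.2]

lemma ms_ge_of {C : ℝ} (hM : Mert C) {a b : ℕ} (ha : 2 ≤ a) (hab : a ≤ b) {t : ℝ}
    (h : Real.log a ≤ (1 - t) * Real.log b) : t - C / Real.log a ≤ ms a b := by
  have hla : 0 < Real.log a := Real.log_pos (by exact_mod_cast (by omega : 1 < a))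
  have hlb : 0 < Real.log b := Real.log_pos (by exact_mod_cast (by omega : 1 < b))
  have h1 := hM a b ha hab
  rw [abs_le] at h1
  have h2 : Real.log a / Real.log b ≤ 1 - t := by rwa [div_le_iff₀ hlb]
  have h3 : t ≤ Real.log (Real.log b / Real.log a) := by
    have h4 := Real.log_le_sub_one_of_pos (x := Real.log a / Real.log b) (by positivity)
    have h5 : Real.log (Real.log b / Real.log a) = - Real.log (Real.log a / Real.log b) := by
      rw [← Real.log_inv, inv_div]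
    rw [h5]
    linarith
  have h4 : ms a b = ∑ p ∈ (Finset.Ioc a b).filter Nat.Prime, (1 : ℝ) / p := rfl
  rw [h4]
  linarith [h1.1]

/-- mass of the primes in `(a, P]` with a large value of `u` -/
lemma mass_large {P a : ℕ} {u : ℕ → ℝ} {k D : ℝ} (hk : 0 < k)
    (hu : ∑ p ∈ Pr P, 1 / (p : ℝ) * (u p) ^ 2 ≤ D) :
    ∑ p ∈ ((Ioc a P).filter Nat.Prime).filter (fun p => k < |u p|), (1 : ℝ) / p ≤ D / k ^ 2 := by
  rw [le_div_iff₀ (by positivity), sum_mul]
  refine le_trans ?_ hu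
  calc ∑ p ∈ ((Ioc a P).filter Nat.Prime).filter (fun p => k < |u p|), (1 : ℝ) / p * k ^ 2
      ≤ ∑ p ∈ ((Ioc a P).filter Nat.Prime).filter (fun p => k < |u p|),
        1 / (p : ℝ) * (u p) ^ 2 := by
        refine sum_le_sum fun p hp => ?_
        have h := (mem_filter.1 hp).2
        refine mul_le_mul_of_nonneg_left ?_ (by positivity)
        rw [← sq_abs (u p)]
        exact pow_le_pow_left₀ hk.le h.le 2
    _ ≤ _ := by
        refine sum_le_sum_of_subset_of_nonneg ?_ fun p _ _ => by positivity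
        intro p hp
        rw [mem_filter, mem_filter, mem_Ioc] at hp
        rw [mem_filter, mem_Icc]
        exact ⟨⟨by omega, hp.1.1.2⟩, hp.1.2⟩

/-- the same with the truncated squares -/
lemma mass_large' {P a : ℕ} {G : ℕ → ℝ} {k : ℝ} (hk : 0 < k) (hk1 : k ≤ 1) :
    ∑ p ∈ ((Ioc a P).filter Nat.Prime).filter (fun p => k < |G p|), (1 : ℝ) / p ≤
      DD G P / k ^ 2 := by
  rw [le_div_iff₀ (by positivity), sum_mul]
  unfold DD
  calc ∑ p ∈ ((Ioc a P).filter Nat.Prime).filter (fun p => k < |G p|), (1 : ℝ) / p * k ^ 2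
      ≤ ∑ p ∈ ((Ioc a P).filter Nat.Prime).filter (fun p => k < |G p|),
        min 1 ((G p) ^ 2) / (p : ℝ) := by
        refine sum_le_sum fun p hp => ?_
        have h := (mem_filter.1 hp).2
        rw [div_mul_eq_mul_div, one_mul]
        refine div_le_div_of_nonneg_right ?_ (Nat.cast_nonneg _)
        refine le_min (by nlinarith) ?_
        rw [← sq_abs (G p)]
        exact pow_le_pow_left₀ hk.le h.le 2
    _ ≤ _ := by
        refine sum_le_sum_of_subset_of_nonneg ?_ fun p _ _ => min_nonneg G p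
        intro p hp
        rw [mem_filter, mem_filter, mem_Ioc] at hp
        rw [mem_filter, mem_Icc]
        exact ⟨⟨by omega, hp.1.1.2⟩, hp.1.2⟩

/-- the choice of a good prime -/
lemma choose_p {a P : ℕ} {G u : ℕ → ℝ} {k κ η : ℝ} (hk : 0 < k) (hk1 : k ≤ 1)
    (hG : DD G P ≤ κ) (hu : ∑ p ∈ Pr P, 1 / (p : ℝ) * (u p) ^ 2 ≤ η)
    (hms : κ / k ^ 2 + η / k ^ 2 < ms a P) :
    ∃ p : ℕ, p.Prime ∧ a < p ∧ p ≤ P ∧ |G p| ≤ k ∧ |u p| ≤ k := by
  by_contra hcon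
  push Not at hcon
  have h1 := mass_large (a := a) hk hu
  have h2 := mass_large' (a := a) (P := P) (G := G) hk hk1
  have h3 : DD G P / k ^ 2 ≤ κ / k ^ 2 := div_le_div_of_nonneg_right hG (by positivity)
  have h4 : ms a P ≤
      ∑ p ∈ ((Ioc a P).filter Nat.Prime).filter (fun p => k < |u p|), (1 : ℝ) / p +
      ∑ p ∈ ((Ioc a P).filter Nat.Prime).filter (fun p => k < |G p|), (1 : ℝ) / p := by
    rw [← sum_union_inter]
    refine le_trans ?_ (le_add_of_nonneg_right (sum_nonneg fun p _ => by positivity))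
    unfold ms
    refine sum_le_sum_of_subset_of_nonneg ?_ fun p _ _ => by positivity
    intro p hp
    have hp' := hp
    rw [mem_filter, mem_Ioc] at hp'
    rw [mem_union]
    by_cases hc : |G p| ≤ k
    · exact Or.inl (mem_filter.2 ⟨hp, hcon p hp'.2 hp'.1.1 hp'.1.2 hc⟩)
    · exact Or.inr (mem_filter.2 ⟨hp, not_le.1 hc⟩)
  linarith

/-- the means at comparable scales are close -/
lemma mu_close {G : ℕ → ℝ} {x P : ℕ} {κ L : ℝ} (hx : x ≤ P) (hG : DD G P ≤ κ)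
    (hL : ms x P ≤ L) (hκ : 0 ≤ κ) : (mu (wt G) x - mu (wt G) P) ^ 2 ≤ κ * L := by
  have h1 : mu (wt G) P = mu (wt G) x + ∑ p ∈ (Ioc x P).filter Nat.Prime, wt G p / p := by
    unfold mu
    rw [← sum_union]
    · refine sum_congr ?_ fun _ _ => rfl
      ext p
      simp only [mem_union, mem_filter, mem_Icc, mem_Ioc]
      constructor
      · rintro ⟨⟨h1, h2⟩, h3⟩
        rcases le_or_gt p x with h | h
        · exact Or.inl ⟨⟨h1, h⟩, h3⟩
        · exact Or.inr ⟨⟨h, h2⟩, h3⟩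
      · rintro (⟨⟨h1, h2⟩, h3⟩ | ⟨⟨h1, h2⟩, h3⟩)
        · exact ⟨⟨h1, by omega⟩, h3⟩
        · exact ⟨⟨by omega, h2⟩, h3⟩
    · rw [disjoint_left]
      intro p hp hp'
      rw [mem_filter, mem_Icc] at hp
      rw [mem_filter, mem_Ioc] at hp'
      omega
  have h2 : (∑ p ∈ (Ioc x P).filter Nat.Prime, wt G p / p) ^ 2 ≤
      (∑ p ∈ (Ioc x P).filter Nat.Prime, (wt G p) ^ 2 / p) *
      ∑ p ∈ (Ioc x P).filter Nat.Prime, (1 : ℝ) / p := by
    have h := sum_mul_sq_le_sq_mul_sq ((Ioc x P).filter Nat.Prime)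
      (fun p => wt G p / Real.sqrt p) (fun p => 1 / Real.sqrt p)
    have e1 : ∀ p : ℕ, Real.sqrt p * Real.sqrt p = p := fun p =>
      Real.mul_self_sqrt (Nat.cast_nonneg p)
    have e2 : ∑ p ∈ (Ioc x P).filter Nat.Prime, wt G p / Real.sqrt p * (1 / Real.sqrt p) =
        ∑ p ∈ (Ioc x P).filter Nat.Prime, wt G p / p := by
      refine sum_congr rfl fun p _ => ?_
      rw [div_mul_div_comm, mul_one, e1]
    have e3 : ∑ p ∈ (Ioc x P).filter Nat.Prime, (wt G p / Real.sqrt p) ^ 2 =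
        ∑ p ∈ (Ioc x P).filter Nat.Prime, (wt G p) ^ 2 / p := by
      refine sum_congr rfl fun p _ => ?_
      rw [div_pow, sq (Real.sqrt (p : ℝ)), e1]
    have e4 : ∑ p ∈ (Ioc x P).filter Nat.Prime, (1 / Real.sqrt (p : ℝ)) ^ 2 =
        ∑ p ∈ (Ioc x P).filter Nat.Prime, (1 : ℝ) / p := by
      refine sum_congr rfl fun p _ => ?_
      rw [div_pow, one_pow, sq (Real.sqrt (p : ℝ)), e1]
    rw [e2, e3, e4] at h
    exact h
  have h3 : ∑ p ∈ (Ioc x P).filter Nat.Prime, (wt G p) ^ 2 / p ≤ κ := by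
    refine le_trans ?_ hG
    unfold DD
    calc ∑ p ∈ (Ioc x P).filter Nat.Prime, (wt G p) ^ 2 / p
        ≤ ∑ p ∈ (Ioc x P).filter Nat.Prime, min 1 ((G p) ^ 2) / (p : ℝ) :=
          sum_le_sum fun p _ => div_le_div_of_nonneg_right (wt_sq_le G p) (Nat.cast_nonneg _)
      _ ≤ _ := by
          refine sum_le_sum_of_subset_of_nonneg ?_ fun p _ _ => min_nonneg G p
          intro p hp
          rw [mem_filter, mem_Ioc] at hp
          rw [mem_filter, mem_Icc]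
          exact ⟨⟨by omega, hp.1.2⟩, hp.2⟩
  have h4 : (mu (wt G) x - mu (wt G) P) ^ 2 =
      (∑ p ∈ (Ioc x P).filter Nat.Prime, wt G p / p) ^ 2 := by
    rw [h1]; ring
  rw [h4]
  refine h2.trans ?_
  exact mul_le_mul h3 hL (ms_nonneg x P) hκ

lemma sum_union_le {s t : Finset ℕ} {f : ℕ → ℝ} (hf : ∀ i, 0 ≤ f i) :
    ∑ i ∈ s ∪ t, f i ≤ ∑ i ∈ s, f i + ∑ i ∈ t, f i := by
  rw [← sum_union_inter]
  exact le_add_of_nonneg_right (sum_nonneg fun i _ => hf i)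

/-- the decomposition of the truncated variance -/
lemma DD_split (G : ℕ → ℝ) (N P R : ℕ) (k : ℝ) :
    DD G N ≤ DD G P + ms P (N / (P + 1)) + ms R N +
      ∑ q ∈ (Ioc P N).filter (fun q => q.Prime ∧ N / q ≤ P ∧ q ≤ R ∧ k < |G q|), (1 : ℝ) / q +
      k ^ 2 * ms P N := by
  classical
  set F : ℕ → ℝ := fun q => min 1 ((G q) ^ 2) / (q : ℝ) with hF
  have hF0 : ∀ q, 0 ≤ F q := fun q => min_nonneg G q
  have hF1 : ∀ q, F q ≤ 1 / (q : ℝ) := fun q =>
    div_le_div_of_nonneg_right (min_le_left _ _) (Nat.cast_nonneg _)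
  set S1 := (Ioc P (N / (P + 1))).filter Nat.Prime
  set S2 := (Ioc R N).filter Nat.Prime
  set Q := (Ioc P N).filter (fun q => q.Prime ∧ N / q ≤ P ∧ q ≤ R ∧ k < |G q|)
  set S3 := ((Ioc P N).filter Nat.Prime).filter (fun q => |G q| ≤ k)
  have hsub : Pr N ⊆ Pr P ∪ S1 ∪ S2 ∪ Q ∪ S3 := by
    intro q hq
    rw [mem_filter, mem_Icc] at hq
    simp only [S1, S2, S3, Q, mem_union, mem_filter, mem_Icc, mem_Ioc]
    rcases le_or_gt q P with h1 | h1
    · exact Or.inl (Or.inl (Or.inl (Or.inl ⟨⟨hq.1.1, h1⟩, hq.2⟩)))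
    rcases le_or_gt q (N / (P + 1)) with h2 | h2
    · exact Or.inl (Or.inl (Or.inl (Or.inr ⟨⟨h1, h2⟩, hq.2⟩)))
    rcases le_or_gt q R with h3 | h3
    · rcases le_or_gt (|G q|) k with h4 | h4
      · exact Or.inr ⟨⟨⟨h1, hq.1.2⟩, hq.2⟩, h4⟩
      · refine Or.inl (Or.inr ⟨⟨h1, hq.1.2⟩, hq.2, ?_, h3, h4⟩)
        rw [Nat.div_lt_iff_lt_mul (by omega)] at h2
        have : N / q < P + 1 := by
          rw [Nat.div_lt_iff_lt_mul (by omega)]
          nlinarith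
        omega
    · exact Or.inl (Or.inl (Or.inr ⟨⟨h3, hq.1.2⟩, hq.2⟩))
  have e0 : DD G N ≤ ∑ q ∈ Pr P ∪ S1 ∪ S2 ∪ Q ∪ S3, F q :=
    sum_le_sum_of_subset_of_nonneg hsub fun q _ _ => hF0 q
  have e1 := sum_union_le (s := Pr P ∪ S1 ∪ S2 ∪ Q) (t := S3) hF0
  have e2 := sum_union_le (s := Pr P ∪ S1 ∪ S2) (t := Q) hF0
  have e3 := sum_union_le (s := Pr P ∪ S1) (t := S2) hF0
  have e4 := sum_union_le (s := Pr P) (t := S1) hF0
  have f1 : ∑ q ∈ S1, F q ≤ ms P (N / (P + 1)) := sum_le_sum fun q _ => hF1 q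
  have f2 : ∑ q ∈ S2, F q ≤ ms R N := sum_le_sum fun q _ => hF1 q
  have f3 : ∑ q ∈ Q, F q ≤ ∑ q ∈ Q, (1 : ℝ) / q := sum_le_sum fun q _ => hF1 q
  have f4 : ∑ q ∈ S3, F q ≤ k ^ 2 * ms P N := by
    unfold ms
    rw [mul_sum]
    calc ∑ q ∈ S3, F q ≤ ∑ q ∈ S3, k ^ 2 * (1 / (q : ℝ)) := by
          refine sum_le_sum fun q hq => ?_
          have h := (mem_filter.1 hq).2
          rw [hF, mul_one_div]
          refine div_le_div_of_nonneg_right ((min_le_right _ _).trans ?_) (Nat.cast_nonneg _)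
          rw [← sq_abs]
          exact pow_le_pow_left₀ (abs_nonneg _) h 2
      _ ≤ _ := sum_le_sum_of_subset_of_nonneg (filter_subset _ _) fun q _ _ => by positivity
  have f5 : ∑ q ∈ Pr P, F q = DD G P := rfl
  linarith

lemma floor_log {x : ℝ} (hx : 1 ≤ x) : 1 ≤ ⌊x⌋₊ ∧ (⌊x⌋₊ : ℝ) ≤ x ∧ x < (⌊x⌋₊ : ℝ) + 1 ∧
    Real.log x ≤ Real.log 2 + Real.log ⌊x⌋₊ := by
  have h1 : 1 ≤ ⌊x⌋₊ := Nat.floor_pos.2 hx
  have h2 : (⌊x⌋₊ : ℝ) ≤ x := Nat.floor_le (by linarith)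
  have h3 : x < (⌊x⌋₊ : ℝ) + 1 := Nat.lt_floor_add_one x
  have h4 : (1 : ℝ) ≤ ⌊x⌋₊ := by exact_mod_cast h1
  refine ⟨h1, h2, h3, ?_⟩
  rw [← Real.log_mul (by norm_num) (by positivity)]
  exact Real.log_le_log (by linarith) (by linarith)

lemma two_le_of_log {n : ℕ} (h : 0 < Real.log n) : 2 ≤ n := by
  by_contra hc
  interval_cases n
  · simp at h
  · simp at h

lemma lem_a {P : ℕ} {δ : ℝ} (hδ0 : 0 < δ) (hδ1 : δ ≤ 1 / 200) (hLP : 10 ≤ Real.log P) :
    ∃ a : ℕ, 2 ≤ a ∧ a ≤ P ∧ Real.log a ≤ (1 - δ) * Real.log P ∧ Real.log P / 2 ≤ Real.log a ∧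
      (P : ℝ) ^ (1 - δ) < a + 1 := by
  have hP2 : 2 ≤ P := two_le_of_log (by linarith)
  have hPR : (0 : ℝ) < P := by exact_mod_cast (by omega : 0 < P)
  have hP1R : (1 : ℝ) ≤ P := by exact_mod_cast (by omega : 1 ≤ P)
  have hlog2 : Real.log 2 < 0.7 := by have := Real.log_two_lt_d9; linarith
  obtain ⟨ha1, ha2, ha3, ha4⟩ := floor_log (x := (P : ℝ) ^ (1 - δ))
    (Real.one_le_rpow hP1R (by linarith))
  set a := ⌊(P : ℝ) ^ (1 - δ)⌋₊ with ha
  rw [Real.log_rpow hPR] at ha4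
  have haR : (0 : ℝ) < a := by exact_mod_cast ha1
  have hla1 : Real.log a ≤ (1 - δ) * Real.log P := by
    rw [← Real.log_rpow hPR]
    exact Real.log_le_log haR ha2
  have hla2 : Real.log P / 2 ≤ Real.log a := by nlinarith
  have ha22 : 2 ≤ a := two_le_of_log (by linarith)
  have haP : a ≤ P := by
    have h1 : (P : ℝ) ^ (1 - δ) ≤ (P : ℝ) ^ (1 : ℝ) :=
      Real.rpow_le_rpow_of_exponent_le hP1R (by linarith)
    rw [Real.rpow_one] at h1
    exact_mod_cast ha2.trans h1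
  exact ⟨a, ha22, haP, hla1, hla2, ha3⟩

lemma lem_R {N : ℕ} {x0 L : ℝ} (hN1 : 1 ≤ N) (hx00 : 0 < x0) (hx01 : x0 ≤ 1 / 20)
    (hLNx : 8 ≤ x0 * Real.log N) (hL : 2 * L ≤ Real.log N) (hL0 : 0 < L) :
    ∃ R : ℕ, 2 ≤ R ∧ (R : ℝ) ≤ (N : ℝ) ^ (1 - x0) ∧
      Real.log N ≤ (1 + 3 * x0) * Real.log R ∧ L ≤ Real.log R := by
  have hNR : (0 : ℝ) < N := by exact_mod_cast hN1
  have hlog2 : Real.log 2 < 0.7 := by have := Real.log_two_lt_d9; linarith
  obtain ⟨hr1, hr2, hr3, hr4⟩ := floor_log (x := (N : ℝ) ^ (1 - x0))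
    (Real.one_le_rpow (by exact_mod_cast hN1) (by linarith))
  set R := ⌊(N : ℝ) ^ (1 - x0)⌋₊ with hR
  rw [Real.log_rpow hNR] at hr4
  have hlR : (1 - 2 * x0) * Real.log N ≤ Real.log R := by linarith
  have hlR2 : L ≤ Real.log R := by nlinarith
  have hR2 : 2 ≤ R := two_le_of_log (by linarith)
  refine ⟨R, hR2, hr2, ?_, hlR2⟩
  have h0 : 0 ≤ Real.log N := by linarith
  have h1 : (1 + 3 * x0) * ((1 - 2 * x0) * Real.log N) ≤ (1 + 3 * x0) * Real.log R :=
    mul_le_mul_of_nonneg_left hlR (by positivity)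
  have h3 : Real.log N ≤ (1 + 3 * x0) * ((1 - 2 * x0) * Real.log N) := by
    have : 1 ≤ (1 + 3 * x0) * (1 - 2 * x0) := by nlinarith
    nlinarith
  linarith

lemma lem_x {N q : ℕ} {x0 L R : ℝ} (hN1 : 1 ≤ N) (hx00 : 0 < x0)
    (hLNx : 8 ≤ x0 * Real.log N) (hL : 2 * L ≤ Real.log N) (hq : 0 < q) (hqN : q ≤ N)
    (hqR : (q : ℝ) ≤ R) (hR : R ≤ (N : ℝ) ^ (1 - x0)) :
    x0 * L ≤ Real.log ((N / q : ℕ) : ℝ) := by
  have hNR : (0 : ℝ) < N := by exact_mod_cast hN1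
  have hlog2 : Real.log 2 < 0.7 := by have := Real.log_two_lt_d9; linarith
  have hx1 : 1 ≤ N / q := (Nat.one_le_div_iff hq).2 hqN
  have hqR' : (0 : ℝ) < q := by exact_mod_cast hq
  have hxR : (0 : ℝ) < ((N / q : ℕ) : ℝ) := by exact_mod_cast hx1
  have a1 : N < q * (N / q + 1) := Nat.lt_mul_div_succ N hq
  have a3 : N ≤ 2 * (q * (N / q)) := by nlinarith
  have a4 : (N : ℝ) ≤ 2 * (q * ((N / q : ℕ) : ℝ)) := by exact_mod_cast a3
  have a5 := Real.log_le_log hNR a4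
  rw [Real.log_mul (by norm_num) (by positivity),
    Real.log_mul (by positivity) (by positivity)] at a5
  have a6 : Real.log q ≤ (1 - x0) * Real.log N := by
    rw [← Real.log_rpow hNR]
    exact Real.log_le_log hqR' (hqR.trans hR)
  have a7 : x0 * (2 * L) ≤ x0 * Real.log N := mul_le_mul_of_nonneg_left hL hx00.le
  linarith

lemma lem_b {N P b : ℕ} {t : ℝ} (hP : 1 ≤ P) (hb : b * P ≤ N)
    (hLN : Real.log N ≤ (1 + t) * Real.log P) (ht : 1 ≤ t) : Real.log b ≤ t * Real.log P := by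
  have hPR : (0 : ℝ) < P := by exact_mod_cast hP
  have hlP : 0 ≤ Real.log P := Real.log_nonneg (by exact_mod_cast hP)
  rcases Nat.eq_zero_or_pos b with h | h
  · rw [h, Nat.cast_zero, Real.log_zero]
    positivity
  · have hbR : (0 : ℝ) < (b : ℝ) := by exact_mod_cast h
    have h3 : Real.log ((b : ℝ) * P) ≤ Real.log N :=
      Real.log_le_log (by positivity) (by exact_mod_cast hb)
    rw [Real.log_mul (by positivity) (by positivity)] at h3
    linarith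

lemma log_le_nat (n : ℕ) : Real.log n ≤ n := by
  rcases Nat.eq_zero_or_pos n with h | h
  · subst h; simp
  · have := Real.log_le_sub_one_of_pos (x := (n : ℝ)) (by exact_mod_cast h)
    linarith

lemma lem_f {κ₁ δ x0 k2 κ C L LR m1 m2 m3 S D DP : ℝ} (hδ : δ = κ₁ / 200) (hx0 : x0 = κ₁ / 20)
    (hk1 : 0 < κ₁) (hk1' : κ₁ ≤ 1)
    (hk2 : k2 ^ 2 = κ₁ / 100) (hκ : κ ≤ δ) (hL : C / L ≤ δ / 8) (hR : C / LR ≤ C / L)
    (h1 : m1 ≤ δ + C / L) (h2 : m2 ≤ 3 * x0 + C / LR) (h3 : m3 ≤ (1 + δ) + C / L)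
    (hS : S ≤ 31 * δ) (hDP : DP ≤ κ) (h : D ≤ DP + m1 + m2 + S + (3 * k2) ^ 2 * m3) : D ≤ κ₁ := by
  have e5 : (3 * k2) ^ 2 * m3 ≤ 9 * (κ₁ / 100) * 2 := by
    rw [mul_pow, hk2]
    norm_num
    have : m3 ≤ 2 := by linarith
    nlinarith
  linarith

lemma lem_k {κ₁ δ k2 : ℝ} (hk1' : κ₁ ≤ 1) (hk2 : 0 < k2) (h : k2 ^ 2 = κ₁ / 100)
    (hδ0 : 0 < δ) (hδ1 : δ ≤ 1 / 200) : k2 ≤ 1 / 10 ∧ δ * k2 ≤ δ ∧ δ * k2 ≤ k2 / 20 := by
  have h1 : k2 ≤ 1 / 10 := by nlinarith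
  exact ⟨h1, by nlinarith, by nlinarith⟩

lemma lem_p {N P p : ℕ} {δ : ℝ} (hδ0 : 0 < δ) (hδ1 : δ ≤ 1 / 200) (hδP : 4 ≤ δ * Real.log P)
    (hlp : (1 - δ) * Real.log P ≤ Real.log p) (hpP : p ≤ P) (hPP : P * P ≤ N) :
    1 ≤ δ * p ∧ (p : ℝ) ≤ δ * N := by
  constructor
  · have h1 := log_le_nat p
    have h3 : 1 ≤ δ * Real.log p := by
      have h4 : δ * ((1 - δ) * Real.log P) ≤ δ * Real.log p := mul_le_mul_of_nonneg_left hlp hδ0.le
      have h5 : δ * ((1 - δ) * Real.log P) = (1 - δ) * (δ * Real.log P) := by ring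
      have h6 : (1 - δ) * 4 ≤ (1 - δ) * (δ * Real.log P) :=
        mul_le_mul_of_nonneg_left hδP (by linarith)
      linarith
    have := mul_le_mul_of_nonneg_left h1 hδ0.le
    linarith
  · have h1 := log_le_nat P
    have h3 : 1 ≤ δ * P := by
      have := mul_le_mul_of_nonneg_left h1 hδ0.le
      linarith
    have h4 : (p : ℝ) ≤ P := by exact_mod_cast hpP
    have h5 : (P : ℝ) * P ≤ N := by exact_mod_cast hPP
    have h6 := mul_le_mul_of_nonneg_left h5 hδ0.le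
    have h7 : (0 : ℝ) ≤ P := Nat.cast_nonneg _
    nlinarith

theorem core {C₂ CA CS C : ℝ} (h2 : ∀ (N : ℕ) (a : ℕ → ℝ), 1 ≤ N →
    Ex N (fun n => (sa a n - mu a N) ^ 2) ≤ C₂ * ∑ p ∈ Pr N, (a p) ^ 2 / p) (hC₂ : 0 < C₂)
    (hA : ∀ (G : ℕ → ℝ) (N K : ℕ) (τ : ℝ), Addf G → 1 ≤ N → 1 ≤ K → Sm G K τ →
      (((Icc 1 N).filter (fun n => 2 * K * τ < |G n - sa (wt G) n|)).card : ℝ) ≤
        N * (bad G N + CA / Real.sqrt K))
    (hS : ∀ (N P H : ℕ) (g : ℕ → ℝ) (B τ : ℝ), 1 ≤ H →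
      P ^ 2 * H ≤ N → H ^ 3 ≤ N → 0 ≤ B → (∀ n, |g n| ≤ B) →
      Ex N (fun n => |g (n + 1) - g n|) ≤ τ →
      ∑ p ∈ Pr P, 1 / (p : ℝ) * (cp N g p) ^ 2 ≤ CS * (B ^ 2 / H + B * H * τ))
    (hM : Mert C) (hC : 0 ≤ C)
    {κ₁ δ x0 k2 k3 κ Λ τ : ℝ} {K H : ℕ} (hk1 : 0 < κ₁) (hk1' : κ₁ ≤ 1)
    (hδ : δ = κ₁ / 200) (hx0 : x0 = κ₁ / 20) (hk2 : 0 < k2) (hk2sq : k2 ^ 2 = κ₁ / 100)
    (hk3 : k3 = δ * k2) (hκ0 : 0 < κ) (hκ1 : κ ≤ δ) (hκ2 : C₂ * κ / (k3 / 2) ^ 2 ≤ δ)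
    (hκ3 : κ / k3 ^ 2 ≤ δ / 16) (hκ4 : κ * (2 / x0) ≤ k2 ^ 2 / 16)
    (hK : 1 ≤ K) (hKA : CA / Real.sqrt K ≤ δ) (hH : 1 ≤ H)
    (hHτ : CS * (1 / H + H * (τ / k2)) ≤ δ / 16 * k3 ^ 2) (hKτ : 2 * K * τ ≤ k3 / 2)
    (hΛ1 : 8 * C / δ ≤ Λ) (hΛ2 : 4 / δ ≤ Λ) (hΛ3 : 4 / x0 ≤ Λ) (hΛ4 : C / x0 ≤ Λ) (hΛ5 : 10 ≤ Λ)
    {G : ℕ → ℝ} {N P : ℕ} (hG : Addf G) (hN3 : H ^ 3 ≤ N) (hPΛ : Λ ≤ Real.log P)
    (hPN : P ^ 2 * H ≤ N) (hNP : (N : ℝ) ≤ (P : ℝ) ^ (2 + δ)) (hNI : NI G N 1 τ)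
    (hSm : Sm G K τ) (hD : DD G P ≤ κ) : DD G N ≤ κ₁ := by
  classical
  have hδ0 : 0 < δ := by rw [hδ]; positivity
  have hδ1 : δ ≤ 1 / 200 := by rw [hδ]; linarith
  have hx00 : 0 < x0 := by rw [hx0]; positivity
  have hx01 : x0 ≤ 1 / 20 := by rw [hx0]; linarith
  obtain ⟨hk2', hk3δ, hk3k2⟩ := lem_k hk1' hk2 hk2sq hδ0 hδ1
  rw [← hk3] at hk3δ hk3k2
  have hk30 : 0 < k3 := by rw [hk3]; positivity
  have hLP : 10 ≤ Real.log P := hΛ5.trans hPΛ
  have hP2 : 2 ≤ P := two_le_of_log (by linarith)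
  have hPR : (0 : ℝ) < P := by exact_mod_cast (by omega : 0 < P)
  have hP1R : (1 : ℝ) ≤ P := by exact_mod_cast (by omega : 1 ≤ P)
  have hPP : P * P ≤ N := by
    calc P * P = P ^ 2 * 1 := by ring
      _ ≤ P ^ 2 * H := Nat.mul_le_mul_left _ hH
      _ ≤ N := hPN
  have hN1 : 1 ≤ N := le_trans (Nat.mul_pos (by omega) (by omega)) hPP
  have hNR : (0 : ℝ) < N := by exact_mod_cast hN1
  have hLN1 : Real.log N ≤ (2 + δ) * Real.log P := by
    rw [← Real.log_rpow hPR]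
    exact Real.log_le_log hNR hNP
  have hLN2 : 2 * Real.log P ≤ Real.log N := by
    have : Real.log ((P : ℝ) * P) ≤ Real.log N :=
      Real.log_le_log (by positivity) (by exact_mod_cast hPP)
    rw [Real.log_mul (by positivity) (by positivity)] at this
    linarith
  have hCP : C / Real.log P ≤ δ / 8 := by
    rw [div_le_iff₀ (by linarith)]
    have : 8 * C / δ ≤ Real.log P := hΛ1.trans hPΛ
    rw [div_le_iff₀ hδ0] at this
    linarith
  have hδP : 4 ≤ δ * Real.log P := by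
    have : 4 / δ ≤ Real.log P := hΛ2.trans hPΛ
    rw [div_le_iff₀ hδ0] at this
    linarith
  have hxP : 4 ≤ x0 * Real.log P := by
    have : 4 / x0 ≤ Real.log P := hΛ3.trans hPΛ
    rw [div_le_iff₀ hx00] at this
    linarith
  have hxC : C ≤ x0 * Real.log P := by
    have : C / x0 ≤ Real.log P := hΛ4.trans hPΛ
    rw [div_le_iff₀ hx00] at this
    linarith
  -- the lower end of the window
  obtain ⟨a, ha22, haP, hla1, hla2, ha3⟩ := lem_a hδ0 hδ1 hLP
  have hmsa : 3 / 4 * δ ≤ ms a P := by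
    have h1 := ms_ge_of hM ha22 haP (t := δ) hla1
    have h3 : C / Real.log a ≤ C / (Real.log P / 2) :=
      div_le_div_of_nonneg_left hC (by linarith) hla2
    have h4 : C / (Real.log P / 2) = 2 * (C / Real.log P) := by
      rw [div_div_eq_mul_div]; ring
    linarith
  -- the good prime
  set A := mu (wt G) P with hAdef
  have hSt := hS N P H (gg G A k2) 1 (τ / k2) hH hPN hN3 zero_le_one (gg_abs_le hk2) (by
    have h1 := hNI A
    unfold Ex at h1 ⊢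
    rw [div_le_iff₀ hNR] at h1 ⊢
    calc ∑ n ∈ Icc 1 N, |gg G A k2 (n + 1) - gg G A k2 n|
        ≤ ∑ n ∈ Icc 1 N, |cl 1 (G (n + 1) - A) - cl 1 (G n - A)| / k2 :=
          sum_le_sum fun n _ => gg_diff hk2 _ _
      _ = (∑ n ∈ Icc 1 N, |cl 1 (G (n + 1) - A) - cl 1 (G n - A)|) / k2 := by rw [sum_div]
      _ ≤ (τ * N) / k2 := div_le_div_of_nonneg_right h1 hk2.le
      _ = _ := by ring)
  rw [one_pow, one_mul] at hSt
  obtain ⟨p, hp, hap, hpP, hGp, hcp⟩ := choose_p (a := a) (P := P) (G := G)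
    (u := cp N (gg G A k2)) (k := k3) hk30 (by linarith) hD (hSt.trans hHτ) (by
      rw [mul_div_assoc, div_self (by positivity), mul_one]
      linarith)
  have hpR : (0 : ℝ) < p := by exact_mod_cast hp.pos
  have hlp : (1 - δ) * Real.log P ≤ Real.log p := by
    rw [← Real.log_rpow hPR]
    refine Real.log_le_log (by positivity) (ha3.le.trans ?_)
    exact_mod_cast hap
  -- the concentration bound
  have hconc : ∀ x : ℕ, 1 ≤ x →
      (((Icc 1 x).filter (fun m => 2 * K * τ + k3 / 2 < |G m - mu (wt G) (min x P)|)).card : ℝ) ≤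
      x * (3 * δ + 2 * ms P x) := by
    intro x hx
    refine (conc h2 hC₂ hA hG P hx hK hSm (by positivity : (0 : ℝ) < k3 / 2)).trans ?_
    refine mul_le_mul_of_nonneg_left ?_ (Nat.cast_nonneg _)
    have h1 : C₂ * DD G P / (k3 / 2) ^ 2 ≤ C₂ * κ / (k3 / 2) ^ 2 :=
      div_le_div_of_nonneg_right (mul_le_mul_of_nonneg_left hD hC₂.le) (by positivity)
    linarith
  -- the scale `N / p`
  have hPy : P ≤ N / p := by
    rw [Nat.le_div_iff_mul_le hp.pos]
    exact (Nat.mul_le_mul_left P hpP).trans hPP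
  have hyR : (0 : ℝ) < ((N / p : ℕ) : ℝ) := by exact_mod_cast (by omega : 0 < N / p)
  have hly : Real.log ((N / p : ℕ) : ℝ) ≤ (1 + 2 * δ) * Real.log P := by
    have h1 : Real.log (((N / p : ℕ) : ℝ) * p) ≤ Real.log N :=
      Real.log_le_log (by positivity) (by exact_mod_cast Nat.div_mul_le_self N p)
    rw [Real.log_mul (by positivity) (by positivity)] at h1
    linarith
  have hmsy := ms_le_of hM hC hP2 (t := 2 * δ) (by positivity) hly
  have hE1 : (((Icc 1 (N / p)).filter (fun m => k3 < |G m - A|)).card : ℝ) ≤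
      ((N / p : ℕ) : ℝ) * (8 * δ) := by
    have h1 := hconc (N / p) (by omega)
    rw [min_eq_right hPy] at h1
    have h3 : (((Icc 1 (N / p)).filter (fun m => k3 < |G m - A|)).card : ℝ) ≤
        (((Icc 1 (N / p)).filter (fun m => 2 * K * τ + k3 / 2 < |G m - A|)).card : ℝ) := by
      refine Nat.cast_le.2 (card_le_card ?_)
      intro m hm
      rw [mem_filter] at hm ⊢
      exact ⟨hm.1, by linarith [hm.2]⟩
    refine (h3.trans h1).trans (mul_le_mul_of_nonneg_left ?_ hyR.le)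
    linarith
  obtain ⟨hp1, hp2⟩ := lem_p hδ0 hδ1 hδP hlp hpP hPP
  have hE := step3 (A := A) (k4 := k3) (δ := δ) hG hp hk2 (by linarith)
    (by rw [hk3]; linarith) hk3δ hδ0 (by linarith) hGp hcp hp1 hp2 hN1 hE1
  -- the large primes
  have hLNx : 8 ≤ x0 * Real.log N := by
    have := mul_le_mul_of_nonneg_left hLN2 hx00.le
    linarith
  obtain ⟨R, hR2, hr2, hlR, hlR2⟩ := lem_R hN1 hx00 hx01 hLNx hLN2 (by linarith)
  set Q := (Ioc P N).filter (fun q => q.Prime ∧ N / q ≤ P ∧ q ≤ R ∧ 3 * k2 < |G q|) with hQ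
  have hQs : ∑ q ∈ Q, (1 : ℝ) / q ≤ 31 * δ := by
    refine step4 (P := P) hG hk2 hδ0 (by linarith) hN1 Q ?_ hE
    intro q hq
    rw [hQ, mem_filter, mem_Ioc] at hq
    obtain ⟨⟨q1, q2⟩, q3, q4, q5, q6⟩ := hq
    refine ⟨q3, q1, q4, q2, q6, ?_⟩
    have hx1 : 1 ≤ N / q := (Nat.one_le_div_iff q3.pos).2 q2
    have hlx : x0 * Real.log P ≤ Real.log ((N / q : ℕ) : ℝ) :=
      lem_x hN1 hx00 hLNx hLN2 q3.pos q2 (by exact_mod_cast q5) hr2
    have hx2 : 2 ≤ N / q := two_le_of_log (by linarith)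
    have hms : ms (N / q) P ≤ 2 / x0 := by
      have b1 := ms_le_of hM hC hx2 (b := P) (t := 1 / x0) (by positivity) (by
        have : Real.log P ≤ 1 / x0 * Real.log ((N / q : ℕ) : ℝ) := by
          rw [one_div, inv_mul_eq_div, le_div_iff₀ hx00]
          linarith
        rw [add_mul, one_mul]
        linarith)
      have b2 : C / Real.log ((N / q : ℕ) : ℝ) ≤ 1 := by
        rw [div_le_one (by linarith)]
        linarith
      have b3 : 1 ≤ 1 / x0 := by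
        rw [le_div_iff₀ hx00]; linarith
      have b4 : 2 / x0 = 1 / x0 + 1 / x0 := by ring
      linarith
    have hmu := mu_close (κ := κ) q4 hD hms hκ0.le
    have hmu2 : |mu (wt G) (N / q) - A| ≤ k2 / 4 := by
      refine abs_le_of_sq_le_sq ?_ (by positivity)
      rw [div_pow]
      norm_num
      linarith
    have h1 := hconc (N / q) hx1
    rw [min_eq_left q4, ms_zero q4] at h1
    have h3 : (((Icc 1 (N / q)).filter (fun m => k2 < |G m - A|)).card : ℝ) ≤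
        (((Icc 1 (N / q)).filter
          (fun m => 2 * K * τ + k3 / 2 < |G m - mu (wt G) (N / q)|)).card : ℝ) := by
      refine Nat.cast_le.2 (card_le_card ?_)
      intro m hm
      rw [mem_filter] at hm ⊢
      refine ⟨hm.1, ?_⟩
      have := abs_sub_le (G m) (mu (wt G) (N / q)) A
      linarith [hm.2]
    refine (h3.trans h1).trans (le_of_eq ?_)
    ring
  -- the assembly
  have hsplit := DD_split G N P R (3 * k2)
  have e1 : ms P (N / (P + 1)) ≤ δ + C / Real.log P := by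
    refine ms_le_of hM hC hP2 hδ0.le ?_
    refine lem_b (N := N) (by omega) ?_ (by linarith) (by linarith)
    exact (Nat.mul_le_mul_left _ (Nat.le_succ P)).trans (Nat.div_mul_le_self N (P + 1))
  have e2 : ms R N ≤ 3 * x0 + C / Real.log R := ms_le_of hM hC hR2 (by positivity) hlR
  have e3 : C / Real.log R ≤ C / Real.log P :=
    div_le_div_of_nonneg_left hC (by linarith) hlR2
  have e4 : ms P N ≤ (1 + δ) + C / Real.log P :=
    ms_le_of hM hC hP2 (by positivity) (by linarith)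
  exact lem_f hδ hx0 hk1 hk1' hk2sq hκ1 hCP e3 e1 e2 e4 hQs hD hsplit

end EXT_

open EXT_ in
theorem t_EXT (hS : S_STAR) (h2 : S_TK2) (hA : S_APX) : S_EXT := by
  obtain ⟨CS, hCS, hS⟩ := hS
  obtain ⟨C₂, hC₂, h2⟩ := h2
  obtain ⟨CA, hCA, hA⟩ := hA
  obtain ⟨C, hC, hM⟩ := Pool.Agent.Helper923.HMertens.mertens_ratio
  intro κ₀ hκ₀
  set κ₁ := min κ₀ 1 with hκ₁
  have hk1 : 0 < κ₁ := lt_min hκ₀ one_pos
  have hk1' : κ₁ ≤ 1 := min_le_right _ _
  set δ := κ₁ / 200 with hδ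
  set x0 := κ₁ / 20 with hx0
  set k2 := Real.sqrt κ₁ / 10 with hk2d
  have hδ0 : 0 < δ := by positivity
  have hx00 : 0 < x0 := by positivity
  have hk2 : 0 < k2 := by
    have := Real.sqrt_pos.2 hk1
    positivity
  have hk2sq : k2 ^ 2 = κ₁ / 100 := by
    rw [hk2d, div_pow, Real.sq_sqrt hk1.le]
    norm_num
  set k3 := δ * k2 with hk3
  have hk30 : 0 < k3 := by positivity
  set κ := min (min δ (δ * (k3 / 2) ^ 2 / C₂)) (min (δ / 16 * k3 ^ 2) (k2 ^ 2 / 16 * (x0 / 2)))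
    with hκ
  have hκ0 : 0 < κ := by
    refine lt_min (lt_min hδ0 ?_) (lt_min ?_ ?_) <;> positivity
  have hκ1 : κ ≤ δ := (min_le_left _ _).trans (min_le_left _ _)
  have hκ2 : C₂ * κ / (k3 / 2) ^ 2 ≤ δ := by
    have h : κ ≤ δ * (k3 / 2) ^ 2 / C₂ := (min_le_left _ _).trans (min_le_right _ _)
    rw [le_div_iff₀ hC₂] at h
    rw [div_le_iff₀ (by positivity)]
    linarith
  have hκ3 : κ / k3 ^ 2 ≤ δ / 16 := by
    have h : κ ≤ δ / 16 * k3 ^ 2 := (min_le_right _ _).trans (min_le_left _ _)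
    rwa [div_le_iff₀ (by positivity)]
  have hκ4 : κ * (2 / x0) ≤ k2 ^ 2 / 16 := by
    have h : κ ≤ k2 ^ 2 / 16 * (x0 / 2) := (min_le_right _ _).trans (min_le_right _ _)
    calc κ * (2 / x0) ≤ k2 ^ 2 / 16 * (x0 / 2) * (2 / x0) :=
          mul_le_mul_of_nonneg_right h (by positivity)
      _ = _ := by field_simp
  obtain ⟨K, hK⟩ := exists_nat_ge (max 1 ((CA / δ) ^ 2))
  have hK1 : 1 ≤ K := by exact_mod_cast (le_max_left _ _).trans hK
  have hKA : CA / Real.sqrt K ≤ δ := by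
    have h1 : CA / δ ≤ Real.sqrt K := by
      refine Real.le_sqrt_of_sq_le ((le_max_right _ _).trans hK)
    rw [div_le_iff₀ hδ0] at h1
    have h3 : 0 < Real.sqrt K := Real.sqrt_pos.2 (by exact_mod_cast hK1)
    rw [div_le_iff₀ h3]
    linarith
  obtain ⟨H, hH⟩ := exists_nat_ge (max 1 (CS * 32 / (δ * k3 ^ 2)))
  have hH1 : 1 ≤ H := by exact_mod_cast (le_max_left _ _).trans hH
  have hHR : (0 : ℝ) < H := by exact_mod_cast hH1
  have hKR : (0 : ℝ) < K := by exact_mod_cast hK1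
  have hH2 : CS * (1 / H) ≤ δ / 32 * k3 ^ 2 := by
    have h1 := (le_max_right _ _).trans hH
    rw [div_le_iff₀ (by positivity)] at h1
    rw [mul_one_div, div_le_iff₀ hHR]
    linarith
  set τ := min (δ / 32 * k3 ^ 2 * k2 / (CS * H)) (k3 / (4 * K)) with hτ
  have hτ0 : 0 < τ := by
    refine lt_min ?_ ?_ <;> positivity
  have hτ1 : CS * (H * (τ / k2)) ≤ δ / 32 * k3 ^ 2 := by
    have h : τ ≤ δ / 32 * k3 ^ 2 * k2 / (CS * H) := min_le_left _ _
    rw [le_div_iff₀ (by positivity)] at h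
    have h1 : CS * (H * (τ / k2)) = τ * (CS * H) / k2 := by ring
    rw [h1, div_le_iff₀ hk2]
    exact h
  have hKτ : 2 * K * τ ≤ k3 / 2 := by
    have h : τ ≤ k3 / (4 * K) := min_le_right _ _
    rw [le_div_iff₀ (by positivity)] at h
    linarith
  have hHτ : CS * (1 / H + H * (τ / k2)) ≤ δ / 16 * k3 ^ 2 := by
    rw [mul_add]
    linarith
  set Λ := 8 * C / δ + 4 / δ + 4 / x0 + C / x0 + 10 with hΛ
  have p1 : 0 ≤ 8 * C / δ := by positivity
  have p2 : 0 ≤ 4 / δ := by positivity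
  have p3 : 0 ≤ 4 / x0 := by positivity
  have p4 : 0 ≤ C / x0 := by positivity
  obtain ⟨N₀, hN₀⟩ := exists_nat_ge (max ((H : ℝ) ^ 3) (Real.exp (3 * Λ)))
  refine ⟨κ, δ, τ, K, H, N₀, hκ0, hδ0, by rw [hδ]; linarith, hτ0, hK1, hH1, ?_⟩
  intro G N P hG hN hPN hNP hNI hSm hD
  have hNR : max ((H : ℝ) ^ 3) (Real.exp (3 * Λ)) ≤ N := hN₀.trans (by exact_mod_cast hN)
  have hN3 : H ^ 3 ≤ N := by exact_mod_cast (le_max_left _ _).trans hNR
  have hNe : Real.exp (3 * Λ) ≤ N := (le_max_right _ _).trans hNR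
  have hNpos : (0 : ℝ) < N := (Real.exp_pos _).trans_le hNe
  have hlN : 3 * Λ ≤ Real.log N := by
    rw [Real.le_log_iff_exp_le hNpos]
    exact hNe
  have hPpos : 0 < P := by
    by_contra hc
    have hP0 : P = 0 := by omega
    rw [hP0, Nat.cast_zero, Real.zero_rpow (by positivity)] at hNP
    linarith
  have hPR : (0 : ℝ) < P := by exact_mod_cast hPpos
  have hPΛ : Λ ≤ Real.log P := by
    have h1 : Real.log N ≤ (2 + δ) * Real.log P := by
      rw [← Real.log_rpow hPR]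
      exact Real.log_le_log hNpos hNP
    have h3 : 0 ≤ Real.log P := Real.log_nonneg (by exact_mod_cast hPpos)
    have h4 : δ ≤ 1 := by rw [hδ]; linarith
    nlinarith
  have q1 : 8 * C / δ ≤ Λ := by rw [hΛ]; linarith
  have q2 : 4 / δ ≤ Λ := by rw [hΛ]; linarith
  have q3 : 4 / x0 ≤ Λ := by rw [hΛ]; linarith
  have q4 : C / x0 ≤ Λ := by rw [hΛ]; linarith
  have q5 : 10 ≤ Λ := by rw [hΛ]; linarith
  refine le_trans ?_ (min_le_left κ₀ 1)
  exact core (κ₁ := κ₁) (δ := δ) (x0 := x0) (k2 := k2) (k3 := k3) (κ := κ) (Λ := Λ) (τ := τ)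
    h2 hC₂ hA hS hM hC hk1 hk1' hδ hx0 hk2 hk2sq hk3 hκ0 hκ1 hκ2 hκ3 hκ4 hK1 hKA hH1
    hHτ hKτ q1 q2 q3 q4 q5 hG hN3 hPΛ hPN hNP hNI hSm hD

end Pool.Agent.N826.EM
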