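import Pool.Agent.N826.EM.Stm

/-!
Project EM (helper826), part LIN (helper8): the linear relation between the values at primes and
the means of the additive function.
-/

set_option autoImplicit false

namespace Pool.Agent.N826.EM
namespace LIN_

open Finset Filter Topology

lemma abs_cl_le {M : ℝ} (hM : 0 ≤ M) (x : ℝ) : |cl M x| ≤ M := by
  unfold cl
  rw [abs_le]
  constructor
  · exact le_max_left _ _
  · exact max_le (by linarith) (min_le_left _ _)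

lemma cl_lip (M x y : ℝ) : |cl M x - cl M y| ≤ |x - y| := by
  unfold cl
  have h1 : |max (-M) (min M x) - max (-M) (min M y)| ≤ |min M x - min M y| := by
    have := abs_max_sub_max_le_max (-M) (min M x) (-M) (min M y)
    simpa using this
  have h2 : |min M x - min M y| ≤ |x - y| := by
    have := abs_min_sub_min_le_max M x M y
    simpa using this
  exact h1.trans h2

lemma cl_of_le {M x : ℝ} (h : |x| ≤ M) : cl M x = x := by
  rw [abs_le] at h
  unfold cl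
  rw [min_eq_right h.2, max_eq_right h.1]

/-- the pointwise bound off the exceptional set -/
lemma hsq {M t s δ : ℝ} (hM : 1 ≤ M) (hδ : |t - s| ≤ δ) :
    (cl M t - s) ^ 2 ≤ δ ^ 2 + 4 / M ^ 2 * s ^ 4 := by
  have hM0 : 0 < M := by linarith
  have h4 : 0 ≤ 4 / M ^ 2 * s ^ 4 := by positivity
  have hδ0 : 0 ≤ δ := (abs_nonneg _).trans hδ
  rcases le_or_gt |s| M with hs | hs
  · have h1 : |cl M t - s| ≤ δ := by
      have := cl_lip M t s
      rw [cl_of_le hs] at this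
      exact this.trans hδ
    have h2 : (cl M t - s) ^ 2 ≤ δ ^ 2 := by
      rw [← sq_abs (cl M t - s)]
      exact pow_le_pow_left₀ (abs_nonneg _) h1 2
    linarith
  · have h1 : |cl M t - s| ≤ 2 * |s| := by
      have h3 := abs_sub (cl M t) s
      have h4 := abs_cl_le hM0.le t
      linarith
    have h2 : (cl M t - s) ^ 2 ≤ 4 * s ^ 2 := by
      rw [← sq_abs (cl M t - s)]
      calc |cl M t - s| ^ 2 ≤ (2 * |s|) ^ 2 := pow_le_pow_left₀ (abs_nonneg _) h1 2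
        _ = 4 * |s| ^ 2 := by ring
        _ = 4 * s ^ 2 := by rw [sq_abs]
    have h3 : M ^ 2 ≤ s ^ 2 := by
      rw [← sq_abs s]
      exact pow_le_pow_left₀ hM0.le hs.le 2
    have h5 : s ^ 2 ≤ s ^ 4 / M ^ 2 := by
      rw [le_div_iff₀ (by positivity)]
      nlinarith [sq_nonneg s]
    have h6 : 4 / M ^ 2 * s ^ 4 = 4 * (s ^ 4 / M ^ 2) := by ring
    nlinarith [sq_nonneg δ]

/-- the pointwise bound on the exceptional set -/
lemma hsqE {M t s : ℝ} (hM : 1 ≤ M) :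
    (cl M t - s) ^ 2 ≤ 3 * M ^ 2 + 4 / M ^ 2 * s ^ 4 := by
  have hM0 : 0 < M := by linarith
  have h1 : (cl M t) ^ 2 ≤ M ^ 2 := by
    rw [← sq_abs (cl M t)]
    exact pow_le_pow_left₀ (abs_nonneg _) (abs_cl_le hM0.le t) 2
  have h2 : (cl M t - s) ^ 2 ≤ 2 * (cl M t) ^ 2 + 2 * s ^ 2 := by
    nlinarith [sq_nonneg (cl M t + s)]
  have h3 : 2 * s ^ 2 ≤ M ^ 2 + s ^ 4 / M ^ 2 := by
    have : 0 ≤ (M - s ^ 2 / M) ^ 2 := sq_nonneg _
    have h4 : (M - s ^ 2 / M) ^ 2 = M ^ 2 - 2 * s ^ 2 + s ^ 4 / M ^ 2 := by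
      field_simp
      ring
    linarith
  have h5 : 0 ≤ s ^ 4 / M ^ 2 := by positivity
  have h6 : 4 / M ^ 2 * s ^ 4 = 4 * (s ^ 4 / M ^ 2) := by ring
  linarith

lemma exh {N : ℕ} (hN : 1 ≤ N) (G a : ℕ → ℝ) (m M δ : ℝ) (hM : 1 ≤ M) :
    Ex N (fun n => (cl M (G n - m) - (sa a n - m)) ^ 2) ≤
      δ ^ 2 + 4 / M ^ 2 * Ex N (fun n => (sa a n - m) ^ 4) +
        3 * M ^ 2 * ((((Icc 1 N).filter (fun n => δ < |G n - sa a n|)).card : ℝ) / N) := by
  have hN0 : (0 : ℝ) < N := by exact_mod_cast hN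
  unfold Ex
  have key : ∑ n ∈ Icc 1 N, (cl M (G n - m) - (sa a n - m)) ^ 2 ≤
      ∑ n ∈ Icc 1 N, (δ ^ 2 + 4 / M ^ 2 * (sa a n - m) ^ 4 +
        3 * M ^ 2 * (if δ < |G n - sa a n| then (1 : ℝ) else 0)) := by
    refine Finset.sum_le_sum fun n _ => ?_
    split_ifs with h
    · have := hsqE (M := M) (t := G n - m) (s := sa a n - m) hM
      nlinarith [sq_nonneg δ]
    · have h' : |(G n - m) - (sa a n - m)| ≤ δ := by
        rw [sub_sub_sub_cancel_right]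
        exact not_lt.1 h
      have := hsq (M := M) (t := G n - m) (s := sa a n - m) hM h'
      linarith
  rw [Finset.sum_add_distrib, Finset.sum_add_distrib, ← Finset.mul_sum, ← Finset.mul_sum,
    Finset.sum_boole, Finset.sum_const, Nat.card_Icc, nsmul_eq_mul] at key
  rw [div_le_iff₀ hN0]
  refine key.trans (le_of_eq ?_)
  have : ((N + 1 - 1 : ℕ) : ℝ) = N := by simp
  rw [this]
  field_simp

/-! the weights -/

lemma abs_wt_le_one (G : ℕ → ℝ) (p : ℕ) : |wt G p| ≤ 1 := by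
  unfold wt
  split_ifs with h
  · exact h
  · simp

lemma abs_wt_le (G : ℕ → ℝ) (p : ℕ) : |wt G p| ≤ |G p| := by
  unfold wt
  split_ifs with h
  · exact le_rfl
  · simp

lemma wt_sq_le (G : ℕ → ℝ) (p : ℕ) : (wt G p) ^ 2 ≤ min 1 ((G p) ^ 2) := by
  refine le_min ?_ ?_
  · rw [← sq_abs]
    exact pow_le_one₀ (abs_nonneg _) (abs_wt_le_one G p)
  · rw [← sq_abs, ← sq_abs (G p)]
    exact pow_le_pow_left₀ (abs_nonneg _) (abs_wt_le G p) 2

lemma sum_wt_le (G : ℕ → ℝ) (N : ℕ) : ∑ p ∈ Pr N, (wt G p) ^ 2 / p ≤ DD G N := by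
  unfold DD
  refine Finset.sum_le_sum fun p _ => ?_
  exact div_le_div_of_nonneg_right (wt_sq_le G p) (Nat.cast_nonneg _)

/-! the sums of a strongly additive function -/

lemma card_mult (x q : ℕ) : (((Icc 1 x).filter (fun m => q ∣ m)).card : ℝ) = ((x / q : ℕ) : ℝ) := by
  have h : (Icc 1 x).filter (fun m => q ∣ m) = (Ioc 0 x).filter (fun m => q ∣ m) := by
    ext m
    simp only [mem_filter, mem_Icc, mem_Ioc]
    constructor
    · rintro ⟨⟨h1, h2⟩, h3⟩; exact ⟨⟨by omega, h2⟩, h3⟩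
    · rintro ⟨⟨h1, h2⟩, h3⟩; exact ⟨⟨by omega, h2⟩, h3⟩
  rw [h, Nat.Ioc_filter_dvd_card_eq_div]

lemma sa_eq (a : ℕ → ℝ) {x n : ℕ} (h1 : 1 ≤ n) (h2 : n ≤ x) :
    sa a n = ∑ q ∈ Pr x, if q ∣ n then a q else 0 := by
  unfold sa
  rw [← Finset.sum_filter]
  refine Finset.sum_congr ?_ fun _ _ => rfl
  ext q
  simp only [Nat.mem_primeFactors, mem_filter, mem_Icc]
  constructor
  · rintro ⟨hq, hd, _⟩
    exact ⟨⟨⟨hq.one_lt.le, (Nat.le_of_dvd (by omega) hd).trans h2⟩, hq⟩, hd⟩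
  · rintro ⟨⟨_, hq⟩, hd⟩
    exact ⟨hq, hd, by omega⟩

lemma sum_sa (a : ℕ → ℝ) (x : ℕ) :
    ∑ n ∈ Icc 1 x, sa a n = ∑ q ∈ Pr x, a q * ((x / q : ℕ) : ℝ) := by
  have h1 : ∑ n ∈ Icc 1 x, sa a n = ∑ n ∈ Icc 1 x, ∑ q ∈ Pr x, if q ∣ n then a q else 0 := by
    refine Finset.sum_congr rfl fun n hn => ?_
    rw [mem_Icc] at hn
    exact sa_eq a hn.1 hn.2
  rw [h1, Finset.sum_comm]
  refine Finset.sum_congr rfl fun q _ => ?_
  rw [← Finset.sum_filter, Finset.sum_const, nsmul_eq_mul, card_mult, mul_comm]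

lemma rem_le (a : ℕ → ℝ) (ha : ∀ p, |a p| ≤ 1) (x : ℕ) :
    |∑ n ∈ Icc 1 x, sa a n - x * mu a x| ≤ ((Pr x).card : ℝ) := by
  rw [sum_sa, mu, Finset.mul_sum, ← Finset.sum_sub_distrib]
  refine (Finset.abs_sum_le_sum_abs _ _).trans ?_
  rw [Finset.card_eq_sum_ones, Nat.cast_sum]
  refine Finset.sum_le_sum fun q hq => ?_
  rw [mem_filter] at hq
  have hq0 : (0 : ℝ) < q := by exact_mod_cast hq.2.pos
  have h1 : a q * ((x / q : ℕ) : ℝ) - x * (a q / q) = -(a q * ((x : ℝ) / q - ((x / q : ℕ) : ℝ))) := by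
    ring
  have h2 : |(x : ℝ) / q - ((x / q : ℕ) : ℝ)| ≤ 1 := by
    have h3 : ((x / q : ℕ) : ℝ) ≤ (x : ℝ) / q := Nat.cast_div_le
    have h4 : (x : ℝ) / q < ((x / q : ℕ) : ℝ) + 1 := by
      rw [div_lt_iff₀ hq0]
      have h5 := Nat.lt_div_mul_add hq.2.pos (a := x)
      have h6 : (x : ℝ) < ((x / q * q + q : ℕ) : ℝ) := by exact_mod_cast h5
      push_cast at h6
      linarith
    rw [abs_le]
    constructor <;> linarith
  rw [h1, abs_neg, abs_mul]
  have := mul_le_mul (ha q) h2 (abs_nonneg _) (by norm_num : (0:ℝ) ≤ 1)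
  simpa using this

lemma sa_mul (a : ℕ → ℝ) {p m : ℕ} (hp : p.Prime) (hm : 1 ≤ m) :
    sa a (p * m) = a p + sa a m - (if p ∣ m then a p else 0) := by
  unfold sa
  rw [Nat.primeFactors_mul hp.ne_zero (by omega), hp.primeFactors]
  split_ifs with h
  · have h1 : p ∈ m.primeFactors := Nat.mem_primeFactors.2 ⟨hp, h, by omega⟩
    rw [Finset.union_eq_right.2 (Finset.singleton_subset_iff.2 h1)]
    ring
  · have h1 : p ∉ m.primeFactors := fun h2 => h (Nat.dvd_of_mem_primeFactors h2)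
    rw [Finset.sum_union (Finset.disjoint_singleton_left.2 h1), Finset.sum_singleton]
    ring

lemma sum_sa_mul (a : ℕ → ℝ) {p : ℕ} (hp : p.Prime) (x : ℕ) :
    ∑ m ∈ Icc 1 x, sa a (p * m) =
      x * a p + ∑ m ∈ Icc 1 x, sa a m - ((x / p : ℕ) : ℝ) * a p := by
  have h1 : ∑ m ∈ Icc 1 x, sa a (p * m) =
      ∑ m ∈ Icc 1 x, (a p + sa a m - (if p ∣ m then a p else 0)) :=
    Finset.sum_congr rfl fun m hm => sa_mul a hp (mem_Icc.1 hm).1
  rw [h1, Finset.sum_sub_distrib, Finset.sum_add_distrib, Finset.sum_const, Nat.card_Icc,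
    nsmul_eq_mul, ← Finset.sum_filter, Finset.sum_const, nsmul_eq_mul, card_mult]
  simp

lemma sum_inv_le (N : ℕ) : ∑ p ∈ Pr N, (1 : ℝ) / p ≤ 1 + Real.log N := by
  have h1 : ∑ p ∈ Pr N, (1 : ℝ) / p ≤ ∑ n ∈ Icc 1 N, (1 : ℝ) / n :=
    Finset.sum_le_sum_of_subset_of_nonneg (Finset.filter_subset _ _) fun n _ _ => by positivity
  have h2 : ∑ n ∈ Icc 1 N, (1 : ℝ) / n = ((harmonic N : ℚ) : ℝ) := by
    rw [harmonic_eq_sum_Icc]
    push_cast
    exact Finset.sum_congr rfl fun n _ => one_div _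
  rw [h2] at h1
  exact h1.trans (harmonic_le_one_add_log N)

lemma mu_sub_le (a : ℕ → ℝ) (ha : ∀ p, |a p| ≤ 1) {x N : ℕ} (hx : x ≤ N) :
    |mu a x - mu a N| ≤ 1 + Real.log N := by
  have hsub : Pr x ⊆ Pr N := by
    intro q hq
    simp only [mem_filter, mem_Icc] at hq ⊢
    exact ⟨⟨hq.1.1, hq.1.2.trans hx⟩, hq.2⟩
  have h1 : mu a N - mu a x = ∑ q ∈ Pr N \ Pr x, a q / q := by
    unfold mu
    rw [← Finset.sum_sdiff hsub]
    ring
  rw [abs_sub_comm, h1]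
  refine (Finset.abs_sum_le_sum_abs _ _).trans ?_
  refine le_trans ?_ (sum_inv_le N)
  calc ∑ q ∈ Pr N \ Pr x, |a q / q| ≤ ∑ q ∈ Pr N \ Pr x, (1 : ℝ) / q := by
        refine Finset.sum_le_sum fun q _ => ?_
        rw [abs_div, Nat.abs_cast]
        exact div_le_div_of_nonneg_right (ha q) (Nat.cast_nonneg _)
    _ ≤ ∑ q ∈ Pr N, (1 : ℝ) / q :=
        Finset.sum_le_sum_of_subset_of_nonneg Finset.sdiff_subset fun n _ _ => by positivity

lemma cp_sa (a : ℕ → ℝ) (ha : ∀ p, |a p| ≤ 1) {N p : ℕ} (hp : p.Prime) (hpN : p ≤ N) :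
    |cp N (fun n => sa a n - mu a N) p - (a p + mu a (N / p) - mu a N)| ≤
      ((p : ℝ) / N * ((Pr (N / p)).card : ℝ) + ((Pr N).card : ℝ) / N) +
        (p : ℝ) / N * (2 + Real.log N) + |a p| / p := by
  have hN1 : 1 ≤ N := hp.one_lt.le.trans hpN
  have hN0 : (0 : ℝ) < N := by exact_mod_cast hN1
  have hp0 : (0 : ℝ) < p := by exact_mod_cast hp.pos
  set x := N / p with hx
  have hxN : x ≤ N := Nat.div_le_self _ _
  set T := a p + mu a x - mu a N with hT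
  set R := ∑ n ∈ Icc 1 x, sa a n - x * mu a x with hR
  set RN := ∑ n ∈ Icc 1 N, sa a n - N * mu a N with hRN
  have hRle : |R| ≤ ((Pr x).card : ℝ) := rem_le a ha x
  have hRNle : |RN| ≤ ((Pr N).card : ℝ) := rem_le a ha N
  have hsum1 : ∑ m ∈ Icc 1 x, (sa a (p * m) - mu a N) = x * T + R - ((x / p : ℕ) : ℝ) * a p := by
    rw [Finset.sum_sub_distrib, sum_sa_mul a hp, Finset.sum_const, Nat.card_Icc, nsmul_eq_mul]
    simp only [add_tsub_cancel_right]
    rw [hR, hT]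
    ring
  have hsum2 : Ex N (fun n => sa a n - mu a N) = RN / N := by
    unfold Ex
    rw [Finset.sum_sub_distrib, Finset.sum_const, Nat.card_Icc, nsmul_eq_mul]
    simp only [add_tsub_cancel_right]
    rw [hRN]
  have hcp : cp N (fun n => sa a n - mu a N) p =
      (p : ℝ) / N * (x * T + R - ((x / p : ℕ) : ℝ) * a p) - RN / N := by
    unfold cp
    rw [hsum2, ← hx, hsum1]
  have hxr : (p : ℝ) * x ≤ N ∧ (N : ℝ) ≤ p * x + p := by
    have h5 : p * x + N % p = N := Nat.div_add_mod N p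
    have h6 : N % p < p := Nat.mod_lt _ hp.pos
    have h7 : p * x ≤ N := by omega
    have h8 : N ≤ p * x + p := by omega
    exact ⟨by exact_mod_cast h7, by exact_mod_cast h8⟩
  have e1 : cp N (fun n => sa a n - mu a N) p - T =
      (p : ℝ) / N * R - RN / N - (1 - p * x / N) * T - (p : ℝ) / N * (((x / p : ℕ) : ℝ) * a p) := by
    rw [hcp]
    ring
  have b1 : |(p : ℝ) / N * R| ≤ (p : ℝ) / N * ((Pr x).card : ℝ) := by
    rw [abs_mul, abs_of_nonneg (by positivity : (0 : ℝ) ≤ (p : ℝ) / N)]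
    exact mul_le_mul_of_nonneg_left hRle (by positivity)
  have b2 : |RN / N| ≤ ((Pr N).card : ℝ) / N := by
    rw [abs_div, Nat.abs_cast]
    exact div_le_div_of_nonneg_right hRNle hN0.le
  have hTle : |T| ≤ 2 + Real.log N := by
    have h1 := mu_sub_le a ha hxN
    have h2 := ha p
    have h3 : T = a p + (mu a x - mu a N) := by rw [hT]; ring
    rw [h3]
    exact (abs_add_le _ _).trans (by linarith)
  have b3 : |(1 - p * x / N) * T| ≤ (p : ℝ) / N * (2 + Real.log N) := by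
    rw [abs_mul]
    have h1 : 0 ≤ 1 - (p : ℝ) * x / N := by
      rw [sub_nonneg, div_le_one hN0]
      exact hxr.1
    have h2 : 1 - (p : ℝ) * x / N ≤ p / N := by
      rw [sub_le_iff_le_add, ← add_div, le_div_iff₀ hN0]
      linarith [hxr.2]
    rw [abs_of_nonneg h1]
    exact mul_le_mul h2 hTle (abs_nonneg _) (by positivity)
  have b4 : |(p : ℝ) / N * (((x / p : ℕ) : ℝ) * a p)| ≤ |a p| / p := by
    rw [abs_mul, abs_mul, abs_of_nonneg (by positivity : (0 : ℝ) ≤ (p : ℝ) / N), Nat.abs_cast]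
    have h1 : ((x / p : ℕ) : ℝ) ≤ (x : ℝ) / p := Nat.cast_div_le
    have h2 : (x : ℝ) ≤ (N : ℝ) / p := Nat.cast_div_le
    have h3 : ((x / p : ℕ) : ℝ) ≤ (N : ℝ) / p / p :=
      h1.trans (div_le_div_of_nonneg_right h2 hp0.le)
    calc (p : ℝ) / N * (((x / p : ℕ) : ℝ) * |a p|) ≤ (p : ℝ) / N * ((N : ℝ) / p / p * |a p|) := by
          gcongr
      _ = |a p| / p := by field_simp
  rw [e1]
  have t1 := abs_sub ((p : ℝ) / N * R - RN / N - (1 - p * x / N) * T)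
    ((p : ℝ) / N * (((x / p : ℕ) : ℝ) * a p))
  have t2 := abs_sub ((p : ℝ) / N * R - RN / N) ((1 - p * x / N) * T)
  have t3 := abs_sub ((p : ℝ) / N * R) (RN / N)
  linarith

lemma card_pr (x : ℕ) : (Pr x).card ≤ x.primeCounting := by
  rw [← Nat.primesLE_card_eq_primeCounting]
  refine Finset.card_le_card fun q hq => ?_
  rw [mem_filter, mem_Icc] at hq
  exact Nat.mem_primesLE.2 ⟨hq.1.2, hq.2⟩

lemma card_bound : ∃ N₁ : ℕ, 2 ≤ N₁ ∧ ∀ N p : ℕ, N₁ ≤ N → p.Prime → p ^ 2 ≤ N →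
    (p : ℝ) / N * ((Pr (N / p)).card : ℝ) + ((Pr N).card : ℝ) / N ≤ 6 / Real.log N := by
  have h := Chebyshev.eventually_primeCounting_le (ε := 1 / 2) (by norm_num)
  obtain ⟨x0, hx0⟩ := Filter.eventually_atTop.1 h
  have hl4 : Real.log 4 + 1 / 2 ≤ 2 := by
    have h1 : Real.log 4 = 2 * Real.log 2 := by
      rw [show (4 : ℝ) = 2 ^ 2 by norm_num, Real.log_pow]; norm_num
    have h2 := Real.log_two_lt_d9
    linarith
  refine ⟨max 2 (⌈x0⌉₊ ^ 2 + 1), le_max_left _ _, fun N p hN hp hpN => ?_⟩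
  have hN2 : 2 ≤ N := (le_max_left _ _).trans hN
  have hN3 : ⌈x0⌉₊ ^ 2 ≤ N := by
    have := (le_max_right _ _).trans hN
    omega
  have hN0 : (0 : ℝ) < N := by exact_mod_cast (by omega : 0 < N)
  have hN1 : (1 : ℝ) < N := by exact_mod_cast (by omega : 1 < N)
  have hlog : 0 < Real.log N := Real.log_pos hN1
  have hp0 : (0 : ℝ) < p := by exact_mod_cast hp.pos
  -- the real quotient
  set y : ℝ := (N : ℝ) / p with hy
  have hy0 : 0 < y := by positivity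
  have hpN' : (p : ℝ) ^ 2 ≤ N := by exact_mod_cast hpN
  have hy2 : (N : ℝ) ≤ y ^ 2 := by
    rw [hy, div_pow, le_div_iff₀ (by positivity)]
    nlinarith
  have hceil : (⌈x0⌉₊ : ℝ) ≤ y := by
    have h1 : ((⌈x0⌉₊ : ℝ)) ^ 2 ≤ y ^ 2 := by
      refine le_trans ?_ hy2
      exact_mod_cast hN3
    exact (pow_le_pow_iff_left₀ (Nat.cast_nonneg _) hy0.le (by norm_num)).1 h1
  have hyx : x0 ≤ y := (Nat.le_ceil x0).trans hceil
  have hyN : y ≤ N := by
    rw [hy]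
    exact div_le_self hN0.le (by exact_mod_cast hp.one_lt.le)
  have hNx : x0 ≤ N := hyx.trans hyN
  have hlogy : Real.log N / 2 ≤ Real.log y := by
    have h1 : Real.log N ≤ Real.log (y ^ 2) := Real.log_le_log hN0 hy2
    rw [Real.log_pow] at h1
    push_cast at h1
    linarith
  have hlogy0 : 0 < Real.log y := by linarith
  have b1 : ((Pr (N / p)).card : ℝ) ≤ 4 * y / Real.log N := by
    have h1 := hx0 y hyx
    rw [hy, Nat.floor_div_eq_div, ← hy] at h1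
    have h2 : ((Pr (N / p)).card : ℝ) ≤ ((N / p).primeCounting : ℝ) := by
      exact_mod_cast card_pr (N / p)
    refine h2.trans (h1.trans ?_)
    rw [div_le_div_iff₀ hlogy0 hlog]
    have h3 : (Real.log 4 + 1 / 2) * y ≤ 2 * y := mul_le_mul_of_nonneg_right hl4 hy0.le
    calc (Real.log 4 + 1 / 2) * y * Real.log N ≤ 2 * y * Real.log N :=
          mul_le_mul_of_nonneg_right h3 hlog.le
      _ = 4 * y * (Real.log N / 2) := by ring
      _ ≤ 4 * y * Real.log y := mul_le_mul_of_nonneg_left hlogy (by positivity)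
  have b2 : ((Pr N).card : ℝ) ≤ 2 * N / Real.log N := by
    have h1 := hx0 N hNx
    rw [Nat.floor_natCast] at h1
    have h2 : ((Pr N).card : ℝ) ≤ (N.primeCounting : ℝ) := by
      exact_mod_cast card_pr N
    refine h2.trans (h1.trans ?_)
    exact div_le_div_of_nonneg_right (mul_le_mul_of_nonneg_right hl4 hN0.le) hlog.le
  have c1 : (p : ℝ) / N * ((Pr (N / p)).card : ℝ) ≤ 4 / Real.log N := by
    calc (p : ℝ) / N * ((Pr (N / p)).card : ℝ) ≤ (p : ℝ) / N * (4 * y / Real.log N) :=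
          mul_le_mul_of_nonneg_left b1 (by positivity)
      _ = 4 / Real.log N := by
          rw [hy]
          field_simp
  have c2 : ((Pr N).card : ℝ) / N ≤ 2 / Real.log N := by
    calc ((Pr N).card : ℝ) / N ≤ (2 * N / Real.log N) / N :=
          div_le_div_of_nonneg_right b2 hN0.le
      _ = 2 / Real.log N := by field_simp
  calc (p : ℝ) / N * ((Pr (N / p)).card : ℝ) + ((Pr N).card : ℝ) / N
      ≤ 4 / Real.log N + 2 / Real.log N := add_le_add c1 c2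
    _ = 6 / Real.log N := by ring

lemma params (C1 C4 C5 κ : ℝ) (hκ : 0 < κ) :
    ∃ (M : ℝ) (K H : ℕ) (τ : ℝ), 1 ≤ M ∧ 1 ≤ K ∧ 1 ≤ H ∧ 0 < τ ∧
      3 * (C1 * (M ^ 2 / H + M * H * τ)) + 6 * ((2 * K * τ) ^ 2 + 4 / M ^ 2 * (C4 * (1 + 1) ^ 2) +
        3 * M ^ 2 * (τ + C5 / Real.sqrt K)) + 9 * (K * τ ^ 2 + 1 / K ^ 2) ≤ κ / 2 := by
  -- M
  obtain ⟨M, hM1, hM⟩ : ∃ M : ℝ, 1 ≤ M ∧ 96 * C4 / M ^ 2 ≤ κ / 8 := by
    refine ⟨max 1 (768 * C4 / κ), le_max_left _ _, ?_⟩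
    set M := max 1 (768 * C4 / κ)
    have h1 : 1 ≤ M := le_max_left _ _
    have h2 : 768 * C4 / κ ≤ M := le_max_right _ _
    have h3 : M ≤ M ^ 2 := by nlinarith
    rw [div_le_iff₀ (by positivity)]
    rw [div_le_iff₀ hκ] at h2
    nlinarith
  have hM0 : 0 < M := by linarith
  -- K
  obtain ⟨K, hK1, hK⟩ : ∃ K : ℕ, 1 ≤ K ∧ 18 * M ^ 2 * C5 / Real.sqrt K + 9 / (K : ℝ) ^ 2 ≤ κ / 8 := by
    have t1 : Tendsto (fun K : ℕ => 18 * M ^ 2 * C5 / Real.sqrt K) atTop (𝓝 0) :=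
      Tendsto.const_div_atTop (Real.tendsto_sqrt_atTop.comp tendsto_natCast_atTop_atTop) _
    have t2 : Tendsto (fun K : ℕ => 9 / (K : ℝ) ^ 2) atTop (𝓝 0) :=
      Tendsto.const_div_atTop ((tendsto_pow_atTop (by norm_num)).comp
        tendsto_natCast_atTop_atTop) _
    have t3 := t1.add t2
    rw [add_zero] at t3
    have h1 := (t3.eventually (eventually_le_nhds (by positivity : (0 : ℝ) < κ / 8))).and
      (eventually_ge_atTop 1)
    obtain ⟨K, hK⟩ := h1.exists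
    exact ⟨K, hK.2, hK.1⟩
  -- H
  obtain ⟨H, hH1, hH⟩ : ∃ H : ℕ, 1 ≤ H ∧ 3 * C1 * M ^ 2 / (H : ℝ) ≤ κ / 16 := by
    have t1 : Tendsto (fun H : ℕ => 3 * C1 * M ^ 2 / (H : ℝ)) atTop (𝓝 0) :=
      Tendsto.const_div_atTop tendsto_natCast_atTop_atTop _
    have h1 := (t1.eventually (eventually_le_nhds (by positivity : (0 : ℝ) < κ / 16))).and
      (eventually_ge_atTop 1)
    obtain ⟨H, hH⟩ := h1.exists
    exact ⟨H, hH.2, hH.1⟩
  -- τ
  obtain ⟨τ, hτ0, hτ⟩ : ∃ τ : ℝ, 0 < τ ∧ 3 * C1 * M * H * τ + 6 * (2 * K * τ) ^ 2 +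
      18 * M ^ 2 * τ + 9 * K * τ ^ 2 ≤ κ / 8 := by
    have hc : Continuous (fun τ : ℝ => 3 * C1 * M * H * τ + 6 * (2 * K * τ) ^ 2 +
      18 * M ^ 2 * τ + 9 * K * τ ^ 2) := by fun_prop
    have t1 : Tendsto (fun τ : ℝ => 3 * C1 * M * H * τ + 6 * (2 * K * τ) ^ 2 +
      18 * M ^ 2 * τ + 9 * K * τ ^ 2) (𝓝[>] 0) (𝓝 0) := by
      have := (hc.tendsto 0).mono_left (nhdsWithin_le_nhds (s := Set.Ioi (0 : ℝ)))
      simpa using this
    have h1 := (t1.eventually (eventually_le_nhds (by positivity : (0 : ℝ) < κ / 8))).and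
      self_mem_nhdsWithin
    obtain ⟨τ, hτ⟩ := h1.exists
    exact ⟨τ, hτ.2, hτ.1⟩
  refine ⟨M, K, H, τ, hM1, hK1, hH1, hτ0, ?_⟩
  have e : 3 * (C1 * (M ^ 2 / H + M * H * τ)) + 6 * ((2 * K * τ) ^ 2 +
      4 / M ^ 2 * (C4 * (1 + 1) ^ 2) + 3 * M ^ 2 * (τ + C5 / Real.sqrt K)) +
      9 * (K * τ ^ 2 + 1 / (K : ℝ) ^ 2) =
      3 * C1 * M ^ 2 / (H : ℝ) + (3 * C1 * M * H * τ + 6 * (2 * K * τ) ^ 2 +
      18 * M ^ 2 * τ + 9 * K * τ ^ 2) + 96 * C4 / M ^ 2 +
      (18 * M ^ 2 * C5 / Real.sqrt K + 9 / (K : ℝ) ^ 2) := by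
    ring
  rw [e]
  linarith

lemma params2 (κ : ℝ) (hκ : 0 < κ) : ∃ N₂ : ℕ, ∀ N : ℕ, N₂ ≤ N →
    9 * (36 / (Real.log N) ^ 2 * (1 + Real.log N) + (2 + Real.log N) ^ 2 / N) ≤ κ / 2 := by
  have hl : Tendsto (fun N : ℕ => Real.log N) atTop atTop :=
    Real.tendsto_log_atTop.comp tendsto_natCast_atTop_atTop
  have t1 : Tendsto (fun N : ℕ => 648 / Real.log N) atTop (𝓝 0) :=
    Tendsto.const_div_atTop hl _
  have t2 : Tendsto (fun N : ℕ => 81 * ((Real.log N) ^ 2 / N)) atTop (𝓝 0) := by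
    have h1 : Tendsto (fun x : ℝ => (Real.log x) ^ 2 / x) atTop (𝓝 0) := by
      have := (Real.isLittleO_pow_log_id_atTop (n := 2)).tendsto_div_nhds_zero
      simpa using this
    have h2 := (h1.comp tendsto_natCast_atTop_atTop).const_mul (81 : ℝ)
    simpa using h2
  have t3 := t1.add t2
  rw [add_zero] at t3
  have h1 := ((t3.eventually (eventually_le_nhds (by positivity : (0 : ℝ) < κ / 2))).and
    (hl.eventually (eventually_ge_atTop 1))).and (eventually_ge_atTop 1)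
  obtain ⟨N₂, hN₂⟩ := Filter.eventually_atTop.1 h1
  refine ⟨N₂, fun N hN => ?_⟩
  obtain ⟨⟨h2, h3⟩, h4⟩ := hN₂ N hN
  refine le_trans ?_ h2
  have hN0 : (0 : ℝ) < N := by exact_mod_cast h4
  set L := Real.log N
  have hL : 1 ≤ L := h3
  have hL0 : 0 < L := by linarith
  have e1 : 36 / L ^ 2 * (1 + L) ≤ 72 / L := by
    rw [div_mul_eq_mul_div, div_le_div_iff₀ (by positivity) hL0]
    nlinarith
  have e2 : (2 + L) ^ 2 / N ≤ 9 * (L ^ 2 / N) := by
    rw [← mul_div_assoc]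
    refine div_le_div_of_nonneg_right ?_ hN0.le
    nlinarith
  have e3 : 648 / L = 9 * (72 / L) := by ring
  rw [e3]
  linarith

lemma cp_sub (N : ℕ) (g h : ℕ → ℝ) (p : ℕ) :
    cp N (fun n => g n - h n) p = cp N g p - cp N h p := by
  unfold cp Ex
  rw [Finset.sum_sub_distrib, Finset.sum_sub_distrib]
  ring

lemma sq3 (x y z : ℝ) : (x + y + z) ^ 2 ≤ 3 * (x ^ 2 + y ^ 2 + z ^ 2) := by
  nlinarith [sq_nonneg (x - y), sq_nonneg (x - z), sq_nonneg (y - z)]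

end LIN_

open LIN_ in
theorem t_LIN (hD : S_DUAL) (hS : S_STAR) (h4 : S_TK4) (hA : S_APX) : S_LIN := by
  obtain ⟨C1, hC1, hS⟩ := hS
  obtain ⟨C4, hC4, h4⟩ := h4
  obtain ⟨C5, hC5, hA⟩ := hA
  intro κ hκ
  obtain ⟨M, K, H, τ, hM, hK, hH, hτ, hpar⟩ := params C1 C4 C5 κ hκ
  obtain ⟨N₁, hN₁, hcard⟩ := card_bound
  obtain ⟨N₂, hN₂⟩ := params2 κ hκ
  refine ⟨K, H, max (max N₁ N₂) (H ^ 3), τ, M, hK, hH, hτ, hM,
    fun G N P hG hN hP hNI hSm hDD hbad => ?_⟩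
  have hNN1 : N₁ ≤ N := ((le_max_left _ _).trans (le_max_left _ _)).trans hN
  have hNN2 : N₂ ≤ N := ((le_max_right _ _).trans (le_max_left _ _)).trans hN
  have hNH : H ^ 3 ≤ N := (le_max_right _ _).trans hN
  have hN1 : 1 ≤ N := by omega
  have hN0 : (0 : ℝ) < N := by exact_mod_cast hN1
  have hM0 : 0 < M := by linarith
  have hlog : 0 < Real.log N := Real.log_pos (by exact_mod_cast (by omega : 1 < N))
  have hP2 : P ^ 2 ≤ N := le_trans (Nat.le_mul_of_pos_right _ (by omega)) hP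
  have hPN : P ≤ N := le_trans (by nlinarith [sq_nonneg P]) hP2
  have hPrsub : Pr P ⊆ Pr N := by
    intro q hq
    simp only [Finset.mem_filter, Finset.mem_Icc] at hq ⊢
    exact ⟨⟨hq.1.1, hq.1.2.trans hPN⟩, hq.2⟩
  set a := wt G with ha
  have ha1 : ∀ p, |a p| ≤ 1 := abs_wt_le_one G
  set m := mu a N with hm
  have hV : ∑ p ∈ Pr N, (a p) ^ 2 / p ≤ 1 := (sum_wt_le G N).trans hDD
  have hV0 : 0 ≤ ∑ p ∈ Pr N, (a p) ^ 2 / p := Finset.sum_nonneg fun _ _ => by positivity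
  set g : ℕ → ℝ := fun n => cl M (G n - m) with hg
  set s : ℕ → ℝ := fun n => sa a n - m with hs
  set h : ℕ → ℝ := fun n => cl M (G n - m) - (sa a n - m) with hh
  -- STAR
  have hstar := hS N P H g M τ hH hP hNH hM0.le (fun n => abs_cl_le hM0.le _) (hNI m)
  -- DUAL
  have hdual := hD N P h hN1 hP2
  have hexh := exh hN1 G a m M (2 * K * τ) hM
  have h4' := h4 N a hN1 ha1
  have hA' := hA G N K τ hG hN1 hK hSm
  have hcardE : ((((Finset.Icc 1 N).filter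
      (fun n => 2 * K * τ < |G n - sa a n|)).card : ℝ) / N) ≤ τ + C5 / Real.sqrt K := by
    rw [div_le_iff₀ hN0]
    refine hA'.trans ?_
    rw [mul_comm]
    exact mul_le_mul_of_nonneg_right (by linarith) hN0.le
  have h4'' : Ex N (fun n => (sa a n - m) ^ 4) ≤ C4 * (1 + 1) ^ 2 := by
    refine h4'.trans ?_
    refine mul_le_mul_of_nonneg_left ?_ hC4.le
    exact pow_le_pow_left₀ (by linarith) (by linarith) 2
  have hEx : Ex N (fun n => (h n) ^ 2) ≤ (2 * K * τ) ^ 2 + 4 / M ^ 2 * (C4 * (1 + 1) ^ 2) +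
        3 * M ^ 2 * (τ + C5 / Real.sqrt K) := by
    refine hexh.trans ?_
    gcongr
  -- linearity
  have hlin : ∀ p, cp N s p = cp N g p - cp N h p := by
    intro p
    have e : s = fun n => g n - h n := by
      funext n
      simp only [hs, hg, hh]
      ring
    rw [e]
    exact cp_sub N g h p
  -- the pointwise estimate
  have main : ∀ p ∈ Pr P, 1 / (p : ℝ) * (a p + mu a (N / p) - m) ^ 2 ≤
      3 * (1 / (p : ℝ) * (cp N g p) ^ 2) + 3 * (1 / (p : ℝ) * (cp N h p) ^ 2) +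
      9 * (36 / (Real.log N) ^ 2) * (1 / (p : ℝ)) + 9 * ((2 + Real.log N) ^ 2 / N ^ 2) * p +
      9 * (if p ≤ K then τ ^ 2 else 0) + 9 * (1 / (K : ℝ) ^ 2) * ((a p) ^ 2 / p) := by
    intro p hp
    rw [Finset.mem_filter, Finset.mem_Icc] at hp
    obtain ⟨⟨hp1, hpP⟩, hpp⟩ := hp
    have hp0 : (0 : ℝ) < p := by exact_mod_cast hpp.pos
    have hp1' : (1 : ℝ) ≤ p := by exact_mod_cast hp1
    have hpN : p ≤ N := hpP.trans hPN
    have hpsq : p ^ 2 ≤ N := (Nat.pow_le_pow_left hpP 2).trans hP2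
    have hcp := cp_sa a ha1 hpp hpN
    have hc := hcard N p hNN1 hpp hpsq
    set T := a p + mu a (N / p) - m with hT
    have herr : |cp N s p - T| ≤
        6 / Real.log N + (p : ℝ) / N * (2 + Real.log N) + |a p| / p := by
      refine hcp.trans ?_
      linarith
    set E := cp N s p - T with hE
    have hE2 : E ^ 2 ≤ 3 * ((6 / Real.log N) ^ 2 + ((p : ℝ) / N * (2 + Real.log N)) ^ 2 +
        (|a p| / p) ^ 2) := by
      have h1 : E ^ 2 ≤ (6 / Real.log N + (p : ℝ) / N * (2 + Real.log N) + |a p| / p) ^ 2 := by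
        rw [← sq_abs E]
        exact pow_le_pow_left₀ (abs_nonneg _) herr 2
      exact h1.trans (sq3 _ _ _)
    have hT2 : T ^ 2 ≤ 3 * (cp N g p) ^ 2 + 3 * (cp N h p) ^ 2 + 3 * E ^ 2 := by
      have h1 : T = cp N g p + (-cp N h p) + (-E) := by
        rw [hE, hlin p]; ring
      have h2 := sq3 (cp N g p) (-cp N h p) (-E)
      rw [← h1, neg_sq, neg_sq] at h2
      linarith
    have hlast : 1 / (p : ℝ) * (|a p| / p) ^ 2 ≤
        (if p ≤ K then τ ^ 2 else 0) + 1 / (K : ℝ) ^ 2 * ((a p) ^ 2 / p) := by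
      have e1 : 1 / (p : ℝ) * (|a p| / p) ^ 2 = 1 / (p : ℝ) ^ 2 * ((a p) ^ 2 / p) := by
        rw [div_pow, sq_abs]
        field_simp
      rw [e1]
      split_ifs with hpK
      · have h1 : |a p| ≤ τ := (abs_wt_le G p).trans (hSm p hp1 hpK)
        have h2 : (a p) ^ 2 ≤ τ ^ 2 := by
          rw [← sq_abs]
          exact pow_le_pow_left₀ (abs_nonneg _) h1 2
        have h3 : (a p) ^ 2 / p ≤ τ ^ 2 := (div_le_self (sq_nonneg _) hp1').trans h2
        have h4 : 1 / (p : ℝ) ^ 2 ≤ 1 := by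
          rw [div_le_one (by positivity)]
          exact one_le_pow₀ hp1'
        have h5 : 1 / (p : ℝ) ^ 2 * ((a p) ^ 2 / p) ≤ 1 * τ ^ 2 :=
          mul_le_mul h4 h3 (by positivity) (by norm_num)
        have h6 : 0 ≤ 1 / (K : ℝ) ^ 2 * ((a p) ^ 2 / p) := by positivity
        linarith
      · rw [zero_add]
        have hK0 : (0 : ℝ) < K := by exact_mod_cast (by omega : 0 < K)
        have hKp : (K : ℝ) ≤ p := by exact_mod_cast (by omega : K ≤ p)
        have h1 : 1 / (p : ℝ) ^ 2 ≤ 1 / (K : ℝ) ^ 2 :=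
          one_div_le_one_div_of_le (by positivity) (pow_le_pow_left₀ hK0.le hKp 2)
        exact mul_le_mul_of_nonneg_right h1 (by positivity)
    have hinv : (0 : ℝ) ≤ 1 / (p : ℝ) := by positivity
    calc 1 / (p : ℝ) * T ^ 2 ≤ 1 / (p : ℝ) * (3 * (cp N g p) ^ 2 + 3 * (cp N h p) ^ 2 +
          3 * (3 * ((6 / Real.log N) ^ 2 + ((p : ℝ) / N * (2 + Real.log N)) ^ 2 +
            (|a p| / p) ^ 2))) := mul_le_mul_of_nonneg_left (by linarith) hinv
      _ = 3 * (1 / (p : ℝ) * (cp N g p) ^ 2) + 3 * (1 / (p : ℝ) * (cp N h p) ^ 2) +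
          9 * (36 / (Real.log N) ^ 2) * (1 / (p : ℝ)) +
          9 * ((2 + Real.log N) ^ 2 / N ^ 2) * p + 9 * (1 / (p : ℝ) * (|a p| / p) ^ 2) := by
          field_simp
          ring
      _ ≤ _ := by linarith
  -- summation
  have hsum := Finset.sum_le_sum main
  rw [Finset.sum_add_distrib, Finset.sum_add_distrib, Finset.sum_add_distrib,
    Finset.sum_add_distrib, Finset.sum_add_distrib, ← Finset.mul_sum, ← Finset.mul_sum,
    ← Finset.mul_sum, ← Finset.mul_sum, ← Finset.mul_sum, ← Finset.mul_sum] at hsum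
  have s1 : ∑ p ∈ Pr P, 1 / (p : ℝ) ≤ 1 + Real.log N :=
    (Finset.sum_le_sum_of_subset_of_nonneg hPrsub fun _ _ _ => by positivity).trans
      (sum_inv_le N)
  have s2 : ∑ p ∈ Pr P, (p : ℝ) ≤ N := by
    calc ∑ p ∈ Pr P, (p : ℝ) ≤ ∑ p ∈ Pr P, (P : ℝ) := by
          refine Finset.sum_le_sum fun p hp => ?_
          rw [Finset.mem_filter, Finset.mem_Icc] at hp
          exact_mod_cast hp.1.2
      _ = ((Pr P).card : ℝ) * P := by rw [Finset.sum_const, nsmul_eq_mul]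
      _ ≤ (P : ℝ) * P := by
          refine mul_le_mul_of_nonneg_right ?_ (Nat.cast_nonneg _)
          have : (Pr P).card ≤ P := by
            calc (Pr P).card ≤ (Finset.Icc 1 P).card := Finset.card_filter_le _ _
              _ = P := by simp
          exact_mod_cast this
      _ ≤ N := by
          have : P * P ≤ N := by nlinarith
          exact_mod_cast this
  have s3 : ∑ p ∈ Pr P, (if p ≤ K then τ ^ 2 else 0) ≤ K * τ ^ 2 := by
    rw [← Finset.sum_filter, Finset.sum_const, nsmul_eq_mul]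
    refine mul_le_mul_of_nonneg_right ?_ (sq_nonneg _)
    have : ((Pr P).filter (fun p => p ≤ K)).card ≤ K := by
      calc ((Pr P).filter (fun p => p ≤ K)).card ≤ (Finset.Icc 1 K).card := by
            refine Finset.card_le_card fun q hq => ?_
            simp only [Finset.mem_filter, Finset.mem_Icc] at hq ⊢
            exact ⟨hq.1.1.1, hq.2⟩
        _ = K := by simp
    exact_mod_cast this
  have s4 : ∑ p ∈ Pr P, (a p) ^ 2 / (p : ℝ) ≤ 1 :=
    (Finset.sum_le_sum_of_subset_of_nonneg hPrsub fun _ _ _ => by positivity).trans hV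
  have u1 : 9 * (36 / (Real.log N) ^ 2) * ∑ p ∈ Pr P, 1 / (p : ℝ) ≤
      9 * (36 / (Real.log N) ^ 2) * (1 + Real.log N) :=
    mul_le_mul_of_nonneg_left s1 (by positivity)
  have u2 : 9 * ((2 + Real.log N) ^ 2 / N ^ 2) * ∑ p ∈ Pr P, (p : ℝ) ≤
      9 * ((2 + Real.log N) ^ 2 / N) := by
    calc 9 * ((2 + Real.log N) ^ 2 / N ^ 2) * ∑ p ∈ Pr P, (p : ℝ)
        ≤ 9 * ((2 + Real.log N) ^ 2 / N ^ 2) * N :=
          mul_le_mul_of_nonneg_left s2 (by positivity)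
      _ = 9 * ((2 + Real.log N) ^ 2 / N) := by field_simp
  have u4 : 9 * (1 / (K : ℝ) ^ 2) * ∑ p ∈ Pr P, (a p) ^ 2 / (p : ℝ) ≤
      9 * (1 / (K : ℝ) ^ 2) * 1 :=
    mul_le_mul_of_nonneg_left s4 (by positivity)
  have hN2' := hN₂ N hNN2
  linarith

end Pool.Agent.N826.EM
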