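import Pool.Agent.N826.EM.Stm

/-!
Project EM: the main lemma on one scale, assembled from STEP1, LIN, SLOPE, EXT, NILOG and CSM.
-/

set_option autoImplicit false

namespace Pool.Agent.N826.EM

open Finset Filter Topology

namespace ML_

lemma Pr_mono {y N : ℕ} (h : y ≤ N) : Pr y ⊆ Pr N := by
  intro p hp
  simp only [Pr, Finset.mem_filter, Finset.mem_Icc] at hp ⊢
  exact ⟨⟨hp.1.1, hp.1.2.trans h⟩, hp.2⟩

lemma DD_mono (G : ℕ → ℝ) {y N : ℕ} (h : y ≤ N) : DD G y ≤ DD G N := by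
  unfold DD
  refine Finset.sum_le_sum_of_subset_of_nonneg (Pr_mono h) fun p _ _ => ?_
  exact div_nonneg (le_min zero_le_one (sq_nonneg _)) (Nat.cast_nonneg _)

lemma bad_mono (G : ℕ → ℝ) {y N : ℕ} (h : y ≤ N) : bad G y ≤ bad G N := by
  unfold bad
  refine Finset.sum_le_sum_of_subset_of_nonneg
    (Finset.filter_subset_filter _ (Pr_mono h)) fun p _ _ => ?_
  positivity

lemma cl_lip {M : ℝ} (hM : 1 ≤ M) (x y : ℝ) : |cl 1 x - cl 1 y| ≤ |cl M x - cl M y| := by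
  have e : ∀ x : ℝ, cl 1 x = cl 1 (cl M x) := by
    intro x
    unfold cl
    rcases le_total M x with h1 | h1
    · rw [min_eq_left h1, min_eq_left (by linarith : (1 : ℝ) ≤ x),
        max_eq_right (by linarith : -M ≤ M), min_eq_left hM]
    · rw [min_eq_right h1]
      rcases le_total x (-M) with h2 | h2
      · rw [max_eq_left h2, min_eq_right (by linarith : x ≤ 1),
          max_eq_left (by linarith : x ≤ -1), min_eq_right (by linarith : -M ≤ 1),
          max_eq_left (by linarith : -M ≤ -1)]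
      · rw [max_eq_right h2]
  have l : ∀ a b : ℝ, |cl 1 a - cl 1 b| ≤ |a - b| := by
    intro a b
    unfold cl
    calc |max (-1) (min 1 a) - max (-1) (min 1 b)|
        ≤ |min 1 a - min 1 b| := by
          have := abs_max_sub_max_le_abs (min 1 a) (min 1 b) (-1)
          rwa [max_comm _ (-1 : ℝ), max_comm _ (-1 : ℝ)] at this
      _ ≤ |a - b| := by
          have := abs_min_sub_min_le_max 1 a 1 b
          simpa using this
  rw [e x, e y]
  exact l _ _

lemma NI_one {G : ℕ → ℝ} {N : ℕ} {M τ : ℝ} (hM : 1 ≤ M) (h : NI G N M τ) : NI G N 1 τ := by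
  intro A
  refine le_trans ?_ (h A)
  unfold Ex
  exact div_le_div_of_nonneg_right
    (Finset.sum_le_sum fun n _ => cl_lip hM _ _) (Nat.cast_nonneg _)

lemma NI_le {G : ℕ → ℝ} {N : ℕ} {M τ τ' : ℝ} (h : NI G N M τ) (hτ : τ ≤ τ') : NI G N M τ' :=
  fun A => (h A).trans hτ

lemma Sm_le {G : ℕ → ℝ} {K K' : ℕ} {τ τ' : ℝ} (h : Sm G K τ) (hK : K' ≤ K) (hτ : τ ≤ τ') :
    Sm G K' τ' := fun q h1 h2 => (h q h1 (h2.trans hK)).trans hτ

lemma Addf_lg {F : ℕ → ℝ} (hF : Addf F) (c : ℝ) : Addf (lg F c) := by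
  intro a b ha hb hab
  unfold lg
  rw [hF a b ha hb hab, Nat.cast_mul, Real.log_mul (by positivity) (by positivity)]
  ring

lemma Sm_lg {F : ℕ → ℝ} {K : ℕ} {τ : ℝ} (h : Sm F K τ) (c : ℝ) :
    Sm (lg F c) K (τ + |c| * Real.log K) := by
  intro q h1 h2
  unfold lg
  have hq : (1 : ℝ) ≤ q := by exact_mod_cast h1
  have hlog : 0 ≤ Real.log q := Real.log_nonneg hq
  have hle : Real.log q ≤ Real.log K :=
    Real.log_le_log (by linarith) (by exact_mod_cast h2)
  calc |F q - c * Real.log q| ≤ |F q| + |c * Real.log q| := abs_sub _ _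
    _ ≤ τ + |c| * Real.log K := by
        rw [abs_mul, abs_of_nonneg hlog]
        exact add_le_add (h q h1 h2) (mul_le_mul_of_nonneg_left hle (abs_nonneg _))

/-- square roots of `N / H` are large and not much smaller than the square root of `N` -/
lemma scale (H m : ℕ) (δ : ℝ) (hH : 1 ≤ H) (hδ : 0 < δ) : ∃ N₁ : ℕ, ∀ N : ℕ, N₁ ≤ N →
    m ≤ Nat.sqrt (N / H) ∧ 1 ≤ Nat.sqrt (N / H) ∧
    (Nat.sqrt (N / H)) ^ 2 * H ≤ N ∧ (N : ℝ) ≤ ((Nat.sqrt (N / H) : ℕ) : ℝ) ^ (2 + δ) := by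
  obtain ⟨m', hm'⟩ := exists_nat_ge ((4 * (H : ℝ)) ^ (1 / δ))
  set w := max (max m m') 1 with hw
  refine ⟨w ^ 2 * H, fun N hN => ?_⟩
  set P := Nat.sqrt (N / H) with hP
  have hwP : w ≤ P := by
    rw [hP, Nat.le_sqrt']
    exact (Nat.le_div_iff_mul_le hH).2 hN
  have h1P : 1 ≤ P := le_trans (le_max_right _ _) hwP
  refine ⟨le_trans (le_trans (le_max_left _ _) (le_max_left _ _)) hwP, h1P, ?_, ?_⟩
  · exact le_trans (Nat.mul_le_mul_right _ (Nat.sqrt_le' (N / H))) (Nat.div_mul_le_self N H)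
  · have hlt : N / H < (P + 1) ^ 2 := by
      have := Nat.lt_succ_sqrt' (N / H)
      simpa [hP] using this
    have hlt2 : N < (P + 1) ^ 2 * H := by
      rw [Nat.div_lt_iff_lt_mul hH] at hlt
      exact hlt
    have hPr : (1 : ℝ) ≤ P := by exact_mod_cast h1P
    have h4 : (N : ℝ) ≤ 4 * H * (P : ℝ) ^ 2 := by
      have h5 : (N : ℝ) < ((P : ℝ) + 1) ^ 2 * H := by exact_mod_cast hlt2
      have hH0 : (0 : ℝ) ≤ H := Nat.cast_nonneg _
      nlinarith [mul_le_mul_of_nonneg_right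
        (show ((P : ℝ) + 1) ^ 2 ≤ 4 * (P : ℝ) ^ 2 by nlinarith) hH0]
    have h6 : (4 * (H : ℝ)) ≤ (P : ℝ) ^ δ := by
      have h7 : (4 * (H : ℝ)) ^ (1 / δ) ≤ P := by
        refine hm'.trans ?_
        have : m' ≤ P := le_trans (le_trans (le_max_right _ _) (le_max_left _ _)) hwP
        exact_mod_cast this
      have h8 := Real.rpow_le_rpow (by positivity) h7 hδ.le
      rwa [← Real.rpow_mul (by positivity), one_div, inv_mul_cancel₀ hδ.ne', Real.rpow_one] at h8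
    calc (N : ℝ) ≤ 4 * H * (P : ℝ) ^ 2 := h4
      _ ≤ (P : ℝ) ^ δ * (P : ℝ) ^ 2 := mul_le_mul_of_nonneg_right h6 (by positivity)
      _ = (P : ℝ) ^ (2 + δ) := by
          rw [Real.rpow_add (by linarith), mul_comm]
          congr 1
          exact (Real.rpow_natCast (P : ℝ) 2).symm

/-- `k` applications of EXT -/
lemma chain (hE : S_EXT) (k : ℕ) : ∀ κ₁ : ℝ, 0 < κ₁ → ∃ (κ τ : ℝ) (K N₀ : ℕ) (φ : ℕ → ℕ),
    0 < κ ∧ 0 < τ ∧
    (∀ N, N₀ ≤ N → φ N ≤ N ∧ φ N ^ (2 ^ k) ≤ N ∧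
      (N : ℝ) ≤ (φ N : ℝ) ^ (((2 : ℝ) + 1 / 20) ^ k)) ∧
    ∀ (G : ℕ → ℝ) (N : ℕ), Addf G → N₀ ≤ N → (∀ y, φ N ≤ y → y ≤ N → NI G y 1 τ) → Sm G K τ →
      DD G (φ N) ≤ κ → DD G N ≤ κ₁ := by
  induction k with
  | zero =>
    intro κ₁ h
    refine ⟨κ₁, 1, 0, 0, id, h, one_pos, ?_, ?_⟩
    · intro N _
      simp
    · intro G N _ _ _ _ h
      exact h
  | succ k ih =>
    intro κ₁ h
    obtain ⟨κ', δ', τ', K', H', N', hκ', hδ', hδ'', hτ', hK', hH', hext⟩ := hE κ₁ h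
    obtain ⟨κ, τ, K, N₀, φ, hκ, hτ, hφ, hc⟩ := ih κ' hκ'
    obtain ⟨N₁, hN₁⟩ := scale H' N₀ δ' hH' hδ'
    refine ⟨κ, min τ τ', max K K', max (max N₁ N') 1, fun N => φ (Nat.sqrt (N / H')), hκ,
      lt_min hτ hτ', ?_, ?_⟩
    · intro N hN
      have hN1 : N₁ ≤ N := le_trans (le_trans (le_max_left _ _) (le_max_left _ _)) hN
      obtain ⟨a1, a2, a3, a4⟩ := hN₁ N hN1
      set P := Nat.sqrt (N / H') with hP
      obtain ⟨b1, b2, b3⟩ := hφ P a1
      have hPN : P ^ 2 ≤ N := le_trans (Nat.le_mul_of_pos_right _ hH') a3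
      have hPN' : P ≤ N := le_trans (by nlinarith) hPN
      refine ⟨b1.trans hPN', ?_, ?_⟩
      · calc φ P ^ (2 ^ (k + 1)) = (φ P ^ (2 ^ k)) ^ 2 := by rw [← pow_mul, pow_succ]
          _ ≤ P ^ 2 := Nat.pow_le_pow_left b2 2
          _ ≤ N := hPN
      · have hPr : (1 : ℝ) ≤ P := by exact_mod_cast a2
        calc (N : ℝ) ≤ (P : ℝ) ^ (2 + δ') := a4
          _ ≤ (P : ℝ) ^ ((2 : ℝ) + 1 / 20) :=
              Real.rpow_le_rpow_of_exponent_le hPr (by linarith)
          _ ≤ ((φ P : ℝ) ^ (((2 : ℝ) + 1 / 20) ^ k)) ^ ((2 : ℝ) + 1 / 20) :=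
              Real.rpow_le_rpow (by linarith) b3 (by norm_num)
          _ = (φ P : ℝ) ^ (((2 : ℝ) + 1 / 20) ^ (k + 1)) := by
              rw [← Real.rpow_mul (Nat.cast_nonneg _), pow_succ]
    · intro G N hG hN hNI hSm hD
      have hN1 : N₁ ≤ N := le_trans (le_trans (le_max_left _ _) (le_max_left _ _)) hN
      have hN2 : N' ≤ N := le_trans (le_trans (le_max_right _ _) (le_max_left _ _)) hN
      obtain ⟨a1, a2, a3, a4⟩ := hN₁ N hN1
      simp only at hNI hD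
      set P := Nat.sqrt (N / H') with hP
      obtain ⟨b1, b2, b3⟩ := hφ P a1
      have hPN : P ^ 2 ≤ N := le_trans (Nat.le_mul_of_pos_right _ hH') a3
      have hPN' : P ≤ N := le_trans (by nlinarith) hPN
      have hDP : DD G P ≤ κ' := by
        refine hc G P hG a1 (fun y h1 h2 => ?_) ?_ hD
        · exact NI_le (hNI y h1 (h2.trans hPN')) (min_le_left _ _)
        · exact Sm_le hSm (le_max_left _ _) (min_le_left _ _)
      refine hext G N P hG hN2 a3 a4 ?_ ?_ hDP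
      · exact NI_le (hNI N (b1.trans hPN') le_rfl) (min_le_right _ _)
      · exact Sm_le hSm (le_max_right _ _) (min_le_right _ _)

lemma rpow_twentieth {N x : ℕ} (h : N ≤ x ^ 20) : (N : ℝ) ^ ((1 : ℝ) / 20) ≤ x := by
  have h1 : (N : ℝ) ≤ (x : ℝ) ^ (20 : ℕ) := by exact_mod_cast h
  have h2 := Real.rpow_le_rpow (Nat.cast_nonneg _) h1 (show (0 : ℝ) ≤ 1 / 20 by norm_num)
  have h3 : ((x : ℝ) ^ (20 : ℕ)) ^ ((1 : ℝ) / 20) = x := by
    rw [← Real.rpow_natCast, ← Real.rpow_mul (Nat.cast_nonneg _)]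
    norm_num
  rwa [h3] at h2

lemma wt_le (G : ℕ → ℝ) (p : ℕ) : |wt G p| ≤ 1 := by
  unfold wt
  split_ifs with h
  · exact h
  · simp

lemma wt_sq_le (G : ℕ → ℝ) (p : ℕ) : (wt G p) ^ 2 ≤ min 1 ((G p) ^ 2) := by
  unfold wt
  split_ifs with h
  · refine le_min ?_ le_rfl
    rw [← sq_abs]
    nlinarith [abs_nonneg (G p)]
  · rw [zero_pow two_ne_zero]
    exact le_min zero_le_one (sq_nonneg _)

lemma sum_wt_le (G : ℕ → ℝ) (N : ℕ) : ∑ p ∈ Pr N, (wt G p) ^ 2 / p ≤ DD G N := by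
  unfold DD
  exact Finset.sum_le_sum fun p _ =>
    div_le_div_of_nonneg_right (wt_sq_le G p) (Nat.cast_nonneg _)

/-- the truncated variance of `G - c log` from the truncated values -/
lemma DD_lg_le (G : ℕ → ℝ) (c : ℝ) (Q : ℕ) :
    DD (lg G c) Q ≤ bad G Q + ∑ p ∈ Pr Q, 1 / (p : ℝ) * (wt G p - c * Real.log p) ^ 2 := by
  have hb : bad G Q = ∑ p ∈ Pr Q, if 1 < |G p| then 1 / (p : ℝ) else 0 :=
    Finset.sum_filter _ _
  rw [hb, ← Finset.sum_add_distrib]
  unfold DD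
  refine Finset.sum_le_sum fun p hp => ?_
  have hp0 : (0 : ℝ) ≤ 1 / (p : ℝ) := by positivity
  by_cases h : 1 < |G p|
  · rw [if_pos h]
    have h1 : min 1 ((lg G c p) ^ 2) / (p : ℝ) ≤ 1 / p :=
      div_le_div_of_nonneg_right (min_le_left _ _) (Nat.cast_nonneg _)
    have h2 : 0 ≤ 1 / (p : ℝ) * (wt G p - c * Real.log p) ^ 2 := mul_nonneg hp0 (sq_nonneg _)
    linarith
  · rw [if_neg h, zero_add]
    have h3 : wt G p = G p := by
      unfold wt
      rw [if_pos (not_lt.1 h)]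
    rw [h3, one_div_mul_eq_div]
    exact div_le_div_of_nonneg_right (min_le_right _ _) (Nat.cast_nonneg _)

lemma lg_lg (F : ℕ → ℝ) (c c₀ : ℝ) : lg (lg F c) c₀ = lg F (c + c₀) := by
  funext n
  unfold lg
  ring

end ML_

open ML_

/-- the main lemma on one scale -/
theorem t_ML (h1 : S_STEP1) (hL : S_LIN) (hS : S_SLOPE) (hE : S_EXT) (hN : S_NILOG)
    (hC : S_CSM) : S_ML := by
  obtain ⟨εs, hεs, h1⟩ := h1
  refine ⟨min εs 1 / 2, by have := lt_min hεs one_pos; linarith, fun ε hε hε1 => ?_⟩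
  have hε2 : 2 * ε ≤ εs := by have := min_le_left εs 1; linarith
  have hε3 : 2 * ε ≤ 1 := by have := min_le_right εs 1; linarith
  obtain ⟨κ, τa, Ka, Na, φ, hκ, hτa, hφ, hchain⟩ := chain hE 4 ε hε
  obtain ⟨η, Nb, hη, hslope⟩ := hS (κ / 4) (by linarith)
  obtain ⟨K5, H5, N5, τ5, M, hK5, hH5, hτ5, hM, hlin⟩ := hL η hη
  obtain ⟨K6, H6, N6, τ6, hK6, hH6, hτ6, hstep⟩ := h1 (min τ5 (κ / 2)) (lt_min hτ5 (by linarith))
  -- the common parameters
  set τs := min τa (min τ5 τ6) with hτs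
  have hτs0 : 0 < τs := lt_min hτa (lt_min hτ5 hτ6)
  set Ks := max Ka (max K5 K6) with hKs
  have hKs1 : 1 ≤ Ks := hK5.trans (le_trans (le_max_left _ _) (le_max_right _ _))
  have hlogK : 0 ≤ Real.log Ks := Real.log_nonneg (by exact_mod_cast hKs1)
  set κc := τs / (4 * (4 + Real.log Ks)) with hκc
  have hκc0 : 0 < κc := by positivity
  have hκc1 : 2 * κc * (4 + Real.log Ks) = τs / 2 := by
    rw [hκc]
    field_simp
    ring
  obtain ⟨Kc, τc, hKc, hτc, hcsm⟩ := hC κc hκc0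
  obtain ⟨w, hw⟩ := exists_nat_ge (Real.exp (8 / κc))
  -- the largeness of Pb
  set m := max (max (max Nb w) (max N5 (H5 ^ 3))) ((max N5 (H5 ^ 3)) ^ 2) with hm
  obtain ⟨N1, hN1⟩ := scale H6 m 1 hH6 one_pos
  refine ⟨1 / 20, min (τs / 2) τc, M, max Ks Kc,
    max (max (max Na N6) (max N1 Kc)) (max 1 (H6 ^ 2)), by norm_num,
    lt_min (by linarith) hτc, hM, ?_⟩
  intro F N c hF hN0 hNI hSm hDD
  have hNa : Na ≤ N :=
    le_trans (le_trans (le_trans (le_max_left _ _) (le_max_left _ _)) (le_max_left _ _)) hN0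
  have hN6 : N6 ≤ N :=
    le_trans (le_trans (le_trans (le_max_right _ _) (le_max_left _ _)) (le_max_left _ _)) hN0
  have hN1' : N1 ≤ N :=
    le_trans (le_trans (le_trans (le_max_left _ _) (le_max_right _ _)) (le_max_left _ _)) hN0
  have hNc : Kc ≤ N :=
    le_trans (le_trans (le_trans (le_max_right _ _) (le_max_right _ _)) (le_max_left _ _)) hN0
  have hN11 : 1 ≤ N := le_trans (le_trans (le_max_left _ _) (le_max_right _ _)) hN0
  have hNH : H6 ^ 2 ≤ N := le_trans (le_trans (le_max_right _ _) (le_max_right _ _)) hN0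
  obtain ⟨a1, a2, a3, a4⟩ := hN1 N hN1'
  set Pb := Nat.sqrt (N / H6) with hPb
  obtain ⟨b1, b2, b3⟩ := hφ N hNa
  set Q := φ N with hQ
  have hPb2 : Pb ^ 2 ≤ N := le_trans (Nat.le_mul_of_pos_right _ hH6) a3
  have hPbN : Pb ≤ N := le_trans (by nlinarith) hPb2
  have hQ4 : Q ^ 4 ≤ Pb := by
    rw [hPb, Nat.le_sqrt', Nat.le_div_iff_mul_le hH6]
    have h2 : ((Q ^ 4) ^ 2 * H6) ^ 2 ≤ N ^ 2 := by
      calc ((Q ^ 4) ^ 2 * H6) ^ 2 = Q ^ (2 ^ 4) * H6 ^ 2 := by ring
        _ ≤ N * N := Nat.mul_le_mul b2 hNH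
        _ = N ^ 2 := by ring
    exact (Nat.pow_le_pow_iff_left two_ne_zero).1 h2
  have hQ1 : 1 ≤ Q := by
    by_contra h
    have h0 : Q = 0 := by omega
    rw [h0, Nat.cast_zero, Real.zero_rpow (by norm_num)] at b3
    have : (1 : ℝ) ≤ N := by exact_mod_cast hN11
    linarith
  have hQPb : Q ≤ Pb := le_trans (Nat.le_self_pow (by norm_num) Q) hQ4
  have hQ20 : N ≤ Q ^ 20 := by
    have hQr : (1 : ℝ) ≤ Q := by exact_mod_cast hQ1
    have h3 : (N : ℝ) ≤ (Q : ℝ) ^ (20 : ℝ) :=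
      b3.trans (Real.rpow_le_rpow_of_exponent_le hQr (by norm_num))
    rw [show (20 : ℝ) = ((20 : ℕ) : ℝ) by norm_num, Real.rpow_natCast] at h3
    exact_mod_cast h3
  have hPb3 : N ≤ Pb ^ 3 := by
    rw [show (2 : ℝ) + 1 = ((3 : ℕ) : ℝ) by norm_num, Real.rpow_natCast] at a4
    exact_mod_cast a4
  have hNbPb : Nb ≤ Pb := le_trans (le_trans (le_trans (le_max_left _ _) (le_max_left _ _))
    (le_max_left _ _)) a1
  have hwPb : w ≤ Pb := le_trans (le_trans (le_trans (le_max_right _ _) (le_max_left _ _))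
    (le_max_left _ _)) a1
  have hbig : (max N5 (H5 ^ 3)) ^ 2 ≤ Pb := le_trans (le_max_right _ _) a1
  -- near invariance and smallness for all the slopes in question
  have key : ∀ c' : ℝ, |c'| ≤ 2 * κc →
      (∀ y : ℕ, N ≤ y ^ 20 → y ≤ N → NI (lg F c') y M τs) ∧ Sm (lg F c') Ks τs := by
    intro c' hc'
    constructor
    · intro y hy1 hy2
      have h2 := hNI y (rpow_twentieth hy1) hy2
      have hy : 1 ≤ y := by
        by_contra h
        have : y = 0 := by omega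
        rw [this] at hy1
        simp at hy1
        omega
      refine NI_le (hN F y M _ c' hy (by linarith) h2) ?_
      have h3 := min_le_left (τs / 2) τc
      have h4 : 4 * |c'| ≤ 2 * κc * (4 + Real.log Ks) := by nlinarith [abs_nonneg c']
      linarith
    · refine Sm_le (Sm_lg (Sm_le hSm (le_max_left _ _) le_rfl) c') le_rfl ?_
      have h3 := min_le_left (τs / 2) τc
      have h4 : |c'| * Real.log Ks ≤ 2 * κc * (4 + Real.log Ks) := by
        nlinarith [abs_nonneg c', mul_le_mul_of_nonneg_right hc' hlogK]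
      linarith
  have hc : |c| ≤ κc := by
    refine hcsm F c (Sm_le hSm (le_max_right _ _) (min_le_right _ _)) ?_
    exact ((DD_mono _ hNc).trans hDD).trans hε3
  obtain ⟨k1, k2⟩ := key c (by linarith)
  have hNN : N ≤ N ^ 20 := Nat.le_self_pow (by norm_num) N
  have hG := Addf_lg hF c
  have hbad : bad (lg F c) Pb ≤ min τ5 (κ / 2) := by
    refine hstep (lg F c) N Pb hG hN6 a3 ?_ ?_ (hDD.trans hε2)
    · exact NI_le (NI_one hM (k1 N hNN le_rfl))
        ((min_le_right _ _).trans (min_le_right _ _))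
    · exact Sm_le k2 ((le_max_right _ _).trans (le_max_right _ _))
        ((min_le_right _ _).trans (min_le_right _ _))
  obtain ⟨c₀, hc0, hsum⟩ := hslope (wt (lg F c)) Pb Q hNbPb hQ4 (fun p => wt_le _ p)
    ((sum_wt_le _ Pb).trans (((DD_mono _ hPbN).trans hDD).trans hε3)) (by
      intro y P hy hy2 hP
      have hmy : max N5 (H5 ^ 3) ≤ y :=
        (Nat.pow_le_pow_iff_left two_ne_zero).1 (hbig.trans hy2)
      refine hlin (lg F c) y P hG ((le_max_left _ _).trans hmy) ?_ ?_ ?_ ?_ ?_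
      · rcases le_total P H5 with h | h
        · calc P ^ 2 * H5 ≤ H5 ^ 2 * H5 := Nat.mul_le_mul_right _ (Nat.pow_le_pow_left h 2)
            _ = H5 ^ 3 := by ring
            _ ≤ y := (le_max_right _ _).trans hmy
        · calc P ^ 2 * H5 ≤ P ^ 2 * P := Nat.mul_le_mul_left _ h
            _ = P ^ 3 := by ring
            _ ≤ y := hP
      · refine NI_le (k1 y ?_ (hy.trans hPbN)) ((min_le_right _ _).trans (min_le_left _ _))
        have hy1 : 1 ≤ y := by
          by_contra h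
          have h0 : y = 0 := by omega
          rw [h0] at hy2
          simp at hy2
          omega
        calc N ≤ Pb ^ 3 := hPb3
          _ ≤ (y ^ 2) ^ 3 := Nat.pow_le_pow_left hy2 3
          _ = y ^ 6 := by ring
          _ ≤ y ^ 20 := Nat.pow_le_pow_right hy1 (by norm_num)
      · exact Sm_le k2 ((le_max_left _ _).trans (le_max_right _ _))
          ((min_le_right _ _).trans (min_le_left _ _))
      · exact ((DD_mono _ (hy.trans hPbN)).trans hDD).trans hε3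
      · exact ((bad_mono _ hy).trans hbad).trans (min_le_left _ _))
  have hc0' : |c₀| ≤ κc := by
    have h5 : 8 / κc ≤ Real.log Pb := by
      rw [Real.le_log_iff_exp_le (by exact_mod_cast a2)]
      exact hw.trans (by exact_mod_cast hwPb)
    have h6 : |c₀| * (8 / κc) ≤ 8 := (mul_le_mul_of_nonneg_left h5 (abs_nonneg _)).trans hc0
    have h7 : |c₀| * 8 ≤ 8 * κc := by
      have := mul_le_mul_of_nonneg_right h6 hκc0.le
      have h8 : |c₀| * (8 / κc) * κc = |c₀| * 8 := by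
        field_simp
      linarith
    linarith
  have hcc : |c + c₀| ≤ 2 * κc := (abs_add_le c c₀).trans (by linarith)
  obtain ⟨l1, l2⟩ := key (c + c₀) hcc
  refine ⟨c + c₀, hchain (lg F (c + c₀)) N (Addf_lg hF _) hNa ?_ ?_ ?_⟩
  · intro y hy1 hy2
    refine NI_le (NI_one hM (l1 y ?_ hy2)) (min_le_left _ _)
    exact hQ20.trans (Nat.pow_le_pow_left hy1 20)
  · exact Sm_le l2 (le_max_left _ _) (min_le_left _ _)
  · rw [← lg_lg]
    have h9 := DD_lg_le (lg F c) c₀ Q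
    have h10 := (bad_mono (lg F c) hQPb).trans (hbad.trans (min_le_right _ _))
    linarith

end Pool.Agent.N826.EM
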