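import Pool.Agent.N826.EM.Stm

/-!
Project EM, task NIX (helper966): near invariance from the number of descents, and near invariance
after subtracting a multiple of the logarithm.
-/

set_option autoImplicit false

namespace Pool.Agent.N826.EM

open Finset Filter Topology

namespace NIX_

theorem cl_mono (M : ℝ) {x y : ℝ} (h : x ≤ y) : cl M x ≤ cl M y :=
  max_le_max le_rfl (min_le_min le_rfl h)

theorem abs_cl_le {M : ℝ} (hM : 0 ≤ M) (x : ℝ) : |cl M x| ≤ M := by
  rw [abs_le]
  exact ⟨le_max_left _ _, max_le (by linarith) (min_le_left _ _)⟩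

theorem cl_lip (M x y : ℝ) : |cl M x - cl M y| ≤ |x - y| := by
  unfold cl
  calc |max (-M) (min M x) - max (-M) (min M y)|
      ≤ max |(-M) - (-M)| |min M x - min M y| := abs_max_sub_max_le_max _ _ _ _
    _ = |min M x - min M y| := by
        rw [sub_self, abs_zero]
        exact max_eq_right (abs_nonneg _)
    _ ≤ max |M - M| |x - y| := abs_min_sub_min_le_max _ _ _ _
    _ = |x - y| := by
        rw [sub_self, abs_zero]
        exact max_eq_right (abs_nonneg _)

theorem tele (u : ℕ → ℝ) (N : ℕ) : ∑ n ∈ Icc 1 N, (u (n + 1) - u n) = u (N + 1) - u 1 := by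
  induction N with
  | zero => simp
  | succ N ih =>
    rw [Finset.sum_Icc_succ_top (by omega), ih]
    ring

/-- `∑ (log N - log n) ≤ N` -/
theorem sum_log (N : ℕ) (hN : 1 ≤ N) :
    ∑ n ∈ Icc 1 N, (Real.log N - Real.log n) ≤ N := by
  induction N, hN using Nat.le_induction with
  | base => simp
  | succ N hN ih =>
    have hN0 : (0 : ℝ) < N := by exact_mod_cast hN
    have e : ∑ n ∈ Icc 1 (N + 1), (Real.log ((N + 1 : ℕ) : ℝ) - Real.log n)
        = ∑ n ∈ Icc 1 N, (Real.log N - Real.log n)
          + N * (Real.log ((N + 1 : ℕ) : ℝ) - Real.log N) := by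
      rw [Finset.sum_Icc_succ_top (by omega), sub_self, add_zero]
      rw [← sub_eq_iff_eq_add', ← sum_sub_distrib]
      have h5 : ∀ n ∈ Icc 1 N, Real.log ((N + 1 : ℕ) : ℝ) - Real.log (n : ℝ)
          - (Real.log N - Real.log (n : ℝ)) = Real.log ((N + 1 : ℕ) : ℝ) - Real.log N :=
        fun n _ => by ring
      rw [sum_congr rfl h5, sum_const, Nat.card_Icc, nsmul_eq_mul, Nat.add_sub_cancel]
    rw [e]
    have h : Real.log ((N + 1 : ℕ) : ℝ) - Real.log N ≤ 1 / N := by
      rw [← Real.log_div (by positivity) hN0.ne']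
      refine (Real.log_le_sub_one_of_pos (by positivity)).trans (le_of_eq ?_)
      push_cast
      field_simp
      ring
    have h2 : (N : ℝ) * (Real.log ((N + 1 : ℕ) : ℝ) - Real.log N) ≤ 1 := by
      calc _ ≤ (N : ℝ) * (1 / N) := mul_le_mul_of_nonneg_left h hN0.le
        _ = 1 := by field_simp
    push_cast at *
    linarith

end NIX_

/-- near invariance from the number of descents -/
theorem t_CROSS : S_CROSS := by
  intro f V N M hV hN hM A
  have hN0 : (0 : ℝ) < N := by exact_mod_cast hN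
  set u : ℕ → ℝ := fun n => cl M (f n / V - A) with hu
  unfold Ex
  rw [div_le_div_iff_of_pos_right hN0]
  have h1 : ∀ n ∈ Icc 1 N, |u (n + 1) - u n| ≤ (u (n + 1) - u n) +
      (if f (n + 1) < f n then 4 * M else 0) := by
    intro n _
    have hb1 := NIX_.abs_cl_le hM (f (n + 1) / V - A)
    have hb2 := NIX_.abs_cl_le hM (f n / V - A)
    rw [abs_le] at hb1 hb2
    split_ifs with h
    · rw [abs_le]
      simp only [hu]
      constructor <;> linarith [hb1.1, hb1.2, hb2.1, hb2.2]
    · have h3 : u n ≤ u (n + 1) := by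
        refine NIX_.cl_mono M ?_
        have : f n / V ≤ f (n + 1) / V := (div_le_div_iff_of_pos_right hV).2 (not_lt.1 h)
        linarith
      rw [abs_of_nonneg (by linarith)]
      linarith
  calc ∑ n ∈ Icc 1 N, |u (n + 1) - u n|
      ≤ ∑ n ∈ Icc 1 N, ((u (n + 1) - u n) + (if f (n + 1) < f n then 4 * M else 0)) :=
        sum_le_sum h1
    _ = (u (N + 1) - u 1) + (Dsc f N).card * (4 * M) := by
        rw [sum_add_distrib, NIX_.tele, ← sum_filter, sum_const, nsmul_eq_mul]
        rfl
    _ ≤ 2 * M * (2 * ((Dsc f N).card : ℝ) + 1) := by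
        have hb1 := NIX_.abs_cl_le hM (f (N + 1) / V - A)
        have hb2 := NIX_.abs_cl_le hM (f 1 / V - A)
        rw [abs_le] at hb1 hb2
        have : u (N + 1) - u 1 ≤ 2 * M := by
          simp only [hu]
          linarith [hb1.2, hb2.1]
        linarith

/-- near invariance of `G - c log` -/
theorem t_NILOG : S_NILOG := by
  intro F N M τ c hN hM hNI A
  have hN0 : (0 : ℝ) < N := by exact_mod_cast hN
  have hN1 : (1 : ℝ) ≤ N := by exact_mod_cast hN
  set A' : ℝ := A + c * Real.log N with hA'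
  have h0 := hNI A'
  have hpt : ∀ n : ℕ, |cl M (lg F c n - A) - cl M (F n - A')| ≤ |c| * |Real.log n - Real.log N| := by
    intro n
    refine (NIX_.cl_lip M _ _).trans (le_of_eq ?_)
    rw [← abs_mul, ← abs_neg (c * _)]
    congr 1
    rw [lg, hA']
    ring
  have h1 : ∀ n : ℕ, |cl M (lg F c (n + 1) - A) - cl M (lg F c n - A)|
      ≤ |cl M (F (n + 1) - A') - cl M (F n - A')| + |c| * |Real.log ((n + 1 : ℕ) : ℝ) - Real.log N|
        + |c| * |Real.log n - Real.log N| := by
    intro n
    have e1 := hpt (n + 1)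
    have e2 := hpt n
    have e : cl M (lg F c (n + 1) - A) - cl M (lg F c n - A)
        = (cl M (F (n + 1) - A') - cl M (F n - A'))
          + (cl M (lg F c (n + 1) - A) - cl M (F (n + 1) - A'))
          - (cl M (lg F c n - A) - cl M (F n - A')) := by ring
    rw [e]
    refine (abs_sub _ _).trans ?_
    exact add_le_add ((abs_add_le _ _).trans (add_le_add le_rfl e1)) e2
  have hs1 : ∑ n ∈ Icc 1 N, |Real.log n - Real.log N| ≤ N := by
    refine le_trans (le_of_eq ?_) (NIX_.sum_log N hN)
    refine sum_congr rfl fun n hn => ?_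
    rw [mem_Icc] at hn
    have hn0 : (0 : ℝ) < n := by exact_mod_cast hn.1
    have : Real.log n ≤ Real.log N := Real.log_le_log hn0 (by exact_mod_cast hn.2)
    rw [abs_of_nonpos (by linarith)]
    ring
  have hs2 : ∑ n ∈ Icc 1 N, |Real.log ((n + 1 : ℕ) : ℝ) - Real.log N| ≤ 2 * N := by
    have hnn : 0 ≤ |Real.log ((1 : ℕ) : ℝ) - Real.log N| := abs_nonneg _
    have e : ∑ n ∈ Icc 1 N, |Real.log ((n + 1 : ℕ) : ℝ) - Real.log N|
        = ∑ n ∈ Icc 1 N, |Real.log n - Real.log N|
          + (|Real.log ((N + 1 : ℕ) : ℝ) - Real.log N| - |Real.log ((1 : ℕ) : ℝ) - Real.log N|) := by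
      rw [← sub_eq_iff_eq_add', ← sum_sub_distrib]
      exact NIX_.tele (fun n => |Real.log (n : ℝ) - Real.log N|) N
    have h3 : |Real.log ((N + 1 : ℕ) : ℝ) - Real.log N| ≤ 1 := by
      have h4 : Real.log N ≤ Real.log ((N + 1 : ℕ) : ℝ) :=
        Real.log_le_log hN0 (by push_cast; linarith)
      rw [abs_of_nonneg (by linarith), ← Real.log_div (by positivity) hN0.ne']
      refine (Real.log_le_sub_one_of_pos (by positivity)).trans ?_
      rw [sub_le_iff_le_add, div_le_iff₀ hN0]
      push_cast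
      linarith
    rw [e]
    linarith
  unfold Ex at h0 ⊢
  rw [div_le_iff₀ hN0] at h0 ⊢
  calc ∑ n ∈ Icc 1 N, |cl M (lg F c (n + 1) - A) - cl M (lg F c n - A)|
      ≤ ∑ n ∈ Icc 1 N, (|cl M (F (n + 1) - A') - cl M (F n - A')|
        + |c| * |Real.log ((n + 1 : ℕ) : ℝ) - Real.log N| + |c| * |Real.log n - Real.log N|) :=
        sum_le_sum fun n _ => h1 n
    _ = ∑ n ∈ Icc 1 N, |cl M (F (n + 1) - A') - cl M (F n - A')|
        + |c| * ∑ n ∈ Icc 1 N, |Real.log ((n + 1 : ℕ) : ℝ) - Real.log N|
        + |c| * ∑ n ∈ Icc 1 N, |Real.log n - Real.log N| := by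
        rw [sum_add_distrib, sum_add_distrib, mul_sum, mul_sum]
    _ ≤ τ * N + |c| * (2 * N) + |c| * N := by
        gcongr
    _ ≤ (τ + 4 * |c|) * N := by
        have := mul_nonneg (abs_nonneg c) hN0.le
        linarith


end Pool.Agent.N826.EM
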