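import Mathlib

/-!
Project EM (helper826): MP_f916f1_nt, additive functions whose set of descents has density zero are
constant multiples of the logarithm.  Definitions and the statements of the parts.
-/

set_option autoImplicit false

namespace Pool.Agent.N826.EM

open Finset Filter Topology

/-- additive over coprime factors -/
def Addf (G : ℕ → ℝ) : Prop :=
  ∀ a b : ℕ, 1 ≤ a → 1 ≤ b → Nat.Coprime a b → G (a * b) = G a + G b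

/-- the set of descents up to `X` -/
noncomputable def Dsc (f : ℕ → ℝ) (X : ℕ) : Finset ℕ := (Icc 1 X).filter (fun n => f (n + 1) < f n)

/-- clamp to `[-M, M]` -/
noncomputable def cl (M x : ℝ) : ℝ := max (-M) (min M x)

/-- the primes up to `N` -/
abbrev Pr (N : ℕ) : Finset ℕ := (Finset.Icc 1 N).filter Nat.Prime

/-- the mean over `1, ..., N` -/
noncomputable def Ex (N : ℕ) (h : ℕ → ℝ) : ℝ := (∑ n ∈ Icc 1 N, h n) / N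

/-- near invariance of the level sets of `G` under the shift by one -/
def NI (G : ℕ → ℝ) (N : ℕ) (M τ : ℝ) : Prop :=
  ∀ A : ℝ, Ex N (fun n => |cl M (G (n + 1) - A) - cl M (G n - A)|) ≤ τ

/-- excess of the multiples of `p` -/
noncomputable def cp (N : ℕ) (h : ℕ → ℝ) (p : ℕ) : ℝ :=
  (p : ℝ) / N * ∑ m ∈ Icc 1 (N / p), h (p * m) - Ex N h

/-- truncated variance of `G` over the primes up to `N` -/
noncomputable def DD (G : ℕ → ℝ) (N : ℕ) : ℝ := ∑ p ∈ Pr N, min 1 ((G p) ^ 2) / p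

/-- `G` minus a multiple of the logarithm -/
noncomputable def lg (G : ℕ → ℝ) (c : ℝ) (n : ℕ) : ℝ := G n - c * Real.log n

/-- the values at primes, those of absolute value above one replaced by zero -/
noncomputable def wt (G : ℕ → ℝ) (p : ℕ) : ℝ := if |G p| ≤ 1 then G p else 0

/-- the mass of the primes up to `N` with `|G p| > 1` -/
noncomputable def bad (G : ℕ → ℝ) (N : ℕ) : ℝ := ∑ p ∈ (Pr N).filter (fun p => 1 < |G p|), (1 : ℝ) / p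

/-- the strongly additive function with the values `a p` -/
noncomputable def sa (a : ℕ → ℝ) (n : ℕ) : ℝ := ∑ p ∈ n.primeFactors, a p

/-- its mean -/
noncomputable def mu (a : ℕ → ℝ) (N : ℕ) : ℝ := ∑ p ∈ Pr N, a p / p

/-- small on small integers -/
def Sm (G : ℕ → ℝ) (K : ℕ) (τ : ℝ) : Prop := ∀ q : ℕ, 1 ≤ q → q ≤ K → |G q| ≤ τ

/-- DUAL: the dual Turan-Kubilius inequality -/
def S_DUAL : Prop := ∀ (N P : ℕ) (h : ℕ → ℝ), 1 ≤ N → P ^ 2 ≤ N →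
  ∑ p ∈ Pr P, 1 / (p : ℝ) * (cp N h p) ^ 2 ≤ 2 * Ex N (fun n => (h n) ^ 2)

/-- STAR: nearly shift invariant functions are equidistributed on the multiples of the primes -/
def S_STAR : Prop := ∃ C : ℝ, 0 < C ∧ ∀ (N P H : ℕ) (g : ℕ → ℝ) (B τ : ℝ), 1 ≤ H →
  P ^ 2 * H ≤ N → H ^ 3 ≤ N → 0 ≤ B → (∀ n, |g n| ≤ B) →
  Ex N (fun n => |g (n + 1) - g n|) ≤ τ →
  ∑ p ∈ Pr P, 1 / (p : ℝ) * (cp N g p) ^ 2 ≤ C * (B ^ 2 / H + B * H * τ)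

/-- TK2: the Turan-Kubilius inequality -/
def S_TK2 : Prop := ∃ C : ℝ, 0 < C ∧ ∀ (N : ℕ) (a : ℕ → ℝ), 1 ≤ N →
  Ex N (fun n => (sa a n - mu a N) ^ 2) ≤ C * ∑ p ∈ Pr N, (a p) ^ 2 / p

/-- TK4: the fourth moment -/
def S_TK4 : Prop := ∃ C : ℝ, 0 < C ∧ ∀ (N : ℕ) (a : ℕ → ℝ), 1 ≤ N → (∀ p, |a p| ≤ 1) →
  Ex N (fun n => (sa a n - mu a N) ^ 4) ≤ C * (1 + ∑ p ∈ Pr N, (a p) ^ 2 / p) ^ 2

/-- APX: an additive function agrees with the strongly additive function of its truncated values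
at most integers -/
def S_APX : Prop := ∃ C : ℝ, 0 < C ∧ ∀ (G : ℕ → ℝ) (N K : ℕ) (τ : ℝ), Addf G → 1 ≤ N → 1 ≤ K →
  Sm G K τ →
  (((Icc 1 N).filter (fun n => 2 * K * τ < |G n - sa (wt G) n|)).card : ℝ) ≤
    N * (bad G N + C / Real.sqrt K)

/-- STEP1: the primes with large values are rare -/
def S_STEP1 : Prop := ∃ ε : ℝ, 0 < ε ∧ ∀ κ : ℝ, 0 < κ → ∃ (K H N₀ : ℕ) (τ : ℝ), 1 ≤ K ∧ 1 ≤ H ∧
  0 < τ ∧ ∀ (G : ℕ → ℝ) (N P : ℕ), Addf G → N₀ ≤ N → P ^ 2 * H ≤ N → NI G N 1 τ → Sm G K τ →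
  DD G N ≤ ε → bad G P ≤ κ

/-- LIN: the linear relation between the values at primes and the means -/
def S_LIN : Prop := ∀ κ : ℝ, 0 < κ → ∃ (K H N₀ : ℕ) (τ M : ℝ), 1 ≤ K ∧ 1 ≤ H ∧ 0 < τ ∧ 1 ≤ M ∧
  ∀ (G : ℕ → ℝ) (N P : ℕ), Addf G → N₀ ≤ N → P ^ 2 * H ≤ N → NI G N M τ → Sm G K τ →
  DD G N ≤ 1 → bad G N ≤ τ →
  ∑ p ∈ Pr P, 1 / (p : ℝ) * (wt G p + mu (wt G) (N / p) - mu (wt G) N) ^ 2 ≤ κ

/-- STAB: stability of the Cauchy equation on an interval -/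
def S_STAB : Prop := ∀ (J : ℝ → ℝ) (B S κ : ℝ), 0 < B → (∀ v, 0 ≤ v → v ≤ B → |J v| ≤ S) →
  (∀ v w, 0 ≤ v → 0 ≤ w → v + w ≤ B → |J (v + w) - J v - J w| ≤ κ) →
  ∀ v, 0 ≤ v → v ≤ B → |J v - v / B * J B| ≤ 3 * κ

/-- SLOPE: the linear relation at all scales forces the values to be a multiple of the logarithm -/
def S_SLOPE : Prop := ∀ κ : ℝ, 0 < κ → ∃ (η : ℝ) (N₀ : ℕ), 0 < η ∧ ∀ (a : ℕ → ℝ) (N Q : ℕ),
  N₀ ≤ N → Q ^ 4 ≤ N → (∀ p, |a p| ≤ 1) → ∑ p ∈ Pr N, (a p) ^ 2 / p ≤ 1 →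
  (∀ y P : ℕ, y ≤ N → N ≤ y ^ 2 → P ^ 3 ≤ y →
    ∑ p ∈ Pr P, 1 / (p : ℝ) * (a p + mu a (y / p) - mu a y) ^ 2 ≤ η) →
  ∃ c : ℝ, |c| * Real.log N ≤ 8 ∧ ∑ p ∈ Pr Q, 1 / (p : ℝ) * (a p - c * Real.log p) ^ 2 ≤ κ

/-- EXT: extension of the smallness of the truncated variance to larger scales -/
def S_EXT : Prop := ∀ κ₁ : ℝ, 0 < κ₁ → ∃ (κ δ τ : ℝ) (K H N₀ : ℕ), 0 < κ ∧ 0 < δ ∧
  δ ≤ 1 / 20 ∧ 0 < τ ∧ 1 ≤ K ∧ 1 ≤ H ∧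
  ∀ (G : ℕ → ℝ) (N P : ℕ), Addf G → N₀ ≤ N → P ^ 2 * H ≤ N → (N : ℝ) ≤ (P : ℝ) ^ (2 + δ) →
  NI G N 1 τ → Sm G K τ → DD G P ≤ κ → DD G N ≤ κ₁

/-- NILOG: near invariance of `G - c log` -/
def S_NILOG : Prop := ∀ (F : ℕ → ℝ) (N : ℕ) (M τ c : ℝ), 1 ≤ N → 0 ≤ M → NI F N M τ →
  NI (lg F c) N M (τ + 4 * |c|)

/-- CROSS: near invariance from the number of descents -/
def S_CROSS : Prop := ∀ (f : ℕ → ℝ) (V : ℝ) (N : ℕ) (M : ℝ), 0 < V → 1 ≤ N → 0 ≤ M →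
  NI (fun n => f n / V) N M (2 * M * (2 * ((Dsc f N).card : ℝ) + 1) / N)

/-- CSM: the slope is small -/
def S_CSM : Prop := ∀ κ : ℝ, 0 < κ → ∃ (K : ℕ) (τ : ℝ), 1 ≤ K ∧ 0 < τ ∧
  ∀ (F : ℕ → ℝ) (c : ℝ), Sm F K τ → DD (lg F c) K ≤ 1 → |c| ≤ κ

/-- ML: the main lemma on one scale -/
def S_ML : Prop := ∃ ε₁ : ℝ, 0 < ε₁ ∧ ∀ ε : ℝ, 0 < ε → ε ≤ ε₁ →
  ∃ (s τ M : ℝ) (K N₀ : ℕ), 0 < s ∧ 0 < τ ∧ 1 ≤ M ∧ ∀ (F : ℕ → ℝ) (N : ℕ) (c : ℝ), Addf F →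
  N₀ ≤ N → (∀ y : ℕ, (N : ℝ) ^ s ≤ y → y ≤ N → NI F y M τ) → Sm F K τ →
  DD (lg F c) N ≤ 2 * ε → ∃ c' : ℝ, DD (lg F c') N ≤ ε

/-- CASEU: the truncated variance of `f / V - c log` stays bounded for a suitable `V` -/
def S_CASEU : Prop := ∃ ε₁ : ℝ, 0 < ε₁ ∧ ∀ ε : ℝ, 0 < ε → ε ≤ ε₁ → ∀ f : ℕ → ℝ, Addf f →
  Tendsto (fun X : ℕ => ((Dsc f X).card : ℝ) / (X : ℝ)) atTop (𝓝 0) →
  ∃ V : ℝ, 1 ≤ V ∧ ∀ Y : ℕ, ∃ c : ℝ, DD (lg (fun n => f n / V) c) Y ≤ ε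

/-- the bulk of the values of `f` lies in a bounded interval -/
def Tight (f : ℕ → ℝ) : Prop := ∃ (W : ℝ) (N₀ : ℕ), ∀ N : ℕ, N₀ ≤ N → ∃ m : ℝ,
  (((Icc 1 N).filter (fun n => W < |f n - m|)).card : ℝ) ≤ N / 50

/-- TIGHT: concentration of `f` -/
def S_TIGHT : Prop := ∃ ε : ℝ, 0 < ε ∧ ∀ (f : ℕ → ℝ) (V : ℝ), Addf f → 1 ≤ V →
  (∀ Y : ℕ, ∃ c : ℝ, DD (lg (fun n => f n / V) c) Y ≤ ε) → Tight f

/-- RIG: a concentrated additive function with few descents is a multiple of the logarithm -/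
def S_RIG : Prop := ∀ f : ℕ → ℝ, Addf f →
  Tendsto (fun X : ℕ => ((Dsc f X).card : ℝ) / (X : ℝ)) atTop (𝓝 0) → Tight f →
  ∃ c : ℝ, ∀ n : ℕ, 1 ≤ n → f n = c * Real.log n

/-- the final assembly -/
theorem final (hU : S_CASEU) (hT : S_TIGHT) (hR : S_RIG) (f : ℕ → ℝ) (hf : Addf f)
    (hd : Tendsto (fun X : ℕ => ((Dsc f X).card : ℝ) / (X : ℝ)) atTop (𝓝 0)) :
    ∃ c : ℝ, ∀ n : ℕ, 1 ≤ n → f n = c * Real.log n := by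
  obtain ⟨ε₁, h1, hU⟩ := hU
  obtain ⟨ε₂, h2, hT⟩ := hT
  obtain ⟨V, hV, hY⟩ := hU (min ε₁ ε₂) (lt_min h1 h2) (min_le_left _ _) f hf hd
  exact hR f hf hd (hT f V hf hV fun Y => by
    obtain ⟨c, hc⟩ := hY Y
    exact ⟨c, hc.trans (min_le_right _ _)⟩)

end Pool.Agent.N826.EM
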