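import Mathlib
import Pool.Agent.N826.EM.Stm

/-!
Project EM (helper826), task RIG: a concentrated additive function with few descents is a multiple of the
logarithm.
-/

set_option autoImplicit false

namespace Pool.Agent.N826.EM

open Finset Filter Topology

namespace RIG_

open Classical in
/-- the number of changes of a predicate -/
noncomputable def chg (A : ℕ → Prop) (Y : ℕ) : ℕ := ((Icc 1 Y).filter (fun n => ¬ (A n ↔ A (n + 1)))).card

open Classical in
/-- the number of elements -/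
noncomputable def cnt (A : ℕ → Prop) (Y : ℕ) : ℕ := ((Icc 1 Y).filter A).card

/-- the number of changes of an upper level set -/
lemma chg_up (f : ℕ → ℝ) {U : ℝ → Prop} (hU : ∀ x y, x ≤ y → U x → U y) (Y : ℕ) :
    chg (fun n => U (f n)) Y ≤ 2 * (Dsc f Y).card + 1 := by
  classical
  have key : chg (fun n => U (f n)) Y ≤ 2 * (Dsc f Y).card + (if U (f (Y + 1)) then 1 else 0) := by
    induction Y with
    | zero => simp [chg]
    | succ Y ih =>
      have e1 : chg (fun n => U (f n)) (Y + 1) = chg (fun n => U (f n)) Y +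
          (if ¬ (U (f (Y + 1)) ↔ U (f (Y + 1 + 1))) then 1 else 0) := by
        unfold chg
        rw [card_filter, card_filter, Finset.sum_Icc_succ_top (by omega)]
      have e2 : (Dsc f (Y + 1)).card = (Dsc f Y).card + (if f (Y + 1 + 1) < f (Y + 1) then 1 else 0) := by
        unfold Dsc
        rw [card_filter, card_filter, Finset.sum_Icc_succ_top (by omega)]
      rw [e1, e2]
      by_cases h1 : U (f (Y + 1)) <;> by_cases h2 : U (f (Y + 1 + 1))
      · simp only [h1, h2] at ih ⊢
        simp at ih ⊢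
        omega
      · have h3 : f (Y + 1 + 1) < f (Y + 1) := by
          by_contra h
          exact h2 (hU _ _ (not_lt.1 h) h1)
        simp only [h1, h2, h3] at ih ⊢
        simp at ih ⊢
        omega
      · simp only [h1, h2] at ih ⊢
        simp at ih ⊢
        omega
      · simp only [h1, h2] at ih ⊢
        simp at ih ⊢
        omega
  refine key.trans ?_
  split_ifs <;> omega

lemma dsum (F : ℕ → ℕ) (q r L : ℕ) :
    ∑ l ∈ range L, ∑ i ∈ range q, F (r + q * l + i) = ∑ n ∈ range (q * L), F (r + n) := by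
  induction L with
  | zero => simp
  | succ L ih =>
    rw [Finset.sum_range_succ, ih, Nat.mul_succ, Finset.sum_range_add]
    simp only [add_assoc]

lemma sub_sum (F : ℕ → ℕ) {r M Y : ℕ} (hr : 1 ≤ r) (hY : r + M ≤ Y) :
    ∑ n ∈ range M, F (r + n) ≤ ∑ n ∈ Icc 1 Y, F n := by
  have h1 : ∑ n ∈ range M, F (r + n) = ∑ n ∈ Ico r (r + M), F n := by
    rw [Finset.sum_Ico_eq_sum_range, Nat.add_sub_cancel_left]
  rw [h1]
  refine Finset.sum_le_sum_of_subset fun n hn => ?_
  rw [Finset.mem_Ico] at hn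
  rw [Finset.mem_Icc]
  omega

open Classical in
/-- a nearly shift invariant set is equidistributed in residue classes (upper bound) -/
lemma prog (A : ℕ → Prop) {q r L Y : ℕ} (hr : 1 ≤ r) (hY : r + q * L ≤ Y) :
    q * ((range L).filter (fun l => A (r + q * l))).card ≤ cnt A Y + q * chg A Y := by
  set F : ℕ → ℕ := fun n => if A n then 1 else 0 with hF
  set G : ℕ → ℕ := fun n => if ¬ (A n ↔ A (n + 1)) then 1 else 0 with hG
  have e1 : ((range L).filter (fun l => A (r + q * l))).card = ∑ l ∈ range L, F (r + q * l) := by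
    rw [card_filter]
  have e2 : cnt A Y = ∑ n ∈ Icc 1 Y, F n := by
    unfold cnt
    rw [card_filter]
  have e3 : chg A Y = ∑ n ∈ Icc 1 Y, G n := by
    unfold chg
    rw [card_filter]
  have h1 : ∀ x i : ℕ, A x → ¬ A (x + i) → ∃ i' < i, ¬ (A (x + i') ↔ A (x + i' + 1)) := by
    intro x i hx
    induction i with
    | zero => intro h; exact absurd hx h
    | succ i ih =>
      intro h
      by_cases h2 : A (x + i)
      · exact ⟨i, Nat.lt_succ_self i, fun h3 => h (h3.1 h2)⟩
      · obtain ⟨i', hi', h3⟩ := ih h2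
        exact ⟨i', hi'.trans (Nat.lt_succ_self i), h3⟩
  have h2 : ∀ x : ℕ, q * F x ≤ ∑ i ∈ range q, F (x + i) + q * ∑ i ∈ range q, G (x + i) := by
    intro x
    by_cases hx : A x
    · have h3 : ∀ i ∈ range q, 1 ≤ F (x + i) + ∑ i' ∈ range q, G (x + i') := by
        intro i hi
        by_cases hxi : A (x + i)
        · have : F (x + i) = 1 := by simp only [hF]; rw [if_pos hxi]
          omega
        · obtain ⟨i', hi', h4⟩ := h1 x i hx hxi
          have h5 : G (x + i') = 1 := by simp only [hG]; rw [if_pos h4]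
          have h6 : G (x + i') ≤ ∑ i' ∈ range q, G (x + i') :=
            Finset.single_le_sum (f := fun i' => G (x + i')) (fun _ _ => Nat.zero_le _)
              (Finset.mem_range.2 (hi'.trans (Finset.mem_range.1 hi)))
          omega
      have h4 := Finset.sum_le_sum h3
      rw [Finset.sum_add_distrib, Finset.sum_const, Finset.sum_const, card_range, smul_eq_mul, smul_eq_mul] at h4
      have h5 : F x = 1 := by simp only [hF]; rw [if_pos hx]
      rw [h5]
      exact h4
    · have h5 : F x = 0 := by simp only [hF]; rw [if_neg hx]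
      rw [h5, mul_zero]
      exact Nat.zero_le _
  rw [e1, e2, e3, Finset.mul_sum]
  calc ∑ l ∈ range L, q * F (r + q * l) ≤
        ∑ l ∈ range L, (∑ i ∈ range q, F (r + q * l + i) + q * ∑ i ∈ range q, G (r + q * l + i)) :=
        Finset.sum_le_sum fun l _ => h2 _
    _ = ∑ n ∈ range (q * L), F (r + n) + q * ∑ n ∈ range (q * L), G (r + n) := by
        rw [Finset.sum_add_distrib, ← Finset.mul_sum, dsum, dsum]
    _ ≤ _ := add_le_add (sub_sum F hr hY) (Nat.mul_le_mul_left q (sub_sum G hr hY))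

/-- the changes of the exceptional set -/
lemma chg_exc (f : ℕ → ℝ) (m W : ℝ) (Y : ℕ) :
    chg (fun n => W < |f n - m|) Y ≤ 2 * (2 * (Dsc f Y).card + 1) := by
  classical
  have h1 := chg_up f (U := fun x => m + W < x) (fun x y hxy hx => lt_of_lt_of_le hx hxy) Y
  have h2 := chg_up f (U := fun x => m - W ≤ x) (fun x y hxy hx => le_trans hx hxy) Y
  have h3 : ∀ x : ℝ, W < |x - m| ↔ (m + W < x ∨ ¬ m - W ≤ x) := by
    intro x
    rw [lt_abs, not_le]
    constructor
    · rintro (h | h)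
      · left; linarith
      · right; linarith
    · rintro (h | h)
      · left; linarith
      · right; linarith
  have h4 : chg (fun n => W < |f n - m|) Y ≤ chg (fun n => m + W < f n) Y + chg (fun n => m - W ≤ f n) Y := by
    unfold chg
    refine (Finset.card_le_card ?_).trans (Finset.card_union_le _ _)
    intro n hn
    rw [Finset.mem_union, Finset.mem_filter, Finset.mem_filter]
    rw [Finset.mem_filter] at hn
    obtain ⟨hn1, hn2⟩ := hn
    by_contra h
    rw [not_or] at h
    obtain ⟨h5, h6⟩ := h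
    have h7 : (m + W < f n ↔ m + W < f (n + 1)) := by
      by_contra h'; exact h5 ⟨hn1, h'⟩
    have h8 : (m - W ≤ f n ↔ m - W ≤ f (n + 1)) := by
      by_contra h'; exact h6 ⟨hn1, h'⟩
    apply hn2
    show W < |f n - m| ↔ W < |f (n + 1) - m|
    rw [h3, h3, h7, h8]
  have h1' : chg (fun n => m + W < f n) Y ≤ 2 * (Dsc f Y).card + 1 := h1
  have h2' : chg (fun n => m - W ≤ f n) Y ≤ 2 * (Dsc f Y).card + 1 := h2
  omega

open Classical in
/-- in the bulk the function is nearly constant on short intervals, with few exceptions -/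
lemma nc (f : ℕ → ℝ) (m W δ : ℝ) (hδ : 0 < δ) (h Y : ℕ) :
    ((Icc 1 Y).filter (fun n => |f n - m| ≤ W ∧ ∃ i ≤ h, δ < |f (n + i) - f n|)).card ≤
      (⌈(2 * W + δ) / δ⌉₊ + 1) * h * (2 * (Dsc f (Y + h)).card + 1) := by
  set I : ℕ := ⌈(2 * W + δ) / δ⌉₊ with hI
  set t : ℕ → ℝ := fun i => m - W - δ + i * δ with ht
  have h1 : (Icc 1 Y).filter (fun n => |f n - m| ≤ W ∧ ∃ i ≤ h, δ < |f (n + i) - f n|) ⊆
      (range (I + 1) ×ˢ range h).biUnion (fun x => (Icc 1 Y).filter
        (fun n => ¬ (t x.1 < f (n + x.2) ↔ t x.1 < f (n + x.2 + 1)))) := by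
    intro n hn
    rw [Finset.mem_filter] at hn
    obtain ⟨hn1, hn2, i, hi, hn3⟩ := hn
    rw [Finset.mem_biUnion]
    by_contra hcon
    have h2 : ∀ u ≤ I, ∀ j < h, (t u < f (n + j) ↔ t u < f (n + j + 1)) := by
      intro u hu j hj
      by_contra h'
      exact hcon ⟨(u, j), by simp; omega, by rw [Finset.mem_filter]; exact ⟨hn1, h'⟩⟩
    have h3 : ∀ u ≤ I, ∀ j ≤ h, (t u < f n ↔ t u < f (n + j)) := by
      intro u hu j
      induction j with
      | zero => intro _; exact Iff.rfl
      | succ j ih =>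
        intro hj
        rw [ih (by omega), h2 u hu j (by omega)]
        rfl
    rw [abs_le] at hn2
    have h4 : (1 : ℝ) ≤ (f n - t 0) / δ := by
      rw [le_div_iff₀ hδ]
      simp only [ht]
      push_cast
      linarith
    obtain ⟨u, hu⟩ : ∃ u : ℕ, ⌈(f n - t 0) / δ⌉₊ = u + 1 :=
      Nat.exists_eq_succ_of_ne_zero (by
        intro h'
        rw [Nat.ceil_eq_zero] at h'
        linarith)
    have h5 : (f n - t 0) / δ ≤ u + 1 := by
      have := Nat.le_ceil ((f n - t 0) / δ)
      rw [hu] at this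
      push_cast at this
      exact this
    have h6 : (u : ℝ) < (f n - t 0) / δ := by
      have := Nat.lt_ceil.1 (show u < ⌈(f n - t 0) / δ⌉₊ by omega)
      exact this
    have h7 : u + 1 ≤ I := by
      rw [← hu, hI]
      apply Nat.ceil_le_ceil
      apply div_le_div_of_nonneg_right _ hδ.le
      simp only [ht]
      push_cast
      linarith
    rw [div_le_iff₀ hδ] at h5
    rw [lt_div_iff₀ hδ] at h6
    have h8 : t u < f n := by
      simp only [ht] at h5 h6 ⊢
      push_cast at h5 h6 ⊢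
      linarith
    have h9 : ¬ t (u + 1) < f n := by
      rw [not_lt]
      simp only [ht] at h5 h6 ⊢
      push_cast at h5 h6 ⊢
      linarith
    have h10 := (h3 u (by omega) i hi).1 h8
    have h11 : ¬ t (u + 1) < f (n + i) := fun h' => h9 ((h3 (u + 1) h7 i hi).2 h')
    rw [not_lt] at h9 h11
    have h12 : |f (n + i) - f n| ≤ δ := by
      simp only [ht] at h8 h9 h10 h11
      push_cast at h8 h9 h10 h11
      rw [abs_le]
      constructor <;> linarith
    linarith
  have h2 : ∀ x ∈ (range (I + 1) ×ˢ range h), ((Icc 1 Y).filter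
        (fun n => ¬ (t x.1 < f (n + x.2) ↔ t x.1 < f (n + x.2 + 1)))).card ≤ 2 * (Dsc f (Y + h)).card + 1 := by
    intro x hx
    refine le_trans ?_ (chg_up f (U := fun y => t x.1 < y) (fun y z hyz hy => lt_of_lt_of_le hy hyz) (Y + h))
    unfold chg
    rw [Finset.mem_product, Finset.mem_range, Finset.mem_range] at hx
    refine Finset.card_le_card_of_injOn (fun n => n + x.2) ?_ (fun a _ b _ hab => by simpa using hab)
    intro n hn
    rw [Finset.mem_coe, Finset.mem_filter, Finset.mem_Icc] at hn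
    rw [Finset.mem_coe, Finset.mem_filter, Finset.mem_Icc]
    refine ⟨⟨?_, ?_⟩, hn.2⟩
    · show 1 ≤ n + x.2
      omega
    · show n + x.2 ≤ Y + h
      omega
  calc _ ≤ _ := Finset.card_le_card h1
    _ ≤ (range (I + 1) ×ˢ range h).card * (2 * (Dsc f (Y + h)).card + 1) := Finset.card_biUnion_le_card_mul _ _ _ h2
    _ = _ := by rw [Finset.card_product, card_range, card_range]

/-- the number of descents is negligible -/
lemma small {f : ℕ → ℝ} (hd : Tendsto (fun X : ℕ => ((Dsc f X).card : ℝ) / (X : ℝ)) atTop (𝓝 0))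
    (c1 : ℝ) (r q : ℕ) (hq : 1 ≤ q) : ∃ L0 : ℕ, ∀ L ≥ L0,
      c1 * (2 * ((Dsc f (r + q * L)).card : ℝ) + 1) ≤ L / 50 := by
  have hκ : 0 < 1 / (200 * (|c1| + 1) * (q + 1) * (r + 1) : ℝ) := by positivity
  have h1 := (hd.eventually (gt_mem_nhds hκ))
  obtain ⟨X0, hX0⟩ := eventually_atTop.1 h1
  refine ⟨max X0 (⌈(100 * (|c1| + 1) : ℝ)⌉₊ + 1), fun L hL => ?_⟩
  have hL1 : X0 ≤ L := (le_max_left _ _).trans hL
  have hL2 : (100 * (|c1| + 1) : ℝ) ≤ L := by
    have h3 : ⌈(100 * (|c1| + 1) : ℝ)⌉₊ ≤ L := (Nat.le_succ _).trans ((le_max_right _ _).trans hL)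
    exact (Nat.le_ceil _).trans (by exact_mod_cast h3)
  have hL0 : (0 : ℝ) < L := lt_of_lt_of_le (by positivity) hL2
  have hLX : L ≤ r + q * L := by nlinarith
  have h2 := hX0 (r + q * L) (hL1.trans hLX)
  have hXpos : (0 : ℝ) < ((r + q * L : ℕ) : ℝ) := lt_of_lt_of_le hL0 (by exact_mod_cast hLX)
  rw [div_lt_div_iff₀ hXpos (by positivity)] at h2
  set d : ℝ := ((Dsc f (r + q * L)).card : ℝ) with hd'
  have hd0 : 0 ≤ d := Nat.cast_nonneg _
  push_cast at h2
  have hr0 : (0 : ℝ) ≤ r := Nat.cast_nonneg r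
  have hq0 : (0 : ℝ) ≤ q := Nat.cast_nonneg q
  have hL1' : (1 : ℝ) ≤ L := by
    have : 0 ≤ |c1| := abs_nonneg c1
    nlinarith
  have h3 : (r : ℝ) + q * L ≤ (q + 1) * (r + 1) * L := by nlinarith [mul_nonneg hr0 hq0, mul_nonneg hr0 hL0.le, mul_nonneg hq0 hL0.le, mul_nonneg (mul_nonneg hr0 hq0) hL0.le, mul_nonneg hr0 (sub_nonneg.2 hL1')]
  have h4 : d * (200 * (|c1| + 1)) * ((q + 1) * (r + 1)) < (q + 1) * (r + 1) * L := by nlinarith
  have h5 : d * (200 * (|c1| + 1)) < L := by
    have h6 : (0 : ℝ) < (q + 1) * (r + 1) := by positivity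
    have h7 : d * (200 * (|c1| + 1)) * ((q + 1) * (r + 1)) < L * ((q + 1) * (r + 1)) := by linarith
    exact lt_of_mul_lt_mul_right h7 h6.le
  have h6 : c1 * (2 * d + 1) ≤ |c1| * (2 * d + 1) := mul_le_mul_of_nonneg_right (le_abs_self _) (by positivity)
  have h7 : 0 ≤ |c1| := abs_nonneg c1
  nlinarith

open Classical in
/-- few elements of a progression are exceptional -/
lemma g3 {f : ℕ → ℝ} {m W : ℝ} {Y : ℕ} (hm : (((Icc 1 Y).filter (fun n => W < |f n - m|)).card : ℝ) ≤ Y / 50)
    {q r L : ℕ} (hq : 1 ≤ q) (hr : 1 ≤ r) (hY : r + q * L ≤ Y) :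
    (((range L).filter (fun l => W < |f (r + q * l) - m|)).card : ℝ) ≤ (Y : ℝ) / (50 * q) +
      2 * (2 * ((Dsc f Y).card : ℝ) + 1) := by
  have h1 := prog (fun n => W < |f n - m|) hr hY
  have h2 := chg_exc f m W Y
  have h3 : (cnt (fun n => W < |f n - m|) Y : ℝ) ≤ Y / 50 := by
    unfold cnt
    convert hm using 3
  have hq0 : (0 : ℝ) < q := by exact_mod_cast hq
  have h4 : (q : ℝ) * (((range L).filter (fun l => W < |f (r + q * l) - m|)).card : ℝ) ≤
      Y / 50 + q * (2 * (2 * ((Dsc f Y).card : ℝ) + 1)) := by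
    have h5 : (q : ℝ) * (((range L).filter (fun l => W < |f (r + q * l) - m|)).card : ℝ) ≤
        (cnt (fun n => W < |f n - m|) Y : ℝ) + q * (chg (fun n => W < |f n - m|) Y : ℝ) := by
      exact_mod_cast h1
    have h6 : (chg (fun n => W < |f n - m|) Y : ℝ) ≤ 2 * (2 * ((Dsc f Y).card : ℝ) + 1) := by
      exact_mod_cast h2
    have h7 := mul_le_mul_of_nonneg_left h6 hq0.le
    linarith
  rw [mul_comm, ← le_div_iff₀ hq0] at h4
  refine h4.trans (le_of_eq ?_)
  field_simp

open Classical in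
/-- in a progression the function is nearly constant around most elements -/
lemma g1 {f : ℕ → ℝ} (hd : Tendsto (fun X : ℕ => ((Dsc f X).card : ℝ) / (X : ℝ)) atTop (𝓝 0)) (hT : Tight f)
    {q r : ℕ} (hq : 1 ≤ q) (hr : 1 ≤ r) (h : ℕ) {δ : ℝ} (hδ : 0 < δ) : ∃ L0 : ℕ, ∀ L ≥ L0,
      (((range L).filter (fun l => ∃ i ≤ h, δ < |f (r + q * l + i) - f (r + q * l)|)).card : ℝ) ≤ L / 10 := by
  obtain ⟨W, N₀, hW⟩ := hT
  set K : ℝ := (((⌈(2 * W + δ) / δ⌉₊ + 1) * h : ℕ) : ℝ) with hK
  obtain ⟨L1, hL1⟩ := small hd (2 + K) (r + h) q hq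
  refine ⟨max (max L1 N₀) r, fun L hL => ?_⟩
  have a1 : L1 ≤ L := (le_max_left _ _).trans ((le_max_left _ _).trans hL)
  have a2 : N₀ ≤ L := (le_max_right _ _).trans ((le_max_left _ _).trans hL)
  have a3 : r ≤ L := (le_max_right _ _).trans hL
  have hY : L ≤ r + q * L := by nlinarith
  obtain ⟨m, hm⟩ := hW (r + q * L) (a2.trans hY)
  have h1 := g3 hm hq hr le_rfl
  have h2 := nc f m W δ hδ h (r + q * L)
  have h3 : ((range L).filter (fun l => ∃ i ≤ h, δ < |f (r + q * l + i) - f (r + q * l)|)).card ≤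
      ((range L).filter (fun l => W < |f (r + q * l) - m|)).card +
      ((Icc 1 (r + q * L)).filter (fun n => |f n - m| ≤ W ∧ ∃ i ≤ h, δ < |f (n + i) - f n|)).card := by
    have h4 : (range L).filter (fun l => ∃ i ≤ h, δ < |f (r + q * l + i) - f (r + q * l)|) ⊆
        (range L).filter (fun l => W < |f (r + q * l) - m|) ∪
        (range L).filter (fun l => |f (r + q * l) - m| ≤ W ∧ ∃ i ≤ h, δ < |f (r + q * l + i) - f (r + q * l)|) := by
      intro l hl
      rw [Finset.mem_filter] at hl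
      rw [Finset.mem_union, Finset.mem_filter, Finset.mem_filter]
      rcases lt_or_ge W |f (r + q * l) - m| with h5 | h5
      · exact Or.inl ⟨hl.1, h5⟩
      · exact Or.inr ⟨hl.1, h5, hl.2⟩
    refine (Finset.card_le_card h4).trans ((Finset.card_union_le _ _).trans ?_)
    refine Nat.add_le_add_left ?_ _
    refine Finset.card_le_card_of_injOn (fun l => r + q * l) ?_ ?_
    · intro l hl
      rw [Finset.mem_coe, Finset.mem_filter, Finset.mem_range] at hl
      rw [Finset.mem_coe, Finset.mem_filter, Finset.mem_Icc]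
      have h6 := Nat.mul_le_mul_left q hl.1.le
      refine ⟨⟨?_, ?_⟩, hl.2⟩
      · show 1 ≤ r + q * l
        omega
      · show r + q * l ≤ r + q * L
        omega
    · intro x _ y _ hxy
      have h6 : q * x = q * y := by
        simp only at hxy
        omega
      exact Nat.eq_of_mul_eq_mul_left (by omega) h6
  have h5 : (((range L).filter (fun l => ∃ i ≤ h, δ < |f (r + q * l + i) - f (r + q * l)|)).card : ℝ) ≤
      (((r + q * L : ℕ) : ℝ) / (50 * q) + 2 * (2 * ((Dsc f (r + q * L)).card : ℝ) + 1)) +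
      K * (2 * ((Dsc f (r + q * L + h)).card : ℝ) + 1) := by
    have h6 : (((range L).filter (fun l => ∃ i ≤ h, δ < |f (r + q * l + i) - f (r + q * l)|)).card : ℝ) ≤
      (((range L).filter (fun l => W < |f (r + q * l) - m|)).card : ℝ) +
      (((Icc 1 (r + q * L)).filter (fun n => |f n - m| ≤ W ∧ ∃ i ≤ h, δ < |f (n + i) - f n|)).card : ℝ) := by
      exact_mod_cast h3
    have h7 : (((Icc 1 (r + q * L)).filter (fun n => |f n - m| ≤ W ∧ ∃ i ≤ h, δ < |f (n + i) - f n|)).card : ℝ) ≤
        K * (2 * ((Dsc f (r + q * L + h)).card : ℝ) + 1) := by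
      rw [hK]
      exact_mod_cast h2
    linarith
  have h6 : ((Dsc f (r + q * L)).card : ℝ) ≤ ((Dsc f (r + h + q * L)).card : ℝ) := by
    have : Dsc f (r + q * L) ⊆ Dsc f (r + h + q * L) := by
      unfold Dsc
      apply Finset.filter_subset_filter
      apply Finset.Icc_subset_Icc_right
      omega
    exact_mod_cast Finset.card_le_card this
  rw [show r + q * L + h = r + h + q * L by ring] at h5
  have h7 := hL1 L a1
  have hq0 : (1 : ℝ) ≤ q := by exact_mod_cast hq
  have hLr : (r : ℝ) ≤ L := by exact_mod_cast a3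
  have h8 : ((r + q * L : ℕ) : ℝ) / (50 * q) ≤ L / 25 := by
    rw [div_le_div_iff₀ (by positivity) (by positivity)]
    push_cast
    nlinarith [mul_le_mul_of_nonneg_right hq0 (Nat.cast_nonneg L : (0 : ℝ) ≤ L)]
  set D : ℝ := ((Dsc f (r + h + q * L)).card : ℝ)
  have hK0 : 0 ≤ K := Nat.cast_nonneg _
  have hL0 : (0 : ℝ) ≤ L := Nat.cast_nonneg _
  have h9 : (2 + K) * (2 * D + 1) = 2 * (2 * D + 1) + K * (2 * D + 1) := by ring
  rw [h9] at h7
  linarith

/-- complete additivity -/
lemma mul {f : ℕ → ℝ} (hf : Addf f) (hd : Tendsto (fun X : ℕ => ((Dsc f X).card : ℝ) / (X : ℝ)) atTop (𝓝 0))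
    (hT : Tight f) {a b : ℕ} (ha : 1 ≤ a) (hb : 1 ≤ b) : f (a * b) = f a + f b := by
  classical
  have hab : 1 ≤ a * b := Nat.mul_pos ha hb
  have key : ∀ δ : ℝ, 0 < δ → |f (a * b) - (f a + f b)| ≤ 2 * δ := by
    intro δ hδ
    obtain ⟨L1, hL1⟩ := g1 hd hT (q := (a * b) ^ 2) (r := a * b) (Nat.pow_pos hab) hab (a * a) hδ
    obtain ⟨L2, hL2⟩ := g1 hd hT (q := a * b ^ 2) (r := b) (Nat.mul_pos ha (Nat.pow_pos hb)) hb a hδ
    set L := max (max L1 L2) 1 with hL
    have b1 := hL1 L ((le_max_left _ _).trans (le_max_left _ _))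
    have b2 := hL2 L ((le_max_right _ _).trans (le_max_left _ _))
    have b3 : (1 : ℝ) ≤ L := by exact_mod_cast le_max_right (max L1 L2) 1
    obtain ⟨l, hl1, hl2⟩ : ∃ l : ℕ, (¬ ∃ i ≤ a * a, δ < |f (a * b + (a * b) ^ 2 * l + i) - f (a * b + (a * b) ^ 2 * l)|) ∧
        ¬ ∃ i ≤ a, δ < |f (b + a * b ^ 2 * l + i) - f (b + a * b ^ 2 * l)| := by
      by_contra hcon
      push Not at hcon
      have h1 : range L ⊆ (range L).filter (fun l => ∃ i ≤ a * a, δ < |f (a * b + (a * b) ^ 2 * l + i) - f (a * b + (a * b) ^ 2 * l)|) ∪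
          (range L).filter (fun l => ∃ i ≤ a, δ < |f (b + a * b ^ 2 * l + i) - f (b + a * b ^ 2 * l)|) := by
        intro l hl
        rw [Finset.mem_union, Finset.mem_filter, Finset.mem_filter]
        by_cases h2 : ∃ i ≤ a * a, δ < |f (a * b + (a * b) ^ 2 * l + i) - f (a * b + (a * b) ^ 2 * l)|
        · exact Or.inl ⟨hl, h2⟩
        · push Not at h2
          exact Or.inr ⟨hl, hcon l h2⟩
      have h2 := (Finset.card_le_card h1).trans (Finset.card_union_le _ _)
      rw [card_range] at h2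
      have h3 := (Nat.cast_le (α := ℝ)).2 h2
      rw [Nat.cast_add] at h3
      linarith
    push Not at hl1 hl2
    set k := 1 + a * b * l with hk
    set j := (b * (a - 1) + 1) % a with hj
    have hja : j < a := Nat.mod_lt _ ha
    have e1 : a * b + (a * b) ^ 2 * l = a * b * k := by rw [hk]; ring
    have e2 : b + a * b ^ 2 * l = b * k := by rw [hk]; ring
    have h1 := hl1 (a * j) (Nat.mul_le_mul_left a hja.le)
    have h2 := hl2 j hja.le
    rw [e1] at h1
    rw [e2] at h2
    have c1 : Nat.Coprime (a * b) k := by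
      rw [hk]
      exact (Nat.coprime_add_mul_left_right (a * b) 1 l).2 (Nat.coprime_one_right _)
    have c2 : Nat.Coprime b k := Nat.Coprime.coprime_mul_left c1
    have c3 : Nat.Coprime a (b * k + j) := by
      have h3 : b * k + j ≡ 1 [MOD a] := by
        have h4 : b * (a - 1) + 1 ≡ j [MOD a] := (Nat.mod_modEq _ _).symm
        have h5 : b * k + j ≡ b * k + (b * (a - 1) + 1) [MOD a] := (Nat.ModEq.refl _).add h4.symm
        refine h5.trans ?_
        obtain ⟨a', rfl⟩ : ∃ a', a = a' + 1 := ⟨a - 1, by omega⟩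
        have h6 : b * k + (b * (a' + 1 - 1) + 1) = 1 + (a' + 1) * (b * b * l + b) := by
          rw [hk, Nat.add_sub_cancel]
          ring
        rw [h6]
        exact (Nat.ModEq.refl 1).add (Nat.modEq_zero_iff_dvd.2 (Dvd.intro _ rfl)) |>.trans (by rw [add_zero])
      have h4 := h3.gcd_eq
      rw [Nat.gcd_one_left] at h4
      rw [Nat.coprime_comm]
      exact h4
    have hk1 : 1 ≤ k := by omega
    have f1 := hf (a * b) k hab hk1 c1
    have f2 := hf b k hb hk1 c2
    have f3 := hf a (b * k + j) ha (Nat.le_add_right_of_le (Nat.mul_pos hb hk1)) c3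
    rw [show a * b * k + a * j = a * (b * k + j) by ring] at h1
    rw [f1, f3] at h1
    rw [f2] at h2
    rw [abs_le] at h1 h2 ⊢
    constructor <;> linarith
  by_contra hne
  have h1 : 0 < |f (a * b) - (f a + f b)| := abs_pos.2 (sub_ne_zero.2 hne)
  have h2 := key (|f (a * b) - (f a + f b)| / 4) (by positivity)
  linarith

/-- comparison of the values at integers of the same size -/
lemma ratio {f : ℕ → ℝ} (hf : Addf f) (hd : Tendsto (fun X : ℕ => ((Dsc f X).card : ℝ) / (X : ℝ)) atTop (𝓝 0))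
    (hT : Tight f) : ∃ C : ℝ, ∀ a b : ℕ, 1 ≤ b → b ≤ a → a ≤ 2 * b → |f a - f b| ≤ C := by
  classical
  have hT' := hT
  obtain ⟨W, N₀, hW⟩ := hT'
  refine ⟨2 * W, fun a b hb hba ha2 => ?_⟩
  have ha : 1 ≤ a := hb.trans hba
  obtain ⟨L1, hL1⟩ := small hd 4 a a ha
  set L := max (max L1 N₀) 1 with hL
  have a1 : L1 ≤ L := (le_max_left _ _).trans (le_max_left _ _)
  have a2 : N₀ ≤ L := (le_max_right _ _).trans (le_max_left _ _)
  have a3 : 1 ≤ L := le_max_right _ _
  have a4 : L ≤ a + a * L := by nlinarith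
  obtain ⟨m, hm⟩ := hW (a + a * L) (a2.trans a4)
  have h1 := g3 hm ha ha le_rfl
  have h2 := g3 hm hb hb (r := b) (L := L) (by
    have := Nat.mul_le_mul_right L hba
    omega)
  have h3 := hL1 L a1
  set D : ℝ := ((Dsc f (a + a * L)).card : ℝ) with hD
  have ha0 : (0 : ℝ) < a := by exact_mod_cast ha
  have hb0 : (0 : ℝ) < b := by exact_mod_cast hb
  have hL0 : (1 : ℝ) ≤ L := by exact_mod_cast a3
  have hab : (a : ℝ) ≤ 2 * b := by exact_mod_cast ha2
  have h4 : ((a + a * L : ℕ) : ℝ) / (50 * a) ≤ L / 25 := by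
    rw [div_le_div_iff₀ (by positivity) (by positivity)]
    push_cast
    nlinarith
  have h5 : ((a + a * L : ℕ) : ℝ) / (50 * b) ≤ 2 * L / 25 := by
    rw [div_le_div_iff₀ (by positivity) (by positivity)]
    push_cast
    nlinarith [mul_le_mul_of_nonneg_right hab (by linarith : (0 : ℝ) ≤ L)]
  obtain ⟨l, hl1, hl2⟩ : ∃ l : ℕ, |f (a + a * l) - m| ≤ W ∧ |f (b + b * l) - m| ≤ W := by
    by_contra hcon
    push Not at hcon
    have h6 : range L ⊆ (range L).filter (fun l => W < |f (a + a * l) - m|) ∪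
        (range L).filter (fun l => W < |f (b + b * l) - m|) := by
      intro l hl
      rw [Finset.mem_union, Finset.mem_filter, Finset.mem_filter]
      rcases lt_or_ge W |f (a + a * l) - m| with h7 | h7
      · exact Or.inl ⟨hl, h7⟩
      · exact Or.inr ⟨hl, hcon l h7⟩
    have h7 := (Finset.card_le_card h6).trans (Finset.card_union_le _ _)
    rw [card_range] at h7
    have h8 : (L : ℝ) ≤ (((range L).filter (fun l => W < |f (a + a * l) - m|)).card : ℝ) +
        (((range L).filter (fun l => W < |f (b + b * l) - m|)).card : ℝ) := by exact_mod_cast h7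
    linarith
  have e1 : f (a + a * l) = f a + f (1 + l) := by
    rw [← mul hf hd hT ha (by omega : 1 ≤ 1 + l)]
    congr 1
    ring
  have e2 : f (b + b * l) = f b + f (1 + l) := by
    rw [← mul hf hd hT hb (by omega : 1 ≤ 1 + l)]
    congr 1
    ring
  rw [e1] at hl1
  rw [e2] at hl2
  rw [abs_le] at hl1 hl2 ⊢
  constructor <;> linarith

end RIG_

open RIG_ in
theorem t_RIG : S_RIG := by
  intro f hf hd hT
  obtain ⟨C, hC⟩ := ratio hf hd hT
  have hmul : ∀ a b : ℕ, 1 ≤ a → 1 ≤ b → f (a * b) = f a + f b := fun a b ha hb => RIG_.mul hf hd hT ha hb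
  have hlog2 : 0 < Real.log 2 := Real.log_pos (by norm_num)
  set c : ℝ := f 2 / Real.log 2 with hc
  set g : ℕ → ℝ := fun n => f n - c * Real.log n with hg
  have g1 : ∀ a b : ℕ, 1 ≤ a → 1 ≤ b → g (a * b) = g a + g b := by
    intro a b ha hb
    have ha0 : (a : ℝ) ≠ 0 := by exact_mod_cast (show a ≠ 0 by omega)
    have hb0 : (b : ℝ) ≠ 0 := by exact_mod_cast (show b ≠ 0 by omega)
    simp only [hg]
    rw [hmul a b ha hb, Nat.cast_mul, Real.log_mul ha0 hb0]
    ring
  have g2 : g 2 = 0 := by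
    simp only [hg, hc]
    push_cast
    field_simp
    ring
  have gone : g 1 = 0 := by
    have := g1 1 1 le_rfl le_rfl
    rw [mul_one] at this
    linarith
  have gpow : ∀ a : ℕ, 1 ≤ a → ∀ k : ℕ, g (a ^ k) = k * g a := by
    intro a ha k
    induction k with
    | zero => simp [gone]
    | succ k ih =>
      rw [pow_succ, g1 _ _ (Nat.one_le_pow _ _ ha) ha, ih]
      push_cast
      ring
  have gbd : ∀ n : ℕ, 1 ≤ n → |g n| ≤ C + |c| * Real.log 2 := by
    intro n hn
    have h1 : 2 ^ Nat.log 2 n ≤ n := Nat.pow_log_le_self 2 (by omega)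
    have h2 : n < 2 ^ (Nat.log 2 n + 1) := Nat.lt_pow_succ_log_self (by norm_num) n
    have hp : 1 ≤ 2 ^ Nat.log 2 n := Nat.one_le_two_pow
    have h3 := hC n (2 ^ Nat.log 2 n) hp h1 (by rw [pow_succ] at h2; omega)
    have h4 : g (2 ^ Nat.log 2 n) = 0 := by rw [gpow 2 (by norm_num), g2, mul_zero]
    have h5 : g n = (f n - f (2 ^ Nat.log 2 n)) - c * (Real.log n - Real.log ((2 ^ Nat.log 2 n : ℕ) : ℝ)) := by
      simp only [hg] at h4 ⊢
      linear_combination h4
    have hn0 : (0 : ℝ) < n := by exact_mod_cast hn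
    have hp0 : (0 : ℝ) < ((2 ^ Nat.log 2 n : ℕ) : ℝ) := by exact_mod_cast hp
    have h6 : 0 ≤ Real.log n - Real.log ((2 ^ Nat.log 2 n : ℕ) : ℝ) := by
      rw [sub_nonneg]
      exact Real.log_le_log hp0 (by exact_mod_cast h1)
    have h7 : Real.log n - Real.log ((2 ^ Nat.log 2 n : ℕ) : ℝ) ≤ Real.log 2 := by
      rw [sub_le_iff_le_add, ← Real.log_mul (by norm_num) hp0.ne']
      apply Real.log_le_log hn0
      have h8 : n ≤ 2 * 2 ^ Nat.log 2 n := by rw [pow_succ] at h2; omega
      exact_mod_cast h8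
    rw [h5]
    refine (abs_sub _ _).trans ?_
    rw [abs_mul, abs_of_nonneg h6]
    have h8 : |c| * (Real.log n - Real.log ((2 ^ Nat.log 2 n : ℕ) : ℝ)) ≤ |c| * Real.log 2 :=
      mul_le_mul_of_nonneg_left h7 (abs_nonneg c)
    linarith
  refine ⟨c, fun n hn => ?_⟩
  have h0 : g n = 0 := by
    by_contra hne
    have hpos : 0 < |g n| := abs_pos.2 hne
    obtain ⟨k, hk⟩ := exists_nat_gt ((C + |c| * Real.log 2) / |g n|)
    rw [div_lt_iff₀ hpos] at hk
    have h1 := gbd (n ^ k) (Nat.one_le_pow _ _ hn)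
    rw [gpow n hn k, abs_mul, Nat.abs_cast] at h1
    linarith
  simp only [hg] at h0
  linarith

end Pool.Agent.N826.EM
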