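import Pool.Agent.N826.EM.Stm
import Pool.Agent.Helper923.HMertens

/-!
Project EM (helper826), part SLOPE: the linear relation at all scales forces the values at the
primes to be a multiple of the logarithm.
-/

set_option autoImplicit false

namespace Pool.Agent.N826.EM.SLOPE_

open Finset Pool.Agent.N826.EM

/-- the mass of the primes in `(m, n]` -/
noncomputable def ms (m n : ℕ) : ℝ := ∑ p ∈ (Ioc m n).filter Nat.Prime, (1 : ℝ) / p

/-- upper bound for the mass -/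
theorem mass_up : ∃ C : ℝ, 1 ≤ C ∧ ∀ x y : ℝ, 8 ≤ x → x ≤ y →
    ms ⌊x⌋₊ ⌊y⌋₊ ≤ 2 * (Real.log y - Real.log x + C) / Real.log x := by
  obtain ⟨C, hC0, hC⟩ := Pool.Agent.Helper923.HMertens.mertens_ratio
  refine ⟨C + 1, by linarith, fun x y hx hxy => ?_⟩
  have hx0 : 0 < x := by linarith
  have hy0 : 0 < y := by linarith
  have ha8 : 8 ≤ ⌊x⌋₊ := Nat.le_floor (by exact_mod_cast hx)
  have hab : ⌊x⌋₊ ≤ ⌊y⌋₊ := Nat.floor_mono hxy
  have h1 := (abs_le.1 (hC ⌊x⌋₊ ⌊y⌋₊ (by omega) hab)).2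
  have ha : (8 : ℝ) ≤ (⌊x⌋₊ : ℝ) := by exact_mod_cast ha8
  have hb : (8 : ℝ) ≤ (⌊y⌋₊ : ℝ) := by exact_mod_cast ha8.trans hab
  have hby : (⌊y⌋₊ : ℝ) ≤ y := Nat.floor_le hy0.le
  have hax : x < (⌊x⌋₊ : ℝ) + 1 := Nat.lt_floor_add_one x
  have hlog8 : 2 ≤ Real.log 8 := by
    have h2 := Real.log_two_gt_d9
    have e : Real.log 8 = 3 * Real.log 2 := by
      rw [show (8 : ℝ) = 2 ^ 3 by norm_num, Real.log_pow]; norm_num
    rw [e]; linarith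
  have hlx : 2 ≤ Real.log x := hlog8.trans (Real.log_le_log (by norm_num) hx)
  have hla : 2 ≤ Real.log (⌊x⌋₊ : ℝ) := hlog8.trans (Real.log_le_log (by norm_num) ha)
  have hlb : 0 < Real.log (⌊y⌋₊ : ℝ) := by
    have := hlog8.trans (Real.log_le_log (by norm_num) hb)
    linarith
  have hlby : Real.log (⌊y⌋₊ : ℝ) ≤ Real.log y := Real.log_le_log (by linarith) hby
  have hlax : Real.log x - 1 ≤ Real.log (⌊x⌋₊ : ℝ) := by
    have h2 : x * Real.exp (-1) ≤ (⌊x⌋₊ : ℝ) := by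
      have h3 : Real.exp (-1) ≤ 1 / 2 := by
        rw [Real.exp_neg, inv_eq_one_div]
        apply one_div_le_one_div_of_le (by norm_num)
        have := Real.add_one_le_exp (1 : ℝ)
        linarith
      nlinarith
    have h4 := Real.log_le_log (by positivity) h2
    rw [Real.log_mul hx0.ne' (Real.exp_pos _).ne', Real.log_exp] at h4
    linarith
  have h5 : Real.log (Real.log (⌊y⌋₊ : ℝ) / Real.log (⌊x⌋₊ : ℝ)) ≤
      Real.log (⌊y⌋₊ : ℝ) / Real.log (⌊x⌋₊ : ℝ) - 1 :=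
    Real.log_le_sub_one_of_pos (by positivity)
  have hla0 : 0 < Real.log (⌊x⌋₊ : ℝ) := by linarith
  have h6 : ms ⌊x⌋₊ ⌊y⌋₊ ≤
      (Real.log (⌊y⌋₊ : ℝ) - Real.log (⌊x⌋₊ : ℝ) + C) / Real.log (⌊x⌋₊ : ℝ) := by
    have e : (Real.log (⌊y⌋₊ : ℝ) - Real.log (⌊x⌋₊ : ℝ) + C) / Real.log (⌊x⌋₊ : ℝ) =
        Real.log (⌊y⌋₊ : ℝ) / Real.log (⌊x⌋₊ : ℝ) - 1 + C / Real.log (⌊x⌋₊ : ℝ) := by
      field_simp
    rw [e]
    have h7 : ms ⌊x⌋₊ ⌊y⌋₊ - Real.log (Real.log (⌊y⌋₊ : ℝ) / Real.log (⌊x⌋₊ : ℝ)) ≤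
      C / Real.log (⌊x⌋₊ : ℝ) := h1
    linarith
  refine h6.trans ?_
  have hlab : Real.log (⌊x⌋₊ : ℝ) ≤ Real.log (⌊y⌋₊ : ℝ) :=
    Real.log_le_log (by linarith) (by exact_mod_cast hab)
  rw [div_le_div_iff₀ hla0 (by linarith)]
  have h8 : 0 ≤ Real.log (⌊y⌋₊ : ℝ) - Real.log (⌊x⌋₊ : ℝ) + C := by linarith
  have h9 : Real.log (⌊y⌋₊ : ℝ) - Real.log (⌊x⌋₊ : ℝ) + C ≤
      Real.log y - Real.log x + (C + 1) := by linarith
  have h10 : Real.log x ≤ 2 * Real.log (⌊x⌋₊ : ℝ) := by linarith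
  calc (Real.log (⌊y⌋₊ : ℝ) - Real.log (⌊x⌋₊ : ℝ) + C) * Real.log x
      ≤ (Real.log y - Real.log x + (C + 1)) * (2 * Real.log (⌊x⌋₊ : ℝ)) :=
        mul_le_mul h9 h10 (by linarith) (by linarith)
    _ = 2 * (Real.log y - Real.log x + (C + 1)) * Real.log (⌊x⌋₊ : ℝ) := by ring

/-- lower bound for the mass of a window -/
theorem mass_lo : ∃ C : ℝ, 1 ≤ C ∧ ∀ θ w : ℝ, 0 < θ → θ ≤ 1 / 2 → C / θ ≤ w →
    θ / 2 ≤ ms ⌊Real.exp ((1 - θ) * w)⌋₊ ⌊Real.exp w⌋₊ := by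
  obtain ⟨C, hC0, hC⟩ := Pool.Agent.Helper923.HMertens.mertens_ratio
  refine ⟨8 * C + 8, by linarith, fun θ w hθ hθ2 hw => ?_⟩
  have hwθ : 8 * C + 8 ≤ w * θ := by
    rw [div_le_iff₀ hθ] at hw
    exact hw
  have hw16 : 16 ≤ w := by nlinarith
  have hw0 : 0 < w := by linarith
  obtain ⟨x, hx⟩ : ∃ x, x = Real.exp ((1 - θ) * w) := ⟨_, rfl⟩
  obtain ⟨y, hy⟩ : ∃ y, y = Real.exp w := ⟨_, rfl⟩
  rw [← hx, ← hy]
  have hlogx : Real.log x = (1 - θ) * w := by rw [hx, Real.log_exp]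
  have hlogy : Real.log y = w := by rw [hy, Real.log_exp]
  have hx8' : (8 : ℝ) ≤ (1 - θ) * w := by nlinarith
  have hx8 : 8 ≤ x := by
    rw [hx]
    have := Real.add_one_le_exp ((1 - θ) * w)
    linarith
  have hxy : x ≤ y := by
    rw [hx, hy]
    apply Real.exp_le_exp.2
    nlinarith
  have hx0 : 0 < x := by linarith
  have hy0 : 0 < y := by linarith
  have ha8 : 8 ≤ ⌊x⌋₊ := Nat.le_floor (by exact_mod_cast hx8)
  have hab : ⌊x⌋₊ ≤ ⌊y⌋₊ := Nat.floor_mono hxy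
  have h1 := (abs_le.1 (hC ⌊x⌋₊ ⌊y⌋₊ (by omega) hab)).1
  have ha : (8 : ℝ) ≤ (⌊x⌋₊ : ℝ) := by exact_mod_cast ha8
  have hb : (8 : ℝ) ≤ (⌊y⌋₊ : ℝ) := by exact_mod_cast ha8.trans hab
  have hfl : ∀ z : ℝ, 8 ≤ z → Real.log z - 1 ≤ Real.log (⌊z⌋₊ : ℝ) := by
    intro z hz
    have hz0 : 0 < z := by linarith
    have hz1 : z < (⌊z⌋₊ : ℝ) + 1 := Nat.lt_floor_add_one z
    have h2 : z * Real.exp (-1) ≤ (⌊z⌋₊ : ℝ) := by
      have h3 : Real.exp (-1) ≤ 1 / 2 := by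
        rw [Real.exp_neg, inv_eq_one_div]
        apply one_div_le_one_div_of_le (by norm_num)
        have := Real.add_one_le_exp (1 : ℝ)
        linarith
      nlinarith
    have h4 := Real.log_le_log (by positivity) h2
    rw [Real.log_mul hz0.ne' (Real.exp_pos _).ne', Real.log_exp] at h4
    linarith
  have hla := hfl x hx8
  have hlb := hfl y (hx8.trans hxy)
  rw [hlogx] at hla
  rw [hlogy] at hlb
  have hla' : Real.log (⌊x⌋₊ : ℝ) ≤ (1 - θ) * w := by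
    rw [← hlogx]
    exact Real.log_le_log (by linarith) (Nat.floor_le hx0.le)
  have hla0 : w / 4 ≤ Real.log (⌊x⌋₊ : ℝ) := by nlinarith
  have hla1 : 0 < Real.log (⌊x⌋₊ : ℝ) := by linarith
  have hlb0 : 0 < Real.log (⌊y⌋₊ : ℝ) := by linarith
  have h5 : 1 - (Real.log (⌊y⌋₊ : ℝ) / Real.log (⌊x⌋₊ : ℝ))⁻¹ ≤
      Real.log (Real.log (⌊y⌋₊ : ℝ) / Real.log (⌊x⌋₊ : ℝ)) :=
    Real.one_sub_inv_le_log_of_pos (by positivity)
  rw [inv_div] at h5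
  have h6 : Real.log (⌊x⌋₊ : ℝ) / Real.log (⌊y⌋₊ : ℝ) ≤ 1 - θ + 2 / w := by
    rw [div_le_iff₀ hlb0]
    have h7 : (1 - θ + 2 / w) * (w - 1) ≤ (1 - θ + 2 / w) * Real.log (⌊y⌋₊ : ℝ) := by
      apply mul_le_mul_of_nonneg_left hlb
      have : 0 < 2 / w := by positivity
      linarith
    have h8 : (1 - θ + 2 / w) * (w - 1) = (1 - θ) * w - (1 - θ) + 2 - 2 / w := by
      field_simp
      ring
    have h9 : 2 / w ≤ 1 := by
      rw [div_le_one hw0]; linarith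
    linarith
  have h10 : C / Real.log (⌊x⌋₊ : ℝ) ≤ 4 * C / w := by
    rw [div_le_div_iff₀ hla1 hw0]
    nlinarith
  have h11 : ms ⌊x⌋₊ ⌊y⌋₊ ≥ θ - 2 / w - 4 * C / w := by
    have h12 : -(C / Real.log (⌊x⌋₊ : ℝ)) ≤
        ms ⌊x⌋₊ ⌊y⌋₊ - Real.log (Real.log (⌊y⌋₊ : ℝ) / Real.log (⌊x⌋₊ : ℝ)) := h1
    linarith
  have h13 : 2 / w + 4 * C / w ≤ θ / 2 := by
    rw [← add_div, div_le_iff₀ hw0]
    nlinarith
  linarith

/-- differences of the means -/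
theorem mu_diff {a : ℕ → ℝ} {N : ℕ} (ha : ∑ p ∈ Pr N, (a p) ^ 2 / p ≤ 1) {m n : ℕ} (hmn : m ≤ n)
    (hn : n ≤ N) : (mu a n - mu a m) ^ 2 ≤ ms m n := by
  have h1 : Pr n = Pr m ∪ (Ioc m n).filter Nat.Prime := by
    ext p
    simp only [Pr, mem_union, mem_filter, mem_Icc, mem_Ioc]
    constructor
    · rintro ⟨⟨h1, h2⟩, h3⟩
      by_cases h4 : p ≤ m
      · exact Or.inl ⟨⟨h1, h4⟩, h3⟩
      · exact Or.inr ⟨⟨by omega, h2⟩, h3⟩
    · rintro (⟨⟨h1, h2⟩, h3⟩ | ⟨⟨h1, h2⟩, h3⟩)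
      · exact ⟨⟨h1, by omega⟩, h3⟩
      · exact ⟨⟨by omega, h2⟩, h3⟩
  have h2 : Disjoint (Pr m) ((Ioc m n).filter Nat.Prime) := by
    rw [Finset.disjoint_left]
    intro p hp hq
    simp only [Pr, mem_filter, mem_Icc, mem_Ioc] at hp hq
    omega
  have h3 : mu a n - mu a m = ∑ p ∈ (Ioc m n).filter Nat.Prime, a p / p := by
    unfold mu
    rw [h1, Finset.sum_union h2]
    ring
  rw [h3]
  have hpos : ∀ p ∈ (Ioc m n).filter Nat.Prime, (0 : ℝ) < p := by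
    intro p hp
    rw [mem_filter] at hp
    exact_mod_cast hp.2.pos
  have h4 : ∑ p ∈ (Ioc m n).filter Nat.Prime, a p / p =
      ∑ p ∈ (Ioc m n).filter Nat.Prime, (a p / Real.sqrt p) * (1 / Real.sqrt p) := by
    refine Finset.sum_congr rfl fun p hp => ?_
    have h5 := hpos p hp
    rw [div_mul_div_comm, mul_one, Real.mul_self_sqrt h5.le]
  rw [h4]
  refine (Finset.sum_mul_sq_le_sq_mul_sq _ _ _).trans ?_
  have h5 : ∑ p ∈ (Ioc m n).filter Nat.Prime, (a p / Real.sqrt p) ^ 2 ≤ 1 := by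
    have h8 : ∑ p ∈ (Ioc m n).filter Nat.Prime, (a p / Real.sqrt p) ^ 2 =
        ∑ p ∈ (Ioc m n).filter Nat.Prime, (a p) ^ 2 / p :=
      Finset.sum_congr rfl fun p hp => by rw [div_pow, Real.sq_sqrt (hpos p hp).le]
    rw [h8]
    refine le_trans ?_ ha
    apply Finset.sum_le_sum_of_subset_of_nonneg
    · intro p hp
      simp only [Pr, mem_filter, mem_Icc, mem_Ioc] at hp ⊢
      exact ⟨⟨by omega, by omega⟩, hp.2⟩
    · intro p _ _
      positivity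
  have h6 : ∑ p ∈ (Ioc m n).filter Nat.Prime, (1 / Real.sqrt p) ^ 2 = ms m n := by
    unfold ms
    refine Finset.sum_congr rfl fun p hp => ?_
    rw [div_pow, Real.sq_sqrt (hpos p hp).le, one_pow]
  rw [h6]
  have h7 : 0 ≤ ms m n := Finset.sum_nonneg fun p _ => by positivity
  calc (∑ p ∈ (Ioc m n).filter Nat.Prime, (a p / Real.sqrt p) ^ 2) * ms m n ≤ 1 * ms m n :=
        mul_le_mul_of_nonneg_right h5 h7
    _ = ms m n := one_mul _

/-- the shifted scale -/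
noncomputable def yy (N : ℕ) (v : ℝ) : ℕ := ⌊(N : ℝ) * Real.exp (-v)⌋₊

/-- differences of the means at two shifted scales -/
theorem yy_diff {C : ℝ} (hC1 : 1 ≤ C) (hC : ∀ x y : ℝ, 8 ≤ x → x ≤ y →
    ms ⌊x⌋₊ ⌊y⌋₊ ≤ 2 * (Real.log y - Real.log x + C) / Real.log x) {a : ℕ → ℝ} {N : ℕ}
    (ha : ∑ p ∈ Pr N, (a p) ^ 2 / p ≤ 1) (hU : 4 ≤ Real.log N) {v v' : ℝ} (hv : 0 ≤ v)
    (hvv : v ≤ v') (hv' : v' ≤ Real.log N / 4) :
    (mu a (yy N v) - mu a (yy N v')) ^ 2 ≤ 3 * (v' - v + C) / Real.log N := by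
  have hN0 : (0 : ℝ) < N := by
    by_contra h
    have h1 : (N : ℝ) = 0 := le_antisymm (not_lt.1 h) (Nat.cast_nonneg N)
    rw [h1, Real.log_zero] at hU
    linarith
  have hle : (N : ℝ) * Real.exp (-v') ≤ N * Real.exp (-v) :=
    mul_le_mul_of_nonneg_left (Real.exp_le_exp.2 (by linarith)) hN0.le
  have hlog : ∀ t : ℝ, Real.log ((N : ℝ) * Real.exp (-t)) = Real.log N - t := by
    intro t
    rw [Real.log_mul hN0.ne' (Real.exp_pos _).ne', Real.log_exp]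
    ring
  have h8 : 8 ≤ (N : ℝ) * Real.exp (-v') := by
    have h1 : (3 : ℝ) ≤ Real.log ((N : ℝ) * Real.exp (-v')) := by
      rw [hlog]
      linarith
    have h2 : Real.exp 3 ≤ (N : ℝ) * Real.exp (-v') := by
      rw [← Real.le_log_iff_exp_le (by positivity)]
      exact h1
    have h3 : (8 : ℝ) ≤ Real.exp 3 := by
      have h4 : Real.exp 3 = Real.exp 1 ^ 3 := by
        rw [← Real.exp_nat_mul]; norm_num
      have h5 := Real.add_one_le_exp (1 : ℝ)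
      rw [h4]
      calc (8 : ℝ) = 2 ^ 3 := by norm_num
        _ ≤ Real.exp 1 ^ 3 := pow_le_pow_left₀ (by norm_num) (by linarith) 3
    linarith
  have h1 : yy N v' ≤ yy N v := Nat.floor_mono hle
  have h2 : yy N v ≤ N := by
    unfold yy
    have h3 : (N : ℝ) * Real.exp (-v) ≤ N := by
      have h4 : Real.exp (-v) ≤ 1 := Real.exp_le_one_iff.2 (by linarith)
      calc (N : ℝ) * Real.exp (-v) ≤ N * 1 := mul_le_mul_of_nonneg_left h4 hN0.le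
        _ = N := mul_one _
    calc ⌊(N : ℝ) * Real.exp (-v)⌋₊ ≤ ⌊(N : ℝ)⌋₊ := Nat.floor_mono h3
      _ = N := Nat.floor_natCast N
  refine (mu_diff ha h1 h2).trans ?_
  refine (hC _ _ h8 hle).trans ?_
  rw [hlog, hlog]
  rw [div_le_div_iff₀ (by linarith) (by linarith)]
  have h3 : 0 ≤ v' - v + C := by linarith
  have h4 : Real.log N - v - (Real.log N - v') + C = v' - v + C := by ring
  rw [h4]
  nlinarith

theorem yy_zero (N : ℕ) : yy N 0 = N := by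
  unfold yy
  rw [neg_zero, Real.exp_zero, mul_one, Nat.floor_natCast]

theorem yy_log {N p : ℕ} (hp : 0 < p) : yy N (Real.log p) = N / p := by
  unfold yy
  have hp0 : (0 : ℝ) < p := by exact_mod_cast hp
  rw [Real.exp_neg, Real.exp_log hp0, ← div_eq_mul_inv]
  exact Nat.floor_div_eq_div N p

theorem yy_div {N p : ℕ} (v : ℝ) (hp : 0 < p) : yy N v / p = yy N (v + Real.log p) := by
  unfold yy
  have hp0 : (0 : ℝ) < p := by exact_mod_cast hp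
  rw [← Nat.floor_div_natCast, neg_add, Real.exp_add, Real.exp_neg (Real.log p), Real.exp_log hp0,
    mul_div_assoc, ← div_eq_mul_inv]

theorem scale_le (N : ℕ) {v : ℝ} (hv : 0 ≤ v) : yy N v ≤ N := by
  unfold yy
  have h3 : (N : ℝ) * Real.exp (-v) ≤ N := by
    have h4 : Real.exp (-v) ≤ 1 := Real.exp_le_one_iff.2 (by linarith)
    calc (N : ℝ) * Real.exp (-v) ≤ N * 1 := mul_le_mul_of_nonneg_left h4 (Nat.cast_nonneg N)
      _ = N := mul_one _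
  calc ⌊(N : ℝ) * Real.exp (-v)⌋₊ ≤ ⌊(N : ℝ)⌋₊ := Nat.floor_mono h3
    _ = N := Nat.floor_natCast N

theorem scale_sq {N : ℕ} (hU : 4 ≤ Real.log N) {v : ℝ} (hv : v ≤ Real.log N / 4) :
    N ≤ (yy N v) ^ 2 := by
  have hN0 : (0 : ℝ) < N := by
    by_contra h
    have h1 : (N : ℝ) = 0 := le_antisymm (not_lt.1 h) (Nat.cast_nonneg N)
    rw [h1, Real.log_zero] at hU
    linarith
  obtain ⟨t, ht⟩ : ∃ t, t = Real.exp (Real.log N / 4) := ⟨_, rfl⟩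
  have ht2 : 2 ≤ t := by
    rw [ht]
    have := Real.add_one_le_exp (Real.log N / 4)
    linarith
  have hN4 : (N : ℝ) = t ^ 4 := by
    rw [ht, ← Real.exp_nat_mul]
    push_cast
    rw [mul_div_cancel₀ _ (by norm_num : (4 : ℝ) ≠ 0), Real.exp_log hN0]
  have h1 : t ^ 3 ≤ (N : ℝ) * Real.exp (-v) := by
    have h2 : Real.exp (-(Real.log N / 4)) ≤ Real.exp (-v) := Real.exp_le_exp.2 (by linarith)
    have h3 : t ^ 3 = (N : ℝ) * Real.exp (-(Real.log N / 4)) := by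
      rw [Real.exp_neg, ← ht, hN4]
      field_simp
    rw [h3]
    exact mul_le_mul_of_nonneg_left h2 hN0.le
  have h4 : (N : ℝ) * Real.exp (-v) < (yy N v : ℝ) + 1 := Nat.lt_floor_add_one _
  have h5 : t ^ 2 ≤ (yy N v : ℝ) := by
    have h6 : t ^ 2 * 2 ≤ t ^ 3 := by
      rw [pow_succ t 2]
      exact mul_le_mul_of_nonneg_left ht2 (by positivity)
    have h7 : 1 ≤ t ^ 2 := one_le_pow₀ (by linarith)
    linarith
  have h6 : (N : ℝ) ≤ (yy N v : ℝ) ^ 2 := by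
    rw [hN4]
    calc t ^ 4 = (t ^ 2) ^ 2 := by ring
      _ ≤ (yy N v : ℝ) ^ 2 := pow_le_pow_left₀ (by positivity) h5 2
  exact_mod_cast h6

theorem cube_le {N : ℕ} (hU : 4 ≤ Real.log N) {v w : ℝ} (hv : 0 ≤ v)
    (hvw : v + w ≤ Real.log N / 4) : ⌊Real.exp w⌋₊ ^ 3 ≤ yy N v := by
  have hN0 : (0 : ℝ) < N := by
    by_contra h
    have h1 : (N : ℝ) = 0 := le_antisymm (not_lt.1 h) (Nat.cast_nonneg N)
    rw [h1, Real.log_zero] at hU
    linarith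
  apply Nat.le_floor
  push_cast
  have h1 : (⌊Real.exp w⌋₊ : ℝ) ≤ Real.exp w := Nat.floor_le (Real.exp_pos _).le
  calc (⌊Real.exp w⌋₊ : ℝ) ^ 3 ≤ Real.exp w ^ 3 := pow_le_pow_left₀ (Nat.cast_nonneg _) h1 3
    _ = Real.exp (3 * w) := by rw [← Real.exp_nat_mul]; norm_num
    _ ≤ Real.exp (Real.log N + -v) := Real.exp_le_exp.2 (by linarith)
    _ = N * Real.exp (-v) := by rw [Real.exp_add, Real.exp_log hN0]

/-- a prime of the window where both relations hold -/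
theorem find_prime {a : ℕ → ℝ} {N y P L : ℕ} {η δ θ : ℝ} (hδ : 0 < δ) (hθ : 0 < θ)
    (hη : η ≤ δ ^ 2 * θ / 16) (hm : θ / 2 ≤ ms L P)
    (h1 : ∑ p ∈ Pr P, 1 / (p : ℝ) * (a p + mu a (y / p) - mu a y) ^ 2 ≤ η)
    (h2 : ∑ p ∈ Pr P, 1 / (p : ℝ) * (a p + mu a (N / p) - mu a N) ^ 2 ≤ η) :
    ∃ p : ℕ, L < p ∧ p ≤ P ∧ p.Prime ∧
      |(mu a (y / p) - mu a y) - (mu a (N / p) - mu a N)| ≤ δ := by
  by_contra hno
  push Not at hno
  have h3 : ∑ p ∈ (Ioc L P).filter Nat.Prime, 1 / (p : ℝ) * δ ^ 2 ≤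
      ∑ p ∈ (Ioc L P).filter Nat.Prime, 1 / (p : ℝ) *
        ((mu a (y / p) - mu a y) - (mu a (N / p) - mu a N)) ^ 2 := by
    refine Finset.sum_le_sum fun p hp => ?_
    rw [mem_filter, mem_Ioc] at hp
    have h4 := hno p hp.1.1 hp.1.2 hp.2
    apply mul_le_mul_of_nonneg_left _ (by positivity)
    rw [← sq_abs ((mu a (y / p) - mu a y) - (mu a (N / p) - mu a N))]
    exact pow_le_pow_left₀ hδ.le h4.le 2
  have h4 : ∑ p ∈ (Ioc L P).filter Nat.Prime, 1 / (p : ℝ) *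
        ((mu a (y / p) - mu a y) - (mu a (N / p) - mu a N)) ^ 2 ≤
      ∑ p ∈ Pr P, 1 / (p : ℝ) *
        ((mu a (y / p) - mu a y) - (mu a (N / p) - mu a N)) ^ 2 := by
    apply Finset.sum_le_sum_of_subset_of_nonneg
    · intro p hp
      simp only [Pr, mem_filter, mem_Icc, mem_Ioc] at hp ⊢
      exact ⟨⟨by omega, by omega⟩, hp.2⟩
    · intro p _ _
      positivity
  have h5 : ∑ p ∈ Pr P, 1 / (p : ℝ) *
        ((mu a (y / p) - mu a y) - (mu a (N / p) - mu a N)) ^ 2 ≤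
      2 * ∑ p ∈ Pr P, 1 / (p : ℝ) * (a p + mu a (y / p) - mu a y) ^ 2 +
      2 * ∑ p ∈ Pr P, 1 / (p : ℝ) * (a p + mu a (N / p) - mu a N) ^ 2 := by
    rw [Finset.mul_sum, Finset.mul_sum, ← Finset.sum_add_distrib]
    refine Finset.sum_le_sum fun p _ => ?_
    have h6 : ((mu a (y / p) - mu a y) - (mu a (N / p) - mu a N)) ^ 2 ≤
        2 * (a p + mu a (y / p) - mu a y) ^ 2 + 2 * (a p + mu a (N / p) - mu a N) ^ 2 := by
      nlinarith [sq_nonneg ((a p + mu a (y / p) - mu a y) + (a p + mu a (N / p) - mu a N))]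
    have h7 : (0 : ℝ) ≤ 1 / (p : ℝ) := by positivity
    calc 1 / (p : ℝ) * ((mu a (y / p) - mu a y) - (mu a (N / p) - mu a N)) ^ 2
        ≤ 1 / (p : ℝ) * (2 * (a p + mu a (y / p) - mu a y) ^ 2 +
          2 * (a p + mu a (N / p) - mu a N) ^ 2) := mul_le_mul_of_nonneg_left h6 h7
      _ = _ := by ring
  have h6 : ∑ p ∈ (Ioc L P).filter Nat.Prime, 1 / (p : ℝ) * δ ^ 2 = δ ^ 2 * ms L P := by
    unfold ms
    rw [Finset.mul_sum]
    exact Finset.sum_congr rfl fun p _ => by ring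
  have h7 : δ ^ 2 * (θ / 2) ≤ δ ^ 2 * ms L P := mul_le_mul_of_nonneg_left hm (by positivity)
  have h8 : 0 < δ ^ 2 * θ := by positivity
  rw [h6] at h3
  linarith

/-- the approximate Cauchy equation -/
theorem key {C C' : ℝ} (hC1 : 1 ≤ C) (hC : ∀ x y : ℝ, 8 ≤ x → x ≤ y →
    ms ⌊x⌋₊ ⌊y⌋₊ ≤ 2 * (Real.log y - Real.log x + C) / Real.log x)
    (hC' : ∀ θ w : ℝ, 0 < θ → θ ≤ 1 / 2 → C' / θ ≤ w →
      θ / 2 ≤ ms ⌊Real.exp ((1 - θ) * w)⌋₊ ⌊Real.exp w⌋₊)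
    {k s η : ℝ} (hk0 : 0 < k) (hk1 : k ≤ 1) {a : ℕ → ℝ} {N : ℕ}
    (ha : ∑ p ∈ Pr N, (a p) ^ 2 / p ≤ 1) (hU1 : 4 ≤ Real.log N)
    (hU2 : 12 * C ≤ (k ^ 2 / 16) * Real.log N) (hU3 : C' / (k ^ 2 / 16) ≤ s * Real.log N)
    (hη : η ≤ (k / 2) ^ 2 * (k ^ 2 / 16) / 16)
    (H : ∀ y P : ℕ, y ≤ N → N ≤ y ^ 2 → P ^ 3 ≤ y →
      ∑ p ∈ Pr P, 1 / (p : ℝ) * (a p + mu a (y / p) - mu a y) ^ 2 ≤ η)
    {v w : ℝ} (hv : 0 ≤ v) (hw0 : 0 ≤ w) (hw : s * Real.log N ≤ w)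
    (hvw : v + w ≤ Real.log N / 4) :
    |(mu a (yy N v) - mu a (yy N (v + w))) - (mu a N - mu a (yy N w))| ≤ k := by
  obtain ⟨θ, hθ⟩ : ∃ θ, θ = k ^ 2 / 16 := ⟨_, rfl⟩
  rw [← hθ] at hU2 hU3 hη
  have hθ0 : 0 < θ := by rw [hθ]; positivity
  have hθ1 : θ ≤ 1 / 2 := by
    rw [hθ]
    have : k ^ 2 ≤ 1 := pow_le_one₀ hk0.le hk1
    linarith
  have hU0 : 0 < Real.log N := by linarith
  have hm := hC' θ w hθ0 hθ1 (hU3.trans hw)
  have hcube := cube_le hU1 hv hvw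
  have hcube0 := cube_le hU1 le_rfl (by linarith : 0 + w ≤ Real.log N / 4)
  rw [yy_zero] at hcube0
  have hsq0 := scale_sq hU1 (by linarith : (0 : ℝ) ≤ Real.log N / 4)
  rw [yy_zero] at hsq0
  have hsq := scale_sq hU1 (by linarith : v ≤ Real.log N / 4)
  obtain ⟨p, hp1, hp2, hp3, hp4⟩ := find_prime (by positivity : 0 < k / 2) hθ0 hη hm
    (H (yy N v) _ (scale_le N hv) hsq hcube) (H N _ le_rfl hsq0 hcube0)
  have hp0 : (0 : ℝ) < p := by exact_mod_cast hp3.pos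
  have hl1 : (1 - θ) * w ≤ Real.log p := by
    rw [Real.le_log_iff_exp_le hp0]
    have h1 : Real.exp ((1 - θ) * w) < (⌊Real.exp ((1 - θ) * w)⌋₊ : ℝ) + 1 :=
      Nat.lt_floor_add_one _
    have h2 : (⌊Real.exp ((1 - θ) * w)⌋₊ : ℝ) + 1 ≤ p := by exact_mod_cast hp1
    linarith
  have hl2 : Real.log p ≤ w := by
    rw [Real.log_le_iff_le_exp hp0]
    have h1 : (⌊Real.exp w⌋₊ : ℝ) ≤ Real.exp w := Nat.floor_le (Real.exp_pos _).le
    have h2 : (p : ℝ) ≤ (⌊Real.exp w⌋₊ : ℝ) := by exact_mod_cast hp2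
    linarith
  have hlp0 : 0 ≤ Real.log p := Real.log_nonneg (by exact_mod_cast hp3.one_lt.le)
  rw [yy_div v hp3.pos, ← yy_log hp3.pos] at hp4
  have d1 := yy_diff hC1 hC ha hU1 (by linarith : 0 ≤ v + Real.log p)
    (by linarith : v + Real.log p ≤ v + w) hvw
  have d2 := yy_diff hC1 hC ha hU1 hlp0 hl2 (by linarith : w ≤ Real.log N / 4)
  have hb : 3 * (w - Real.log p + C) / Real.log N ≤ (k / 4) ^ 2 := by
    rw [div_le_iff₀ hU0]
    have e : (k / 4) ^ 2 = θ := by rw [hθ]; ring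
    rw [e]
    have h1 : w - Real.log p ≤ θ * w := by linarith
    have h2 : θ * w ≤ θ * (Real.log N / 4) := mul_le_mul_of_nonneg_left (by linarith) hθ0.le
    linarith
  have hk4 : 0 ≤ k / 4 := by positivity
  have e1 : v + w - (v + Real.log p) = w - Real.log p := by ring
  rw [e1] at d1
  have f1 := abs_le_of_sq_le_sq (d1.trans hb) hk4
  have f2 := abs_le_of_sq_le_sq (d2.trans hb) hk4
  rw [abs_le] at f1 f2 hp4 ⊢
  constructor
  · linarith [f1.1, f1.2, f2.1, f2.2, hp4.1, hp4.2]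
  · linarith [f1.1, f1.2, f2.1, f2.2, hp4.1, hp4.2]

/-- the approximate Cauchy equation for all shifts -/
theorem cauchy {C C' : ℝ} (hC1 : 1 ≤ C) (hC : ∀ x y : ℝ, 8 ≤ x → x ≤ y →
    ms ⌊x⌋₊ ⌊y⌋₊ ≤ 2 * (Real.log y - Real.log x + C) / Real.log x)
    (hC' : ∀ θ w : ℝ, 0 < θ → θ ≤ 1 / 2 → C' / θ ≤ w →
      θ / 2 ≤ ms ⌊Real.exp ((1 - θ) * w)⌋₊ ⌊Real.exp w⌋₊)
    {k η : ℝ} (hk0 : 0 < k) (hk1 : k ≤ 1) {a : ℕ → ℝ} {N : ℕ}
    (ha : ∑ p ∈ Pr N, (a p) ^ 2 / p ≤ 1) (hU1 : 4 ≤ Real.log N)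
    (hU2 : 12 * C ≤ (k ^ 2 / 16) * Real.log N)
    (hU3 : C' / (k ^ 2 / 16) ≤ k ^ 2 / 64 * Real.log N)
    (hη : η ≤ (k / 2) ^ 2 * (k ^ 2 / 16) / 16)
    (H : ∀ y P : ℕ, y ≤ N → N ≤ y ^ 2 → P ^ 3 ≤ y →
      ∑ p ∈ Pr P, 1 / (p : ℝ) * (a p + mu a (y / p) - mu a y) ^ 2 ≤ η)
    {v w : ℝ} (hv : 0 ≤ v) (hw : 0 ≤ w) (hvw : v + w ≤ Real.log N / 4) :
    |(mu a N - mu a (yy N (v + w))) - (mu a N - mu a (yy N v)) - (mu a N - mu a (yy N w))| ≤ k := by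
  by_cases h1 : k ^ 2 / 64 * Real.log N ≤ w
  · have h2 := key hC1 hC hC' hk0 hk1 ha hU1 hU2 hU3 hη H hv hw h1 hvw
    have e : (mu a N - mu a (yy N (v + w))) - (mu a N - mu a (yy N v)) - (mu a N - mu a (yy N w)) =
        (mu a (yy N v) - mu a (yy N (v + w))) - (mu a N - mu a (yy N w)) := by ring
    rw [e]
    exact h2
  · by_cases h1' : k ^ 2 / 64 * Real.log N ≤ v
    · have h2 := key hC1 hC hC' hk0 hk1 ha hU1 hU2 hU3 hη H hw hv h1'
        (by linarith : w + v ≤ Real.log N / 4)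
      have e : (mu a N - mu a (yy N (v + w))) - (mu a N - mu a (yy N v)) -
          (mu a N - mu a (yy N w)) =
          (mu a (yy N w) - mu a (yy N (w + v))) - (mu a N - mu a (yy N v)) := by
        rw [add_comm w v]; ring
      rw [e]
      exact h2
    · push Not at h1 h1'
      have hU0 : 0 < Real.log N := by linarith
      have hJ : ∀ x : ℝ, 0 ≤ x → x ≤ k ^ 2 / 32 * Real.log N → x ≤ Real.log N / 4 →
          |mu a N - mu a (yy N x)| ≤ k / 3 := by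
        intro x hx0 hx1 hx2
        have d := yy_diff hC1 hC ha hU1 le_rfl hx0 hx2
        rw [yy_zero, sub_zero] at d
        apply abs_le_of_sq_le_sq (d.trans _) (by positivity)
        rw [div_le_iff₀ hU0]
        have h3 : 0 < k ^ 2 := by positivity
        have h4 : 0 < k ^ 2 * Real.log N := by positivity
        nlinarith
      have a1 := hJ v hv (by nlinarith [sq_nonneg k]) (by linarith)
      have a2 := hJ w hw (by nlinarith [sq_nonneg k]) (by linarith)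
      have a3 := hJ (v + w) (by linarith) (by linarith) hvw
      rw [abs_le] at a1 a2 a3 ⊢
      constructor
      · linarith [a1.1, a1.2, a2.1, a2.2, a3.1, a3.2]
      · linarith [a1.1, a1.2, a2.1, a2.2, a3.1, a3.2]

/-- the primes with large logarithm -/
theorem part1 {C : ℝ} (hC : ∀ x y : ℝ, 8 ≤ x → x ≤ y →
    ms ⌊x⌋₊ ⌊y⌋₊ ≤ 2 * (Real.log y - Real.log x + C) / Real.log x) {t U : ℝ} (ht0 : 0 < t)
    (ht1 : t ≤ 1 / 4) (hU : 7 ≤ t * U) (hU2 : 4 * C ≤ U) {Q : ℕ} (hQ : Real.log Q ≤ U / 4)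
    (h : ℕ → ℝ) {k : ℝ} (hh : ∀ p ∈ Pr Q, |h p| ≤ 3 * k) :
    ∑ p ∈ (Pr Q).filter (fun p : ℕ => t * U < Real.log p), 1 / (p : ℝ) * (h p) ^ 2 ≤
      9 * k ^ 2 / t := by
  have hU0 : 0 < U := by nlinarith
  have h1 : ∑ p ∈ (Pr Q).filter (fun p : ℕ => t * U < Real.log p), 1 / (p : ℝ) * (h p) ^ 2 ≤
      ∑ p ∈ (Pr Q).filter (fun p : ℕ => t * U < Real.log p), 9 * k ^ 2 * (1 / (p : ℝ)) := by
    refine Finset.sum_le_sum fun p hp => ?_
    rw [mem_filter] at hp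
    have h2 := hh p hp.1
    have h3 : (h p) ^ 2 ≤ (3 * k) ^ 2 := by
      rw [← sq_abs (h p)]
      exact pow_le_pow_left₀ (abs_nonneg _) h2 2
    have h4 : (0 : ℝ) ≤ 1 / (p : ℝ) := by positivity
    calc 1 / (p : ℝ) * (h p) ^ 2 ≤ 1 / (p : ℝ) * (3 * k) ^ 2 := mul_le_mul_of_nonneg_left h3 h4
      _ = 9 * k ^ 2 * (1 / (p : ℝ)) := by ring
  refine h1.trans ?_
  rw [← Finset.mul_sum]
  have hx8 : (8 : ℝ) ≤ Real.exp (t * U) := by
    have := Real.add_one_le_exp (t * U)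
    linarith
  have hxy : Real.exp (t * U) ≤ Real.exp (U / 4) := Real.exp_le_exp.2 (by nlinarith)
  have h5 : ∑ p ∈ (Pr Q).filter (fun p : ℕ => t * U < Real.log p), 1 / (p : ℝ) ≤
      ms ⌊Real.exp (t * U)⌋₊ ⌊Real.exp (U / 4)⌋₊ := by
    unfold ms
    apply Finset.sum_le_sum_of_subset_of_nonneg
    · intro p hp
      simp only [Pr, mem_filter, mem_Icc, mem_Ioc] at hp ⊢
      obtain ⟨⟨⟨h6, h7⟩, h8⟩, h9⟩ := hp
      have hp0 : (0 : ℝ) < p := by exact_mod_cast h8.pos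
      refine ⟨⟨?_, ?_⟩, h8⟩
      · rw [Nat.floor_lt (Real.exp_pos _).le, ← Real.lt_log_iff_exp_lt hp0]
        exact h9
      · apply Nat.le_floor
        rw [← Real.log_le_iff_le_exp hp0]
        have hpQ : (p : ℝ) ≤ Q := by exact_mod_cast h7
        exact (Real.log_le_log hp0 hpQ).trans hQ
    · intro p _ _
      positivity
  have h6 := hC _ _ hx8 hxy
  rw [Real.log_exp, Real.log_exp] at h6
  have h7 : 2 * (U / 4 - t * U + C) / (t * U) ≤ 1 / t := by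
    rw [div_le_div_iff₀ (by positivity) ht0]
    nlinarith
  calc 9 * k ^ 2 * ∑ p ∈ (Pr Q).filter (fun p : ℕ => t * U < Real.log p), 1 / (p : ℝ)
      ≤ 9 * k ^ 2 * (1 / t) := mul_le_mul_of_nonneg_left ((h5.trans h6).trans h7) (by positivity)
    _ = 9 * k ^ 2 / t := by ring

/-- the primes with small logarithm -/
theorem part2 {D : ℝ} (hD : ∀ N : ℕ, 1 ≤ N →
    |∑ p ∈ (Finset.Icc 1 N).filter Nat.Prime, Real.log p / p - Real.log N| ≤ D) {t U A : ℝ}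
    (ht0 : 0 < t) (hU : 0 < U) (hA : 0 ≤ A) (hDU : D ≤ t * U) {Q : ℕ} (h : ℕ → ℝ)
    (hh : ∀ p ∈ Pr Q, Real.log p ≤ t * U → (h p) ^ 2 ≤ A * Real.log p / U) :
    ∑ p ∈ (Pr Q).filter (fun p : ℕ => ¬ t * U < Real.log p), 1 / (p : ℝ) * (h p) ^ 2 ≤
      2 * A * t := by
  have h1 : ∑ p ∈ (Pr Q).filter (fun p : ℕ => ¬ t * U < Real.log p), 1 / (p : ℝ) * (h p) ^ 2 ≤
      ∑ p ∈ (Pr Q).filter (fun p : ℕ => ¬ t * U < Real.log p), A / U * (Real.log p / p) := by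
    refine Finset.sum_le_sum fun p hp => ?_
    rw [mem_filter] at hp
    have h2 := hh p hp.1 (not_lt.1 hp.2)
    have h4 : (0 : ℝ) ≤ 1 / (p : ℝ) := by positivity
    calc 1 / (p : ℝ) * (h p) ^ 2 ≤ 1 / (p : ℝ) * (A * Real.log p / U) :=
          mul_le_mul_of_nonneg_left h2 h4
      _ = A / U * (Real.log p / p) := by ring
  refine h1.trans ?_
  rw [← Finset.mul_sum]
  have hn1 : 1 ≤ ⌊Real.exp (t * U)⌋₊ := by
    apply Nat.le_floor
    push_cast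
    exact Real.one_le_exp (by positivity)
  have h2 := (abs_le.1 (hD _ hn1)).2
  have h3 : Real.log (⌊Real.exp (t * U)⌋₊ : ℝ) ≤ t * U := by
    rw [Real.log_le_iff_le_exp (by exact_mod_cast hn1)]
    exact Nat.floor_le (Real.exp_pos _).le
  have h5 : ∑ p ∈ (Pr Q).filter (fun p : ℕ => ¬ t * U < Real.log p), Real.log p / p ≤
      ∑ p ∈ (Finset.Icc 1 ⌊Real.exp (t * U)⌋₊).filter Nat.Prime, Real.log p / p := by
    apply Finset.sum_le_sum_of_subset_of_nonneg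
    · intro p hp
      simp only [Pr, mem_filter, mem_Icc] at hp ⊢
      obtain ⟨⟨⟨h6, h7⟩, h8⟩, h9⟩ := hp
      have hp0 : (0 : ℝ) < p := by exact_mod_cast h8.pos
      refine ⟨⟨h6, ?_⟩, h8⟩
      apply Nat.le_floor
      rw [← Real.log_le_iff_le_exp hp0]
      exact not_lt.1 h9
    · intro p hp _
      rw [mem_filter] at hp
      have : 0 ≤ Real.log p := Real.log_nonneg (by exact_mod_cast hp.2.one_lt.le)
      positivity
  have h6 : ∑ p ∈ (Pr Q).filter (fun p : ℕ => ¬ t * U < Real.log p), Real.log p / p ≤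
      2 * (t * U) := by linarith
  calc A / U * ∑ p ∈ (Pr Q).filter (fun p : ℕ => ¬ t * U < Real.log p), Real.log p / p
      ≤ A / U * (2 * (t * U)) := mul_le_mul_of_nonneg_left h6 (by positivity)
    _ = 2 * A * t := by field_simp

theorem jb {U C L x c : ℝ} (hU : 0 < U) (hC : 1 ≤ C) (hL1 : 1 / 2 ≤ L) (hL2 : L ≤ U / 4)
    (hJ : x ^ 2 ≤ 3 * (L + C) / U) (hcU : |c| * U ≤ 4) :
    (x - c * L) ^ 2 ≤ (14 + 12 * C) * L / U := by
  have h2 : (c * L) ^ 2 ≤ 4 * L / U := by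
    rw [le_div_iff₀ hU]
    have h3 : (|c| * U) ^ 2 ≤ 16 := by
      have h4 : 0 ≤ |c| * U := by positivity
      nlinarith
    have h6 : (|c| * U) ^ 2 = c ^ 2 * U * U := by rw [mul_pow, sq_abs]; ring
    rw [h6] at h3
    have h5 : (c * L) ^ 2 * U = c ^ 2 * U * L * L := by ring
    rw [h5]
    have h7 : c ^ 2 * U * L ≤ 4 := by
      have h8 : c ^ 2 * U * L ≤ c ^ 2 * U * (U / 4) :=
        mul_le_mul_of_nonneg_left hL2 (by positivity)
      linarith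
    exact mul_le_mul_of_nonneg_right h7 (by linarith)
  have h3 : (x - c * L) ^ 2 ≤ 2 * x ^ 2 + 2 * (c * L) ^ 2 := by
    nlinarith [sq_nonneg (x + c * L)]
  have h4 : 2 * (3 * (L + C) / U) + 2 * (4 * L / U) ≤ (14 + 12 * C) * L / U := by
    rw [show 2 * (3 * (L + C) / U) + 2 * (4 * L / U) = (6 * (L + C) + 8 * L) / U by ring]
    apply div_le_div_of_nonneg_right _ hU.le
    nlinarith
  linarith

theorem split_sq (S : Finset ℕ) (x y z : ℕ → ℝ) :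
    ∑ p ∈ S, 1 / (p : ℝ) * (x p - z p) ^ 2 ≤
      2 * ∑ p ∈ S, 1 / (p : ℝ) * (x p - y p) ^ 2 + 2 * ∑ p ∈ S, 1 / (p : ℝ) * (y p - z p) ^ 2 := by
  rw [Finset.mul_sum, Finset.mul_sum, ← Finset.sum_add_distrib]
  refine Finset.sum_le_sum fun p _ => ?_
  have h6 : (x p - z p) ^ 2 ≤ 2 * (x p - y p) ^ 2 + 2 * (y p - z p) ^ 2 := by
    nlinarith [sq_nonneg ((x p - y p) - (y p - z p))]
  have h7 : (0 : ℝ) ≤ 1 / (p : ℝ) := by positivity
  calc 1 / (p : ℝ) * (x p - z p) ^ 2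
      ≤ 1 / (p : ℝ) * (2 * (x p - y p) ^ 2 + 2 * (y p - z p) ^ 2) :=
        mul_le_mul_of_nonneg_left h6 h7
    _ = _ := by ring

/-- the conclusion for a fixed large `N` -/
theorem concl (hB : S_STAB) {C C' D : ℝ} (hC1 : 1 ≤ C) (hC : ∀ x y : ℝ, 8 ≤ x → x ≤ y →
    ms ⌊x⌋₊ ⌊y⌋₊ ≤ 2 * (Real.log y - Real.log x + C) / Real.log x)
    (hC' : ∀ θ w : ℝ, 0 < θ → θ ≤ 1 / 2 → C' / θ ≤ w →
      θ / 2 ≤ ms ⌊Real.exp ((1 - θ) * w)⌋₊ ⌊Real.exp w⌋₊)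
    (hD : ∀ N : ℕ, 1 ≤ N →
      |∑ p ∈ (Finset.Icc 1 N).filter Nat.Prime, Real.log p / p - Real.log N| ≤ D)
    {k η t : ℝ} (hk0 : 0 < k) (hk1 : k ≤ 1) {a : ℕ → ℝ} {N Q : ℕ}
    (ha : ∑ p ∈ Pr N, (a p) ^ 2 / p ≤ 1) (hU1 : 4 ≤ Real.log N)
    (hU2 : 12 * C ≤ (k ^ 2 / 16) * Real.log N)
    (hU3 : C' / (k ^ 2 / 16) ≤ k ^ 2 / 64 * Real.log N)
    (hη : η ≤ (k / 2) ^ 2 * (k ^ 2 / 16) / 16)
    (ht0 : 0 < t) (ht1 : t ≤ 1 / 4) (hU4 : 7 ≤ t * Real.log N) (hU5 : D ≤ t * Real.log N)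
    (hQ : Q ^ 4 ≤ N)
    (H : ∀ y P : ℕ, y ≤ N → N ≤ y ^ 2 → P ^ 3 ≤ y →
      ∑ p ∈ Pr P, 1 / (p : ℝ) * (a p + mu a (y / p) - mu a y) ^ 2 ≤ η) :
    ∃ c : ℝ, |c| * Real.log N ≤ 8 ∧ ∑ p ∈ Pr Q, 1 / (p : ℝ) * (a p - c * Real.log p) ^ 2 ≤
      2 * η + 2 * (9 * k ^ 2 / t + 2 * (14 + 12 * C) * t) := by
  have hU0 : 0 < Real.log N := by linarith
  have hN0 : (0 : ℝ) < N := by
    by_contra h
    have h1 : (N : ℝ) = 0 := le_antisymm (not_lt.1 h) (Nat.cast_nonneg N)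
    rw [h1, Real.log_zero] at hU0
    exact lt_irrefl _ hU0
  obtain ⟨U, hU⟩ : ∃ U, U = Real.log N := ⟨_, rfl⟩
  obtain ⟨J, hJ⟩ : ∃ J : ℝ → ℝ, J = fun v => mu a N - mu a (yy N v) := ⟨_, rfl⟩
  have hk2 : k ^ 2 ≤ 1 := pow_le_one₀ hk0.le hk1
  have hCU : 12 * C ≤ U / 16 := by
    rw [hU]
    have : k ^ 2 / 16 * Real.log N ≤ 1 / 16 * Real.log N :=
      mul_le_mul_of_nonneg_right (by linarith) hU0.le
    linarith
  have hJsq : ∀ v, 0 ≤ v → v ≤ U / 4 → (J v) ^ 2 ≤ 3 * (v + C) / U := by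
    intro v hv0 hv1
    rw [hU] at hv1
    have d := yy_diff hC1 hC ha hU1 le_rfl hv0 hv1
    rw [yy_zero, sub_zero] at d
    rw [hJ, hU]
    exact d
  have hJ1 : ∀ v, 0 ≤ v → v ≤ U / 4 → |J v| ≤ 1 := by
    intro v hv0 hv1
    apply abs_le_of_sq_le_sq _ zero_le_one
    refine (hJsq v hv0 hv1).trans ?_
    rw [div_le_iff₀ (by rw [hU]; exact hU0)]
    linarith
  have hcau : ∀ v w, 0 ≤ v → 0 ≤ w → v + w ≤ U / 4 → |J (v + w) - J v - J w| ≤ k := by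
    intro v w hv hw hvw
    rw [hU] at hvw
    rw [hJ]
    exact cauchy hC1 hC hC' hk0 hk1 ha hU1 hU2 hU3 hη H hv hw hvw
  have hU0' : 0 < U := by rw [hU]; exact hU0
  have hst := hB J (U / 4) 1 k (by linarith) hJ1 hcau
  have hJB := hJ1 (U / 4) (by linarith) le_rfl
  obtain ⟨c, hc⟩ : ∃ c, c = J (U / 4) / (U / 4) := ⟨_, rfl⟩
  have hcU : |c| * U ≤ 4 := by
    rw [hc, abs_div, abs_of_pos (by linarith : 0 < U / 4)]
    have e : |J (U / 4)| / (U / 4) * U = 4 * |J (U / 4)| := by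
      field_simp
    rw [e]
    linarith
  have hst' : ∀ v, 0 ≤ v → v ≤ U / 4 → |J v - c * v| ≤ 3 * k := by
    intro v hv0 hv1
    have h1 := hst v hv0 hv1
    have e : c * v = v / (U / 4) * J (U / 4) := by
      rw [hc]
      field_simp
    rw [e]
    exact h1
  -- the logarithms of the primes up to `Q`
  have hlogQ : Real.log Q ≤ U / 4 := by
    rcases Nat.eq_zero_or_pos Q with h | h
    · rw [h, Nat.cast_zero, Real.log_zero]
      linarith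
    · have hQ0 : (0 : ℝ) < Q := by exact_mod_cast h
      have h1 : ((Q : ℝ)) ^ 4 ≤ N := by exact_mod_cast hQ
      have h2 := Real.log_le_log (by positivity) h1
      rw [Real.log_pow] at h2
      push_cast at h2
      rw [hU]
      linarith
  have hlogp : ∀ p ∈ Pr Q, 1 / 2 ≤ Real.log p ∧ Real.log p ≤ U / 4 := by
    intro p hp
    simp only [Pr, mem_filter, mem_Icc] at hp
    have hp2 : (2 : ℝ) ≤ p := by exact_mod_cast hp.2.two_le
    constructor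
    · have h1 := Real.log_le_log (by norm_num) hp2
      have h2 := Real.log_two_gt_d9
      linarith
    · have hpQ : (p : ℝ) ≤ Q := by exact_mod_cast hp.1.2
      exact (Real.log_le_log (by linarith) hpQ).trans hlogQ
  -- the hypothesis at `N`
  have hsq0 := scale_sq hU1 (by linarith : (0 : ℝ) ≤ Real.log N / 4)
  rw [yy_zero] at hsq0
  have hQ3 : Q ^ 3 ≤ N := by
    rcases Nat.eq_zero_or_pos Q with h | h
    · rw [h]; simp
    · exact (Nat.pow_le_pow_right h (by norm_num)).trans hQ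
  have hH := H N Q le_rfl hsq0 hQ3
  have hH' : ∑ p ∈ Pr Q, 1 / (p : ℝ) * (a p - J (Real.log p)) ^ 2 ≤ η := by
    refine le_trans (le_of_eq (Finset.sum_congr rfl fun p hp => ?_)) hH
    simp only [Pr, mem_filter] at hp
    rw [hJ]
    simp only
    rw [yy_log hp.2.pos]
    ring
  refine ⟨c, by rw [← hU]; linarith, ?_⟩
  have hsum := split_sq (Pr Q) a (fun p => J (Real.log p)) (fun p => c * Real.log p)
  have hp1 := part1 hC ht0 ht1 (by rw [hU]; exact hU4 : 7 ≤ t * U) (by linarith : 4 * C ≤ U)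
    hlogQ (fun p => J (Real.log p) - c * Real.log p) (k := k)
    (fun p hp => hst' _ (by linarith [(hlogp p hp).1]) (hlogp p hp).2)
  have hp2 := part2 hD ht0 hU0' (by linarith : 0 ≤ 14 + 12 * C)
    (by rw [hU]; exact hU5 : D ≤ t * U) (Q := Q) (fun p => J (Real.log p) - c * Real.log p)
    (fun p hp _ => jb hU0' hC1 (hlogp p hp).1 (hlogp p hp).2
      (hJsq (Real.log p) (by linarith [(hlogp p hp).1]) (hlogp p hp).2) hcU)
  have hsplit := Finset.sum_filter_add_sum_filter_not (Pr Q) (fun p : ℕ => t * U < Real.log p)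
    (fun p : ℕ => 1 / (p : ℝ) * (J (Real.log p) - c * Real.log p) ^ 2)
  have hfin : ∑ p ∈ Pr Q, 1 / (p : ℝ) * (J (Real.log p) - c * Real.log p) ^ 2 ≤
      9 * k ^ 2 / t + 2 * (14 + 12 * C) * t := by
    rw [← hsplit]
    exact add_le_add hp1 hp2
  linarith

end Pool.Agent.N826.EM.SLOPE_

namespace Pool.Agent.N826.EM

open SLOPE_

theorem t_SLOPE (hB : S_STAB) : S_SLOPE := by
  intro κ hκ
  obtain ⟨C, hC1, hC⟩ := mass_up
  obtain ⟨C', hC1', hC'⟩ := mass_lo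
  obtain ⟨D, hD⟩ := Pool.Agent.Helper923.HMertens.mertens_log
  obtain ⟨κ', hκ'⟩ : ∃ κ', κ' = min κ 1 := ⟨_, rfl⟩
  have hκ0 : 0 < κ' := by rw [hκ']; exact lt_min hκ one_pos
  have hκ1 : κ' ≤ 1 := by rw [hκ']; exact min_le_right _ _
  have hκκ : κ' ≤ κ := by rw [hκ']; exact min_le_left _ _
  obtain ⟨t, ht⟩ : ∃ t, t = κ' / (16 * (14 + 12 * C)) := ⟨_, rfl⟩
  have hA : 0 < 14 + 12 * C := by linarith
  have ht0 : 0 < t := by rw [ht]; positivity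
  have htA : 2 * (14 + 12 * C) * t = κ' / 8 := by
    rw [ht]
    field_simp
    ring
  have ht1 : t ≤ 1 / 4 := by
    have h1 : 26 * t ≤ (14 + 12 * C) * t := mul_le_mul_of_nonneg_right (by linarith) ht0.le
    linarith
  obtain ⟨k, hk⟩ : ∃ k, k = Real.sqrt (κ' * t / 72) := ⟨_, rfl⟩
  have hk0 : 0 < k := by rw [hk]; exact Real.sqrt_pos.2 (by positivity)
  have hk2 : k ^ 2 = κ' * t / 72 := by rw [hk]; exact Real.sq_sqrt (by positivity)
  have hk1 : k ≤ 1 := by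
    have h1 : k ^ 2 ≤ 1 := by
      rw [hk2]
      have : κ' * t ≤ 1 * (1 / 4) := mul_le_mul hκ1 ht1 ht0.le zero_le_one
      linarith
    exact (pow_le_one_iff_of_nonneg hk0.le two_ne_zero).1 h1
  obtain ⟨η, hη⟩ : ∃ η, η = min (κ' / 8) ((k / 2) ^ 2 * (k ^ 2 / 16) / 16) := ⟨_, rfl⟩
  have hη0 : 0 < η := by rw [hη]; exact lt_min (by positivity) (by positivity)
  have hη1 : η ≤ κ' / 8 := by rw [hη]; exact min_le_left _ _
  have hη2 : η ≤ (k / 2) ^ 2 * (k ^ 2 / 16) / 16 := by rw [hη]; exact min_le_right _ _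
  obtain ⟨θ, hθ⟩ : ∃ θ, θ = k ^ 2 / 16 := ⟨_, rfl⟩
  have hθ0 : 0 < θ := by rw [hθ]; positivity
  obtain ⟨s, hs⟩ : ∃ s, s = k ^ 2 / 64 := ⟨_, rfl⟩
  have hs0 : 0 < s := by rw [hs]; positivity
  obtain ⟨U₀, hU₀⟩ : ∃ U₀, U₀ = 4 + 12 * C / θ + C' / θ / s + 7 / t + |D| / t := ⟨_, rfl⟩
  have p1 : 0 ≤ 12 * C / θ := by positivity
  have p2 : 0 ≤ C' / θ / s := by positivity
  have p3 : 0 ≤ 7 / t := by positivity
  have p4 : 0 ≤ |D| / t := by positivity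
  refine ⟨η, ⌈Real.exp U₀⌉₊, hη0, ?_⟩
  intro a N Q hN hQ _ ha H
  have hNe : Real.exp U₀ ≤ N := Nat.ceil_le.1 hN
  have hN0 : (0 : ℝ) < N := (Real.exp_pos _).trans_le hNe
  have hUN : U₀ ≤ Real.log N := (Real.le_log_iff_exp_le hN0).2 hNe
  have q1 : 4 ≤ Real.log N := by linarith
  have q2 : 12 * C ≤ (k ^ 2 / 16) * Real.log N := by
    rw [← hθ]
    have h1 : 12 * C / θ ≤ Real.log N := by linarith
    rw [div_le_iff₀ hθ0] at h1
    linarith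
  have q3 : C' / (k ^ 2 / 16) ≤ k ^ 2 / 64 * Real.log N := by
    rw [← hθ, ← hs]
    have h1 : C' / θ / s ≤ Real.log N := by linarith
    rw [div_le_iff₀ hs0] at h1
    linarith
  have q4 : 7 ≤ t * Real.log N := by
    have h1 : 7 / t ≤ Real.log N := by linarith
    rw [div_le_iff₀ ht0] at h1
    linarith
  have q5 : D ≤ t * Real.log N := by
    have h1 : |D| / t ≤ Real.log N := by linarith
    rw [div_le_iff₀ ht0] at h1
    have := le_abs_self D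
    linarith
  obtain ⟨c, hc1, hc2⟩ := concl hB hC1 hC hC' hD hk0 hk1 ha q1 q2 q3 hη2 ht0 ht1 q4 q5 hQ H
  refine ⟨c, hc1, hc2.trans ?_⟩
  have h9 : 9 * k ^ 2 / t = κ' / 8 := by
    rw [hk2]
    field_simp
    norm_num
  rw [h9, htA]
  linarith

end Pool.Agent.N826.EM
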