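import Pool.Agent.N826.EM.Stm

/-!
Project EM, task STAB (helper966): stability of the Cauchy equation on an interval.
-/

set_option autoImplicit false

namespace Pool.Agent.N826.EM

namespace STAB_

/-- one step: a bound `T` for `φ` on `[0, B]` improves to `T / 2 + 3 κ / 2` -/
theorem step (φ : ℝ → ℝ) (B κ T : ℝ) (hB : 0 < B) (hφB : φ B = 0)
    (hadd : ∀ v w, 0 ≤ v → 0 ≤ w → v + w ≤ B → |φ (v + w) - φ v - φ w| ≤ κ)
    (hT : ∀ v, 0 ≤ v → v ≤ B → |φ v| ≤ T) :
    ∀ v, 0 ≤ v → v ≤ B → |φ v| ≤ T / 2 + 3 * κ / 2 := by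
  have hκ : 0 ≤ κ := le_trans (abs_nonneg _) (hadd 0 0 le_rfl le_rfl (by linarith))
  have half : ∀ v, 0 ≤ v → v ≤ B / 2 → |φ v| ≤ T / 2 + κ / 2 := by
    intro v hv hv2
    have h1 := hadd v v hv hv (by linarith)
    have h2 := hT (v + v) (by linarith) (by linarith)
    rw [abs_le] at h1 h2 ⊢
    constructor <;> linarith [h1.1, h1.2, h2.1, h2.2]
  intro v hv hvB
  rcases le_or_gt v (B / 2) with h | h
  · have := half v hv h
    linarith
  · have h1 := hadd v (B - v) hv (by linarith) (by linarith)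
    have h2 := half (B - v) (by linarith) (by linarith)
    have e : v + (B - v) = B := by ring
    rw [e, hφB] at h1
    rw [abs_le] at h1 h2 ⊢
    constructor <;> linarith [h1.1, h1.2, h2.1, h2.2]

end STAB_

/-- stability of the Cauchy equation on an interval -/
theorem t_STAB : S_STAB := by
  intro J B S κ hB hS hadd
  set φ : ℝ → ℝ := fun v => J v - v / B * J B with hφ
  have hφB : φ B = 0 := by
    simp only [hφ]
    rw [div_self hB.ne']
    ring
  have hadd' : ∀ v w, 0 ≤ v → 0 ≤ w → v + w ≤ B → |φ (v + w) - φ v - φ w| ≤ κ := by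
    intro v w hv hw hvw
    have e : φ (v + w) - φ v - φ w = J (v + w) - J v - J w := by
      simp only [hφ]
      field_simp
      ring
    rw [e]
    exact hadd v w hv hw hvw
  have hbd : ∀ v, 0 ≤ v → v ≤ B → |φ v| ≤ S + S := by
    intro v hv hvB
    have h1 := hS v hv hvB
    have h2 := hS B hB.le le_rfl
    have h3 : |v / B * J B| ≤ S := by
      rw [abs_mul, abs_of_nonneg (div_nonneg hv hB.le)]
      calc v / B * |J B| ≤ 1 * |J B| :=
            mul_le_mul_of_nonneg_right ((div_le_one hB).2 hvB) (abs_nonneg _)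
        _ ≤ S := by linarith
    calc |φ v| ≤ |J v| + |v / B * J B| := abs_sub _ _
      _ ≤ S + S := add_le_add h1 h3
  -- the supremum
  set A : Set ℝ := (fun v => |φ v|) '' Set.Icc 0 B with hA
  have hAb : BddAbove A := ⟨S + S, by
    rintro _ ⟨v, ⟨hv1, hv2⟩, rfl⟩
    exact hbd v hv1 hv2⟩
  have hAne : A.Nonempty := ⟨_, 0, ⟨le_rfl, hB.le⟩, rfl⟩
  have hT : ∀ v, 0 ≤ v → v ≤ B → |φ v| ≤ sSup A := fun v hv1 hv2 =>
    le_csSup hAb ⟨v, ⟨hv1, hv2⟩, rfl⟩
  have hle : sSup A ≤ sSup A / 2 + 3 * κ / 2 := by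
    refine csSup_le hAne ?_
    rintro _ ⟨v, ⟨hv1, hv2⟩, rfl⟩
    exact STAB_.step φ B κ _ hB hφB hadd' hT v hv1 hv2
  intro v hv1 hv2
  have h1 := hT v hv1 hv2
  have h2 : |J v - v / B * J B| ≤ sSup A := h1
  linarith


end Pool.Agent.N826.EM
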