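import Mathlib
import Pool.Agent.N826.EM.Stm

/-!
Project EM, part STAR (helper46): a nearly shift invariant function is equidistributed on the
multiples of the primes.
-/

set_option autoImplicit false

namespace Pool.Agent.N826.EM

open Finset

namespace STAR_

lemma sum_Icc (N : ℕ) (h : ℕ → ℝ) : ∑ n ∈ Icc 1 N, h n = ∑ n ∈ range N, h (n + 1) := by
  induction N with
  | zero => simp
  | succ k ih => rw [Finset.sum_Icc_succ_top (by omega), ih, Finset.sum_range_succ]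

lemma Ex_eq (N : ℕ) (h : ℕ → ℝ) : Ex N h = (∑ n ∈ range N, h (n + 1)) / N := by
  unfold Ex; rw [sum_Icc]

/-- sums over shifted ranges -/
lemma shift (F : ℕ → ℝ) (M : ℝ) (hF : ∀ n, |F n| ≤ M) (N a : ℕ) :
    |∑ n ∈ range N, F (n + 1 + a) - ∑ n ∈ range N, F (n + 1)| ≤ 2 * M * a := by
  induction a with
  | zero => simp
  | succ a ih =>
    have h1 : ∑ n ∈ range N, F (n + 1 + (a + 1)) - ∑ n ∈ range N, F (n + 1 + a) =
        F (N + 1 + a) - F (0 + 1 + a) := by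
      rw [← Finset.sum_sub_distrib]
      have := Finset.sum_range_sub (fun n => F (n + 1 + a)) N
      rw [← this]
      refine Finset.sum_congr rfl fun n _ => ?_
      congr 2
      omega
    have h2 := abs_le.1 (hF (N + 1 + a))
    have h3 := abs_le.1 (hF (0 + 1 + a))
    have h4 := abs_le.1 ih
    rw [abs_le]
    push_cast
    constructor <;> linarith [h2.1, h2.2, h3.1, h3.2, h4.1, h4.2]

/-- counting a residue class -/
lemma cnt (r v N : ℕ) (hr : 1 ≤ r) :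
    |(∑ m ∈ range N, if m ≡ v [MOD r] then (1 : ℝ) else 0) - (N : ℝ) / r| ≤ 1 := by
  have hr' : (0 : ℝ) < r := by exact_mod_cast hr
  have h1 : (∑ m ∈ range N, if m ≡ v [MOD r] then (1 : ℝ) else 0) =
      ((Nat.count (· ≡ v [MOD r]) N : ℕ) : ℝ) := by
    rw [Finset.sum_boole, Nat.count_eq_card_filter_range]
  rw [h1, Nat.count_modEq_card _ hr]
  have h2 : (N : ℝ) = r * ((N / r : ℕ) : ℝ) + ((N % r : ℕ) : ℝ) := by
    exact_mod_cast (Nat.div_add_mod N r).symm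
  have h3 : (((N % r : ℕ) : ℝ)) < r := by exact_mod_cast Nat.mod_lt _ hr
  have h4 : (0 : ℝ) ≤ ((N % r : ℕ) : ℝ) := Nat.cast_nonneg _
  have h5 : (N : ℝ) / r = ((N / r : ℕ) : ℝ) + ((N % r : ℕ) : ℝ) / r := by
    rw [eq_comm, ← sub_eq_zero]
    field_simp
    linarith
  have h6 : ((N % r : ℕ) : ℝ) / r ≤ 1 := (div_le_one hr').2 h3.le
  have h7 : 0 ≤ ((N % r : ℕ) : ℝ) / r := by positivity
  rw [h5]
  rw [abs_le]
  split_ifs <;> constructor <;> push_cast <;> linarith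

lemma dvd_iff (p a m : ℕ) (hp : 1 ≤ p) : p ∣ m + a ↔ m ≡ (p - 1) * a [MOD p] := by
  have e : (p - 1) * a + a = p * a := by
    obtain ⟨k, rfl⟩ : ∃ k, p = k + 1 := ⟨p - 1, by omega⟩
    simp; ring
  have h0 : (p - 1) * a + a ≡ 0 [MOD p] := by
    rw [e]; exact (Nat.modEq_zero_iff_dvd).2 (dvd_mul_right _ _)
  rw [← Nat.modEq_zero_iff_dvd]
  constructor
  · intro h; exact Nat.ModEq.add_right_cancel' a (h.trans h0.symm)
  · intro h; exact (h.add_right a).trans h0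

lemma cntdvd (p a N : ℕ) (hp : 1 ≤ p) :
    |(∑ m ∈ range N, if p ∣ m + a then (1 : ℝ) else 0) - (N : ℝ) / p| ≤ 1 := by
  have := cnt p ((p - 1) * a) N hp
  simpa only [dvd_iff p a _ hp] using this

lemma cnt2 (p q j j' N : ℕ) (hp : p.Prime) (hq : q.Prime) (hne : p ≠ q) :
    |(∑ m ∈ range N, if p ∣ m + j ∧ q ∣ m + j' then (1 : ℝ) else 0) - (N : ℝ) / ((p : ℝ) * q)| ≤ 1 := by
  have hc : Nat.Coprime p q := (Nat.coprime_primes hp hq).2 hne
  obtain ⟨v, hv1, hv2⟩ := Nat.chineseRemainder hc ((p - 1) * j) ((q - 1) * j')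
  have := cnt (p * q) v N (Nat.mul_pos hp.pos hq.pos)
  have e : ∀ m, (p ∣ m + j ∧ q ∣ m + j') ↔ m ≡ v [MOD (p * q)] := by
    intro m
    rw [dvd_iff p j m hp.pos, dvd_iff q j' m hq.pos, ← Nat.modEq_and_modEq_iff_modEq_mul hc]
    constructor
    · rintro ⟨h1, h2⟩; exact ⟨h1.trans hv1.symm, h2.trans hv2.symm⟩
    · rintro ⟨h1, h2⟩; exact ⟨h1.trans hv1, h2.trans hv2⟩
  simp only [e]
  push_cast at this
  exact this

/-- the centred indicator of the multiples of `p` -/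
noncomputable def X (p n : ℕ) : ℝ := (if p ∣ n then (1 : ℝ) else 0) - 1 / p

lemma X_sum (p a N : ℕ) (hp : 1 ≤ p) : |∑ m ∈ range N, X p (m + a)| ≤ 1 := by
  have h := cntdvd p a N hp
  have e : ∑ m ∈ range N, X p (m + a) =
      (∑ m ∈ range N, if p ∣ m + a then (1 : ℝ) else 0) - (N : ℝ) / p := by
    unfold X
    rw [Finset.sum_sub_distrib]
    simp [div_eq_mul_inv]
  rw [e]; exact h

lemma X_abs_sum (p a N : ℕ) (hp : 1 ≤ p) : ∑ m ∈ range N, |X p (m + a)| ≤ 2 * (N : ℝ) / p + 1 := by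
  have h := (abs_le.1 (cntdvd p a N hp)).2
  have hp' : (0 : ℝ) < p := by exact_mod_cast hp
  have e : ∑ m ∈ range N, |X p (m + a)| ≤
      ∑ m ∈ range N, ((if p ∣ m + a then (1 : ℝ) else 0) + 1 / p) := by
    refine Finset.sum_le_sum fun m _ => ?_
    unfold X
    have h1 : (0 : ℝ) ≤ 1 / p := by positivity
    have h2 : (0 : ℝ) ≤ (if p ∣ m + a then (1 : ℝ) else 0) := by split_ifs <;> norm_num
    rw [abs_le]; constructor <;> linarith
  rw [Finset.sum_add_distrib] at e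
  simp only [Finset.sum_const, card_range, nsmul_eq_mul] at e
  have : (2 * (N : ℝ) / p) = (N : ℝ) / p + (N : ℝ) * (1 / p) := by ring
  rw [this]; linarith

lemma X_off (p q j j' N : ℕ) (hp : p.Prime) (hq : q.Prime) (hne : p ≠ q) :
    |∑ m ∈ range N, X p (m + j) * X q (m + j')| ≤ 3 := by
  have hp0 : (0 : ℝ) < p := by exact_mod_cast hp.pos
  have hq0 : (0 : ℝ) < q := by exact_mod_cast hq.pos
  have h1 := abs_le.1 (cnt2 p q j j' N hp hq hne)
  have h2 := abs_le.1 (cntdvd p j N hp.pos)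
  have h3 := abs_le.1 (cntdvd q j' N hq.pos)
  have e : ∑ m ∈ range N, X p (m + j) * X q (m + j') =
      ((∑ m ∈ range N, if p ∣ m + j ∧ q ∣ m + j' then (1 : ℝ) else 0) - (N : ℝ) / ((p : ℝ) * q))
      - (1 / (q : ℝ)) * ((∑ m ∈ range N, if p ∣ m + j then (1 : ℝ) else 0) - (N : ℝ) / p)
      - (1 / (p : ℝ)) * ((∑ m ∈ range N, if q ∣ m + j' then (1 : ℝ) else 0) - (N : ℝ) / q) := by
    have e1 : ∀ m, X p (m + j) * X q (m + j') =
        (if p ∣ m + j ∧ q ∣ m + j' then (1 : ℝ) else 0)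
        - (1 / (q : ℝ)) * (if p ∣ m + j then (1 : ℝ) else 0)
        - (1 / (p : ℝ)) * (if q ∣ m + j' then (1 : ℝ) else 0) + 1 / ((p : ℝ) * q) := by
      intro m
      unfold X
      by_cases a1 : p ∣ m + j <;> by_cases a2 : q ∣ m + j' <;> simp [a1, a2] <;> ring
    simp only [e1]
    rw [Finset.sum_add_distrib, Finset.sum_sub_distrib, Finset.sum_sub_distrib,
      ← Finset.mul_sum, ← Finset.mul_sum]
    simp only [Finset.sum_const, card_range, nsmul_eq_mul]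
    field_simp
    ring
  have hq1 : (1 : ℝ) / q ≤ 1 := (div_le_one hq0).2 (by exact_mod_cast hq.one_le)
  have hp1 : (1 : ℝ) / p ≤ 1 := (div_le_one hp0).2 (by exact_mod_cast hp.one_le)
  have hq2 : (0 : ℝ) ≤ 1 / q := by positivity
  have hp2 : (0 : ℝ) ≤ 1 / p := by positivity
  rw [e]
  set A := ((∑ m ∈ range N, if p ∣ m + j ∧ q ∣ m + j' then (1 : ℝ) else 0) - (N : ℝ) / ((p : ℝ) * q))
  set B := ((∑ m ∈ range N, if p ∣ m + j then (1 : ℝ) else 0) - (N : ℝ) / p)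
  set C := ((∑ m ∈ range N, if q ∣ m + j' then (1 : ℝ) else 0) - (N : ℝ) / q)
  have hB : |(1 / (q : ℝ)) * B| ≤ 1 := by
    rw [abs_mul, abs_of_nonneg hq2]
    have : |B| ≤ 1 := abs_le.2 h2
    calc 1 / (q : ℝ) * |B| ≤ 1 * 1 := mul_le_mul hq1 this (abs_nonneg _) (by norm_num)
      _ = 1 := by norm_num
  have hC : |(1 / (p : ℝ)) * C| ≤ 1 := by
    rw [abs_mul, abs_of_nonneg hp2]
    have : |C| ≤ 1 := abs_le.2 h3
    calc 1 / (p : ℝ) * |C| ≤ 1 * 1 := mul_le_mul hp1 this (abs_nonneg _) (by norm_num)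
      _ = 1 := by norm_num
  have hB' := abs_le.1 hB
  have hC' := abs_le.1 hC
  rw [abs_le]
  constructor <;> linarith [h1.1, h1.2, hB'.1, hB'.2, hC'.1, hC'.2]

/-- the centred number of multiples of `p` in a short interval -/
noncomputable def Y (H p m : ℕ) : ℝ := ∑ j ∈ range H, X p (m + 1 + j)

lemma Y_abs (H p m : ℕ) (hp : 1 ≤ p) : |Y H p m| ≤ 1 := by
  have := X_sum p (m + 1) H hp
  unfold Y
  simpa only [add_comm _ (m + 1)] using this

lemma YY_off (H p q N : ℕ) (hp : p.Prime) (hq : q.Prime) (hne : p ≠ q) :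
    |∑ m ∈ range N, Y H p m * Y H q m| ≤ 3 * (H : ℝ) ^ 2 := by
  have e : ∑ m ∈ range N, Y H p m * Y H q m =
      ∑ j ∈ range H, ∑ j' ∈ range H, ∑ m ∈ range N, X p (m + (1 + j)) * X q (m + (1 + j')) := by
    unfold Y
    simp only [Finset.sum_mul_sum]
    rw [Finset.sum_comm]
    refine Finset.sum_congr rfl fun j _ => ?_
    rw [Finset.sum_comm]
    simp only [add_assoc]
  rw [e]
  calc |∑ j ∈ range H, ∑ j' ∈ range H, ∑ m ∈ range N, X p (m + (1 + j)) * X q (m + (1 + j'))|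
      ≤ ∑ j ∈ range H, |∑ j' ∈ range H, ∑ m ∈ range N, X p (m + (1 + j)) * X q (m + (1 + j'))| :=
        Finset.abs_sum_le_sum_abs _ _
    _ ≤ ∑ j ∈ range H, ∑ j' ∈ range H, |∑ m ∈ range N, X p (m + (1 + j)) * X q (m + (1 + j'))| :=
        Finset.sum_le_sum fun j _ => Finset.abs_sum_le_sum_abs _ _
    _ ≤ ∑ j ∈ range H, ∑ j' ∈ range H, (3 : ℝ) :=
        Finset.sum_le_sum fun j _ => Finset.sum_le_sum fun j' _ => X_off p q _ _ N hp hq hne
    _ = 3 * (H : ℝ) ^ 2 := by simp; ring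

lemma YY_diag (H p N : ℕ) (hp : 1 ≤ p) :
    ∑ m ∈ range N, Y H p m ^ 2 ≤ H * (2 * (N : ℝ) / p + 1) := by
  calc ∑ m ∈ range N, Y H p m ^ 2 ≤ ∑ m ∈ range N, |Y H p m| := by
        refine Finset.sum_le_sum fun m _ => ?_
        have h1 := Y_abs H p m hp
        have h2 := abs_nonneg (Y H p m)
        rw [← sq_abs]
        nlinarith
    _ ≤ ∑ m ∈ range N, ∑ j ∈ range H, |X p (m + (1 + j))| := by
        refine Finset.sum_le_sum fun m _ => ?_
        unfold Y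
        simp only [add_assoc]
        exact Finset.abs_sum_le_sum_abs _ _
    _ = ∑ j ∈ range H, ∑ m ∈ range N, |X p (m + (1 + j))| := Finset.sum_comm
    _ ≤ ∑ j ∈ range H, (2 * (N : ℝ) / p + 1) :=
        Finset.sum_le_sum fun j _ => X_abs_sum p _ N hp
    _ = H * (2 * (N : ℝ) / p + 1) := by simp; ring

lemma CS (P : ℕ) (w : ℕ → ℝ) :
    (∑ p ∈ Pr P, |w p|) ^ 2 ≤ (∑ p ∈ Pr P, 1 / (p : ℝ) * w p ^ 2) * (P : ℝ) ^ 2 := by
  have h1 : (∑ p ∈ Pr P, |w p|) ^ 2 ≤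
      (∑ p ∈ Pr P, 1 / (p : ℝ) * w p ^ 2) * (∑ p ∈ Pr P, (p : ℝ)) := by
    refine Finset.sum_sq_le_sum_mul_sum_of_sq_le_mul _ (fun i _ => by positivity)
      (fun i _ => by positivity) (fun i hi => ?_)
    have : (0 : ℝ) < i := by exact_mod_cast (Finset.mem_filter.1 hi).2.pos
    refine le_of_eq ?_
    rw [sq_abs]; field_simp
  have h2 : (∑ p ∈ Pr P, (p : ℝ)) ≤ (P : ℝ) ^ 2 := by
    calc (∑ p ∈ Pr P, (p : ℝ)) ≤ ∑ p ∈ Pr P, (P : ℝ) := by
          refine Finset.sum_le_sum fun i hi => ?_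
          exact_mod_cast (Finset.mem_Icc.1 (Finset.mem_filter.1 hi).1).2
      _ = ((Pr P).card : ℝ) * P := by simp
      _ ≤ (P : ℝ) * P := by
          have : (Pr P).card ≤ P := by
            calc (Pr P).card ≤ (Icc 1 P).card := Finset.card_filter_le _ _
              _ = P := by simp
          exact mul_le_mul_of_nonneg_right (by exact_mod_cast this) (Nat.cast_nonneg _)
      _ = (P : ℝ) ^ 2 := by ring
  have h3 : 0 ≤ ∑ p ∈ Pr P, 1 / (p : ℝ) * w p ^ 2 := Finset.sum_nonneg fun i _ => by positivity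
  exact h1.trans (mul_le_mul_of_nonneg_left h2 h3)

lemma big (H P N : ℕ) (hH : 1 ≤ H) (hN : P ^ 2 * H ≤ N) (w : ℕ → ℝ) :
    ∑ m ∈ range N, (∑ p ∈ Pr P, w p * Y H p m) ^ 2 ≤
      6 * N * H * ∑ p ∈ Pr P, 1 / (p : ℝ) * w p ^ 2 := by
  set S := ∑ p ∈ Pr P, 1 / (p : ℝ) * w p ^ 2 with hS
  have hS0 : 0 ≤ S := Finset.sum_nonneg fun i _ => by positivity
  have hH' : (1 : ℝ) ≤ H := by exact_mod_cast hH
  have hN' : (P : ℝ) ^ 2 * H ≤ N := by exact_mod_cast hN
  have e : ∑ m ∈ range N, (∑ p ∈ Pr P, w p * Y H p m) ^ 2 =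
      ∑ p ∈ Pr P, ∑ q ∈ Pr P, w p * w q * ∑ m ∈ range N, Y H p m * Y H q m := by
    simp only [sq, Finset.sum_mul_sum]
    rw [Finset.sum_comm]
    refine Finset.sum_congr rfl fun p _ => ?_
    rw [Finset.sum_comm]
    refine Finset.sum_congr rfl fun q _ => ?_
    rw [Finset.mul_sum]
    exact Finset.sum_congr rfl fun m _ => by ring
  have b : ∀ p ∈ Pr P, ∀ q ∈ Pr P, w p * w q * ∑ m ∈ range N, Y H p m * Y H q m ≤
      |w p| * |w q| * (3 * (H : ℝ) ^ 2) +
        (if p = q then w p ^ 2 * (H * (2 * (N : ℝ) / p + 1)) else 0) := by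
    intro p hp q hq
    have hp' := (Finset.mem_filter.1 hp).2
    have hq' := (Finset.mem_filter.1 hq).2
    by_cases h : p = q
    · subst h
      rw [if_pos rfl]
      have h1 := YY_diag H p N hp'.one_le
      have h2 : ∑ m ∈ range N, Y H p m * Y H p m = ∑ m ∈ range N, Y H p m ^ 2 :=
        Finset.sum_congr rfl fun m _ => by ring
      rw [h2]
      have h3 : w p * w p * ∑ m ∈ range N, Y H p m ^ 2 ≤ w p * w p * (H * (2 * (N : ℝ) / p + 1)) :=
        mul_le_mul_of_nonneg_left h1 (mul_self_nonneg _)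
      have h4 : 0 ≤ |w p| * |w p| * (3 * (H : ℝ) ^ 2) := by positivity
      nlinarith [h3, h4]
    · rw [if_neg h, add_zero]
      have h1 := YY_off H p q N hp' hq' h
      calc w p * w q * ∑ m ∈ range N, Y H p m * Y H q m
          ≤ |w p * w q * ∑ m ∈ range N, Y H p m * Y H q m| := le_abs_self _
        _ = |w p| * |w q| * |∑ m ∈ range N, Y H p m * Y H q m| := by rw [abs_mul, abs_mul]
        _ ≤ |w p| * |w q| * (3 * (H : ℝ) ^ 2) := mul_le_mul_of_nonneg_left h1 (by positivity)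
  have c : ∑ m ∈ range N, (∑ p ∈ Pr P, w p * Y H p m) ^ 2 ≤
      3 * (H : ℝ) ^ 2 * (∑ p ∈ Pr P, |w p|) ^ 2 +
        ∑ p ∈ Pr P, w p ^ 2 * (H * (2 * (N : ℝ) / p + 1)) := by
    rw [e]
    calc ∑ p ∈ Pr P, ∑ q ∈ Pr P, w p * w q * ∑ m ∈ range N, Y H p m * Y H q m
        ≤ ∑ p ∈ Pr P, ∑ q ∈ Pr P, (|w p| * |w q| * (3 * (H : ℝ) ^ 2) +
          (if p = q then w p ^ 2 * (H * (2 * (N : ℝ) / p + 1)) else 0)) :=
          Finset.sum_le_sum fun p hp => Finset.sum_le_sum fun q hq => b p hp q hq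
      _ = _ := by
          simp only [Finset.sum_add_distrib]
          congr 1
          · rw [sq (∑ p ∈ Pr P, |w p|), Finset.sum_mul_sum, Finset.mul_sum]
            refine Finset.sum_congr rfl fun p _ => ?_
            rw [Finset.mul_sum]
            exact Finset.sum_congr rfl fun q _ => by ring
          · refine Finset.sum_congr rfl fun p hp => ?_
            rw [Finset.sum_ite_eq, if_pos hp]
  have d : ∑ p ∈ Pr P, w p ^ 2 * (H * (2 * (N : ℝ) / p + 1)) ≤ (2 * N * H + H * P) * S := by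
    rw [hS, Finset.mul_sum]
    refine Finset.sum_le_sum fun p hp => ?_
    have hp0 : (0 : ℝ) < p := by exact_mod_cast (Finset.mem_filter.1 hp).2.pos
    have hpP : (p : ℝ) ≤ P := by exact_mod_cast (Finset.mem_Icc.1 (Finset.mem_filter.1 hp).1).2
    have h1 : w p ^ 2 * (H * (2 * (N : ℝ) / p + 1)) =
        (2 * N * H + H * p) * (1 / (p : ℝ) * w p ^ 2) := by
      field_simp
    rw [h1]
    refine mul_le_mul_of_nonneg_right ?_ (by positivity)
    have : (H : ℝ) * p ≤ H * P := mul_le_mul_of_nonneg_left hpP (by positivity)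
    linarith
  have f := CS P w
  rw [← hS] at f
  have g1 : (H : ℝ) ^ 2 * (∑ p ∈ Pr P, |w p|) ^ 2 ≤ (H : ℝ) * N * S := by
    calc (H : ℝ) ^ 2 * (∑ p ∈ Pr P, |w p|) ^ 2 ≤ (H : ℝ) ^ 2 * (S * (P : ℝ) ^ 2) :=
          mul_le_mul_of_nonneg_left f (by positivity)
      _ = (H : ℝ) * S * ((P : ℝ) ^ 2 * H) := by ring
      _ ≤ (H : ℝ) * S * N := mul_le_mul_of_nonneg_left hN' (by positivity)
      _ = (H : ℝ) * N * S := by ring
  have g2 : (H : ℝ) * P * S ≤ N * H * S := by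
    have : (P : ℝ) ≤ N := by
      have h1 : (P : ℝ) ≤ (P : ℝ) ^ 2 := by
        have : P ≤ P ^ 2 := Nat.le_self_pow (by norm_num) P
        exact_mod_cast this
      nlinarith [sq_nonneg (P : ℝ)]
    have h2 : (H : ℝ) * P ≤ N * H := by nlinarith
    exact mul_le_mul_of_nonneg_right h2 hS0
  nlinarith [c, d, g1, g2]

lemma X_abs (p n : ℕ) (hp : 1 ≤ p) : |X p n| ≤ 1 := by
  unfold X
  have hp0 : (0 : ℝ) < p := by exact_mod_cast hp
  have h1 : (1 : ℝ) / p ≤ 1 := (div_le_one hp0).2 (by exact_mod_cast hp)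
  have h2 : (0 : ℝ) ≤ 1 / p := by positivity
  rw [abs_le]
  split_ifs <;> constructor <;> linarith

lemma cp_eq (N : ℕ) (h : ℕ → ℝ) (p : ℕ) (hN : 1 ≤ N) (hp : 1 ≤ p) :
    cp N h p = (p : ℝ) / N * ∑ n ∈ range N, X p (n + 1) * h (n + 1) := by
  have hp0 : (0 : ℝ) < p := by exact_mod_cast hp
  have hN0 : (0 : ℝ) < N := by exact_mod_cast hN
  have e1 : ∑ m ∈ Icc 1 (N / p), h (p * m) = ∑ n ∈ Icc 1 N, if p ∣ n then h n else 0 := by
    rw [← Finset.sum_filter]
    refine Finset.sum_nbij (fun m => p * m) ?_ ?_ ?_ ?_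
    · intro m hm
      rw [Finset.mem_Icc] at hm
      rw [Finset.mem_filter, Finset.mem_Icc]
      refine ⟨⟨Nat.mul_pos hp hm.1, ?_⟩, dvd_mul_right _ _⟩
      calc p * m ≤ p * (N / p) := Nat.mul_le_mul_left _ hm.2
        _ ≤ N := Nat.mul_div_le N p
    · intro a _ b _ hab
      exact Nat.eq_of_mul_eq_mul_left hp hab
    · intro n hn
      rw [Finset.mem_coe, Finset.mem_filter, Finset.mem_Icc] at hn
      obtain ⟨⟨h1, h2⟩, m, rfl⟩ := hn
      refine ⟨m, ?_, rfl⟩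
      rw [Finset.mem_coe, Finset.mem_Icc]
      constructor
      · exact Nat.pos_of_ne_zero (by rintro rfl; simp at h1)
      · exact (Nat.le_div_iff_mul_le hp).2 (by rw [mul_comm]; exact h2)
    · intro m _; rfl
  unfold cp
  rw [e1, Ex_eq, sum_Icc, Finset.mul_sum, Finset.mul_sum, Finset.sum_div, ← Finset.sum_sub_distrib]
  refine Finset.sum_congr rfl fun n _ => ?_
  unfold X
  split_ifs
  · field_simp
  · field_simp
    ring

lemma main_b (N P H : ℕ) (g : ℕ → ℝ) (B : ℝ) (hH : 1 ≤ H) (h1 : P ^ 2 * H ≤ N) (h2 : H ^ 3 ≤ N)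
    (hB : 0 ≤ B) (hg : ∀ n, |g n| ≤ B) :
    (∑ p ∈ Pr P, 1 / (p : ℝ) * (cp N (fun n => (∑ h ∈ range H, g (n + h)) / H) p) ^ 2) * H ≤
      20 * B ^ 2 := by
  set gb : ℕ → ℝ := fun n => (∑ h ∈ range H, g (n + h)) / H with hgb
  set w : ℕ → ℝ := fun p => cp N gb p with hw
  set S := ∑ p ∈ Pr P, 1 / (p : ℝ) * w p ^ 2 with hS
  have hN : 1 ≤ N := le_trans (Nat.one_le_pow _ _ hH) h2
  have hN0 : (0 : ℝ) < N := by exact_mod_cast hN
  have hH0 : (0 : ℝ) < H := by exact_mod_cast hH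
  have hH1 : (1 : ℝ) ≤ H := by exact_mod_cast hH
  have h1' : (P : ℝ) ^ 2 * H ≤ N := by exact_mod_cast h1
  have h2' : (H : ℝ) ^ 3 ≤ N := by exact_mod_cast h2
  have hS0 : 0 ≤ S := Finset.sum_nonneg fun i _ => by positivity
  set M := ∑ p ∈ Pr P, |w p| with hM
  have hM0 : 0 ≤ M := Finset.sum_nonneg fun i _ => abs_nonneg _
  have hCS : M ^ 2 ≤ S * (P : ℝ) ^ 2 := CS P w
  set T : ℕ → ℝ := fun n => ∑ p ∈ Pr P, w p * X p n with hT
  have hTM : ∀ n, |T n| ≤ M := by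
    intro n
    refine (Finset.abs_sum_le_sum_abs _ _).trans (Finset.sum_le_sum fun p hp => ?_)
    rw [abs_mul]
    calc |w p| * |X p n| ≤ |w p| * 1 :=
          mul_le_mul_of_nonneg_left (X_abs p n (Finset.mem_filter.1 hp).2.one_le) (abs_nonneg _)
      _ = |w p| := mul_one _
  -- the sum S as a correlation
  have hNS : N * S = ∑ n ∈ range N, gb (n + 1) * T (n + 1) := by
    have e : ∀ p ∈ Pr P, (N : ℝ) * (1 / (p : ℝ) * w p ^ 2) =
        ∑ n ∈ range N, gb (n + 1) * (w p * X p (n + 1)) := by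
      intro p hp
      have hp1 := (Finset.mem_filter.1 hp).2.one_le
      have hp0 : (0 : ℝ) < p := by exact_mod_cast hp1
      have hc : w p = (p : ℝ) / N * ∑ n ∈ range N, X p (n + 1) * gb (n + 1) := cp_eq N gb p hN hp1
      have : (N : ℝ) * (1 / (p : ℝ) * w p ^ 2) = w p * ∑ n ∈ range N, X p (n + 1) * gb (n + 1) := by
        calc (N : ℝ) * (1 / (p : ℝ) * w p ^ 2) = w p * (N * (1 / (p : ℝ)) * w p) := by ring
          _ = w p * (N * (1 / (p : ℝ)) * ((p : ℝ) / N * ∑ n ∈ range N, X p (n + 1) * gb (n + 1))) := by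
              rw [← hc]
          _ = _ := by field_simp
      rw [this, Finset.mul_sum]
      exact Finset.sum_congr rfl fun n _ => by ring
    rw [hS, Finset.mul_sum, Finset.sum_congr rfl e, Finset.sum_comm]
    refine Finset.sum_congr rfl fun n _ => ?_
    rw [hT]
    simp only
    rw [Finset.mul_sum]
  have hNHS : N * H * S = ∑ h ∈ range H, ∑ n ∈ range N, g (n + 1 + h) * T (n + 1) := by
    have : N * H * S = H * (N * S) := by ring
    rw [this, hNS, Finset.mul_sum, Finset.sum_comm]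
    refine Finset.sum_congr rfl fun n _ => ?_
    rw [hgb]
    simp only
    rw [← Finset.sum_mul]
    field_simp
  -- shifting
  set Z : ℕ → ℝ := fun m => ∑ p ∈ Pr P, w p * Y H p m with hZ
  have hZT : ∀ m, Z m = ∑ h ∈ range H, T (m + 1 + (H - 1 - h)) := by
    intro m
    rw [Finset.sum_range_reflect (fun j => T (m + 1 + j)) H]
    rw [hZ, hT]
    simp only [Y, Finset.mul_sum]
    rw [Finset.sum_comm]
  have hshift : |N * H * S - ∑ n ∈ range N, g (n + H) * Z n| ≤ 2 * (B * M) * (H : ℝ) ^ 2 := by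
    have e : ∑ n ∈ range N, g (n + H) * Z n =
        ∑ h ∈ range H, ∑ n ∈ range N, g (n + 1 + (H - 1 - h) + h) * T (n + 1 + (H - 1 - h)) := by
      rw [Finset.sum_comm]
      refine Finset.sum_congr rfl fun n _ => ?_
      rw [hZT, Finset.mul_sum]
      refine Finset.sum_congr rfl fun h hh => ?_
      have hh' := Finset.mem_range.1 hh
      have : n + 1 + (H - 1 - h) + h = n + H := by omega
      rw [this]
    rw [hNHS, e, ← Finset.sum_sub_distrib]
    calc |∑ h ∈ range H, (∑ n ∈ range N, g (n + 1 + h) * T (n + 1) -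
          ∑ n ∈ range N, g (n + 1 + (H - 1 - h) + h) * T (n + 1 + (H - 1 - h)))|
        ≤ ∑ h ∈ range H, |∑ n ∈ range N, g (n + 1 + h) * T (n + 1) -
          ∑ n ∈ range N, g (n + 1 + (H - 1 - h) + h) * T (n + 1 + (H - 1 - h))| :=
          Finset.abs_sum_le_sum_abs _ _
      _ ≤ ∑ h ∈ range H, 2 * (B * M) * (H : ℝ) := by
          refine Finset.sum_le_sum fun h hh => ?_
          have := shift (fun k => g (k + h) * T k) (B * M) (fun n => by
            rw [abs_mul]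
            exact mul_le_mul (hg _) (hTM _) (abs_nonneg _) hB) N (H - 1 - h)
          rw [abs_sub_comm] at this
          refine this.trans ?_
          have hle : ((H - 1 - h : ℕ) : ℝ) ≤ H := by
            exact_mod_cast (by omega : H - 1 - h ≤ H)
          exact mul_le_mul_of_nonneg_left hle (by positivity)
      _ = 2 * (B * M) * (H : ℝ) ^ 2 := by simp; ring
  have hZ2 : ∑ m ∈ range N, Z m ^ 2 ≤ 6 * N * H * S := big H P N hH h1 w
  have hCS2 : (∑ n ∈ range N, g (n + H) * Z n) ^ 2 ≤ (N * B ^ 2) * (6 * N * H * S) := by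
    have a1 := Finset.sum_mul_sq_le_sq_mul_sq (range N) (fun n => g (n + H)) Z
    have a2 : ∑ n ∈ range N, g (n + H) ^ 2 ≤ N * B ^ 2 := by
      calc ∑ n ∈ range N, g (n + H) ^ 2 ≤ ∑ n ∈ range N, B ^ 2 := by
            refine Finset.sum_le_sum fun n _ => ?_
            rw [← sq_abs (g (n + H))]
            exact pow_le_pow_left₀ (abs_nonneg _) (hg _) 2
        _ = N * B ^ 2 := by simp
    refine a1.trans (mul_le_mul a2 hZ2 (Finset.sum_nonneg fun _ _ => sq_nonneg _) (by positivity))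
  have hfin : (N * H * S) ^ 2 ≤ 12 * N ^ 2 * B ^ 2 * H * S + 8 * B ^ 2 * N ^ 2 * S := by
    have b1 : (N * H * S) ^ 2 ≤ 2 * (∑ n ∈ range N, g (n + H) * Z n) ^ 2 +
        2 * (2 * (B * M) * (H : ℝ) ^ 2) ^ 2 := by
      set A := N * H * S
      set A' := ∑ n ∈ range N, g (n + H) * Z n
      have := sq_le_sq' (abs_le.1 hshift).1 (abs_le.1 hshift).2
      nlinarith [sq_nonneg (A - 2 * A')]
    have b2 : (2 * (B * M) * (H : ℝ) ^ 2) ^ 2 ≤ 4 * B ^ 2 * N ^ 2 * S := by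
      have c1 : (2 * (B * M) * (H : ℝ) ^ 2) ^ 2 = 4 * B ^ 2 * (H : ℝ) ^ 4 * M ^ 2 := by ring
      have c2 : 4 * B ^ 2 * (H : ℝ) ^ 4 * M ^ 2 ≤ 4 * B ^ 2 * (H : ℝ) ^ 4 * (S * (P : ℝ) ^ 2) :=
        mul_le_mul_of_nonneg_left hCS (by positivity)
      have c3 : (H : ℝ) ^ 4 * (P : ℝ) ^ 2 ≤ N ^ 2 := by
        calc (H : ℝ) ^ 4 * (P : ℝ) ^ 2 = (H : ℝ) ^ 3 * ((P : ℝ) ^ 2 * H) := by ring
          _ ≤ (N : ℝ) * N := mul_le_mul h2' h1' (by positivity) hN0.le
          _ = (N : ℝ) ^ 2 := by ring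
      rw [c1]
      refine c2.trans ?_
      calc 4 * B ^ 2 * (H : ℝ) ^ 4 * (S * (P : ℝ) ^ 2) = 4 * B ^ 2 * S * ((H : ℝ) ^ 4 * (P : ℝ) ^ 2) := by ring
        _ ≤ 4 * B ^ 2 * S * N ^ 2 := mul_le_mul_of_nonneg_left c3 (by positivity)
        _ = 4 * B ^ 2 * N ^ 2 * S := by ring
    nlinarith [b1, b2, hCS2]
  have hfin2 : (N * H * S) ^ 2 ≤ 20 * N ^ 2 * B ^ 2 * H * S := by
    have : 8 * B ^ 2 * N ^ 2 * S * 1 ≤ 8 * B ^ 2 * N ^ 2 * S * H :=
      mul_le_mul_of_nonneg_left hH1 (by positivity)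
    nlinarith [hfin, this]
  rcases hS0.eq_or_lt with h0 | h0
  · rw [← h0, zero_mul]; positivity
  · have hpos : 0 < (N : ℝ) ^ 2 * H * S := by positivity
    have : (N : ℝ) ^ 2 * H * S * (S * H) ≤ (N : ℝ) ^ 2 * H * S * (20 * B ^ 2) := by
      nlinarith [hfin2]
    exact le_of_mul_le_mul_left this hpos

lemma main_a (N H : ℕ) (g : ℕ → ℝ) (B τ : ℝ) (hH : 1 ≤ H) (h2 : H ^ 3 ≤ N)
    (hB : 0 ≤ B) (hg : ∀ n, |g n| ≤ B) (hτ : Ex N (fun n => |g (n + 1) - g n|) ≤ τ) :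
    Ex N (fun n => (g n - (∑ h ∈ range H, g (n + h)) / H) ^ 2) ≤
      2 * B * H * τ + 8 * B ^ 2 / H := by
  have hN : 1 ≤ N := le_trans (Nat.one_le_pow _ _ hH) h2
  have hN0 : (0 : ℝ) < N := by exact_mod_cast hN
  have hH0 : (0 : ℝ) < H := by exact_mod_cast hH
  have h2' : (H : ℝ) ^ 3 ≤ N := by exact_mod_cast h2
  rw [Ex_eq, div_le_iff₀ hN0] at hτ
  have hτ0 : 0 ≤ τ * N := le_trans (Finset.sum_nonneg fun _ _ => abs_nonneg _) hτ
  have hD : ∀ n, |(|g (n + 1) - g n|)| ≤ 2 * B := by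
    intro n
    rw [abs_abs]
    have a := abs_le.1 (hg n)
    have b := abs_le.1 (hg (n + 1))
    rw [abs_le]; constructor <;> linarith [a.1, a.2, b.1, b.2]
  have step : ∀ h : ℕ, ∑ n ∈ range N, |g (n + 1 + h) - g (n + 1)| ≤ h * (τ * N) + 4 * B * h ^ 2 := by
    intro h
    induction h with
    | zero => simp
    | succ h ih =>
      have a := (abs_le.1 (shift (fun n => |g (n + 1) - g n|) (2 * B) hD N h)).2
      have b : ∑ n ∈ range N, |g (n + 1 + (h + 1)) - g (n + 1)| ≤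
          ∑ n ∈ range N, |g (n + 1 + h + 1) - g (n + 1 + h)| +
            ∑ n ∈ range N, |g (n + 1 + h) - g (n + 1)| := by
        rw [← Finset.sum_add_distrib]
        refine Finset.sum_le_sum fun n _ => ?_
        exact abs_sub_le _ _ _
      push_cast
      have hh : (0 : ℝ) ≤ h := Nat.cast_nonneg _
      nlinarith [mul_nonneg hB hh]
  have e1 : ∑ n ∈ range N, |g (n + 1) - (∑ h ∈ range H, g (n + 1 + h)) / H| ≤
      H * (τ * N) + 4 * B * H ^ 2 := by
    have : ∀ n, |g (n + 1) - (∑ h ∈ range H, g (n + 1 + h)) / H| ≤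
        (∑ h ∈ range H, |g (n + 1 + h) - g (n + 1)|) / H := by
      intro n
      have e : g (n + 1) - (∑ h ∈ range H, g (n + 1 + h)) / H =
          -(∑ h ∈ range H, (g (n + 1 + h) - g (n + 1))) / H := by
        rw [Finset.sum_sub_distrib]
        simp
        field_simp
      rw [e, abs_div, abs_neg, abs_of_pos hH0]
      exact div_le_div_of_nonneg_right (Finset.abs_sum_le_sum_abs _ _) hH0.le
    calc ∑ n ∈ range N, |g (n + 1) - (∑ h ∈ range H, g (n + 1 + h)) / H|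
        ≤ ∑ n ∈ range N, (∑ h ∈ range H, |g (n + 1 + h) - g (n + 1)|) / H :=
          Finset.sum_le_sum fun n _ => this n
      _ = (∑ h ∈ range H, ∑ n ∈ range N, |g (n + 1 + h) - g (n + 1)|) / H := by
          rw [← Finset.sum_div, Finset.sum_comm]
      _ ≤ (∑ h ∈ range H, (H * (τ * N) + 4 * B * (H : ℝ) ^ 2)) / H := by
          refine div_le_div_of_nonneg_right (Finset.sum_le_sum fun h hh => ?_) hH0.le
          refine (step h).trans ?_
          have hle : (h : ℝ) ≤ H := by exact_mod_cast (Finset.mem_range.1 hh).le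
          have hh0 : (0 : ℝ) ≤ h := Nat.cast_nonneg _
          have : (h : ℝ) ^ 2 ≤ (H : ℝ) ^ 2 := pow_le_pow_left₀ hh0 hle 2
          nlinarith [mul_le_mul_of_nonneg_right hle hτ0, mul_le_mul_of_nonneg_left this hB]
      _ = H * (τ * N) + 4 * B * (H : ℝ) ^ 2 := by
          simp; field_simp
  have e2 : ∑ n ∈ range N, (g (n + 1) - (∑ h ∈ range H, g (n + 1 + h)) / H) ^ 2 ≤
      2 * B * (H * (τ * N) + 4 * B * H ^ 2) := by
    refine le_trans (Finset.sum_le_sum fun n _ => ?_) (le_trans (le_of_eq (Finset.mul_sum (range N)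
      (fun n => |g (n + 1) - (∑ h ∈ range H, g (n + 1 + h)) / H|) (2 * B)).symm)
      (mul_le_mul_of_nonneg_left e1 (by positivity)))
    have hb : |(∑ h ∈ range H, g (n + 1 + h)) / H| ≤ B := by
      rw [abs_div, abs_of_pos hH0, div_le_iff₀ hH0]
      calc |∑ h ∈ range H, g (n + 1 + h)| ≤ ∑ h ∈ range H, |g (n + 1 + h)| :=
            Finset.abs_sum_le_sum_abs _ _
        _ ≤ ∑ h ∈ range H, B := Finset.sum_le_sum fun _ _ => hg _
        _ = B * H := by simp; ring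
    have h3 : |g (n + 1) - (∑ h ∈ range H, g (n + 1 + h)) / H| ≤ 2 * B := by
      have a := abs_le.1 (hg (n + 1))
      have b := abs_le.1 hb
      rw [abs_le]; constructor <;> linarith [a.1, a.2, b.1, b.2]
    rw [← sq_abs, sq]
    exact mul_le_mul_of_nonneg_right h3 (abs_nonneg _)
  rw [Ex_eq, div_le_iff₀ hN0]
  refine e2.trans ?_
  have key : (H : ℝ) ^ 2 ≤ N / H := by
    rw [le_div_iff₀ hH0]
    calc (H : ℝ) ^ 2 * H = (H : ℝ) ^ 3 := by ring
      _ ≤ (N : ℝ) := h2'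
  have e3 : (2 * B * H * τ + 8 * B ^ 2 / H) * N = 2 * B * (H * (τ * N)) + 8 * B ^ 2 * (N / H) := by
    ring
  rw [e3]
  nlinarith [mul_le_mul_of_nonneg_left key (sq_nonneg B)]

end STAR_

open STAR_ in
theorem t_STAR (hD : S_DUAL) : S_STAR := by
  refine ⟨72, by norm_num, ?_⟩
  intro N P H g B τ hH h1 h2 hB hg hτ
  have hN : 1 ≤ N := le_trans (Nat.one_le_pow _ _ hH) h2
  have hN0 : (0 : ℝ) < N := by exact_mod_cast hN
  have hH0 : (0 : ℝ) < H := by exact_mod_cast hH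
  have hP : P ^ 2 ≤ N := le_trans (Nat.le_mul_of_pos_right _ hH) h1
  set gb : ℕ → ℝ := fun n => (∑ h ∈ range H, g (n + h)) / H with hgb
  have hb : (∑ p ∈ Pr P, 1 / (p : ℝ) * (cp N gb p) ^ 2) * H ≤ 20 * B ^ 2 :=
    main_b N P H g B hH h1 h2 hB hg
  have ha := main_a N H g B τ hH h2 hB hg hτ
  have hd := hD N P (fun n => g n - gb n) hN hP
  have hτ0 : 0 ≤ τ := by
    refine le_trans ?_ hτ
    rw [Ex_eq]
    exact div_nonneg (Finset.sum_nonneg fun _ _ => abs_nonneg _) hN0.le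
  have hcp : ∀ p ∈ Pr P, cp N g p = cp N (fun n => g n - gb n) p + cp N gb p := by
    intro p hp
    have hp1 := (Finset.mem_filter.1 hp).2.one_le
    rw [cp_eq N g p hN hp1, cp_eq N _ p hN hp1, cp_eq N gb p hN hp1, ← mul_add,
      ← Finset.sum_add_distrib]
    congr 1
    exact Finset.sum_congr rfl fun n _ => by ring
  have hsum : ∑ p ∈ Pr P, 1 / (p : ℝ) * (cp N g p) ^ 2 ≤
      2 * ∑ p ∈ Pr P, 1 / (p : ℝ) * (cp N (fun n => g n - gb n) p) ^ 2 +
      2 * ∑ p ∈ Pr P, 1 / (p : ℝ) * (cp N gb p) ^ 2 := by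
    rw [Finset.mul_sum, Finset.mul_sum, ← Finset.sum_add_distrib]
    refine Finset.sum_le_sum fun p hp => ?_
    rw [hcp p hp]
    have hp0 : (0 : ℝ) ≤ 1 / (p : ℝ) := by positivity
    set x := cp N (fun n => g n - gb n) p
    set y := cp N gb p
    have : (x + y) ^ 2 ≤ 2 * x ^ 2 + 2 * y ^ 2 := by nlinarith [sq_nonneg (x - y)]
    have := mul_le_mul_of_nonneg_left this hp0
    linarith
  have hb' : ∑ p ∈ Pr P, 1 / (p : ℝ) * (cp N gb p) ^ 2 ≤ 20 * B ^ 2 / H :=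
    (le_div_iff₀ hH0).2 hb
  have e : 72 * (B ^ 2 / H + B * H * τ) = 72 * (B ^ 2 / H) + 72 * (B * H * τ) := by ring
  have e2 : 20 * B ^ 2 / H = 20 * (B ^ 2 / H) := by ring
  have e3 : 8 * B ^ 2 / H = 8 * (B ^ 2 / H) := by ring
  have p1 : 0 ≤ B ^ 2 / H := by positivity
  have p2 : 0 ≤ B * H * τ := by positivity
  rw [e]
  rw [e2] at hb'
  rw [e3] at ha
  have ha' : Ex N (fun n => (g n - gb n) ^ 2) ≤ 2 * B * H * τ + 8 * (B ^ 2 / H) := ha
  nlinarith [hsum, hb', ha', hd]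

end Pool.Agent.N826.EM
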