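import Mathlib
import Pool.Agent.N826.EM.Stm
import Pool.Agent.Helper923.HMertens

/-!
Project EM (helper826), task STEP1 (helper693): primes with large values are rare.
-/

set_option autoImplicit false

namespace Pool.Agent.N826.EM

namespace STEP1_

open Finset

/-- a plateau function -/
noncomputable def psi (x : ℝ) : ℝ := max 0 (min 1 (2 - 4 * |x|))

lemma psi_nonneg (x : ℝ) : 0 ≤ psi x := le_max_left _ _

lemma psi_le_one (x : ℝ) : psi x ≤ 1 := max_le zero_le_one (min_le_left _ _)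

lemma psi_one {x : ℝ} (h : |x| ≤ 1 / 4) : psi x = 1 := by
  unfold psi
  rw [min_eq_left (by linarith), max_eq_right zero_le_one]

lemma psi_zero {x : ℝ} (h : 1 / 2 ≤ |x|) : psi x = 0 := by
  unfold psi
  exact max_eq_left ((min_le_right _ _).trans (by linarith))

lemma psi_lip (x y : ℝ) : |psi x - psi y| ≤ 4 * |x - y| := by
  unfold psi
  have h1 := abs_max_sub_max_le_max (0 : ℝ) (min 1 (2 - 4 * |x|)) 0 (min 1 (2 - 4 * |y|))
  have h2 := abs_min_sub_min_le_max (1 : ℝ) (2 - 4 * |x|) 1 (2 - 4 * |y|)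
  have h3 : |2 - 4 * |x| - (2 - 4 * |y|)| ≤ 4 * |x - y| := by
    have h4 := abs_abs_sub_abs_le_abs_sub x y
    have h5 : 2 - 4 * |x| - (2 - 4 * |y|) = -(4 * (|x| - |y|)) := by ring
    rw [h5, abs_neg, abs_mul, abs_of_pos (by norm_num : (0 : ℝ) < 4)]
    linarith
  have h6 : (0 : ℝ) ≤ 4 * |x - y| := by positivity
  rw [sub_self, abs_zero] at h1 h2
  exact h1.trans (max_le h6 (h2.trans (max_le h6 h3)))

lemma cl_of_abs_le {x : ℝ} (h : |x| ≤ 1) : cl 1 x = x := by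
  rw [abs_le] at h
  unfold cl
  rw [min_eq_right h.2, max_eq_right h.1]

lemma abs_cl_ge {x c : ℝ} (hc : c ≤ 1) (h : c ≤ |x|) : c ≤ |cl 1 x| := by
  unfold cl
  rcases le_total 0 x with h0 | h0
  · rw [abs_of_nonneg h0] at h
    refine le_trans ?_ (le_abs_self _)
    exact (le_min hc h).trans (le_max_right _ _)
  · rw [abs_of_nonpos h0] at h
    refine le_trans ?_ (neg_le_abs _)
    rw [le_neg]
    exact max_le (by linarith) ((min_le_right _ _).trans (by linarith))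

/-- Chebyshev -/
lemma cheb (x : ℕ) (u : ℕ → ℝ) (δ V : ℝ) (hδ : 0 < δ) (hx : 1 ≤ x)
    (h : Ex x (fun n => (u n) ^ 2) ≤ V) :
    (((Icc 1 x).filter (fun n => δ < |u n|)).card : ℝ) ≤ x * (V / δ ^ 2) := by
  have hx0 : (0 : ℝ) < x := by exact_mod_cast hx
  have h1 : ∑ n ∈ Icc 1 x, (u n) ^ 2 ≤ V * x := by
    unfold Ex at h
    rwa [div_le_iff₀ hx0] at h
  have h2 : (((Icc 1 x).filter (fun n => δ < |u n|)).card : ℝ) * δ ^ 2 ≤
      ∑ n ∈ Icc 1 x, (u n) ^ 2 := by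
    calc (((Icc 1 x).filter (fun n => δ < |u n|)).card : ℝ) * δ ^ 2
        = ∑ n ∈ (Icc 1 x).filter (fun n => δ < |u n|), δ ^ 2 := by
          rw [sum_const, nsmul_eq_mul]
      _ ≤ ∑ n ∈ (Icc 1 x).filter (fun n => δ < |u n|), (u n) ^ 2 := by
          refine sum_le_sum fun n hn => ?_
          rw [mem_filter] at hn
          rw [← sq_abs (u n)]
          exact pow_le_pow_left₀ hδ.le hn.2.le 2
      _ ≤ ∑ n ∈ Icc 1 x, (u n) ^ 2 :=
          sum_le_sum_of_subset_of_nonneg (filter_subset _ _) fun _ _ _ => sq_nonneg _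
  have h3 : (0 : ℝ) < δ ^ 2 := by positivity
  rw [← mul_div_assoc, le_div_iff₀ h3]
  linarith

lemma Pr_mono {x N : ℕ} (h : x ≤ N) : Pr x ⊆ Pr N :=
  filter_subset_filter _ (Icc_subset_Icc_right h)

lemma DD_nonneg (G : ℕ → ℝ) (N : ℕ) : 0 ≤ DD G N :=
  sum_nonneg fun p _ => div_nonneg (le_min zero_le_one (sq_nonneg _)) (Nat.cast_nonneg _)

lemma DD_mono (G : ℕ → ℝ) {x N : ℕ} (h : x ≤ N) : DD G x ≤ DD G N :=
  sum_le_sum_of_subset_of_nonneg (Pr_mono h) fun p _ _ =>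
    div_nonneg (le_min zero_le_one (sq_nonneg _)) (Nat.cast_nonneg _)

lemma bad_le_DD (G : ℕ → ℝ) (N : ℕ) : bad G N ≤ DD G N := by
  unfold bad DD
  refine le_trans ?_ (sum_le_sum_of_subset_of_nonneg (filter_subset (fun p => 1 < |G p|) (Pr N))
    fun p _ _ => div_nonneg (le_min zero_le_one (sq_nonneg _)) (Nat.cast_nonneg _))
  refine sum_le_sum fun p hp => ?_
  rw [mem_filter] at hp
  have h1 : (1 : ℝ) ≤ (G p) ^ 2 := by
    rw [← sq_abs]; nlinarith [hp.2]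
  rw [min_eq_left h1]

lemma wt_sq_le (G : ℕ → ℝ) (p : ℕ) : (wt G p) ^ 2 ≤ min 1 ((G p) ^ 2) := by
  unfold wt
  split_ifs with h
  · refine le_min ?_ le_rfl
    rw [← sq_abs]; nlinarith [h, abs_nonneg (G p)]
  · rw [zero_pow (by norm_num)]
    exact le_min zero_le_one (sq_nonneg _)

lemma sum_wt_le (G : ℕ → ℝ) (N : ℕ) : ∑ p ∈ Pr N, (wt G p) ^ 2 / p ≤ DD G N :=
  sum_le_sum fun p _ => div_le_div_of_nonneg_right (wt_sq_le G p) (Nat.cast_nonneg _)

lemma Pr_eq_union {x N : ℕ} (h : x ≤ N) :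
    Pr N = Pr x ∪ (Ioc x N).filter Nat.Prime := by
  ext p
  simp only [Pr, mem_union, mem_filter, mem_Icc, mem_Ioc]
  constructor
  · rintro ⟨⟨h1, h2⟩, h3⟩
    rcases le_or_gt p x with h4 | h4
    · exact Or.inl ⟨⟨h1, h4⟩, h3⟩
    · exact Or.inr ⟨⟨h4, h2⟩, h3⟩
  · rintro (⟨⟨h1, h2⟩, h3⟩ | ⟨⟨h1, h2⟩, h3⟩)
    · exact ⟨⟨h1, h2.trans h⟩, h3⟩
    · exact ⟨⟨by omega, h2⟩, h3⟩

lemma Pr_disj (x N : ℕ) : Disjoint (Pr x) ((Ioc x N).filter Nat.Prime) := by
  rw [disjoint_left]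
  intro p hp hq
  simp only [Pr, mem_filter, mem_Icc, mem_Ioc] at hp hq
  omega

lemma mu_sub (a : ℕ → ℝ) {x N : ℕ} (h : x ≤ N) :
    mu a N - mu a x = ∑ p ∈ (Ioc x N).filter Nat.Prime, a p / p := by
  unfold mu
  rw [Pr_eq_union h, sum_union (Pr_disj x N)]
  ring

/-- the means at two scales -/
lemma mu_close {CM : ℝ} (hCM0 : 0 ≤ CM) (hCM : ∀ a b : ℕ, 2 ≤ a → a ≤ b →
    |∑ p ∈ (Finset.Ioc a b).filter Nat.Prime, (1 : ℝ) / p
      - Real.log (Real.log b / Real.log a)| ≤ CM / Real.log a)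
    (G : ℕ → ℝ) (x N : ℕ) (hx : 2 ≤ x) (hxN : x ≤ N) (hN : N ≤ x ^ 4) (ε : ℝ)
    (hD : DD G N ≤ ε) (hε : ε * (2 + CM / Real.log 2) ≤ (1 / 16) ^ 2) :
    |mu (wt G) x - mu (wt G) N| ≤ 1 / 16 := by
  have hl2 : 0 < Real.log 2 := Real.log_pos (by norm_num)
  have hx' : (2 : ℝ) ≤ x := by exact_mod_cast hx
  have hlx : Real.log 2 ≤ Real.log x := Real.log_le_log (by norm_num) hx'
  have hlx0 : 0 < Real.log x := hl2.trans_le hlx
  have hN0 : (0 : ℝ) < N := by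
    have : 0 < N := by omega
    exact_mod_cast this
  have hlN : Real.log N ≤ 4 * Real.log x := by
    have h1 : Real.log N ≤ Real.log ((x : ℝ) ^ 4) := by
      apply Real.log_le_log hN0
      exact_mod_cast hN
    rwa [Real.log_pow, Nat.cast_ofNat] at h1
  have hR : ∑ p ∈ (Finset.Ioc x N).filter Nat.Prime, (1 : ℝ) / p ≤ 2 + CM / Real.log 2 := by
    have h1 := (abs_le.1 (hCM x N hx hxN)).2
    have h2 : Real.log (Real.log N / Real.log x) ≤ 2 := by
      have h3 : Real.log N / Real.log x ≤ 4 := by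
        rw [div_le_iff₀ hlx0]; exact hlN
      have h4 : 0 < Real.log N / Real.log x := by
        apply div_pos _ hlx0
        apply Real.log_pos
        have : (x : ℝ) ≤ N := by exact_mod_cast hxN
        linarith
      calc Real.log (Real.log N / Real.log x) ≤ Real.log 4 := Real.log_le_log h4 h3
        _ = 2 * Real.log 2 := by
            rw [show (4 : ℝ) = 2 ^ 2 by norm_num, Real.log_pow]; norm_num
        _ ≤ 2 := by
            have := Real.log_two_lt_d9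
            linarith
    have h5 : CM / Real.log x ≤ CM / Real.log 2 := div_le_div_of_nonneg_left hCM0 hl2 hlx
    linarith
  set R := (Finset.Ioc x N).filter Nat.Prime with hRdef
  have hS : ∑ p ∈ R, (wt G p) ^ 2 / p ≤ ε := by
    refine le_trans ?_ ((sum_wt_le G N).trans hD)
    refine sum_le_sum_of_subset_of_nonneg ?_ fun p _ _ => by positivity
    rw [Pr_eq_union hxN]
    exact subset_union_right
  have hcs : (∑ p ∈ R, wt G p / p) ^ 2 ≤ (∑ p ∈ R, (wt G p) ^ 2 / p) * ∑ p ∈ R, (1 : ℝ) / p := by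
    have h1 := sum_mul_sq_le_sq_mul_sq R (fun p => wt G p / Real.sqrt p) (fun p => 1 / Real.sqrt p)
    have h2 : ∀ p ∈ R, (Real.sqrt (p : ℝ)) * Real.sqrt p = p := fun p _ =>
      Real.mul_self_sqrt (Nat.cast_nonneg _)
    have h3 : ∑ p ∈ R, wt G p / Real.sqrt p * (1 / Real.sqrt p) = ∑ p ∈ R, wt G p / p := by
      refine sum_congr rfl fun p hp => ?_
      rw [div_mul_div_comm, mul_one, h2 p hp]
    have h4 : ∑ p ∈ R, (wt G p / Real.sqrt p) ^ 2 = ∑ p ∈ R, (wt G p) ^ 2 / p := by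
      refine sum_congr rfl fun p hp => ?_
      rw [div_pow, sq (Real.sqrt _), h2 p hp]
    have h5 : ∑ p ∈ R, (1 / Real.sqrt (p : ℝ)) ^ 2 = ∑ p ∈ R, (1 : ℝ) / p := by
      refine sum_congr rfl fun p hp => ?_
      rw [div_pow, sq (Real.sqrt _), h2 p hp, one_pow]
    rw [h3, h4, h5] at h1
    exact h1
  have hR0 : 0 ≤ ∑ p ∈ R, (1 : ℝ) / p := sum_nonneg fun p _ => by positivity
  have hε0 : 0 ≤ ε := (DD_nonneg G N).trans hD
  have hfin : (∑ p ∈ R, wt G p / p) ^ 2 ≤ (1 / 16) ^ 2 :=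
    hcs.trans ((mul_le_mul hS hR hR0 hε0).trans hε)
  rw [abs_sub_comm, mu_sub _ hxN]
  exact abs_le_of_sq_le_sq hfin (by norm_num)

/-- concentration at the scale `x` around the mean at the scale `N` -/
lemma conc {C2 CA CM : ℝ} (hC2 : 0 < C2)
    (h2 : ∀ (N : ℕ) (a : ℕ → ℝ), 1 ≤ N →
      Ex N (fun n => (sa a n - mu a N) ^ 2) ≤ C2 * ∑ p ∈ Pr N, (a p) ^ 2 / p)
    (hA : ∀ (G : ℕ → ℝ) (N K : ℕ) (τ : ℝ), Addf G → 1 ≤ N → 1 ≤ K → Sm G K τ →
      (((Icc 1 N).filter (fun n => 2 * K * τ < |G n - sa (wt G) n|)).card : ℝ) ≤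
        N * (bad G N + CA / Real.sqrt K))
    (hCM0 : 0 ≤ CM) (hCM : ∀ a b : ℕ, 2 ≤ a → a ≤ b →
    |∑ p ∈ (Finset.Ioc a b).filter Nat.Prime, (1 : ℝ) / p
      - Real.log (Real.log b / Real.log a)| ≤ CM / Real.log a)
    (G : ℕ → ℝ) (hG : Addf G) (x N K : ℕ) (τ ε : ℝ) (hx : 2 ≤ x) (hxN : x ≤ N) (hN : N ≤ x ^ 4)
    (hK : 1 ≤ K) (hSm : Sm G K τ) (hKτ : 2 * K * τ ≤ 1 / 16) (hCK : CA / Real.sqrt K ≤ 1 / 100)
    (hD : DD G N ≤ ε) (hε1 : ε ≤ 1 / 100) (hε2 : C2 * ε * 256 ≤ 1 / 100)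
    (hε : ε * (2 + CM / Real.log 2) ≤ (1 / 16) ^ 2) :
    (((Icc 1 x).filter (fun m => 1 / 4 < |G m - mu (wt G) N|)).card : ℝ) ≤ x / 20 := by
  have hx0 : (0 : ℝ) < x := by
    have : 0 < x := by omega
    exact_mod_cast this
  have hx1 : 1 ≤ x := by omega
  have hDx : DD G x ≤ ε := (DD_mono G hxN).trans hD
  -- the two exceptional sets
  have e1 := hA G x K τ hG hx1 hK hSm
  have e2 := cheb x (fun n => sa (wt G) n - mu (wt G) x) (1 / 16)
    (C2 * ∑ p ∈ Pr x, (wt G p) ^ 2 / p) (by norm_num) hx1 (h2 x (wt G) hx1)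
  have e3 := mu_close hCM0 hCM G x N hx hxN hN ε hD hε
  have hsub : (Icc 1 x).filter (fun m => 1 / 4 < |G m - mu (wt G) N|) ⊆
      (Icc 1 x).filter (fun n => 2 * K * τ < |G n - sa (wt G) n|) ∪
      (Icc 1 x).filter (fun n => 1 / 16 < |sa (wt G) n - mu (wt G) x|) := by
    intro m hm
    rw [mem_filter] at hm
    rw [mem_union, mem_filter, mem_filter]
    by_contra hcon
    push Not at hcon
    obtain ⟨c1, c2⟩ := hcon
    have d1 := c1 hm.1
    have d2 := c2 hm.1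
    have d3 : |G m - mu (wt G) N| ≤ |G m - sa (wt G) m| + |sa (wt G) m - mu (wt G) x| +
        |mu (wt G) x - mu (wt G) N| := by
      have t1 := abs_add_le (G m - sa (wt G) m + (sa (wt G) m - mu (wt G) x))
        (mu (wt G) x - mu (wt G) N)
      have t2 := abs_add_le (G m - sa (wt G) m) (sa (wt G) m - mu (wt G) x)
      have t3 : G m - mu (wt G) N = G m - sa (wt G) m + (sa (wt G) m - mu (wt G) x) +
        (mu (wt G) x - mu (wt G) N) := by ring
      rw [t3]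
      linarith
    linarith [hm.2]
  have hcard := (card_le_card hsub).trans (card_union_le _ _)
  have hcard' : (((Icc 1 x).filter (fun m => 1 / 4 < |G m - mu (wt G) N|)).card : ℝ) ≤
      (((Icc 1 x).filter (fun n => 2 * K * τ < |G n - sa (wt G) n|)).card : ℝ) +
      (((Icc 1 x).filter (fun n => 1 / 16 < |sa (wt G) n - mu (wt G) x|)).card : ℝ) := by
    exact_mod_cast hcard
  have f1 : bad G x + CA / Real.sqrt K ≤ 2 / 100 := by
    have := bad_le_DD G x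
    linarith
  have f2 : C2 * ∑ p ∈ Pr x, (wt G p) ^ 2 / p ≤ C2 * ε :=
    mul_le_mul_of_nonneg_left ((sum_wt_le G x).trans hDx) hC2.le
  have f3 : (C2 * ∑ p ∈ Pr x, (wt G p) ^ 2 / p) / (1 / 16) ^ 2 ≤ 1 / 100 := by
    rw [div_le_iff₀ (by norm_num)]
    linarith
  have g1 := mul_le_mul_of_nonneg_left f1 hx0.le
  have g2 := mul_le_mul_of_nonneg_left f3 hx0.le
  linarith

/-- the test function -/
noncomputable def gg (G : ℕ → ℝ) (A : ℝ) (n : ℕ) : ℝ := psi (cl 1 (G n - A))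

lemma gg_nonneg (G : ℕ → ℝ) (A : ℝ) (n : ℕ) : 0 ≤ gg G A n := psi_nonneg _

lemma gg_le_one (G : ℕ → ℝ) (A : ℝ) (n : ℕ) : gg G A n ≤ 1 := psi_le_one _

lemma gg_one {G : ℕ → ℝ} {A : ℝ} {n : ℕ} (h : |G n - A| ≤ 1 / 4) : gg G A n = 1 := by
  unfold gg
  rw [cl_of_abs_le (h.trans (by norm_num))]
  exact psi_one h

lemma gg_zero {G : ℕ → ℝ} {A : ℝ} {n : ℕ} (h : 1 / 2 ≤ |G n - A|) : gg G A n = 0 :=
  psi_zero (abs_cl_ge (by norm_num) h)

lemma gg_ni {G : ℕ → ℝ} {N : ℕ} {τ : ℝ} (h : NI G N 1 τ) (A : ℝ) :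
    Ex N (fun n => |gg G A (n + 1) - gg G A n|) ≤ 4 * τ := by
  have h1 := h A
  unfold Ex at h1 ⊢
  have h2 : ∑ n ∈ Icc 1 N, |gg G A (n + 1) - gg G A n| ≤
      4 * ∑ n ∈ Icc 1 N, |cl 1 (G (n + 1) - A) - cl 1 (G n - A)| := by
    rw [mul_sum]
    exact sum_le_sum fun n _ => psi_lip _ _
  calc (∑ n ∈ Icc 1 N, |gg G A (n + 1) - gg G A n|) / (N : ℝ)
      ≤ (4 * ∑ n ∈ Icc 1 N, |cl 1 (G (n + 1) - A) - cl 1 (G n - A)|) / N :=
        div_le_div_of_nonneg_right h2 (Nat.cast_nonneg _)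
    _ = 4 * ((∑ n ∈ Icc 1 N, |cl 1 (G (n + 1) - A) - cl 1 (G n - A)|) / N) := by ring
    _ ≤ 4 * τ := by linarith

lemma ex_ge {G : ℕ → ℝ} {A : ℝ} {N : ℕ} (hN : 1 ≤ N)
    (h : (((Icc 1 N).filter (fun m => 1 / 4 < |G m - A|)).card : ℝ) ≤ (N : ℝ) / 20) :
    19 / 20 ≤ Ex N (gg G A) := by
  have hN0 : (0 : ℝ) < N := by exact_mod_cast hN
  unfold Ex
  rw [le_div_iff₀ hN0]
  have h1 : (((Icc 1 N).filter (fun m => ¬ 1 / 4 < |G m - A|)).card : ℝ) ≤
      ∑ n ∈ Icc 1 N, gg G A n := by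
    calc (((Icc 1 N).filter (fun m => ¬ 1 / 4 < |G m - A|)).card : ℝ)
        = ∑ n ∈ (Icc 1 N).filter (fun m => ¬ 1 / 4 < |G m - A|), gg G A n := by
          rw [card_eq_sum_ones, Nat.cast_sum]
          refine sum_congr rfl fun n hn => ?_
          rw [mem_filter, not_lt] at hn
          rw [gg_one hn.2, Nat.cast_one]
      _ ≤ ∑ n ∈ Icc 1 N, gg G A n :=
          sum_le_sum_of_subset_of_nonneg (filter_subset _ _) fun n _ _ => gg_nonneg G A n
  have h2 := card_filter_add_card_filter_not (s := Icc 1 N) (fun m => 1 / 4 < |G m - A|)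
  rw [Nat.card_Icc, Nat.add_sub_cancel] at h2
  have h3 : (((Icc 1 N).filter (fun m => 1 / 4 < |G m - A|)).card : ℝ) +
      (((Icc 1 N).filter (fun m => ¬ 1 / 4 < |G m - A|)).card : ℝ) = N := by
    exact_mod_cast h2
  linarith

lemma card_dvd (x p : ℕ) (hp : 0 < p) :
    (((Icc 1 x).filter (fun m => p ∣ m)).card : ℝ) ≤ (x : ℝ) / p := by
  have h1 : (Icc 1 x).filter (fun m => p ∣ m) = (Ioc 0 x).filter (fun m => p ∣ m) := by
    ext m
    simp only [mem_filter, mem_Icc, mem_Ioc]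
    constructor
    · rintro ⟨⟨a, b⟩, c⟩; exact ⟨⟨by omega, b⟩, c⟩
    · rintro ⟨⟨a, b⟩, c⟩; exact ⟨⟨by omega, b⟩, c⟩
  rw [h1, Nat.Ioc_filter_dvd_card_eq_div]
  exact Nat.cast_div_le

lemma cp_le {G : ℕ → ℝ} (hG : Addf G) {A : ℝ} {N p : ℕ} (hp : p.Prime) (hN : 1 ≤ N)
    (hbig : 1 < |G p|)
    (h : (((Icc 1 (N / p)).filter (fun m => 1 / 4 < |G m - A|)).card : ℝ) ≤
      ((N / p : ℕ) : ℝ) / 20) :
    (p : ℝ) / N * ∑ m ∈ Icc 1 (N / p), gg G A (p * m) ≤ 1 / 20 + 1 / p := by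
  have hN0 : (0 : ℝ) < N := by exact_mod_cast hN
  have hp0 : (0 : ℝ) < p := by exact_mod_cast hp.pos
  set x := N / p with hx
  have h1 : ∑ m ∈ Icc 1 x, gg G A (p * m) ≤
      (((Icc 1 x).filter (fun m => 1 / 4 < |G m - A|)).card : ℝ) +
      (((Icc 1 x).filter (fun m => p ∣ m)).card : ℝ) := by
    rw [card_filter, card_filter]
    push_cast
    rw [← sum_add_distrib]
    refine sum_le_sum fun m hm => ?_
    rw [mem_Icc] at hm
    have ha : gg G A (p * m) ≤ 1 := gg_le_one _ _ _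
    by_cases hc1 : 1 / 4 < |G m - A|
    · rw [if_pos hc1]
      split_ifs <;> linarith
    · rw [if_neg hc1]
      by_cases hc2 : p ∣ m
      · rw [if_pos hc2]; linarith
      · rw [if_neg hc2]
        have hz : gg G A (p * m) = 0 := by
          apply gg_zero
          have hco : Nat.Coprime p m := (Nat.Prime.coprime_iff_not_dvd hp).2 hc2
          rw [hG p m hp.one_lt.le hm.1 hco]
          rw [not_lt] at hc1
          have t1 : |G p| ≤ |G p + G m - A| + |G m - A| := by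
            have := abs_sub (G p + G m - A) (G m - A)
            have e : G p = G p + G m - A - (G m - A) := by ring
            rw [← e] at this
            exact this
          linarith
        rw [hz]; norm_num
  have h2 := card_dvd x p hp.pos
  have h3 : ∑ m ∈ Icc 1 x, gg G A (p * m) ≤ (x : ℝ) * (1 / 20 + 1 / p) := by
    have e : (x : ℝ) * (1 / 20 + 1 / p) = (x : ℝ) / 20 + (x : ℝ) / p := by ring
    rw [e]; linarith
  have h4 : (p : ℝ) * x ≤ N := by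
    have : p * x ≤ N := Nat.mul_div_le N p
    exact_mod_cast this
  have h5 : (p : ℝ) / N * x ≤ 1 := by
    rw [div_mul_eq_mul_div, div_le_one hN0]
    exact h4
  calc (p : ℝ) / N * ∑ m ∈ Icc 1 x, gg G A (p * m)
      ≤ (p : ℝ) / N * ((x : ℝ) * (1 / 20 + 1 / p)) :=
        mul_le_mul_of_nonneg_left h3 (by positivity)
    _ = ((p : ℝ) / N * x) * (1 / 20 + 1 / p) := by ring
    _ ≤ 1 * (1 / 20 + 1 / p) := mul_le_mul_of_nonneg_right h5 (by positivity)
    _ = 1 / 20 + 1 / p := one_mul _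

end STEP1_

open STEP1_ Finset in
/-- STEP1 from STAR, TK2 and APX -/
theorem t_STEP1 (hS : S_STAR) (h2 : S_TK2) (hA : S_APX) : S_STEP1 := by
  obtain ⟨CS, hCS0, hCS⟩ := hS
  obtain ⟨C2, hC20, hC2⟩ := h2
  obtain ⟨CA, hCA0, hCA⟩ := hA
  obtain ⟨CM, hCM0, hCM⟩ := Pool.Agent.Helper923.HMertens.mertens_ratio
  have hl2 : 0 < Real.log 2 := Real.log_pos (by norm_num)
  have hL : 0 < 2 + CM / Real.log 2 := by positivity
  -- the constant
  obtain ⟨ε, hε0, hε1, hε2, hε3⟩ : ∃ ε : ℝ, 0 < ε ∧ ε ≤ 1 / 100 ∧ C2 * ε * 256 ≤ 1 / 100 ∧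
      ε * (2 + CM / Real.log 2) ≤ (1 / 16) ^ 2 := by
    refine ⟨min (1 / 100) (min (1 / (25600 * C2)) ((1 / 16) ^ 2 / (2 + CM / Real.log 2))),
      by positivity, min_le_left _ _, ?_, ?_⟩
    · have h1 : min (1 / 100 : ℝ) (min (1 / (25600 * C2)) ((1 / 16) ^ 2 / (2 + CM / Real.log 2)))
        ≤ 1 / (25600 * C2) := (min_le_right _ _).trans (min_le_left _ _)
      calc C2 * _ * 256 ≤ C2 * (1 / (25600 * C2)) * 256 := by gcongr
        _ = 1 / 100 := by field_simp; norm_num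
    · have h1 : min (1 / 100 : ℝ) (min (1 / (25600 * C2)) ((1 / 16) ^ 2 / (2 + CM / Real.log 2)))
        ≤ (1 / 16) ^ 2 / (2 + CM / Real.log 2) := (min_le_right _ _).trans (min_le_right _ _)
      rwa [le_div_iff₀ hL] at h1
  refine ⟨ε, hε0, fun κ hκ => ?_⟩
  -- the parameters
  obtain ⟨K, hK1, hK20, hKC⟩ : ∃ K : ℕ, 1 ≤ K ∧ 20 ≤ K ∧ CA / Real.sqrt K ≤ 1 / 100 := by
    obtain ⟨k, hk⟩ := exists_nat_ge ((100 * CA) ^ 2)
    refine ⟨k + 20, by omega, by omega, ?_⟩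
    have h1 : 100 * CA ≤ Real.sqrt ((k + 20 : ℕ) : ℝ) := by
      apply Real.le_sqrt_of_sq_le
      push_cast
      linarith
    have h3 : 0 < Real.sqrt ((k + 20 : ℕ) : ℝ) := by
      apply Real.sqrt_pos.2
      positivity
    rw [div_le_iff₀ h3]
    linarith
  obtain ⟨H, hH1, hHC⟩ : ∃ H : ℕ, 1 ≤ H ∧ CS / H ≤ 32 / 100 * κ := by
    obtain ⟨k, hk⟩ := exists_nat_ge (CS / (32 / 100 * κ))
    refine ⟨k + 1, by omega, ?_⟩
    have h3 : (0 : ℝ) < ((k + 1 : ℕ) : ℝ) := by positivity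
    rw [div_le_iff₀ h3]
    rw [div_le_iff₀ (by positivity)] at hk
    push_cast
    nlinarith
  have hH0 : (0 : ℝ) < H := by exact_mod_cast hH1
  have hK0 : (0 : ℝ) < K := by exact_mod_cast hK1
  obtain ⟨τ, hτ0, hτ1, hτ2, hτ3⟩ : ∃ τ : ℝ, 0 < τ ∧ τ ≤ 1 ∧ 2 * K * τ ≤ 1 / 16 ∧
      CS * (H * (4 * τ)) ≤ 32 / 100 * κ := by
    refine ⟨min 1 (min (1 / (32 * K)) (32 / 100 * κ / (4 * CS * H))), by positivity,
      min_le_left _ _, ?_, ?_⟩
    · have h1 : min (1 : ℝ) (min (1 / (32 * K)) (32 / 100 * κ / (4 * CS * H))) ≤ 1 / (32 * K) :=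
        (min_le_right _ _).trans (min_le_left _ _)
      calc 2 * (K : ℝ) * _ ≤ 2 * K * (1 / (32 * K)) := by gcongr
        _ = 1 / 16 := by field_simp; norm_num
    · have h1 : min (1 : ℝ) (min (1 / (32 * K)) (32 / 100 * κ / (4 * CS * H))) ≤
        32 / 100 * κ / (4 * CS * H) := (min_le_right _ _).trans (min_le_right _ _)
      rw [le_div_iff₀ (by positivity)] at h1
      nlinarith
  refine ⟨K, H, H ^ 3 + 2, τ, hK1, hH1, hτ0, ?_⟩
  intro G N P hG hN hPN hNI hSm hD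
  have hN2 : 2 ≤ N := by omega
  have hN1 : 1 ≤ N := by omega
  have hH3 : H ^ 3 ≤ N := by omega
  set A := mu (wt G) N with hAdef
  -- STAR
  have hstar := hCS N P H (gg G A) 1 (4 * τ) hH1 hPN hH3 zero_le_one
    (fun n => by rw [abs_of_nonneg (gg_nonneg G A n)]; exact gg_le_one G A n) (gg_ni hNI A)
  -- concentration
  have hconc : ∀ x : ℕ, 2 ≤ x → x ≤ N → N ≤ x ^ 4 →
      (((Icc 1 x).filter (fun m => 1 / 4 < |G m - A|)).card : ℝ) ≤ (x : ℝ) / 20 :=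
    fun x hx hxN hx4 => conc hC20 hC2 hCA hCM0 hCM G hG x N K τ ε hx hxN hx4 hK1 hSm hτ2 hKC hD
      hε1 hε2 hε3
  have hEx : 19 / 20 ≤ Ex N (gg G A) := ex_ge hN1 (hconc N hN2 le_rfl (Nat.le_self_pow (by norm_num) N))
  -- the bad primes
  have hcp : ∀ p ∈ (Pr P).filter (fun p => 1 < |G p|), 64 / 100 * ((1 : ℝ) / p) ≤
      1 / (p : ℝ) * (cp N (gg G A) p) ^ 2 := by
    intro p hp
    rw [mem_filter, Pr, mem_filter, mem_Icc] at hp
    obtain ⟨⟨⟨hp1, hpP⟩, hpp⟩, hbig⟩ := hp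
    have hp0 : (0 : ℝ) < p := by exact_mod_cast hpp.pos
    have hpK : K < p := by
      by_contra hcon
      have := hSm p hp1 (not_lt.1 hcon)
      linarith
    have hPP : P * P ≤ N := by
      have h1 : P ^ 2 * 1 ≤ P ^ 2 * H := Nat.mul_le_mul_left _ hH1
      nlinarith
    have hpx : p ≤ N / p := by
      rw [Nat.le_div_iff_mul_le hpp.pos]
      exact (Nat.mul_le_mul hpP hpP).trans hPP
    set x := N / p with hxdef
    have hx2 : 2 ≤ x := hpp.two_le.trans hpx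
    have hxN : x ≤ N := Nat.div_le_self _ _
    have hx4 : N ≤ x ^ 4 := by
      have h1 : N < p * (x + 1) := by
        rw [mul_comm]
        exact Nat.lt_mul_of_div_lt (Nat.lt_succ_self _) hpp.pos
      have h3 : p * (x + 1) ≤ x * (x + 1) := Nat.mul_le_mul_right _ hpx
      have h4 : x * (x + 1) ≤ x ^ 4 := by
        have h5 : x + 1 ≤ x * x := by nlinarith
        calc x * (x + 1) ≤ x * (x * x) := Nat.mul_le_mul_left _ h5
          _ ≤ x * (x * x) * x := Nat.le_mul_of_pos_right _ (by omega)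
          _ = x ^ 4 := by ring
      omega
    have h5 := cp_le (A := A) hG hpp hN1 hbig (hconc x hx2 hxN hx4)
    have h6 : (1 : ℝ) / p ≤ 1 / 20 := by
      apply one_div_le_one_div_of_le (by norm_num)
      have : 20 ≤ p := by omega
      exact_mod_cast this
    have h7 : cp N (gg G A) p ≤ -(17 / 20) := by
      unfold cp
      linarith
    have h8 : 64 / 100 ≤ (cp N (gg G A) p) ^ 2 := by nlinarith
    have h9 : (0 : ℝ) ≤ 1 / p := by positivity
    nlinarith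
  have hsum : 64 / 100 * bad G P ≤ ∑ p ∈ Pr P, 1 / (p : ℝ) * (cp N (gg G A) p) ^ 2 := by
    unfold bad
    rw [mul_sum]
    exact (sum_le_sum hcp).trans (sum_le_sum_of_subset_of_nonneg (filter_subset _ _)
      fun p _ _ => by positivity)
  have hfin : CS * (1 ^ 2 / H + 1 * H * (4 * τ)) ≤ 64 / 100 * κ := by
    have e : CS * (1 ^ 2 / H + 1 * H * (4 * τ)) = CS / H + CS * (H * (4 * τ)) := by ring
    rw [e]
    linarith
  linarith

end Pool.Agent.N826.EM
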