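import Pool.Agent.N826.EM.Stm

/-!
Project EM, part TIGHT (helper946): concentration of an additive function whose truncated variance
stays small.
-/

set_option autoImplicit false

namespace Pool.Agent.N826.EM.TIGHT_

open Finset Pool.Agent.N826.EM

/-- the prime 2 controls the slope -/
theorem slope_bound (F : ℕ → ℝ) (c : ℝ) (Y : ℕ) (hY : 2 ≤ Y) (ε : ℝ) (hε : ε ≤ 1 / 400)
    (h : DD (lg F c) Y ≤ ε) : |c| ≤ (|F 2| + 1) / Real.log 2 := by
  have hl2 : 0 < Real.log 2 := Real.log_pos (by norm_num)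
  have h2 : (2 : ℕ) ∈ Pr Y := by
    simp only [Pr, Finset.mem_filter, Finset.mem_Icc]
    exact ⟨⟨by norm_num, hY⟩, Nat.prime_two⟩
  have h1 : min 1 ((lg F c 2) ^ 2) / ((2 : ℕ) : ℝ) ≤ DD (lg F c) Y := by
    unfold DD
    refine Finset.single_le_sum (f := fun p : ℕ => min 1 ((lg F c p) ^ 2) / (p : ℝ)) ?_ h2
    intro i _
    positivity
  have h3 : min 1 ((lg F c 2) ^ 2) ≤ 1 / 200 := by
    have : min 1 ((lg F c 2) ^ 2) / ((2 : ℕ) : ℝ) ≤ 1 / 400 := by linarith
    push_cast at this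
    linarith
  have h4 : (lg F c 2) ^ 2 ≤ 1 := by
    rcases min_le_iff.mp h3 with h | h
    · norm_num at h
    · linarith
  have h5 : |lg F c 2| ≤ 1 := by
    rw [← sq_abs] at h4
    nlinarith [abs_nonneg (lg F c 2)]
  rw [le_div_iff₀ hl2]
  have h6 : |c| * Real.log 2 = |c * Real.log 2| := by
    rw [abs_mul, abs_of_pos hl2]
  rw [h6]
  have h7 : c * Real.log 2 = F 2 - lg F c 2 := by
    unfold lg
    push_cast
    ring
  rw [h7]
  calc |F 2 - lg F c 2| ≤ |F 2| + |lg F c 2| := abs_sub _ _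
    _ ≤ |F 2| + 1 := by linarith

theorem lg_addf (F : ℕ → ℝ) (c : ℝ) (hF : Addf F) : Addf (lg F c) := by
  intro a b ha hb hab
  unfold lg
  rw [hF a b ha hb hab]
  push_cast
  rw [Real.log_mul (by positivity) (by positivity)]
  ring

theorem bad_le (G : ℕ → ℝ) (N : ℕ) : bad G N ≤ DD G N := by
  unfold bad DD
  calc ∑ p ∈ (Pr N).filter (fun p => 1 < |G p|), (1 : ℝ) / p
      ≤ ∑ p ∈ (Pr N).filter (fun p => 1 < |G p|), min 1 ((G p) ^ 2) / p := by
        refine Finset.sum_le_sum ?_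
        intro p hp
        have hp' := (Finset.mem_filter.mp hp).2
        have : min 1 ((G p) ^ 2) = 1 := by
          refine min_eq_left ?_
          rw [← sq_abs]
          nlinarith
        rw [this]
    _ ≤ ∑ p ∈ Pr N, min 1 ((G p) ^ 2) / p := by
        refine Finset.sum_le_sum_of_subset_of_nonneg (Finset.filter_subset _ _) ?_
        intro p _ _
        positivity

theorem wt_sum_le (G : ℕ → ℝ) (N : ℕ) : ∑ p ∈ Pr N, (wt G p) ^ 2 / p ≤ DD G N := by
  unfold DD
  refine Finset.sum_le_sum ?_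
  intro p _
  refine div_le_div_of_nonneg_right ?_ (by positivity)
  unfold wt
  split_ifs with h
  · refine le_min ?_ le_rfl
    rw [← sq_abs]
    nlinarith [abs_nonneg (G p)]
  · simp only [ne_eq, OfNat.ofNat_ne_zero, not_false_eq_true, zero_pow]
    positivity

/-- Chebyshev -/
theorem cheb (N : ℕ) (u : ℕ → ℝ) (δ : ℝ) (hN : 1 ≤ N) (h : Ex N (fun n => (u n) ^ 2) ≤ δ) :
    (((Icc 1 N).filter (fun n => 1 < |u n|)).card : ℝ) ≤ N * δ := by
  have hN' : (0 : ℝ) < N := by exact_mod_cast hN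
  unfold Ex at h
  rw [div_le_iff₀ hN'] at h
  calc (((Icc 1 N).filter (fun n => 1 < |u n|)).card : ℝ)
      = ∑ n ∈ (Icc 1 N).filter (fun n => 1 < |u n|), (1 : ℝ) := by simp
    _ ≤ ∑ n ∈ (Icc 1 N).filter (fun n => 1 < |u n|), (u n) ^ 2 := by
        refine Finset.sum_le_sum ?_
        intro n hn
        have := (Finset.mem_filter.mp hn).2
        rw [← sq_abs]
        nlinarith
    _ ≤ ∑ n ∈ Icc 1 N, (u n) ^ 2 := by
        refine Finset.sum_le_sum_of_subset_of_nonneg (Finset.filter_subset _ _) ?_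
        intro n _ _
        positivity
    _ ≤ N * δ := by linarith

/-- the small integers -/
theorem small_card (N : ℕ) :
    (((Icc 1 N).filter (fun n : ℕ => (200 : ℝ) * n ≤ N)).card : ℝ) ≤ N / 200 := by
  have h : (Icc 1 N).filter (fun n : ℕ => (200 : ℝ) * n ≤ N) ⊆ Icc 1 (N / 200) := by
    intro n hn
    simp only [Finset.mem_filter, Finset.mem_Icc] at hn ⊢
    refine ⟨hn.1.1, ?_⟩
    rw [Nat.le_div_iff_mul_le (by norm_num)]
    have := hn.2
    have h2 : 200 * n ≤ N := by exact_mod_cast this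
    linarith
  have h1 : (((Icc 1 N).filter (fun n : ℕ => (200 : ℝ) * n ≤ N)).card) ≤ N / 200 := by
    calc _ ≤ (Icc 1 (N / 200)).card := Finset.card_le_card h
      _ = N / 200 := by simp
  calc (((Icc 1 N).filter (fun n : ℕ => (200 : ℝ) * n ≤ N)).card : ℝ) ≤ ((N / 200 : ℕ) : ℝ) := by
        exact_mod_cast h1
    _ ≤ N / 200 := by
        have := @Nat.cast_div_le ℝ _ _ _ N 200
        simpa using this

end Pool.Agent.N826.EM.TIGHT_

namespace Pool.Agent.N826.EM

open Finset Pool.Agent.N826.EM.TIGHT_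

theorem t_TIGHT (h2 : S_TK2) (hA : S_APX) : S_TIGHT := by
  obtain ⟨C2, hC2, h2⟩ := h2
  obtain ⟨CA, hCA, hA⟩ := hA
  refine ⟨min (1 / 400) (1 / (400 * C2)), by positivity, ?_⟩
  intro f V hf hV hY
  have hV0 : 0 < V := by linarith
  set F : ℕ → ℝ := fun n => f n / V with hF
  have hFadd : Addf F := by
    intro a b ha hb hab
    simp only [hF]
    rw [hf a b ha hb hab]
    ring
  set cm : ℝ := (|F 2| + 1) / Real.log 2 with hcm
  have hcm0 : 0 ≤ cm := by
    have : 0 < Real.log 2 := Real.log_pos (by norm_num)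
    positivity
  -- the choice of K
  obtain ⟨K, hK⟩ := exists_nat_ge (max 1 ((400 * CA) ^ 2))
  have hK1 : 1 ≤ K := by
    have : (1 : ℝ) ≤ K := le_trans (le_max_left _ _) hK
    exact_mod_cast this
  have hKs : CA / Real.sqrt K ≤ 1 / 400 := by
    have hK0 : (0 : ℝ) < K := by exact_mod_cast hK1
    have hs : 0 < Real.sqrt K := Real.sqrt_pos.mpr hK0
    rw [div_le_iff₀ hs]
    have : 400 * CA ≤ Real.sqrt K := by
      refine Real.le_sqrt_of_sq_le ?_
      exact le_trans (le_max_right _ _) hK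
    linarith
  set τ : ℝ := ∑ q ∈ Icc 1 K, |F q| + cm * Real.log K with hτ
  have hlogK : 0 ≤ Real.log K := Real.log_natCast_nonneg K
  have hτ0 : 0 ≤ τ := by
    have : 0 ≤ ∑ q ∈ Icc 1 K, |F q| := Finset.sum_nonneg (fun _ _ => abs_nonneg _)
    positivity
  refine ⟨V * (2 * K * τ + 1 + cm * Real.log 200), 2, ?_⟩
  intro N hN
  obtain ⟨c, hc⟩ := hY N
  have hc1 : DD (lg F c) N ≤ 1 / 400 := hc.trans (min_le_left _ _)
  have hc2 : DD (lg F c) N ≤ 1 / (400 * C2) := hc.trans (min_le_right _ _)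
  have hN0 : (0 : ℝ) < N := by
    have : (2 : ℝ) ≤ N := by exact_mod_cast hN
    linarith
  have hcabs : |c| ≤ cm := slope_bound F c N hN (1 / 400) le_rfl hc1
  have hSm : Sm (lg F c) K τ := by
    intro q hq1 hqK
    have e1 : |F q| ≤ ∑ q ∈ Icc 1 K, |F q| :=
      Finset.single_le_sum (f := fun q => |F q|) (fun _ _ => abs_nonneg _)
        (Finset.mem_Icc.mpr ⟨hq1, hqK⟩)
    have hq0 : (0 : ℝ) < q := by exact_mod_cast hq1
    have e2 : Real.log q ≤ Real.log K := Real.log_le_log hq0 (by exact_mod_cast hqK)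
    have e3 : 0 ≤ Real.log q := Real.log_natCast_nonneg q
    calc |lg F c q| = |F q - c * Real.log q| := rfl
      _ ≤ |F q| + |c * Real.log q| := abs_sub _ _
      _ = |F q| + |c| * Real.log q := by rw [abs_mul, abs_of_nonneg e3]
      _ ≤ ∑ q ∈ Icc 1 K, |F q| + cm * Real.log K := by
          have := mul_le_mul hcabs e2 e3 hcm0
          linarith
  have hapx := hA (lg F c) N K τ (lg_addf F c hFadd) (by omega) hK1 hSm
  have htk := h2 N (wt (lg F c)) (by omega)
  have htk' : Ex N (fun n => (sa (wt (lg F c)) n - mu (wt (lg F c)) N) ^ 2) ≤ 1 / 400 := by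
    refine htk.trans ?_
    calc C2 * ∑ p ∈ Pr N, (wt (lg F c) p) ^ 2 / p ≤ C2 * DD (lg F c) N :=
          mul_le_mul_of_nonneg_left (wt_sum_le _ _) hC2.le
      _ ≤ C2 * (1 / (400 * C2)) := mul_le_mul_of_nonneg_left hc2 hC2.le
      _ = 1 / 400 := by field_simp
  have hch := cheb N (fun n => sa (wt (lg F c)) n - mu (wt (lg F c)) N) (1 / 400) (by omega) htk'
  have hsc := small_card N
  refine ⟨V * (mu (wt (lg F c)) N + c * Real.log N), ?_⟩
  set A1 := (Icc 1 N).filter (fun n => 2 * K * τ < |lg F c n - sa (wt (lg F c)) n|) with hA1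
  set A2 := (Icc 1 N).filter (fun n => 1 < |sa (wt (lg F c)) n - mu (wt (lg F c)) N|) with hA2
  set A3 := (Icc 1 N).filter (fun n : ℕ => (200 : ℝ) * n ≤ N) with hA3
  have hsub : (Icc 1 N).filter (fun n => V * (2 * K * τ + 1 + cm * Real.log 200) <
      |f n - V * (mu (wt (lg F c)) N + c * Real.log N)|) ⊆ A1 ∪ A2 ∪ A3 := by
    intro n hn
    rw [Finset.mem_filter] at hn
    obtain ⟨hnI, hn⟩ := hn
    by_contra hcon
    simp only [Finset.mem_union, not_or, hA1, hA2, hA3, Finset.mem_filter, hnI, true_and,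
      not_lt, not_le] at hcon
    obtain ⟨⟨b1, b2⟩, b3⟩ := hcon
    have hnI' := Finset.mem_Icc.mp hnI
    have hn0 : (0 : ℝ) < n := by exact_mod_cast hnI'.1
    have hnN : (n : ℝ) ≤ N := by exact_mod_cast hnI'.2
    have b4 : |Real.log n - Real.log N| ≤ Real.log 200 := by
      have e1 : Real.log n ≤ Real.log N := Real.log_le_log hn0 hnN
      have e2 : Real.log N ≤ Real.log (200 * n) := Real.log_le_log hN0 b3.le
      rw [Real.log_mul (by norm_num) hn0.ne'] at e2
      rw [abs_sub_comm, abs_of_nonneg (by linarith)]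
      linarith
    have b5 : |c * (Real.log n - Real.log N)| ≤ cm * Real.log 200 := by
      rw [abs_mul]
      exact mul_le_mul hcabs b4 (abs_nonneg _) hcm0
    have e : f n - V * (mu (wt (lg F c)) N + c * Real.log N) =
        V * ((lg F c n - sa (wt (lg F c)) n) + (sa (wt (lg F c)) n - mu (wt (lg F c)) N) +
          c * (Real.log n - Real.log N)) := by
      simp only [lg, hF]
      field_simp
      ring
    rw [e, abs_mul, abs_of_pos hV0] at hn
    have hn2 := lt_of_mul_lt_mul_left hn hV0.le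
    have b6 := abs_add_three (lg F c n - sa (wt (lg F c)) n)
      (sa (wt (lg F c)) n - mu (wt (lg F c)) N) (c * (Real.log n - Real.log N))
    linarith
  have hcard : (((Icc 1 N).filter (fun n => V * (2 * K * τ + 1 + cm * Real.log 200) <
      |f n - V * (mu (wt (lg F c)) N + c * Real.log N)|)).card : ℝ) ≤
      (A1.card : ℝ) + A2.card + A3.card := by
    have := (Finset.card_le_card hsub).trans
      ((Finset.card_union_le _ _).trans (Nat.add_le_add_right (Finset.card_union_le _ _) _))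
    exact_mod_cast this
  have hbad : bad (lg F c) N ≤ 1 / 400 := (bad_le _ _).trans hc1
  have h1 : (A1.card : ℝ) ≤ N * (1 / 200) := by
    refine hapx.trans ?_
    refine mul_le_mul_of_nonneg_left ?_ hN0.le
    linarith
  linarith

end Pool.Agent.N826.EM
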