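import Mathlib
import Pool.Agent.N826.EM.Stm
import Pool.Agent.Helper923.HMertens

set_option autoImplicit false

/-!
# Project EM, part TK2

The Turan-Kubilius inequality for strongly additive functions.
-/

namespace Pool.Agent.N826.EM

open Finset

namespace TK2_

/-- indicator of divisibility -/
noncomputable def dv (p n : ℕ) : ℝ := if p ∣ n then 1 else 0

lemma sum_dv (N p : ℕ) : ∑ n ∈ Icc 1 N, dv p n = ((N / p : ℕ) : ℝ) := by
  unfold dv
  rw [Finset.sum_boole]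
  have h : (Icc 1 N).filter (fun n => p ∣ n) = (Ioc 0 N).filter (fun n => p ∣ n) := by
    congr 1
  rw [h, Nat.Ioc_filter_dvd_card_eq_div]

lemma sum_dv_le (N p : ℕ) : ∑ n ∈ Icc 1 N, dv p n ≤ (N : ℝ) / p := by
  rw [sum_dv]
  exact Nat.cast_div_le

lemma sum_dv_ge (N p : ℕ) (hp : 0 < p) : (N : ℝ) / p - 1 ≤ ∑ n ∈ Icc 1 N, dv p n := by
  rw [sum_dv]
  have h1 : N < p * (N / p + 1) := by
    have := Nat.div_add_mod N p
    have := Nat.mod_lt N hp
    rw [mul_add, mul_one]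
    omega
  have h2 : (N : ℝ) < p * ((N / p : ℕ) + 1) := by exact_mod_cast h1
  have hp' : (0 : ℝ) < p := by exact_mod_cast hp
  have h3 : (N : ℝ) / p < (N / p : ℕ) + 1 := by
    rw [div_lt_iff₀ hp']
    linarith
  linarith

lemma dv_mul {p q : ℕ} (h : Nat.Coprime p q) (n : ℕ) : dv p n * dv q n = dv (p * q) n := by
  unfold dv
  by_cases h1 : p ∣ n <;> by_cases h2 : q ∣ n
  · have : p * q ∣ n := h.mul_dvd_of_dvd_of_dvd h1 h2
    simp [h1, h2, this]
  · have : ¬ p * q ∣ n := fun h3 => h2 (dvd_trans (dvd_mul_left q p) h3)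
    simp [h2, this]
  · have : ¬ p * q ∣ n := fun h3 => h1 (dvd_trans (dvd_mul_right p q) h3)
    simp [h1, this]
  · have : ¬ p * q ∣ n := fun h3 => h1 (dvd_trans (dvd_mul_right p q) h3)
    simp [h1, this]

lemma cov_ne {N p q : ℕ} (hp : p.Prime) (hq : q.Prime) (hne : p ≠ q) :
    |∑ n ∈ Icc 1 N, (dv p n - 1 / p) * (dv q n - 1 / q)| ≤ 1 := by
  have hc : Nat.Coprime p q := (Nat.coprime_primes hp hq).2 hne
  have hp0 : (0 : ℝ) < p := by exact_mod_cast hp.pos
  have hq0 : (0 : ℝ) < q := by exact_mod_cast hq.pos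
  have hp2 : (2 : ℝ) ≤ p := by exact_mod_cast hp.two_le
  have hq2 : (2 : ℝ) ≤ q := by exact_mod_cast hq.two_le
  have e1 : ∑ n ∈ Icc 1 N, (dv p n - 1 / p) * (dv q n - 1 / q) =
      ∑ n ∈ Icc 1 N, dv (p * q) n - (∑ n ∈ Icc 1 N, dv p n) / q - (∑ n ∈ Icc 1 N, dv q n) / p +
        N / (p * q) := by
    have : ∀ n ∈ Icc 1 N, (dv p n - 1 / p) * (dv q n - 1 / q) =
        dv (p * q) n - dv p n / q - dv q n / p + 1 / (p * q) := by
      intro n _
      rw [← dv_mul hc]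
      field_simp
      ring
    rw [sum_congr rfl this, sum_add_distrib, sum_sub_distrib, sum_sub_distrib, sum_div, sum_div,
      sum_const, Nat.card_Icc, nsmul_eq_mul]
    simp only [Nat.add_sub_cancel]
    ring
  have a1 := sum_dv_le N (p * q)
  have a2 := sum_dv_ge N (p * q) (Nat.mul_pos hp.pos hq.pos)
  have b1 := sum_dv_le N p
  have b2 := sum_dv_ge N p hp.pos
  have c1 := sum_dv_le N q
  have c2 := sum_dv_ge N q hq.pos
  rw [e1]
  set A := ∑ n ∈ Icc 1 N, dv (p * q) n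
  set B := ∑ n ∈ Icc 1 N, dv p n
  set C := ∑ n ∈ Icc 1 N, dv q n
  push_cast at a1 a2
  have e2 : (N : ℝ) / p / q = N / (p * q) := by rw [div_div]
  have e3 : (N : ℝ) / q / p = N / (p * q) := by rw [div_div, mul_comm]
  have b3 : B / q ≤ N / (p * q) := by rw [← e2]; gcongr
  have b4 : N / (p * q) - 1 / q ≤ B / q := by
    rw [← e2, ← sub_div]; gcongr
  have c3 : C / p ≤ N / (p * q) := by rw [← e3]; gcongr
  have c4 : N / (p * q) - 1 / p ≤ C / p := by
    rw [← e3, ← sub_div]; gcongr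
  have d1 : (1 : ℝ) / q ≤ 1 / 2 := by gcongr
  have d2 : (1 : ℝ) / p ≤ 1 / 2 := by gcongr
  rw [abs_le]
  constructor <;> linarith

lemma var_le {N p : ℕ} (hp : p.Prime) :
    ∑ n ∈ Icc 1 N, (dv p n - 1 / p) * (dv p n - 1 / p) ≤ N / p := by
  have hp0 : (0 : ℝ) < p := by exact_mod_cast hp.pos
  have hp2 : (2 : ℝ) ≤ p := by exact_mod_cast hp.two_le
  have e1 : ∑ n ∈ Icc 1 N, (dv p n - 1 / p) * (dv p n - 1 / p) =
      (∑ n ∈ Icc 1 N, dv p n) * (1 - 2 / p) + N / (p * p) := by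
    have : ∀ n ∈ Icc 1 N, (dv p n - 1 / p) * (dv p n - 1 / p) =
        dv p n * (1 - 2 / p) + 1 / (p * p) := by
      intro n _
      have : dv p n * dv p n = dv p n := by unfold dv; split_ifs <;> simp
      have h2 : (dv p n - 1 / p) * (dv p n - 1 / p) =
        dv p n * dv p n - 2 / p * dv p n + 1 / (p * p) := by
        field_simp
        ring
      rw [h2, this]
      ring
    rw [sum_congr rfl this, sum_add_distrib, ← sum_mul, sum_const, Nat.card_Icc, nsmul_eq_mul]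
    simp only [Nat.add_sub_cancel]
    ring
  have h1 : (0 : ℝ) ≤ 1 - 2 / p := by
    rw [sub_nonneg, div_le_one hp0]; exact hp2
  rw [e1]
  calc (∑ n ∈ Icc 1 N, dv p n) * (1 - 2 / p) + N / (p * p)
      ≤ (N / p) * (1 - 2 / p) + N / (p * p) := by
        gcongr
        exact sum_dv_le N p
    _ = N / p - N / (p * p) := by field_simp; ring
    _ ≤ N / p := by
        have : (0 : ℝ) ≤ N / (p * p) := by positivity
        linarith

/-- the small primes -/
lemma small (N : ℕ) (a : ℕ → ℝ) (s : Finset ℕ) (hs : ∀ p ∈ s, p.Prime ∧ p ^ 2 ≤ N) :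
    ∑ n ∈ Icc 1 N, (∑ p ∈ s, a p * (dv p n - 1 / p)) ^ 2 ≤
      2 * N * ∑ p ∈ s, (a p) ^ 2 / p := by
  have e1 : ∑ n ∈ Icc 1 N, (∑ p ∈ s, a p * (dv p n - 1 / p)) ^ 2 =
      ∑ p ∈ s, ∑ q ∈ s, a p * a q * ∑ n ∈ Icc 1 N, (dv p n - 1 / p) * (dv q n - 1 / q) := by
    have : ∀ n ∈ Icc 1 N, (∑ p ∈ s, a p * (dv p n - 1 / p)) ^ 2 =
        ∑ p ∈ s, ∑ q ∈ s, a p * a q * ((dv p n - 1 / p) * (dv q n - 1 / q)) := by
      intro n _
      rw [sq, sum_mul_sum]
      refine sum_congr rfl fun p _ => sum_congr rfl fun q _ => ?_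
      ring
    rw [sum_congr rfl this, sum_comm]
    refine sum_congr rfl fun p _ => ?_
    rw [sum_comm]
    refine sum_congr rfl fun q _ => ?_
    rw [mul_sum]
  have e2 : ∀ p ∈ s, ∀ q ∈ s,
      a p * a q * ∑ n ∈ Icc 1 N, (dv p n - 1 / p) * (dv q n - 1 / q) ≤
        |a p| * |a q| + if p = q then (a p) ^ 2 * (N / p) else 0 := by
    intro p hp q hq
    by_cases h : p = q
    · subst h
      rw [if_pos rfl]
      have h1 := var_le (N := N) (hs p hp).1
      have h2 : a p * a p = (a p) ^ 2 := by ring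
      rw [h2]
      have h3 : (a p) ^ 2 * ∑ n ∈ Icc 1 N, (dv p n - 1 / p) * (dv p n - 1 / p) ≤
        (a p) ^ 2 * (N / p) := mul_le_mul_of_nonneg_left h1 (sq_nonneg _)
      have h4 : 0 ≤ |a p| * |a p| := by positivity
      linarith
    · rw [if_neg h, add_zero]
      have h1 := cov_ne (N := N) (hs p hp).1 (hs q hq).1 h
      calc a p * a q * ∑ n ∈ Icc 1 N, (dv p n - 1 / p) * (dv q n - 1 / q)
          ≤ |a p * a q * ∑ n ∈ Icc 1 N, (dv p n - 1 / p) * (dv q n - 1 / q)| := le_abs_self _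
        _ = |a p| * |a q| * |∑ n ∈ Icc 1 N, (dv p n - 1 / p) * (dv q n - 1 / q)| := by
            rw [abs_mul, abs_mul]
        _ ≤ |a p| * |a q| * 1 := by gcongr
        _ = |a p| * |a q| := mul_one _
  have e3 : ∑ p ∈ s, ∑ q ∈ s, (|a p| * |a q| + if p = q then (a p) ^ 2 * (N / p) else 0) =
      (∑ p ∈ s, |a p|) ^ 2 + N * ∑ p ∈ s, (a p) ^ 2 / p := by
    have : ∀ p ∈ s, ∑ q ∈ s, (|a p| * |a q| + if p = q then (a p) ^ 2 * ((N : ℝ) / p) else 0) =
        |a p| * ∑ q ∈ s, |a q| + (a p) ^ 2 * (N / p) := by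
      intro p hp
      rw [sum_add_distrib, ← mul_sum, sum_ite_eq, if_pos hp]
    rw [sum_congr rfl this, sum_add_distrib, ← sum_mul, sq, mul_sum (s := s) (a := (N : ℝ))]
    congr 1
    refine sum_congr rfl fun p _ => ?_
    ring
  have e4 : (∑ p ∈ s, |a p|) ^ 2 ≤ N * ∑ p ∈ s, (a p) ^ 2 / p := by
    have h1 : (∑ p ∈ s, |a p|) ^ 2 ≤ (∑ p ∈ s, (a p) ^ 2 / p) * ∑ p ∈ s, (p : ℝ) := by
      have h2 : ∀ p ∈ s, |a p| = (|a p| / √p) * √p := by
        intro p hp
        have : (0 : ℝ) < √p := Real.sqrt_pos.2 (by exact_mod_cast (hs p hp).1.pos)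
        rw [div_mul_cancel₀ _ this.ne']
      rw [sum_congr rfl h2]
      refine (sum_mul_sq_le_sq_mul_sq _ _ _).trans (le_of_eq ?_)
      congr 1
      · refine sum_congr rfl fun p _ => ?_
        rw [div_pow, sq_abs, Real.sq_sqrt (Nat.cast_nonneg _)]
      · refine sum_congr rfl fun p _ => ?_
        rw [Real.sq_sqrt (Nat.cast_nonneg _)]
    have h3 : ∑ p ∈ s, (p : ℝ) ≤ N := by
      have h4 : s ⊆ Icc 1 (Nat.sqrt N) := by
        intro p hp
        rw [mem_Icc]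
        refine ⟨(hs p hp).1.one_lt.le, ?_⟩
        rw [Nat.le_sqrt']
        exact (hs p hp).2
      have h5 : ∑ p ∈ s, p ≤ N := by
        calc ∑ p ∈ s, p ≤ ∑ p ∈ Icc 1 (Nat.sqrt N), p :=
              sum_le_sum_of_subset h4
          _ ≤ ∑ p ∈ Icc 1 (Nat.sqrt N), Nat.sqrt N :=
              sum_le_sum fun p hp => (mem_Icc.1 hp).2
          _ = Nat.sqrt N * Nat.sqrt N := by
              rw [sum_const, Nat.card_Icc, smul_eq_mul]
              simp
          _ ≤ N := Nat.sqrt_le N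
      calc ∑ p ∈ s, (p : ℝ) = ((∑ p ∈ s, p : ℕ) : ℝ) := by push_cast; rfl
        _ ≤ N := by exact_mod_cast h5
    have h6 : 0 ≤ ∑ p ∈ s, (a p) ^ 2 / p := sum_nonneg fun p _ => by positivity
    calc (∑ p ∈ s, |a p|) ^ 2 ≤ (∑ p ∈ s, (a p) ^ 2 / p) * ∑ p ∈ s, (p : ℝ) := h1
      _ ≤ (∑ p ∈ s, (a p) ^ 2 / p) * N := by gcongr
      _ = _ := mul_comm _ _
  rw [e1]
  refine (sum_le_sum fun p hp => sum_le_sum fun q hq => e2 p hp q hq).trans ?_
  rw [e3]
  linarith

/-- the large primes -/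
lemma large (N : ℕ) (a : ℕ → ℝ) (s : Finset ℕ) (hs : ∀ p ∈ s, p.Prime ∧ N < p ^ 2) :
    ∑ n ∈ Icc 1 N, (∑ p ∈ s, a p * dv p n) ^ 2 ≤ N * ∑ p ∈ s, (a p) ^ 2 / p := by
  have e1 : ∀ n ∈ Icc 1 N, (∑ p ∈ s, a p * dv p n) ^ 2 = ∑ p ∈ s, (a p) ^ 2 * dv p n := by
    intro n hn
    rw [mem_Icc] at hn
    rw [sq, sum_mul_sum]
    refine sum_congr rfl fun p hp => ?_
    rw [sum_eq_single p]
    · have : dv p n * dv p n = dv p n := by unfold dv; split_ifs <;> simp
      calc a p * dv p n * (a p * dv p n) = (a p) ^ 2 * (dv p n * dv p n) := by ring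
        _ = _ := by rw [this]
    · intro q hq hne
      have hc : Nat.Coprime p q := (Nat.coprime_primes (hs p hp).1 (hs q hq).1).2 hne.symm
      have h0 : dv (p * q) n = 0 := by
        unfold dv
        rw [if_neg]
        intro hd
        have h1 := Nat.le_of_dvd (by omega) hd
        have h2 := (hs p hp).2
        have h3 := (hs q hq).2
        have h4 : N ^ 2 < (p * q) ^ 2 := by
          rw [mul_pow]
          have : N * N < p ^ 2 * q ^ 2 := Nat.mul_lt_mul'' h2 h3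
          rw [sq]; exact this
        have h5 : N < p * q := lt_of_pow_lt_pow_left₀ 2 (Nat.zero_le _) h4
        omega
      calc a p * dv p n * (a q * dv q n) = a p * a q * (dv p n * dv q n) := by ring
        _ = 0 := by rw [dv_mul hc, h0, mul_zero]
    · intro h
      exact absurd hp h
  rw [sum_congr rfl e1, sum_comm, mul_sum]
  refine sum_le_sum fun p _ => ?_
  rw [← mul_sum]
  calc (a p) ^ 2 * ∑ n ∈ Icc 1 N, dv p n ≤ (a p) ^ 2 * (N / p) := by
        gcongr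
        exact sum_dv_le N p
    _ = N * ((a p) ^ 2 / p) := by ring

lemma mass : ∃ C : ℝ, 0 ≤ C ∧ ∀ N : ℕ, ∑ p ∈ (Pr N).filter (fun p => N < p ^ 2), (1 : ℝ) / p ≤ C := by
  obtain ⟨C, hC0, hC⟩ := Helper923.HMertens.mertens_ratio
  have hl2 : (0 : ℝ) < Real.log 2 := Real.log_pos (by norm_num)
  refine ⟨Real.log 4 + C / Real.log 2 + 3, by
    have : 0 ≤ Real.log 4 := Real.log_nonneg (by norm_num)
    positivity, fun N => ?_⟩
  have hl4 : 0 ≤ Real.log 4 := Real.log_nonneg (by norm_num)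
  have hc2 : 0 ≤ C / Real.log 2 := by positivity
  rcases Nat.lt_or_ge N 4 with h | h
  · have h1 : ∑ p ∈ (Pr N).filter (fun p => N < p ^ 2), (1 : ℝ) / p ≤
        ∑ p ∈ (Pr N).filter (fun p => N < p ^ 2), (1 : ℝ) := by
      refine sum_le_sum fun p hp => ?_
      rw [mem_filter, mem_filter] at hp
      rw [div_le_one (by exact_mod_cast hp.1.2.pos)]
      exact_mod_cast hp.1.2.one_lt.le
    rw [sum_const, nsmul_eq_mul, mul_one] at h1
    have h2 : ((Pr N).filter (fun p => N < p ^ 2)).card ≤ 3 := by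
      refine (card_filter_le _ _).trans ((card_filter_le _ _).trans ?_)
      rw [Nat.card_Icc]
      omega
    have h3 : (((Pr N).filter (fun p => N < p ^ 2)).card : ℝ) ≤ 3 := by exact_mod_cast h2
    linarith
  · set r := Nat.sqrt N with hr
    have hr2 : 2 ≤ r := by
      rw [hr, Nat.le_sqrt']
      exact h
    have hrN : r ≤ N := Nat.sqrt_le_self N
    have h1 := (abs_le.1 (hC r N hr2 hrN)).2
    have h2 : ∑ p ∈ (Pr N).filter (fun p => N < p ^ 2), (1 : ℝ) / p ≤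
        ∑ p ∈ (Finset.Ioc r N).filter Nat.Prime, (1 : ℝ) / p := by
      refine sum_le_sum_of_subset_of_nonneg ?_ fun p _ _ => by positivity
      intro p hp
      rw [mem_filter, mem_filter, mem_Icc] at hp
      rw [mem_filter, mem_Ioc]
      refine ⟨⟨?_, hp.1.1.2⟩, hp.1.2⟩
      rw [hr, Nat.sqrt_lt']
      exact hp.2
    have hlr : Real.log 2 ≤ Real.log r := Real.log_le_log (by norm_num) (by exact_mod_cast hr2)
    have hN4 : N ≤ r ^ 4 := by
      have h3 : N < (r + 1) ^ 2 := Nat.lt_succ_sqrt' N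
      have h4 : (r + 1) ^ 2 ≤ (r ^ 2) ^ 2 := by
        refine Nat.pow_le_pow_left ?_ 2
        nlinarith
      calc N ≤ (r ^ 2) ^ 2 := (h3.le.trans h4)
        _ = r ^ 4 := by ring
    have h5 : Real.log N / Real.log r ≤ 4 := by
      rw [div_le_iff₀ (by linarith)]
      have h6 : Real.log N ≤ Real.log ((r : ℝ) ^ 4) :=
        Real.log_le_log (by exact_mod_cast (by omega : 0 < N)) (by exact_mod_cast hN4)
      rw [Real.log_pow] at h6
      exact_mod_cast h6
    have h7 : Real.log (Real.log N / Real.log r) ≤ Real.log 4 := by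
      refine Real.log_le_log ?_ h5
      have : 0 < Real.log N := Real.log_pos (by exact_mod_cast (by omega : 1 < N))
      have : 0 < Real.log r := by linarith
      positivity
    have h8 : C / Real.log r ≤ C / Real.log 2 := by gcongr
    linarith

end TK2_

open TK2_ in
/-- TK2: the Turan-Kubilius inequality -/
theorem t_TK2 : S_TK2 := by
  obtain ⟨C, hC0, hC⟩ := mass
  refine ⟨9 + 3 * C, by positivity, fun N a hN => ?_⟩
  have hN0 : (0 : ℝ) < N := by exact_mod_cast hN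
  set s1 := (Pr N).filter (fun p => p ^ 2 ≤ N) with hs1
  set s2 := (Pr N).filter (fun p => N < p ^ 2) with hs2
  have hsplit : ∀ F : ℕ → ℝ, ∑ p ∈ Pr N, F p = ∑ p ∈ s1, F p + ∑ p ∈ s2, F p := by
    intro F
    rw [← sum_filter_add_sum_filter_not (Pr N) (fun p => p ^ 2 ≤ N)]
    congr 2
    rw [hs2]
    exact filter_congr fun p _ => not_le
  set V := ∑ p ∈ Pr N, (a p) ^ 2 / p with hV
  have hV1 : ∑ p ∈ s1, (a p) ^ 2 / p ≤ V := by
    rw [hV, hsplit]
    have : 0 ≤ ∑ p ∈ s2, (a p) ^ 2 / p := sum_nonneg fun p _ => by positivity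
    linarith
  have hV2 : ∑ p ∈ s2, (a p) ^ 2 / p ≤ V := by
    rw [hV, hsplit]
    have : 0 ≤ ∑ p ∈ s1, (a p) ^ 2 / p := sum_nonneg fun p _ => by positivity
    linarith
  have hV0 : 0 ≤ V := sum_nonneg fun p _ => by positivity
  have hP1 : ∀ p ∈ s1, p.Prime ∧ p ^ 2 ≤ N := fun p hp => by
    rw [hs1, mem_filter, mem_filter] at hp
    exact ⟨hp.1.2, hp.2⟩
  have hP2 : ∀ p ∈ s2, p.Prime ∧ N < p ^ 2 := fun p hp => by
    rw [hs2, mem_filter, mem_filter] at hp
    exact ⟨hp.1.2, hp.2⟩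
  set m2 := ∑ p ∈ s2, a p / p with hm2
  have hsa : ∀ n ∈ Icc 1 N, sa a n = ∑ p ∈ Pr N, a p * dv p n := by
    intro n hn
    rw [mem_Icc] at hn
    unfold sa dv
    have : n.primeFactors = (Pr N).filter (fun p => p ∣ n) := by
      ext p
      rw [Nat.mem_primeFactors, mem_filter, mem_filter, mem_Icc]
      constructor
      · rintro ⟨h1, h2, h3⟩
        exact ⟨⟨⟨h1.one_lt.le, (Nat.le_of_dvd (by omega) h2).trans hn.2⟩, h1⟩, h2⟩
      · rintro ⟨⟨_, h1⟩, h2⟩
        exact ⟨h1, h2, by omega⟩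
    rw [this, sum_filter]
    refine sum_congr rfl fun p _ => ?_
    split_ifs <;> simp
  have hdec : ∀ n ∈ Icc 1 N, sa a n - mu a N =
      ∑ p ∈ s1, a p * (dv p n - 1 / p) + ∑ p ∈ s2, a p * dv p n - m2 := by
    intro n hn
    rw [hsa n hn, mu, hsplit, hsplit]
    have : ∑ p ∈ s1, a p * (dv p n - 1 / p) = ∑ p ∈ s1, a p * dv p n - ∑ p ∈ s1, a p / p := by
      rw [← sum_sub_distrib]
      refine sum_congr rfl fun p _ => ?_
      ring
    rw [this]
    ring
  have hm2' : m2 ^ 2 ≤ C * V := by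
    have h1 : m2 ^ 2 ≤ (∑ p ∈ s2, (a p) ^ 2 / p) * ∑ p ∈ s2, (1 : ℝ) / p := by
      have h2 : ∀ p ∈ s2, a p / p = (a p / √p) * (1 / √p) := by
        intro p hp
        have h3 : (0 : ℝ) < p := by exact_mod_cast (hP2 p hp).1.pos
        have h4 : √(p : ℝ) * √p = p := Real.mul_self_sqrt h3.le
        rw [div_mul_div_comm, mul_one, h4]
      rw [hm2, sum_congr rfl h2]
      refine (sum_mul_sq_le_sq_mul_sq _ _ _).trans (le_of_eq ?_)
      congr 1
      · refine sum_congr rfl fun p _ => ?_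
        rw [div_pow, Real.sq_sqrt (Nat.cast_nonneg _)]
      · refine sum_congr rfl fun p _ => ?_
        rw [div_pow, Real.sq_sqrt (Nat.cast_nonneg _), one_pow]
    calc m2 ^ 2 ≤ (∑ p ∈ s2, (a p) ^ 2 / p) * ∑ p ∈ s2, (1 : ℝ) / p := h1
      _ ≤ V * C := by
          have h9 := hC N
          exact mul_le_mul hV2 h9 (sum_nonneg fun p _ => by positivity) hV0
      _ = C * V := mul_comm _ _
  have h3 : ∀ n ∈ Icc 1 N, (sa a n - mu a N) ^ 2 ≤
      3 * ((∑ p ∈ s1, a p * (dv p n - 1 / p)) ^ 2 + (∑ p ∈ s2, a p * dv p n) ^ 2 + m2 ^ 2) := by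
    intro n hn
    rw [hdec n hn]
    set x := ∑ p ∈ s1, a p * (dv p n - 1 / p)
    set y := ∑ p ∈ s2, a p * dv p n
    nlinarith [sq_nonneg (x - y), sq_nonneg (x + m2), sq_nonneg (y + m2)]
  have h4 : ∑ n ∈ Icc 1 N, (sa a n - mu a N) ^ 2 ≤ (9 + 3 * C) * V * N := by
    refine (sum_le_sum h3).trans ?_
    rw [← mul_sum, sum_add_distrib, sum_add_distrib, sum_const, Nat.card_Icc, nsmul_eq_mul]
    simp only [Nat.add_sub_cancel]
    have h5 := small N a s1 hP1
    have h6 := large N a s2 hP2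
    have h7 : 2 * (N : ℝ) * ∑ p ∈ s1, (a p) ^ 2 / p ≤ 2 * N * V := by gcongr
    have h8 : (N : ℝ) * ∑ p ∈ s2, (a p) ^ 2 / p ≤ N * V := by gcongr
    have h9 : (N : ℝ) * m2 ^ 2 ≤ N * (C * V) := by gcongr
    nlinarith
  unfold Ex
  rw [div_le_iff₀ hN0]
  exact h4

end Pool.Agent.N826.EM
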