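import Pool.Agent.N826.EM.Stm
import Pool.Agent.Helper923.HMertens

/-!
Project EM (helper826), task TK4 (helper456): the fourth moment of strongly additive functions.
-/

set_option autoImplicit false

namespace Pool.Agent.N826.EM.TK4_

open Finset Pool.Agent.N826.EM

/-- the centred indicator of the multiples of `p` -/
noncomputable def X (p n : ℕ) : ℝ := (if p ∣ n then 1 else 0) - 1 / (p : ℝ)

/-- the product of the centred indicators over a list -/
noncomputable def W : List ℕ → ℕ → ℝ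
  | [], _ => 1
  | p :: l, n => X p n * W l n

/-- the value of the mean in the model -/
noncomputable def mm : List ℕ → Finset ℕ → ℝ
  | [], s => 1 / ∏ q ∈ s, (q : ℝ)
  | p :: l, s => mm l (insert p s) - 1 / (p : ℝ) * mm l s

lemma W_nil (n : ℕ) : W [] n = 1 := rfl

lemma W_cons (p : ℕ) (l : List ℕ) (n : ℕ) : W (p :: l) n = X p n * W l n := rfl

lemma mm_nil (s : Finset ℕ) : mm [] s = 1 / ∏ q ∈ s, (q : ℝ) := rfl

lemma mm_cons (p : ℕ) (l : List ℕ) (s : Finset ℕ) :
    mm (p :: l) s = mm l (insert p s) - 1 / (p : ℝ) * mm l s := rfl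

lemma dvd_iff (s : Finset ℕ) (hs : ∀ q ∈ s, Nat.Prime q) (n : ℕ) :
    (∀ q ∈ s, q ∣ n) ↔ (∏ q ∈ s, q) ∣ n := by
  constructor
  · intro h
    exact Finset.prod_primes_dvd n (fun q hq => (hs q hq).prime) h
  · intro h q hq
    exact (Finset.dvd_prod_of_mem _ hq).trans h

lemma card_mult (N D : ℕ) : ((Icc 1 N).filter (fun n => D ∣ n)).card = N / D := by
  have h := Nat.card_multiples' N D
  have h2 : ((Icc 1 N).filter (fun n => D ∣ n)) =
      ({k ∈ Finset.range N.succ | k ≠ 0 ∧ D ∣ k} : Finset ℕ) := by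
    ext n
    simp only [mem_filter, mem_Icc, mem_range]
    constructor
    · rintro ⟨⟨h1, h2⟩, h3⟩
      exact ⟨by omega, by omega, h3⟩
    · rintro ⟨h1, h2, h3⟩
      exact ⟨⟨by omega, by omega⟩, h3⟩
  rw [h2]
  exact h

lemma base (N : ℕ) (s : Finset ℕ) (hs : ∀ q ∈ s, Nat.Prime q) :
    |∑ n ∈ Icc 1 N, (if ∀ q ∈ s, q ∣ n then (1 : ℝ) else 0) - N * (1 / ∏ q ∈ s, (q : ℝ))| ≤ 1 := by
  have hD : 0 < ∏ q ∈ s, q := Finset.prod_pos fun q hq => (hs q hq).pos
  have h1 : ∑ n ∈ Icc 1 N, (if ∀ q ∈ s, q ∣ n then (1 : ℝ) else 0) =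
      ((N / ∏ q ∈ s, q : ℕ) : ℝ) := by
    rw [← card_mult, Finset.card_filter]
    push_cast
    refine Finset.sum_congr rfl fun n _ => ?_
    simp only [dvd_iff s hs n]
  rw [h1]
  have h2 : ∏ q ∈ s, (q : ℝ) = ((∏ q ∈ s, q : ℕ) : ℝ) := by push_cast; rfl
  rw [h2]
  generalize ∏ q ∈ s, q = D at hD
  have hD' : (0 : ℝ) < D := by exact_mod_cast hD
  have h3 : ((N / D : ℕ) : ℝ) ≤ N / D := Nat.cast_div_le
  have h4 : (N : ℝ) / D < ((N / D : ℕ) : ℝ) + 1 := by
    rw [div_lt_iff₀ hD']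
    have := Nat.lt_div_mul_add (a := N) hD
    have h5 : N < (N / D + 1) * D := by
      rw [add_mul, one_mul]
      exact this
    exact_mod_cast h5
  rw [mul_one_div, abs_le]
  constructor <;> linarith

lemma step (N : ℕ) (l : List ℕ) : ∀ s : Finset ℕ, (∀ q ∈ s, Nat.Prime q) →
    (∀ q ∈ l, Nat.Prime q) →
    |∑ n ∈ Icc 1 N, (if ∀ q ∈ s, q ∣ n then W l n else 0) - N * mm l s| ≤ 2 ^ l.length := by
  induction l with
  | nil =>
    intro s hs _
    simp only [W_nil, mm_nil, List.length_nil, pow_zero]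
    exact base N s hs
  | cons p l ih =>
    intro s hs hl
    have hp : Nat.Prime p := hl p (by simp)
    have hl' : ∀ q ∈ l, Nat.Prime q := fun q hq => hl q (by simp [hq])
    have h1 := ih (insert p s) (by
      intro q hq
      rcases Finset.mem_insert.mp hq with h | h
      · exact h ▸ hp
      · exact hs q h) hl'
    have h2 := ih s hs hl'
    have h3 : ∑ n ∈ Icc 1 N, (if ∀ q ∈ s, q ∣ n then W (p :: l) n else 0) =
        ∑ n ∈ Icc 1 N, (if ∀ q ∈ insert p s, q ∣ n then W l n else 0) -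
        1 / (p : ℝ) * ∑ n ∈ Icc 1 N, (if ∀ q ∈ s, q ∣ n then W l n else 0) := by
      rw [Finset.mul_sum, ← Finset.sum_sub_distrib]
      refine Finset.sum_congr rfl fun n _ => ?_
      simp only [W_cons, X, Finset.forall_mem_insert]
      by_cases hb : ∀ q ∈ s, q ∣ n
      · rw [if_pos hb, if_pos hb]
        by_cases ha : p ∣ n
        · rw [if_pos ha, if_pos ⟨ha, hb⟩]
          ring
        · rw [if_neg ha, if_neg (fun h => ha h.1)]
          ring
      · rw [if_neg hb, if_neg hb, if_neg (fun h => hb h.2)]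
        ring
    rw [h3, mm_cons]
    have hp1 : (1 : ℝ) / p ≤ 1 := by
      have : (1 : ℝ) ≤ p := by exact_mod_cast hp.one_le
      rw [div_le_one (by linarith)]
      exact this
    have hp0 : (0 : ℝ) ≤ 1 / p := by positivity
    generalize ∑ n ∈ Icc 1 N, (if ∀ q ∈ insert p s, q ∣ n then W l n else 0) = A at h1
    generalize ∑ n ∈ Icc 1 N, (if ∀ q ∈ s, q ∣ n then W l n else 0) = B at h2
    have h4 : A - 1 / (p : ℝ) * B - N * (mm l (insert p s) - 1 / (p : ℝ) * mm l s) =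
        (A - N * mm l (insert p s)) - 1 / (p : ℝ) * (B - N * mm l s) := by ring
    rw [h4]
    have h5 : |1 / (p : ℝ) * (B - N * mm l s)| ≤ 2 ^ l.length := by
      rw [abs_mul, abs_of_nonneg hp0]
      calc 1 / (p : ℝ) * |B - N * mm l s| ≤ 1 * |B - N * mm l s| :=
            mul_le_mul_of_nonneg_right hp1 (abs_nonneg _)
        _ ≤ _ := by rw [one_mul]; exact h2
    calc _ ≤ |A - N * mm l (insert p s)| + |1 / (p : ℝ) * (B - N * mm l s)| := abs_sub _ _
      _ ≤ 2 ^ l.length + 2 ^ l.length := add_le_add h1 h5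
      _ = 2 ^ (p :: l).length := by rw [List.length_cons, pow_succ]; ring

lemma step' (N : ℕ) (l : List ℕ) (hl : ∀ q ∈ l, Nat.Prime q) :
    |∑ n ∈ Icc 1 N, W l n| ≤ N * |mm l ∅| + 2 ^ l.length := by
  have h := step N l ∅ (by simp) hl
  simp only [Finset.notMem_empty, false_implies, implies_true, if_true] at h
  have h2 : |(N : ℝ) * mm l ∅| = N * |mm l ∅| := by rw [abs_mul, Nat.abs_cast]
  have h3 : ∑ n ∈ Icc 1 N, W l n = (∑ n ∈ Icc 1 N, W l n - N * mm l ∅) + N * mm l ∅ := by ring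
  rw [h3]
  refine (abs_add_le _ _).trans ?_
  rw [h2]
  linarith

/-- indicator of equality -/
noncomputable def dl (p q : ℕ) : ℝ := if p = q then 1 else 0

lemma dl_self (p : ℕ) : dl p p = 1 := by simp [dl]

lemma dl_ne {p q : ℕ} (h : p ≠ q) : dl p q = 0 := by simp [dl, h]

lemma dl_nonneg (p q : ℕ) : 0 ≤ dl p q := by unfold dl; split_ifs <;> norm_num

lemma rhs_nonneg (p q r t : ℕ) :
    0 ≤ dl p q * dl r t * (1 / (p * r)) + dl p r * dl q t * (1 / (p * q)) +
      dl p t * dl q r * (1 / (p * q)) + dl p q * dl q r * dl r t * (1 / (p : ℝ)) := by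
  have h1 := dl_nonneg p q
  have h2 := dl_nonneg r t
  have h3 := dl_nonneg p r
  have h4 := dl_nonneg q t
  have h5 := dl_nonneg p t
  have h6 := dl_nonneg q r
  positivity

lemma two_bound (x y : ℝ) (hx0 : 0 < x) (hx1 : x ≤ 1) (hy0 : 0 < y) (hy1 : y ≤ 1) :
    |x * (1 - x) * (y * (1 - y))| ≤ x * y := by
  have h1 : 0 ≤ x * (1 - x) := mul_nonneg hx0.le (by linarith)
  have h2 : 0 ≤ y * (1 - y) := mul_nonneg hy0.le (by linarith)
  rw [abs_of_nonneg (mul_nonneg h1 h2)]
  refine mul_le_mul ?_ ?_ h2 hx0.le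
  · nlinarith
  · nlinarith

lemma one_bound (x : ℝ) (hx0 : 0 < x) (hx1 : x ≤ 1) :
    |x * (1 - x) ^ 4 + (1 - x) * x ^ 4| ≤ x := by
  have h0 : 0 ≤ 1 - x := by linarith
  rw [abs_of_nonneg (by positivity)]
  have h2 : (1 - x) ^ 4 ≤ 1 - x := by
    calc (1 - x) ^ 4 = (1 - x) * (1 - x) ^ 3 := by ring
      _ ≤ (1 - x) * 1 := mul_le_mul_of_nonneg_left (pow_le_one₀ h0 (by linarith)) h0
      _ = _ := by ring
  have h3 : x ^ 3 ≤ 1 := pow_le_one₀ hx0.le hx1
  have h4 : x ^ 3 ≤ x := by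
    calc x ^ 3 = x * x ^ 2 := by ring
      _ ≤ x * 1 := mul_le_mul_of_nonneg_left (pow_le_one₀ hx0.le hx1) hx0.le
      _ = _ := by ring
  have h5 : (1 - x) * x ^ 3 ≤ x := by
    calc (1 - x) * x ^ 3 ≤ 1 * x ^ 3 := mul_le_mul_of_nonneg_right (by linarith) (by positivity)
      _ ≤ x := by linarith
  calc x * (1 - x) ^ 4 + (1 - x) * x ^ 4 = x * ((1 - x) ^ 4 + (1 - x) * x ^ 3) := by ring
    _ ≤ x * 1 := mul_le_mul_of_nonneg_left (by linarith) hx0.le
    _ = x := by ring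

/-- the model value of four factors -/
lemma mm4 (p q r t : ℕ) (hp : Nat.Prime p) (hq : Nat.Prime q) (hr : Nat.Prime r)
    (ht : Nat.Prime t) :
    |mm [p, q, r, t] ∅| ≤ dl p q * dl r t * (1 / (p * r)) + dl p r * dl q t * (1 / (p * q)) +
      dl p t * dl q r * (1 / (p * q)) + dl p q * dl q r * dl r t * (1 / p) := by
  have hR := rhs_nonneg p q r t
  have hp0 : (p : ℝ) ≠ 0 := by exact_mod_cast hp.ne_zero
  have hq0 : (q : ℝ) ≠ 0 := by exact_mod_cast hq.ne_zero
  have hr0 : (r : ℝ) ≠ 0 := by exact_mod_cast hr.ne_zero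
  have ht0 : (t : ℝ) ≠ 0 := by exact_mod_cast ht.ne_zero
  have hx : ∀ a : ℕ, Nat.Prime a → 0 < 1 / (a : ℝ) ∧ 1 / (a : ℝ) ≤ 1 := by
    intro a ha
    have : (1 : ℝ) ≤ a := by exact_mod_cast ha.one_le
    constructor
    · positivity
    · rw [div_le_one (by linarith)]
      exact this
  by_cases h1 : p = q
  · subst h1
    by_cases h2 : r = t
    · subst h2
      by_cases h3 : p = r
      · subst h3
        have e : mm [p, p, p, p] ∅ = (1 / (p : ℝ)) * (1 - 1 / p) ^ 4 + (1 - 1 / (p : ℝ)) * (1 / p) ^ 4 := by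
          simp [mm]
          field_simp
          ring
        rw [e]
        refine (one_bound _ (hx p hp).1 (hx p hp).2).trans ?_
        rw [dl_self]
        have : (0 : ℝ) ≤ 1 / (p * p) := by positivity
        linarith
      · have e : mm [p, p, r, r] ∅ = 1 / (p : ℝ) * (1 - 1 / p) * (1 / (r : ℝ) * (1 - 1 / r)) := by
          simp [mm, Ne.symm h3]
          field_simp
          ring
        rw [e]
        refine (two_bound _ _ (hx p hp).1 (hx p hp).2 (hx r hr).1 (hx r hr).2).trans ?_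
        rw [dl_self, dl_self, dl_ne h3]
        apply le_of_eq
        field_simp
        ring
    · have e : mm [p, p, r, t] ∅ = 0 := by
        by_cases h3 : p = r
        · subst h3
          simp [mm, Ne.symm h2]
          ring
        · by_cases h4 : p = t
          · subst h4
            simp [mm, Ne.symm h3, h3]
            ring
          · simp [mm, Ne.symm h2, Ne.symm h3, Ne.symm h4]
            ring
      rw [e, abs_zero]
      exact hR
  · by_cases h2 : p = r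
    · subst h2
      by_cases h3 : q = t
      · subst h3
        have e : mm [p, q, p, q] ∅ = 1 / (p : ℝ) * (1 - 1 / p) * (1 / (q : ℝ) * (1 - 1 / q)) := by
          simp [mm, Ne.symm h1, h1]
          field_simp
          ring
        rw [e]
        refine (two_bound _ _ (hx p hp).1 (hx p hp).2 (hx q hq).1 (hx q hq).2).trans ?_
        rw [dl_self, dl_self, dl_ne h1]
        apply le_of_eq
        field_simp
        ring
      · have e : mm [p, q, p, t] ∅ = 0 := by
          by_cases h4 : p = t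
          · subst h4
            simp [mm, Ne.symm h1, h1]
            ring
          · simp [mm, Ne.symm h1, h1, Ne.symm h3, Ne.symm h4]
            ring
        rw [e, abs_zero]
        exact hR
    · by_cases h3 : p = t
      · subst h3
        by_cases h4 : q = r
        · subst h4
          have e : mm [p, q, q, p] ∅ = 1 / (p : ℝ) * (1 - 1 / p) * (1 / (q : ℝ) * (1 - 1 / q)) := by
            simp [mm, Ne.symm h1, h1]
            field_simp
            ring
          rw [e]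
          refine (two_bound _ _ (hx p hp).1 (hx p hp).2 (hx q hq).1 (hx q hq).2).trans ?_
          rw [dl_self, dl_self, dl_ne h1]
          apply le_of_eq
          field_simp
          ring
        · have e : mm [p, q, r, p] ∅ = 0 := by
            simp [mm, Ne.symm h1, h1, Ne.symm h2, h2, Ne.symm h4]
            ring
          rw [e, abs_zero]
          exact hR
      · have e : mm [p, q, r, t] ∅ = 0 := by
          by_cases h4 : q = r
          · subst h4
            by_cases h5 : q = t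
            · subst h5
              simp [mm, Ne.symm h1]
              ring
            · simp [mm, Ne.symm h1, Ne.symm h3, Ne.symm h5]
              ring
          · by_cases h5 : q = t
            · subst h5
              simp [mm, Ne.symm h1, Ne.symm h2, Ne.symm h4, h4]
              ring
            · by_cases h6 : r = t
              · subst h6
                simp [mm, Ne.symm h1, Ne.symm h2, Ne.symm h4]
                ring
              · simp [mm, Ne.symm h1, Ne.symm h2, Ne.symm h3, Ne.symm h4, Ne.symm h5, Ne.symm h6]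
                ring
        rw [e, abs_zero]
        exact hR

lemma sumdl (P : Finset ℕ) {r : ℕ} (hr : r ∈ P) (F : ℕ → ℝ) : ∑ t ∈ P, F t * dl r t = F r := by
  rw [Finset.sum_eq_single r]
  · rw [dl_self, mul_one]
  · intro t _ ht
    rw [dl_ne (Ne.symm ht), mul_zero]
  · intro h
    exact absurd hr h

lemma a1 (P : Finset ℕ) (b : ℕ → ℝ) :
    ∑ p ∈ P, ∑ q ∈ P, ∑ r ∈ P, ∑ t ∈ P,
      b p * b q * b r * b t * (dl p q * dl r t * (1 / (p * r))) =
    (∑ p ∈ P, b p ^ 2 / p) ^ 2 := by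
  have h1 : ∀ p ∈ P, ∀ q ∈ P, ∀ r ∈ P, ∑ t ∈ P,
      b p * b q * b r * b t * (dl p q * dl r t * (1 / (p * r))) =
      b r ^ 2 / r * (b p * b q * dl p q * (1 / p)) := by
    intro p hp q hq r hr
    have h := sumdl P hr (fun t => b p * b q * b r * b t * dl p q * (1 / ((p : ℝ) * r)))
    rw [show b r ^ 2 / r * (b p * b q * dl p q * (1 / p)) =
      b p * b q * b r * b r * dl p q * (1 / ((p : ℝ) * r)) by ring]
    rw [← h]
    exact Finset.sum_congr rfl fun t _ => by ring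
  have h2 : ∀ p ∈ P, ∀ q ∈ P, ∑ r ∈ P, ∑ t ∈ P,
      b p * b q * b r * b t * (dl p q * dl r t * (1 / (p * r))) =
      (∑ r ∈ P, b r ^ 2 / r) * (b p * b q * dl p q * (1 / p)) := by
    intro p hp q hq
    rw [Finset.sum_mul]
    exact Finset.sum_congr rfl fun r hr => h1 p hp q hq r hr
  have h3 : ∀ p ∈ P, ∑ q ∈ P, ∑ r ∈ P, ∑ t ∈ P,
      b p * b q * b r * b t * (dl p q * dl r t * (1 / (p * r))) =
      (∑ r ∈ P, b r ^ 2 / r) * (b p ^ 2 / p) := by
    intro p hp
    have h := sumdl P hp (fun q => (∑ r ∈ P, b r ^ 2 / r) * (b p * b q * (1 / p)))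
    rw [show (∑ r ∈ P, b r ^ 2 / r) * (b p ^ 2 / p) =
      (∑ r ∈ P, b r ^ 2 / r) * (b p * b p * (1 / p)) by ring]
    rw [← h]
    refine Finset.sum_congr rfl fun q hq => ?_
    rw [h2 p hp q hq]
    ring
  rw [Finset.sum_congr rfl h3, ← Finset.mul_sum]
  ring

lemma a2 (P : Finset ℕ) (b : ℕ → ℝ) :
    ∑ p ∈ P, ∑ q ∈ P, ∑ r ∈ P, ∑ t ∈ P,
      b p * b q * b r * b t * (dl p r * dl q t * (1 / (p * q))) =
    (∑ p ∈ P, b p ^ 2 / p) ^ 2 := by
  have h1 : ∀ p ∈ P, ∀ q ∈ P, ∀ r ∈ P, ∑ t ∈ P,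
      b p * b q * b r * b t * (dl p r * dl q t * (1 / (p * q))) =
      b p * b q * b r * b q * (1 / (p * q)) * dl p r := by
    intro p hp q hq r hr
    have h := sumdl P hq (fun t => b p * b q * b r * b t * (1 / ((p : ℝ) * q)) * dl p r)
    rw [← h]
    exact Finset.sum_congr rfl fun t _ => by ring
  have h2 : ∀ p ∈ P, ∀ q ∈ P, ∑ r ∈ P, ∑ t ∈ P,
      b p * b q * b r * b t * (dl p r * dl q t * (1 / (p * q))) =
      b p ^ 2 / p * (b q ^ 2 / q) := by
    intro p hp q hq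
    rw [Finset.sum_congr rfl fun r hr => h1 p hp q hq r hr]
    rw [sumdl P hp (fun r => b p * b q * b r * b q * (1 / ((p : ℝ) * q)))]
    ring
  rw [pow_two, Finset.sum_mul_sum]
  exact Finset.sum_congr rfl fun p hp => Finset.sum_congr rfl fun q hq => h2 p hp q hq

lemma a3 (P : Finset ℕ) (b : ℕ → ℝ) :
    ∑ p ∈ P, ∑ q ∈ P, ∑ r ∈ P, ∑ t ∈ P,
      b p * b q * b r * b t * (dl p t * dl q r * (1 / (p * q))) =
    (∑ p ∈ P, b p ^ 2 / p) ^ 2 := by
  have h1 : ∀ p ∈ P, ∀ q ∈ P, ∀ r ∈ P, ∑ t ∈ P,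
      b p * b q * b r * b t * (dl p t * dl q r * (1 / (p * q))) =
      b p * b q * b r * b p * (1 / (p * q)) * dl q r := by
    intro p hp q hq r hr
    have h := sumdl P hp (fun t => b p * b q * b r * b t * (1 / ((p : ℝ) * q)) * dl q r)
    rw [← h]
    exact Finset.sum_congr rfl fun t _ => by ring
  have h2 : ∀ p ∈ P, ∀ q ∈ P, ∑ r ∈ P, ∑ t ∈ P,
      b p * b q * b r * b t * (dl p t * dl q r * (1 / (p * q))) =
      b p ^ 2 / p * (b q ^ 2 / q) := by
    intro p hp q hq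
    rw [Finset.sum_congr rfl fun r hr => h1 p hp q hq r hr]
    rw [sumdl P hq (fun r => b p * b q * b r * b p * (1 / ((p : ℝ) * q)))]
    ring
  rw [pow_two, Finset.sum_mul_sum]
  exact Finset.sum_congr rfl fun p hp => Finset.sum_congr rfl fun q hq => h2 p hp q hq

lemma a4 (P : Finset ℕ) (b : ℕ → ℝ) :
    ∑ p ∈ P, ∑ q ∈ P, ∑ r ∈ P, ∑ t ∈ P,
      b p * b q * b r * b t * (dl p q * dl q r * dl r t * (1 / p)) =
    ∑ p ∈ P, b p ^ 4 / p := by
  have h1 : ∀ p ∈ P, ∀ q ∈ P, ∀ r ∈ P, ∑ t ∈ P,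
      b p * b q * b r * b t * (dl p q * dl q r * dl r t * (1 / p)) =
      b p * b q * b r * b r * (1 / p) * dl p q * dl q r := by
    intro p hp q hq r hr
    have h := sumdl P hr (fun t => b p * b q * b r * b t * (1 / (p : ℝ)) * dl p q * dl q r)
    rw [← h]
    exact Finset.sum_congr rfl fun t _ => by ring
  have h2 : ∀ p ∈ P, ∀ q ∈ P, ∑ r ∈ P, ∑ t ∈ P,
      b p * b q * b r * b t * (dl p q * dl q r * dl r t * (1 / p)) =
      b p * b q * b q * b q * (1 / p) * dl p q := by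
    intro p hp q hq
    rw [Finset.sum_congr rfl fun r hr => h1 p hp q hq r hr]
    rw [sumdl P hq (fun r => b p * b q * b r * b r * (1 / (p : ℝ)) * dl p q)]
  refine Finset.sum_congr rfl fun p hp => ?_
  rw [Finset.sum_congr rfl fun q hq => h2 p hp q hq]
  rw [sumdl P hp (fun q => b p * b q * b q * b q * (1 / (p : ℝ)))]
  ring

/-- expansion of the fourth power -/
lemma pow4 (P : Finset ℕ) (a : ℕ → ℝ) (n : ℕ) :
    (∑ p ∈ P, a p * X p n) ^ 4 =
      ∑ p ∈ P, ∑ q ∈ P, ∑ r ∈ P, ∑ t ∈ P, a p * a q * a r * a t * W [p, q, r, t] n := by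
  have h : ∀ p q r t : ℕ, a p * a q * a r * a t * W [p, q, r, t] n =
      (a p * X p n) * ((a q * X q n) * ((a r * X r n) * (a t * X t n))) := by
    intro p q r t
    simp only [W_cons, W_nil]
    ring
  simp only [h, ← Finset.mul_sum, ← Finset.sum_mul]
  ring

/-- the fourth moment over a set of small primes -/
lemma small (P : Finset ℕ) (hP : ∀ p ∈ P, Nat.Prime p) (N : ℕ) (a : ℕ → ℝ)
    (ha : ∀ p, |a p| ≤ 1) :
    ∑ n ∈ Icc 1 N, (∑ p ∈ P, a p * X p n) ^ 4 ≤
      N * (3 * (∑ p ∈ P, a p ^ 2 / p) ^ 2 + ∑ p ∈ P, a p ^ 2 / p) + 16 * (P.card : ℝ) ^ 4 := by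
  have h0 : ∑ n ∈ Icc 1 N, (∑ p ∈ P, a p * X p n) ^ 4 =
      ∑ p ∈ P, ∑ q ∈ P, ∑ r ∈ P, ∑ t ∈ P,
        a p * a q * a r * a t * ∑ n ∈ Icc 1 N, W [p, q, r, t] n := by
    rw [Finset.sum_congr rfl fun n _ => pow4 P a n, Finset.sum_comm]
    refine Finset.sum_congr rfl fun p _ => ?_
    rw [Finset.sum_comm]
    refine Finset.sum_congr rfl fun q _ => ?_
    rw [Finset.sum_comm]
    refine Finset.sum_congr rfl fun r _ => ?_
    rw [Finset.sum_comm]
    refine Finset.sum_congr rfl fun t _ => ?_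
    rw [Finset.mul_sum]
  rw [h0]
  have h1 : ∀ p ∈ P, ∀ q ∈ P, ∀ r ∈ P, ∀ t ∈ P,
      a p * a q * a r * a t * ∑ n ∈ Icc 1 N, W [p, q, r, t] n ≤
      N * (|a p| * |a q| * |a r| * |a t| * (dl p q * dl r t * (1 / (p * r)))) +
      N * (|a p| * |a q| * |a r| * |a t| * (dl p r * dl q t * (1 / (p * q)))) +
      N * (|a p| * |a q| * |a r| * |a t| * (dl p t * dl q r * (1 / (p * q)))) +
      N * (|a p| * |a q| * |a r| * |a t| * (dl p q * dl q r * dl r t * (1 / p))) + 16 := by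
    intro p hp q hq r hr t ht
    have e1 := step' N [p, q, r, t] (by
      intro x hx
      simp only [List.mem_cons, List.not_mem_nil, or_false] at hx
      rcases hx with h | h | h | h <;> subst h
      · exact hP _ hp
      · exact hP _ hq
      · exact hP _ hr
      · exact hP _ ht)
    have e2 := mm4 p q r t (hP _ hp) (hP _ hq) (hP _ hr) (hP _ ht)
    have e3 : |a p| * |a q| * |a r| * |a t| ≤ 1 := by
      have i1 : |a p| * |a q| ≤ 1 := mul_le_one₀ (ha p) (abs_nonneg _) (ha q)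
      have i2 : |a p| * |a q| * |a r| ≤ 1 := mul_le_one₀ i1 (abs_nonneg _) (ha r)
      exact mul_le_one₀ i2 (abs_nonneg _) (ha t)
    have e4 : 0 ≤ |a p| * |a q| * |a r| * |a t| := by positivity
    have e5 : a p * a q * a r * a t * ∑ n ∈ Icc 1 N, W [p, q, r, t] n ≤
        |a p| * |a q| * |a r| * |a t| * |∑ n ∈ Icc 1 N, W [p, q, r, t] n| := by
      refine (le_abs_self _).trans (le_of_eq ?_)
      rw [abs_mul, abs_mul, abs_mul, abs_mul]
    refine e5.trans ((mul_le_mul_of_nonneg_left e1 e4).trans ?_)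
    simp only [List.length_cons, List.length_nil]
    have e6 : |a p| * |a q| * |a r| * |a t| * (N * |mm [p, q, r, t] ∅|) ≤
        |a p| * |a q| * |a r| * |a t| * (N * (dl p q * dl r t * (1 / (p * r)) +
        dl p r * dl q t * (1 / (p * q)) +
        dl p t * dl q r * (1 / (p * q)) + dl p q * dl q r * dl r t * (1 / p))) :=
      mul_le_mul_of_nonneg_left (mul_le_mul_of_nonneg_left e2 (Nat.cast_nonneg _)) e4
    rw [mul_add]
    have e7 : |a p| * |a q| * |a r| * |a t| * 2 ^ (0 + 1 + 1 + 1 + 1) ≤ 16 := by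
      norm_num
      linarith
    refine (add_le_add e6 e7).trans (le_of_eq ?_)
    ring
  have h2 : ∑ p ∈ P, ∑ q ∈ P, ∑ r ∈ P, ∑ t ∈ P,
        a p * a q * a r * a t * ∑ n ∈ Icc 1 N, W [p, q, r, t] n ≤
      ∑ p ∈ P, ∑ q ∈ P, ∑ r ∈ P, ∑ t ∈ P,
      (N * (|a p| * |a q| * |a r| * |a t| * (dl p q * dl r t * (1 / (p * r)))) +
      N * (|a p| * |a q| * |a r| * |a t| * (dl p r * dl q t * (1 / (p * q)))) +
      N * (|a p| * |a q| * |a r| * |a t| * (dl p t * dl q r * (1 / (p * q)))) +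
      N * (|a p| * |a q| * |a r| * |a t| * (dl p q * dl q r * dl r t * (1 / p))) + 16) :=
    Finset.sum_le_sum fun p hp => Finset.sum_le_sum fun q hq => Finset.sum_le_sum fun r hr =>
      Finset.sum_le_sum fun t ht => h1 p hp q hq r hr t ht
  refine h2.trans ?_
  simp only [Finset.sum_add_distrib, ← Finset.mul_sum]
  rw [a1 P (fun p => |a p|), a2 P (fun p => |a p|), a3 P (fun p => |a p|), a4 P (fun p => |a p|)]
  simp only [sq_abs, Finset.sum_const, nsmul_eq_mul]
  have h3 : ∑ p ∈ P, |a p| ^ 4 / (p : ℝ) ≤ ∑ p ∈ P, a p ^ 2 / p := by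
    refine Finset.sum_le_sum fun p _ => ?_
    refine div_le_div_of_nonneg_right ?_ (Nat.cast_nonneg _)
    have i1 : |a p| ^ 2 ≤ 1 := pow_le_one₀ (abs_nonneg _) (ha p)
    calc |a p| ^ 4 = |a p| ^ 2 * |a p| ^ 2 := by ring
      _ ≤ |a p| ^ 2 * 1 := mul_le_mul_of_nonneg_left i1 (by positivity)
      _ = a p ^ 2 := by rw [mul_one, sq_abs]
  have h4 := mul_le_mul_of_nonneg_left h3 (Nat.cast_nonneg N : (0 : ℝ) ≤ N)
  nlinarith [h4]

/-- few large prime factors -/
lemma card_big (n N : ℕ) (hn : 1 ≤ n) (hN : n ≤ N) :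
    ((n.primeFactors).filter (fun p => N < p ^ 4)).card ≤ 3 := by
  set T := (n.primeFactors).filter (fun p => N < p ^ 4) with hT
  by_contra hc
  have hc' : 4 ≤ T.card := by omega
  have h1 : ∏ p ∈ T, p ∣ n :=
    (Finset.prod_dvd_prod_of_subset _ _ _ (Finset.filter_subset _ _)).trans
      (Nat.prod_primeFactors_dvd n)
  have h2 : ∏ p ∈ T, p ≤ N := (Nat.le_of_dvd hn h1).trans hN
  have h3 : (N + 1) ^ T.card ≤ ∏ p ∈ T, p ^ 4 := by
    rw [← Finset.prod_const]
    refine Finset.prod_le_prod' fun p hp => ?_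
    have := (Finset.mem_filter.mp hp).2
    omega
  rw [Finset.prod_pow] at h3
  have h4 : (∏ p ∈ T, p) ^ 4 ≤ N ^ 4 := Nat.pow_le_pow_left h2 4
  have h5 : (N + 1) ^ 4 ≤ (N + 1) ^ T.card := Nat.pow_le_pow_right (by omega) hc'
  have h6 : N ^ 4 < (N + 1) ^ 4 := Nat.pow_lt_pow_left (by omega) (by norm_num)
  omega

/-- the mass of the large primes -/
lemma mass : ∃ M : ℝ, 0 ≤ M ∧ ∀ N : ℕ, 1 ≤ N →
    ∑ p ∈ (Pr N).filter (fun p => N < p ^ 4), 1 / (p : ℝ) ≤ M := by
  obtain ⟨C, hC0, hC⟩ := Pool.Agent.Helper923.HMertens.mertens_ratio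
  have hl2 : (0 : ℝ) < Real.log 2 := Real.log_pos (by norm_num)
  refine ⟨15 + (Real.log 8 + C / Real.log 2), by
    have : (0 : ℝ) ≤ Real.log 8 := Real.log_nonneg (by norm_num)
    positivity, fun N hN => ?_⟩
  set z := Nat.sqrt (Nat.sqrt N) with hz
  have hz1 : N < (z + 1) ^ 4 := by
    have i1 : N.sqrt < (z + 1) ^ 2 := Nat.lt_succ_sqrt' (Nat.sqrt N)
    have i2 : N < (N.sqrt + 1) ^ 2 := Nat.lt_succ_sqrt' N
    calc N < (N.sqrt + 1) ^ 2 := i2
      _ ≤ ((z + 1) ^ 2) ^ 2 := Nat.pow_le_pow_left (by omega) 2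
      _ = (z + 1) ^ 4 := by ring
  have hz2 : z ^ 4 ≤ N := by
    have i1 : z ^ 2 ≤ N.sqrt := Nat.sqrt_le' _
    have i2 : N.sqrt ^ 2 ≤ N := Nat.sqrt_le' _
    calc z ^ 4 = (z ^ 2) ^ 2 := by ring
      _ ≤ N.sqrt ^ 2 := Nat.pow_le_pow_left i1 2
      _ ≤ N := i2
  have hsub : (Pr N).filter (fun p => N < p ^ 4) ⊆ (Finset.Ioc z N).filter Nat.Prime := by
    intro p hp
    rw [Finset.mem_filter, Finset.mem_filter, Finset.mem_Icc] at hp
    rw [Finset.mem_filter, Finset.mem_Ioc]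
    refine ⟨⟨?_, hp.1.1.2⟩, hp.1.2⟩
    by_contra h
    have : p ^ 4 ≤ z ^ 4 := Nat.pow_le_pow_left (by omega) 4
    omega
  have hlog8 : (0 : ℝ) ≤ Real.log 8 := Real.log_nonneg (by norm_num)
  have hCl : 0 ≤ C / Real.log 2 := by positivity
  rcases Nat.lt_or_ge z 2 with h2 | h2
  · -- `N < 16`
    have hN16 : N < 16 := by
      calc N < (z + 1) ^ 4 := hz1
        _ ≤ 2 ^ 4 := Nat.pow_le_pow_left (by omega) 4
        _ = 16 := by norm_num
    have h3 : ∑ p ∈ (Pr N).filter (fun p => N < p ^ 4), 1 / (p : ℝ) ≤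
        ∑ p ∈ (Pr N).filter (fun p => N < p ^ 4), 1 := by
      refine Finset.sum_le_sum fun p hp => ?_
      rw [Finset.mem_filter, Finset.mem_filter, Finset.mem_Icc] at hp
      have : (1 : ℝ) ≤ p := by exact_mod_cast hp.1.1.1
      rw [div_le_one (by linarith)]
      exact this
    have h4 : ((Pr N).filter (fun p => N < p ^ 4)).card ≤ N := by
      calc _ ≤ (Icc 1 N).card := Finset.card_le_card
            ((Finset.filter_subset _ _).trans (Finset.filter_subset _ _))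
        _ = N := by simp
    rw [Finset.sum_const, nsmul_eq_mul, mul_one] at h3
    have h5 : (((Pr N).filter (fun p => N < p ^ 4)).card : ℝ) ≤ 15 := by
      exact_mod_cast h4.trans (by omega)
    linarith
  · have hzN : z ≤ N := by
      calc z = z ^ 1 := (pow_one z).symm
        _ ≤ z ^ 4 := Nat.pow_le_pow_right (by omega) (by norm_num)
        _ ≤ N := hz2
    have h3 := hC z N h2 hzN
    have h4 : ∑ p ∈ (Pr N).filter (fun p => N < p ^ 4), 1 / (p : ℝ) ≤
        ∑ p ∈ (Finset.Ioc z N).filter Nat.Prime, (1 : ℝ) / p :=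
      Finset.sum_le_sum_of_subset_of_nonneg hsub fun p _ _ => by positivity
    have hz0 : (2 : ℝ) ≤ z := by exact_mod_cast h2
    have hlz : Real.log 2 ≤ Real.log z := Real.log_le_log (by norm_num) hz0
    have h5 : Real.log N ≤ 8 * Real.log z := by
      have i1 : (z + 1) ^ 4 ≤ z ^ 8 := by
        calc (z + 1) ^ 4 ≤ (z ^ 2) ^ 4 := Nat.pow_le_pow_left (by nlinarith) 4
          _ = z ^ 8 := by ring
      have i2 : (N : ℝ) ≤ (z : ℝ) ^ 8 := by exact_mod_cast hz1.le.trans i1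
      have i3 := Real.log_le_log (by exact_mod_cast hN : (0 : ℝ) < N) i2
      rw [Real.log_pow] at i3
      exact_mod_cast i3
    have hlz0 : 0 < Real.log z := lt_of_lt_of_le hl2 hlz
    have hlN : Real.log z ≤ Real.log N := Real.log_le_log (by linarith) (by exact_mod_cast hzN)
    have h6 : Real.log (Real.log N / Real.log z) ≤ Real.log 8 := by
      refine Real.log_le_log (by
        have : 0 < Real.log N := lt_of_lt_of_le hlz0 hlN
        positivity) ?_
      rw [div_le_iff₀ hlz0]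
      exact h5
    have h7 : C / Real.log z ≤ C / Real.log 2 := div_le_div_of_nonneg_left hC0 hl2 hlz
    have h8 := (abs_le.mp h3).2
    linarith

lemma sa_sub (a : ℕ → ℝ) (N n : ℕ) (hn : n ∈ Icc 1 N) :
    sa a n - mu a N = ∑ p ∈ Pr N, a p * X p n := by
  rw [Finset.mem_Icc] at hn
  unfold sa mu X
  have h1 : n.primeFactors = (Pr N).filter (fun p => p ∣ n) := by
    ext p
    rw [Nat.mem_primeFactors, Finset.mem_filter, Finset.mem_filter, Finset.mem_Icc]
    constructor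
    · rintro ⟨h1, h2, h3⟩
      exact ⟨⟨⟨h1.one_le, (Nat.le_of_dvd hn.1 h2).trans hn.2⟩, h1⟩, h2⟩
    · rintro ⟨⟨_, h1⟩, h2⟩
      exact ⟨h1, h2, by omega⟩
  rw [h1, Finset.sum_filter, ← Finset.sum_sub_distrib]
  refine Finset.sum_congr rfl fun p _ => ?_
  split_ifs <;> ring

theorem main : S_TK4 := by
  obtain ⟨M, hM0, hM⟩ := mass
  refine ⟨128 + 8 * (3 + M) ^ 4, by positivity, fun N a hN ha => ?_⟩
  have hN0 : (0 : ℝ) < N := by exact_mod_cast hN
  set V := ∑ p ∈ Pr N, (a p) ^ 2 / (p : ℝ) with hV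
  have hV0 : 0 ≤ V := Finset.sum_nonneg fun p _ => by positivity
  set P := (Pr N).filter (fun p => ¬ N < p ^ 4) with hP
  set Q := (Pr N).filter (fun p => N < p ^ 4) with hQ
  set V1 := ∑ p ∈ P, (a p) ^ 2 / (p : ℝ) with hV1
  have hV10 : 0 ≤ V1 := Finset.sum_nonneg fun p _ => by positivity
  have hV1V : V1 ≤ V :=
    Finset.sum_le_sum_of_subset_of_nonneg (Finset.filter_subset _ _) fun p _ _ => by positivity
  have hPp : ∀ p ∈ P, Nat.Prime p := fun p hp =>
    (Finset.mem_filter.mp (Finset.mem_filter.mp hp).1).2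
  have hcard : ((P.card : ℕ) : ℝ) ^ 4 ≤ N := by
    set z := Nat.sqrt (Nat.sqrt N) with hz
    have hz2 : z ^ 4 ≤ N := by
      have i1 : z ^ 2 ≤ N.sqrt := Nat.sqrt_le' _
      have i2 : N.sqrt ^ 2 ≤ N := Nat.sqrt_le' _
      calc z ^ 4 = (z ^ 2) ^ 2 := by ring
        _ ≤ N.sqrt ^ 2 := Nat.pow_le_pow_left i1 2
        _ ≤ N := i2
    have hsub : P ⊆ Icc 1 z := by
      intro p hp
      rw [hP, Finset.mem_filter, Finset.mem_filter, Finset.mem_Icc] at hp
      rw [Finset.mem_Icc]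
      refine ⟨hp.1.1.1, ?_⟩
      rw [hz, Nat.le_sqrt', Nat.le_sqrt', ← pow_mul]
      exact not_lt.mp hp.2
    have h1 : P.card ≤ z := by
      calc P.card ≤ (Icc 1 z).card := Finset.card_le_card hsub
        _ = z := by simp
    have h2 : P.card ^ 4 ≤ N := (Nat.pow_le_pow_left h1 4).trans hz2
    exact_mod_cast h2
  have hlarge : ∀ n ∈ Icc 1 N, |∑ p ∈ Q, a p * X p n| ≤ 3 + M := by
    intro n hn
    rw [Finset.mem_Icc] at hn
    have h1 : |∑ p ∈ Q, a p * X p n| ≤ ∑ p ∈ Q, ((if p ∣ n then 1 else 0) + 1 / (p : ℝ)) := by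
      refine (Finset.abs_sum_le_sum_abs _ _).trans (Finset.sum_le_sum fun p _ => ?_)
      rw [abs_mul]
      have h2 : |X p n| ≤ (if p ∣ n then 1 else 0) + 1 / (p : ℝ) := by
        unfold X
        refine (abs_sub _ _).trans ?_
        rw [abs_of_nonneg (by positivity : (0 : ℝ) ≤ 1 / (p : ℝ))]
        split_ifs <;> simp
      calc |a p| * |X p n| ≤ 1 * |X p n| := mul_le_mul_of_nonneg_right (ha p) (abs_nonneg _)
        _ ≤ _ := by rw [one_mul]; exact h2
    refine h1.trans ?_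
    rw [Finset.sum_add_distrib]
    have h3 : ∑ p ∈ Q, (if p ∣ n then (1 : ℝ) else 0) ≤ 3 := by
      rw [← Finset.sum_filter, Finset.sum_const, nsmul_eq_mul, mul_one]
      have h4 : Q.filter (fun p => p ∣ n) ⊆ (n.primeFactors).filter (fun p => N < p ^ 4) := by
        intro p hp
        rw [Finset.mem_filter, hQ, Finset.mem_filter, Finset.mem_filter] at hp
        rw [Finset.mem_filter, Nat.mem_primeFactors]
        exact ⟨⟨hp.1.1.2, hp.2, by omega⟩, hp.1.2⟩
      have h5 := (Finset.card_le_card h4).trans (card_big n N hn.1 hn.2)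
      exact_mod_cast h5
    exact add_le_add h3 (hM N hN)
  have hsplit : ∀ n ∈ Icc 1 N, (sa a n - mu a N) ^ 4 ≤
      8 * (∑ p ∈ P, a p * X p n) ^ 4 + 8 * (3 + M) ^ 4 := by
    intro n hn
    rw [sa_sub a N n hn]
    have h1 : ∑ p ∈ Pr N, a p * X p n = ∑ p ∈ Q, a p * X p n + ∑ p ∈ P, a p * X p n :=
      (Finset.sum_filter_add_sum_filter_not (Pr N) (fun p => N < p ^ 4) _).symm
    rw [h1]
    have h2 := hlarge n hn
    generalize ∑ p ∈ Q, a p * X p n = x at h2
    generalize ∑ p ∈ P, a p * X p n = y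
    have h3 : x ^ 4 ≤ (3 + M) ^ 4 := by
      calc x ^ 4 = |x| ^ 4 := by
            rw [show |x| ^ 4 = (|x| ^ 2) ^ 2 by ring, sq_abs]; ring
        _ ≤ _ := pow_le_pow_left₀ (abs_nonneg _) h2 4
    have h4 : (x + y) ^ 4 ≤ 8 * y ^ 4 + 8 * x ^ 4 := by
      nlinarith [sq_nonneg (x - y), sq_nonneg (x + y), sq_nonneg (x ^ 2 - y ^ 2),
        mul_nonneg (sq_nonneg (x - y)) (sq_nonneg (x + y)),
        mul_nonneg (sq_nonneg (x - y)) (sq_nonneg (x - y)), sq_nonneg (x ^ 2 + y ^ 2),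
        mul_nonneg (sq_nonneg (x - y)) (add_nonneg (sq_nonneg x) (sq_nonneg y))]
    linarith
  have hs := small P hPp N a ha
  have htot : ∑ n ∈ Icc 1 N, (sa a n - mu a N) ^ 4 ≤
      N * (8 * (3 * V1 ^ 2 + V1 + 16) + 8 * (3 + M) ^ 4) := by
    refine (Finset.sum_le_sum hsplit).trans ?_
    rw [Finset.sum_add_distrib, ← Finset.mul_sum, Finset.sum_const, nsmul_eq_mul]
    have h1 : ((Icc 1 N).card : ℝ) = N := by simp
    rw [h1]
    nlinarith [hs, hcard]
  unfold Ex
  rw [div_le_iff₀ hN0]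
  refine htot.trans ?_
  have h2 : 8 * (3 * V1 ^ 2 + V1 + 16) + 8 * (3 + M) ^ 4 ≤
      (128 + 8 * (3 + M) ^ 4) * (1 + V) ^ 2 := by
    have i1 : 1 ≤ (1 + V) ^ 2 := one_le_pow₀ (by linarith)
    have i2 : 8 * (3 * V1 ^ 2 + V1 + 16) ≤ 128 * (1 + V) ^ 2 := by nlinarith
    have i3 : 8 * (3 + M) ^ 4 ≤ 8 * (3 + M) ^ 4 * (1 + V) ^ 2 :=
      le_mul_of_one_le_right (by positivity) i1
    linarith
  calc N * (8 * (3 * V1 ^ 2 + V1 + 16) + 8 * (3 + M) ^ 4) ≤
        N * ((128 + 8 * (3 + M) ^ 4) * (1 + V) ^ 2) := mul_le_mul_of_nonneg_left h2 hN0.le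
    _ = _ := by ring

end Pool.Agent.N826.EM.TK4_

namespace Pool.Agent.N826.EM

/-- the fourth moment of strongly additive functions -/
theorem t_TK4 : S_TK4 := TK4_.main

end Pool.Agent.N826.EM
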